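import Pool.Agent.T2h80.L5.Stm

set_option autoImplicit false

/-! Common lemmas on the ideals of an imaginary quadratic ring of integers. -/

namespace Pool.Agent.T2h80.L5

open Finset NumberField Pool.Agent.T2h80.F5

namespace ALx

variable {K : Type} [Field K] [NumberField K] {d : ℕ} {ω : 𝓞 K} {σ : 𝓞 K →+* 𝓞 K}

theorem absNorm_nat (h : IsQ K d ω σ) (n : ℕ) :
    Ideal.absNorm (Ideal.span {(n : 𝓞 K)}) = n ^ 2 := by
  rw [Ideal.absNorm_span_singleton]
  have h6 := h.2.2.2.2.2.1 (n : ℤ) 0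
  have e : ((n : ℤ) : 𝓞 K) + ((0 : ℤ) : 𝓞 K) * ω = (n : 𝓞 K) := by push_cast; ring
  rw [e] at h6
  rw [h6]
  have : ((n : ℤ) ^ 2 + th d * n * 0 + n0 d * 0 ^ 2) = ((n ^ 2 : ℕ) : ℤ) := by push_cast; ring
  rw [this, Int.natAbs_natCast]

theorem span_nat_inj (h : IsQ K d ω σ) {n m : ℕ}
    (e : Ideal.span {(n : 𝓞 K)} = Ideal.span {(m : 𝓞 K)}) : n = m := by
  have h1 := congrArg Ideal.absNorm e
  rw [absNorm_nat h, absNorm_nat h] at h1
  exact Nat.pow_left_injective (n := 2) (by norm_num) h1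

theorem natCast_inj (h : IsQ K d ω σ) {n m : ℤ} (e : (n : 𝓞 K) = (m : 𝓞 K)) : n = m := by
  have h4 := h.2.2.2.1 (n - m) 0 (by push_cast; rw [e]; ring)
  linarith [h4.1]

/-- the coordinates are unique -/
theorem indep (h : IsQ K d ω σ) {a b a' b' : ℤ} (e : el ω a b = el ω a' b') :
    a = a' ∧ b = b' := by
  have h5 := h.2.2.2.1 (a - a') (b - b') (by unfold el at e; push_cast; linear_combination e)
  exact ⟨by linarith [h5.1], by linarith [h5.2]⟩

theorem exists_el (h : IsQ K d ω σ) (x : 𝓞 K) : ∃ a b : ℤ, x = el ω a b := h.2.2.1 x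

theorem th_one (hd : d % 8 = 7) : th d = 1 := by
  unfold th
  have : d % 2 = 1 := by omega
  rw [this]; rfl

theorem norm_el (h : IsQ K d ω σ) (a b : ℤ) :
    Algebra.norm ℤ (el ω a b) = a ^ 2 + th d * a * b + n0 d * b ^ 2 := h.2.2.2.2.2.1 a b

theorem mul_sig (h : IsQ K d ω σ) (x : 𝓞 K) : x * σ x = ((Algebra.norm ℤ x : ℤ) : 𝓞 K) :=
  h.2.2.2.2.2.2.1 x

theorem sig_sig (h : IsQ K d ω σ) (x : 𝓞 K) : σ (σ x) = x := h.2.2.2.2.1 x

theorem mul_map (h : IsQ K d ω σ) (I : Ideal (𝓞 K)) :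
    I * I.map σ = Ideal.span {((Ideal.absNorm I : ℕ) : 𝓞 K)} := h.2.2.2.2.2.2.2.1 I

theorem absNorm_map (h : IsQ K d ω σ) (I : Ideal (𝓞 K)) :
    Ideal.absNorm (I.map σ) = Ideal.absNorm I := h.2.2.2.2.2.2.2.2 I

theorem map_map (h : IsQ K d ω σ) (I : Ideal (𝓞 K)) : (I.map σ).map σ = I := by
  rw [Ideal.map_map]
  have : σ.comp σ = RingHom.id _ := by
    ext x
    simp [sig_sig h x]
  rw [this, Ideal.map_id]

omit [NumberField K] in
theorem map_pair (x : 𝓞 K) (n : ℕ) :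
    (Ideal.span {x, (n : 𝓞 K)}).map σ = Ideal.span {σ x, (n : 𝓞 K)} := by
  rw [Ideal.map_span, Set.image_pair, map_natCast]

/-- conjugation of the coordinates -/
theorem sig_el (h : IsQ K d ω σ) (x y : ℤ) : σ (el ω x y) = el ω (x + th d * y) (-y) := by
  unfold el
  rw [map_add, map_mul, map_intCast, map_intCast, h.2.1]
  push_cast
  ring

/-- **SPT**, any element -/
theorem spt (h : IsQ K d ω σ) (α : 𝓞 K) (n₁ n₂ : ℕ) (hco : n₁.Coprime n₂)
    (hn : Algebra.norm ℤ α = ((n₁ * n₂ : ℕ) : ℤ)) :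
    Ideal.span {α} = Ideal.span {α, (n₁ : 𝓞 K)} * Ideal.span {α, (n₂ : 𝓞 K)} ∧
    Ideal.absNorm (Ideal.span {α, (n₁ : 𝓞 K)}) = n₁ := by
  have hα : α * σ α = (n₁ : 𝓞 K) * n₂ := by
    rw [mul_sig h, hn]; push_cast; ring
  obtain ⟨u, v, huv⟩ := (Nat.isCoprime_iff_coprime.2 hco : IsCoprime (n₁ : ℤ) (n₂ : ℤ))
  have huv' : (u : 𝓞 K) * n₁ + v * n₂ = 1 := by
    have := congrArg (fun z : ℤ => (z : 𝓞 K)) huv
    push_cast at this
    exact this
  constructor
  · rw [Ideal.span_pair_mul_span_pair]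
    apply le_antisymm
    · rw [Ideal.span_singleton_le_iff_mem]
      have e : α = (v : 𝓞 K) * (α * n₂) + (u : 𝓞 K) * (n₁ * α) := by
        linear_combination (-α) * huv'
      rw [e]
      refine Ideal.add_mem _ (Ideal.mul_mem_left _ _ (Ideal.subset_span ?_))
        (Ideal.mul_mem_left _ _ (Ideal.subset_span ?_))
      · simp [← e]
      · simp [← e]
    · rw [Ideal.span_le]
      rintro z hz
      simp only [Set.mem_insert_iff, Set.mem_singleton_iff] at hz
      rw [SetLike.mem_coe, Ideal.mem_span_singleton]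
      rcases hz with rfl | rfl | rfl | rfl
      · exact dvd_mul_right _ _
      · exact dvd_mul_right _ _
      · exact dvd_mul_left _ _
      · rw [← hα]; exact dvd_mul_right _ _
  · have h1 : Ideal.span {α, (n₁ : 𝓞 K)} * (Ideal.span {α, (n₁ : 𝓞 K)}).map σ =
        Ideal.span {(n₁ : 𝓞 K)} := by
      rw [map_pair, Ideal.span_pair_mul_span_pair]
      apply le_antisymm
      · rw [Ideal.span_le]
        rintro z hz
        simp only [Set.mem_insert_iff, Set.mem_singleton_iff] at hz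
        rw [SetLike.mem_coe, Ideal.mem_span_singleton]
        rcases hz with rfl | rfl | rfl | rfl
        · rw [hα]; exact dvd_mul_right _ _
        · exact dvd_mul_left _ _
        · exact dvd_mul_right _ _
        · exact dvd_mul_right _ _
      · rw [Ideal.span_singleton_le_iff_mem]
        have e : (n₁ : 𝓞 K) = (u : 𝓞 K) * (n₁ * n₁) + (v : 𝓞 K) * (α * σ α) := by
          rw [hα]
          linear_combination (-(n₁ : 𝓞 K)) * huv'
        rw [e]
        refine Ideal.add_mem _ (Ideal.mul_mem_left _ _ (Ideal.subset_span ?_))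
          (Ideal.mul_mem_left _ _ (Ideal.subset_span ?_))
        · rw [← e]; simp
        · rw [← e]; simp
    rw [mul_map h] at h1
    exact span_nat_inj h h1


/-- divisibility by a rational integer -/
theorem dvd_el (h : IsQ K d ω σ) {q x y : ℤ} : (q : 𝓞 K) ∣ el ω x y ↔ q ∣ x ∧ q ∣ y := by
  constructor
  · rintro ⟨c, hc⟩
    obtain ⟨a, b, rfl⟩ := exists_el h c
    have e : el ω x y = el ω (q * a) (q * b) := by
      rw [hc]
      unfold el
      push_cast
      ring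
    obtain ⟨h1, h2⟩ := indep h e
    exact ⟨⟨a, h1⟩, ⟨b, h2⟩⟩
  · rintro ⟨⟨a, rfl⟩, ⟨b, rfl⟩⟩
    refine ⟨el ω a b, ?_⟩
    unfold el
    push_cast
    ring

theorem n0_eq (hd : d % 8 = 7) : 4 * n0 d = d + 1 := by
  unfold n0
  have : 4 * ((d + d % 2) / 4) = d + 1 := by omega
  exact_mod_cast this

end ALx

end Pool.Agent.T2h80.L5
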