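import Pool.Agent.T2h80.L5.Stm

/-! Task ANG. -/

set_option autoImplicit false

namespace Pool.Agent.T2h80.L5

open Pool.Agent.T2h80.F5

namespace ANGaux

/-- the point of the plane -/
noncomputable def ze (d : ℕ) (z : ℤ × ℤ) : ℂ := ⟨z.1 + z.2 / 2, z.2 * Real.sqrt d / 2⟩

/-- the argument modulo `π`, in `(0, π]` -/
noncomputable def ph (d : ℕ) (z : ℤ × ℤ) : ℝ :=
  if 0 < (ze d z).arg then (ze d z).arg else (ze d z).arg + Real.pi

theorem ph_pos (d : ℕ) (z : ℤ × ℤ) : 0 < ph d z := by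
  unfold ph
  split_ifs with h
  · exact h
  · have := Complex.neg_pi_lt_arg (ze d z)
    linarith

theorem ph_le (d : ℕ) (z : ℤ × ℤ) : ph d z ≤ Real.pi := by
  unfold ph
  split_ifs with h
  · exact Complex.arg_le_pi _
  · linarith

theorem abs_sin_ph (d : ℕ) (z z' : ℤ × ℤ) :
    |Real.sin (ph d z' - ph d z)| = |Real.sin ((ze d z').arg - (ze d z).arg)| := by
  unfold ph
  split_ifs with h h' h'
  · rfl
  · rw [show (ze d z').arg - ((ze d z).arg + Real.pi) = ((ze d z').arg - (ze d z).arg) - Real.pi by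
      ring, Real.sin_sub_pi, abs_neg]
  · rw [show (ze d z').arg + Real.pi - (ze d z).arg = ((ze d z').arg - (ze d z).arg) + Real.pi by
      ring, Real.sin_add_pi, abs_neg]
  · congr 2
    ring

theorem norm_sq (d : ℕ) (hd : d % 8 = 7) (z : ℤ × ℤ) :
    ‖ze d z‖ ^ 2 = ((z.1 ^ 2 + z.1 * z.2 + n0 d * z.2 ^ 2 : ℤ) : ℝ) := by
  have h1 : ((n0 d : ℤ) : ℝ) = ((d : ℝ) + 1) / 4 := by
    have h2 : 4 * n0 d = (d : ℤ) + 1 := by
      unfold n0
      omega
    have h3 : (4 : ℝ) * ((n0 d : ℤ) : ℝ) = (d : ℝ) + 1 := by exact_mod_cast h2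
    linarith
  have h4 : Real.sqrt d ^ 2 = d := Real.sq_sqrt (Nat.cast_nonneg d)
  rw [← Complex.normSq_eq_norm_sq, Complex.normSq_apply]
  unfold ze
  push_cast
  rw [h1]
  linear_combination (z.2 : ℝ) ^ 2 / 4 * h4

theorem cross (d : ℕ) (z z' : ℤ × ℤ) :
    Real.sqrt d / 2 * ((z.1 * z'.2 - z'.1 * z.2 : ℤ) : ℝ) =
      ‖ze d z‖ * ‖ze d z'‖ * Real.sin ((ze d z').arg - (ze d z).arg) := by
  rw [Real.sin_sub]
  have h1 := Complex.norm_mul_cos_arg (ze d z)
  have h2 := Complex.norm_mul_sin_arg (ze d z)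
  have h3 := Complex.norm_mul_cos_arg (ze d z')
  have h4 := Complex.norm_mul_sin_arg (ze d z')
  have e : ‖ze d z‖ * ‖ze d z'‖ * (Real.sin (ze d z').arg * Real.cos (ze d z).arg -
      Real.cos (ze d z').arg * Real.sin (ze d z).arg) =
      (‖ze d z‖ * Real.cos (ze d z).arg) * (‖ze d z'‖ * Real.sin (ze d z').arg) -
      (‖ze d z'‖ * Real.cos (ze d z').arg) * (‖ze d z‖ * Real.sin (ze d z).arg) := by ring
  rw [e, h1, h2, h3, h4]
  unfold ze
  push_cast
  ring

theorem abs_sin_le (x : ℝ) : |Real.sin x| ≤ |x| := Real.abs_sin_le_abs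

end ANGaux

open ANGaux

theorem t_ANG : S_ANG := by
  intro d b R hd hb hR T hT hdet
  have hd0 : (0 : ℝ) < d := by
    have : 0 < d := by omega
    exact_mod_cast this
  have hsd : 0 < Real.sqrt d := Real.sqrt_pos.2 hd0
  have hb0 : (0 : ℝ) < b := by exact_mod_cast hb
  have hc : 0 < b * Real.sqrt d / (2 * R) := by positivity
  have hn : ∀ z ∈ T, ‖ze d z‖ ≤ Real.sqrt R := by
    intro z hz
    have h1 := hT z hz
    rw [← norm_sq d hd z] at h1
    exact Real.le_sqrt_of_sq_le h1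
  have hsep : ∀ z ∈ T, ∀ z' ∈ T, z ≠ z' →
      b * Real.sqrt d / (2 * R) ≤ |ph d z' - ph d z| := by
    intro z hz z' hz' hne
    obtain ⟨h0, h1⟩ := hdet z hz z' hz' hne
    have h2 : (b : ℝ) ≤ |((z.1 * z'.2 - z'.1 * z.2 : ℤ) : ℝ)| := by
      have h3 := Int.le_of_dvd (abs_pos.2 h0) ((dvd_abs _ _).2 h1)
      exact_mod_cast h3
    have h3 : Real.sqrt d / 2 * b ≤ R * |ph d z' - ph d z| := by
      calc Real.sqrt d / 2 * b ≤ Real.sqrt d / 2 * |((z.1 * z'.2 - z'.1 * z.2 : ℤ) : ℝ)| :=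
            mul_le_mul_of_nonneg_left h2 (by positivity)
        _ = |‖ze d z‖ * ‖ze d z'‖ * Real.sin ((ze d z').arg - (ze d z).arg)| := by
            rw [← cross, abs_mul, abs_of_nonneg (by positivity : 0 ≤ Real.sqrt d / 2)]
        _ = ‖ze d z‖ * ‖ze d z'‖ * |Real.sin (ph d z' - ph d z)| := by
            rw [abs_mul, abs_of_nonneg (by positivity), abs_sin_ph]
        _ ≤ (Real.sqrt R * Real.sqrt R) * |ph d z' - ph d z| := by
            refine mul_le_mul (mul_le_mul (hn z hz) (hn z' hz') (norm_nonneg _)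
              (Real.sqrt_nonneg _)) (abs_sin_le _) (abs_nonneg _) (by positivity)
        _ = R * |ph d z' - ph d z| := by rw [Real.mul_self_sqrt hR.le]
    rw [div_le_iff₀ (by positivity)]
    linarith
  have hinj : Set.InjOn (fun z => ⌊ph d z / (b * Real.sqrt d / (2 * R))⌋₊) (T : Set (ℤ × ℤ)) := by
    intro z hz z' hz' he
    by_contra hne
    have h1 := hsep z hz z' hz' hne
    simp only at he
    have a1 := Nat.floor_le (div_nonneg (ph_pos d z).le hc.le)
    have a2 := Nat.lt_floor_add_one (ph d z / (b * Real.sqrt d / (2 * R)))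
    have a3 := Nat.floor_le (div_nonneg (ph_pos d z').le hc.le)
    have a4 := Nat.lt_floor_add_one (ph d z' / (b * Real.sqrt d / (2 * R)))
    rw [he] at a1 a2
    have h2 : |ph d z' / (b * Real.sqrt d / (2 * R)) - ph d z / (b * Real.sqrt d / (2 * R))| < 1 := by
      rw [abs_lt]
      constructor <;> linarith
    rw [← sub_div, abs_div, abs_of_pos hc, div_lt_one hc] at h2
    linarith
  have hcard : T.card ≤ ⌊Real.pi / (b * Real.sqrt d / (2 * R))⌋₊ + 1 := by
    rw [← Finset.card_image_of_injOn hinj]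
    calc _ ≤ (Finset.range (⌊Real.pi / (b * Real.sqrt d / (2 * R))⌋₊ + 1)).card := by
          refine Finset.card_le_card fun k hk => ?_
          obtain ⟨z, hz, rfl⟩ := Finset.mem_image.1 hk
          rw [Finset.mem_range, Nat.lt_add_one_iff]
          exact Nat.floor_le_floor (div_le_div_of_nonneg_right (ph_le d z) hc.le)
      _ = _ := Finset.card_range _
  have h1 : (T.card : ℝ) ≤ Real.pi / (b * Real.sqrt d / (2 * R)) + 1 := by
    have h2 : (T.card : ℝ) ≤ ((⌊Real.pi / (b * Real.sqrt d / (2 * R))⌋₊ + 1 : ℕ) : ℝ) := by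
      exact_mod_cast hcard
    refine h2.trans ?_
    push_cast
    have := Nat.floor_le (div_nonneg Real.pi_pos.le hc.le)
    linarith
  refine h1.trans ?_
  have h2 : Real.pi / (b * Real.sqrt d / (2 * R)) = 2 * Real.pi * R / (b * Real.sqrt d) := by
    field_simp
  rw [h2, add_comm]
  have h3 : 2 * Real.pi * R / (b * Real.sqrt d) ≤ 7 * R / (b * Real.sqrt d) := by
    refine div_le_div_of_nonneg_right ?_ (by positivity)
    have := Real.pi_lt_d2
    nlinarith
  linarith

end Pool.Agent.T2h80.L5
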