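import Pool.Agent.T2h80.L5.Stm

set_option autoImplicit false

namespace Pool.Agent.T2h80.L5

open Finset Pool.Agent.T2h80.F5

theorem avp_sqrt_add {a b : ℝ} (ha : 0 ≤ a) (hb : 0 ≤ b) :
    Real.sqrt (a + b) ≤ Real.sqrt a + Real.sqrt b := by
  rw [Real.sqrt_le_iff]
  refine ⟨by positivity, ?_⟩
  nlinarith [Real.sq_sqrt ha, Real.sq_sqrt hb, mul_nonneg (Real.sqrt_nonneg a) (Real.sqrt_nonneg b)]

open Classical in
/-- the part with `r ≠ 0` of the count `KQ` -/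
noncomputable def avpN (p Z e v w : ℕ) : ℕ :=
  ((BX Z Z Z Z).filter (fun x => x.2.2.2 ≠ 0 ∧ (p : ℤ) ∣ x.2.2.2 ∧
    ((e : ℤ) ∣ G1 x.1 x.2.1 x.2.2.1 x.2.2.2 v w ∧ (e : ℤ) ∣ G2 x.1 x.2.1 x.2.2.1 x.2.2.2 v w ∧
    ¬ (G1 x.1 x.2.1 x.2.2.1 x.2.2.2 v w = 0 ∧ G2 x.1 x.2.1 x.2.2.1 x.2.2.2 v w = 0)))).card

theorem avp_split (p Z e v w : ℕ) : KQ p Z e v w ≤ avpN p Z e v w + KK Z Z Z 0 e v w := by
  classical
  unfold KQ avpN KK
  rw [← Finset.card_union_of_disjoint]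
  · refine Finset.card_le_card ?_
    intro x hx
    simp only [mem_filter, mem_union, BX, mem_product, mem_Icc] at hx ⊢
    obtain ⟨hB, hp, hc⟩ := hx
    by_cases hr : x.2.2.2 = 0
    · right
      refine ⟨⟨hB.1, hB.2.1, hB.2.2.1, ?_⟩, hc⟩
      rw [hr]; simp
    · left
      exact ⟨hB, hr, hp, hc⟩
  · rw [Finset.disjoint_left]
    intro x hx hx'
    simp only [mem_filter, BX, mem_product, mem_Icc] at hx hx'
    have h1 := hx.2.1
    have h2 := hx'.1.2.2.2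
    apply h1
    have := h2.1
    have := h2.2
    push_cast at *
    omega

theorem avp_sum (C' ε : ℝ) (hε : 0 < ε) (hC' : 0 < C')
    (hD : ∀ n : ℕ, 1 ≤ n → (n.divisors.card : ℝ) ≤ C' * (n : ℝ) ^ ε)
    (P Z Y e v w : ℕ) (hP : 1 ≤ P) (hZY : Z ≤ Y) :
    ∑ p ∈ Ico P (2 * P), (avpN p Z e v w : ℝ) ≤ C' * (Y : ℝ) ^ ε * (KK Z Z Z Z e v w : ℝ) := by
  classical
  unfold avpN KK
  simp only [Finset.card_filter, Nat.cast_sum, Nat.cast_ite, Nat.cast_one, Nat.cast_zero]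
  rw [Finset.sum_comm, Finset.mul_sum]
  refine Finset.sum_le_sum ?_
  intro x hx
  by_cases hc : ((e : ℤ) ∣ G1 x.1 x.2.1 x.2.2.1 x.2.2.2 v w ∧ (e : ℤ) ∣ G2 x.1 x.2.1 x.2.2.1 x.2.2.2 v w ∧
    ¬ (G1 x.1 x.2.1 x.2.2.1 x.2.2.2 v w = 0 ∧ G2 x.1 x.2.1 x.2.2.1 x.2.2.2 v w = 0))
  · rw [if_pos hc, mul_one]
    by_cases hr : x.2.2.2 = 0
    · have : ∑ p ∈ Ico P (2 * P), (if x.2.2.2 ≠ 0 ∧ (p : ℤ) ∣ x.2.2.2 ∧
        ((e : ℤ) ∣ G1 x.1 x.2.1 x.2.2.1 x.2.2.2 v w ∧ (e : ℤ) ∣ G2 x.1 x.2.1 x.2.2.1 x.2.2.2 v w ∧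
        ¬ (G1 x.1 x.2.1 x.2.2.1 x.2.2.2 v w = 0 ∧ G2 x.1 x.2.1 x.2.2.1 x.2.2.2 v w = 0)) then (1 : ℝ) else 0) = 0 := by
        refine Finset.sum_eq_zero ?_
        intro p _
        rw [if_neg]
        intro h
        exact h.1 hr
      rw [this]
      positivity
    · have h1 : 1 ≤ x.2.2.2.natAbs := Int.natAbs_pos.2 hr
      have h2 : x.2.2.2.natAbs ≤ Y := by
        simp only [BX, mem_product, mem_Icc] at hx
        omega
      have h3 : ∑ p ∈ Ico P (2 * P), (if x.2.2.2 ≠ 0 ∧ (p : ℤ) ∣ x.2.2.2 ∧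
        ((e : ℤ) ∣ G1 x.1 x.2.1 x.2.2.1 x.2.2.2 v w ∧ (e : ℤ) ∣ G2 x.1 x.2.1 x.2.2.1 x.2.2.2 v w ∧
        ¬ (G1 x.1 x.2.1 x.2.2.1 x.2.2.2 v w = 0 ∧ G2 x.1 x.2.1 x.2.2.1 x.2.2.2 v w = 0)) then (1 : ℝ) else 0) ≤
          (x.2.2.2.natAbs.divisors.card : ℝ) := by
        rw [Finset.sum_boole]
        refine Nat.cast_le.2 (Finset.card_le_card ?_)
        intro p hp
        simp only [mem_filter] at hp
        rw [Nat.mem_divisors]
        exact ⟨Int.natCast_dvd.1 hp.2.2.1, by omega⟩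
      refine h3.trans ((hD _ h1).trans ?_)
      refine mul_le_mul_of_nonneg_left ?_ hC'.le
      exact Real.rpow_le_rpow (by positivity) (by exact_mod_cast h2) hε.le
  · rw [if_neg hc, mul_zero]
    refine le_of_eq (Finset.sum_eq_zero ?_)
    intro p _
    rw [if_neg]
    intro h
    exact hc h.2.2

theorem t_AVP (hAVG : F5.S_AVG) (hDIV : F5.S_DIV) : S_AVP := by
  intro ε hε
  obtain ⟨C, hC, hA⟩ := hAVG (ε / 2) (by positivity)
  obtain ⟨C', hC', hD⟩ := hDIV ε hε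
  refine ⟨C * (5 * Real.sqrt C' + 4), by positivity, ?_⟩
  intro P Q H V Z Y hP hQ hH hV hZ hPY hQY hHY hVY hZY
  have hY1 : 1 ≤ Y := hP.trans hPY
  have hY1R : (1 : ℝ) ≤ Y := by exact_mod_cast hY1
  set T : ℕ → (ℕ → ℕ → ℕ → ℝ) → ℝ := fun _ f => ∑ h ∈ Icc 1 H, ∑ v ∈ Ico V (2 * V),
    ∑ w ∈ (Ico V (2 * V)).filter (fun w => Nat.Coprime v w), f h v w with hT
  -- the two uses of AVG
  have hA1 : ∀ R : ℕ, R ≤ Y → ∑ h ∈ Icc 1 H, ∑ v ∈ Ico V (2 * V),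
      ∑ w ∈ (Ico V (2 * V)).filter (fun w => Nat.Coprime v w),
        Real.sqrt (KK Z Z Z R (h * Q ^ 2) v w) ≤
      C * (Y : ℝ) ^ (ε / 2) * (Real.sqrt ((V : ℝ) * V) *
      Real.sqrt (((V : ℝ) * V + Q ^ 2 * H) * ((1 + Z) * (1 + Z) * (1 + Z) * (1 + R))) +
        Real.sqrt ((Q : ℝ) ^ 2 * H) * (V * V) * (1 + Z + Z + Z + R)) := by
    intro R hR
    have h1 := hA (Q ^ 2) H V V 1 Z Z Z R Y (Nat.one_le_pow _ _ hQ) hH hV hV le_rfl hQY hHY hVY hVY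
      hY1 hZY hZY hZY hR
    have h2 : ∑ h ∈ Icc 1 H, ∑ v ∈ Ico V (2 * V),
      ∑ w ∈ (Ico V (2 * V)).filter (fun w => Nat.Coprime v w),
        Real.sqrt (KK Z Z Z R (h * Q ^ 2) v w) ≤ ∑ g ∈ Ico (Q ^ 2) (2 * Q ^ 2), ∑ h ∈ Icc 1 H, ∑ v ∈ Ico V (2 * V),
        ∑ w ∈ (Ico V (2 * V)).filter (fun w => Nat.Coprime v w),
          Real.sqrt (KK Z Z Z R (h * g * 1) v w) := by
      have h3 := Finset.single_le_sum (s := Ico (Q ^ 2) (2 * Q ^ 2)) (f := fun g => ∑ h ∈ Icc 1 H, ∑ v ∈ Ico V (2 * V),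
        ∑ w ∈ (Ico V (2 * V)).filter (fun w => Nat.Coprime v w),
          Real.sqrt (KK Z Z Z R (h * g * 1) v w)) (a := Q ^ 2) (fun g _ => by positivity)
          (by rw [mem_Ico]; constructor
              · exact le_rfl
              · have := Nat.one_le_pow 2 Q hQ; omega)
      simpa using h3
    refine h2.trans (h1.trans (le_of_eq ?_))
    push_cast
    ring
  set S : ℝ := Real.sqrt ((V : ℝ) ^ 2 + Q ^ 2 * H) with hS
  have hVR : (0 : ℝ) ≤ V := by positivity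
  have hQR : (0 : ℝ) ≤ Q := by positivity
  have hZR : (1 : ℝ) ≤ Z := by exact_mod_cast hZ
  have hPR : (1 : ℝ) ≤ P := by exact_mod_cast hP
  have hsV : Real.sqrt ((V : ℝ) * V) = V := Real.sqrt_mul_self hVR
  have hsQ : Real.sqrt ((Q : ℝ) ^ 2 * H) = Q * Real.sqrt H := by
    rw [Real.sqrt_mul (by positivity), Real.sqrt_sq hQR]
  set YY : ℝ := (Y : ℝ) ^ (ε / 2) with hYY
  have hYYpos : 0 < YY := by positivity
  have hYY1 : 1 ≤ YY := Real.one_le_rpow hY1R (by positivity)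
  have hYYsq : (Y : ℝ) ^ ε = YY * YY := by
    rw [hYY, ← Real.rpow_add (by positivity)]
    congr 1; ring
  have hB1 : ∑ h ∈ Icc 1 H, ∑ v ∈ Ico V (2 * V),
      ∑ w ∈ (Ico V (2 * V)).filter (fun w => Nat.Coprime v w),
        Real.sqrt (KK Z Z Z Z (h * Q ^ 2) v w) ≤
      C * YY * (4 * (V * S * (Z : ℝ) ^ 2) + 5 * (Q * Real.sqrt H * (V : ℝ) ^ 2 * Z)) := by
    refine (hA1 Z hZY).trans ?_
    refine mul_le_mul_of_nonneg_left ?_ (by positivity)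
    rw [hsV, hsQ]
    have h1 : Real.sqrt (((V : ℝ) * V + Q ^ 2 * H) * ((1 + Z) * (1 + Z) * (1 + Z) * (1 + Z))) ≤
        S * (4 * (Z : ℝ) ^ 2) := by
      have : ((V : ℝ) * V + Q ^ 2 * H) * ((1 + Z) * (1 + Z) * (1 + Z) * (1 + Z)) =
          ((V : ℝ) ^ 2 + Q ^ 2 * H) * ((1 + (Z : ℝ)) ^ 2) ^ 2 := by ring
      rw [this, Real.sqrt_mul (by positivity), Real.sqrt_sq (by positivity)]
      refine mul_le_mul_of_nonneg_left ?_ (Real.sqrt_nonneg _)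
      nlinarith
    have h2 : (V : ℝ) * Real.sqrt (((V : ℝ) * V + Q ^ 2 * H) * ((1 + Z) * (1 + Z) * (1 + Z) * (1 + Z))) ≤
        4 * (V * S * (Z : ℝ) ^ 2) := by
      calc _ ≤ (V : ℝ) * (S * (4 * (Z : ℝ) ^ 2)) := mul_le_mul_of_nonneg_left h1 hVR
        _ = _ := by ring
    have h3 : (Q : ℝ) * Real.sqrt H * (V * V) * (1 + Z + Z + Z + Z) ≤
        5 * (Q * Real.sqrt H * (V : ℝ) ^ 2 * Z) := by
      have h4 : (0 : ℝ) ≤ Q * Real.sqrt H * (V * V) := by positivity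
      calc (Q : ℝ) * Real.sqrt H * (V * V) * (1 + Z + Z + Z + Z) ≤
          Q * Real.sqrt H * (V * V) * (5 * Z) := mul_le_mul_of_nonneg_left (by linarith) h4
        _ = _ := by ring
    linarith
  have hB2 : ∑ h ∈ Icc 1 H, ∑ v ∈ Ico V (2 * V),
      ∑ w ∈ (Ico V (2 * V)).filter (fun w => Nat.Coprime v w),
        Real.sqrt (KK Z Z Z 0 (h * Q ^ 2) v w) ≤
      C * YY * (4 * (V * S * Real.sqrt ((Z : ℝ) ^ 3)) + 4 * (Q * Real.sqrt H * (V : ℝ) ^ 2 * Z)) := by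
    refine (hA1 0 (Nat.zero_le _)).trans ?_
    refine mul_le_mul_of_nonneg_left ?_ (by positivity)
    rw [hsV, hsQ]
    have h1 : Real.sqrt (((V : ℝ) * V + Q ^ 2 * H) * ((1 + Z) * (1 + Z) * (1 + Z) * (1 + ((0 : ℕ) : ℝ)))) ≤
        S * (4 * Real.sqrt ((Z : ℝ) ^ 3)) := by
      have : ((V : ℝ) * V + Q ^ 2 * H) * ((1 + Z) * (1 + Z) * (1 + Z) * (1 + ((0 : ℕ) : ℝ))) =
          ((V : ℝ) ^ 2 + Q ^ 2 * H) * ((1 + (Z : ℝ)) ^ 3) := by push_cast; ring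
      rw [this, Real.sqrt_mul (by positivity)]
      refine mul_le_mul_of_nonneg_left ?_ (Real.sqrt_nonneg _)
      have h5 : (4 : ℝ) = Real.sqrt 16 := by
        rw [show (16 : ℝ) = 4 ^ 2 by norm_num, Real.sqrt_sq (by norm_num)]
      rw [h5, ← Real.sqrt_mul (by norm_num)]
      refine Real.sqrt_le_sqrt ?_
      have h6 : (1 + (Z : ℝ)) ^ 3 ≤ (2 * (Z : ℝ)) ^ 3 := pow_le_pow_left₀ (by positivity) (by linarith) 3
      have h7 : (0 : ℝ) ≤ (Z : ℝ) ^ 3 := by positivity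
      nlinarith
    have h2 : (V : ℝ) * Real.sqrt (((V : ℝ) * V + Q ^ 2 * H) * ((1 + Z) * (1 + Z) * (1 + Z) * (1 + ((0 : ℕ) : ℝ)))) ≤
        4 * (V * S * Real.sqrt ((Z : ℝ) ^ 3)) := by
      calc _ ≤ (V : ℝ) * (S * (4 * Real.sqrt ((Z : ℝ) ^ 3))) := mul_le_mul_of_nonneg_left h1 hVR
        _ = _ := by ring
    have h3 : (Q : ℝ) * Real.sqrt H * (V * V) * (1 + Z + Z + Z + ((0 : ℕ) : ℝ)) ≤
        4 * (Q * Real.sqrt H * (V : ℝ) ^ 2 * Z) := by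
      have h4 : (0 : ℝ) ≤ Q * Real.sqrt H * (V * V) := by positivity
      calc (Q : ℝ) * Real.sqrt H * (V * V) * (1 + Z + Z + Z + ((0 : ℕ) : ℝ)) ≤
          Q * Real.sqrt H * (V * V) * (4 * Z) := mul_le_mul_of_nonneg_left (by push_cast; linarith) h4
        _ = _ := by ring
    linarith
  -- pointwise bound
  have hpt : ∀ h v w : ℕ, ∑ p ∈ Ico P (2 * P), Real.sqrt (KQ p Z (h * Q ^ 2) v w) ≤
      Real.sqrt P * (Real.sqrt C' * YY * Real.sqrt (KK Z Z Z Z (h * Q ^ 2) v w)) +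
      P * Real.sqrt (KK Z Z Z 0 (h * Q ^ 2) v w) := by
    intro h v w
    have h1 : ∀ p ∈ Ico P (2 * P), Real.sqrt (KQ p Z (h * Q ^ 2) v w) ≤
        Real.sqrt (avpN p Z (h * Q ^ 2) v w) + Real.sqrt (KK Z Z Z 0 (h * Q ^ 2) v w) := by
      intro p _
      refine le_trans (Real.sqrt_le_sqrt (?_ : (KQ p Z (h * Q ^ 2) v w : ℝ) ≤
        (avpN p Z (h * Q ^ 2) v w : ℝ) + (KK Z Z Z 0 (h * Q ^ 2) v w : ℝ))) ?_
      · exact_mod_cast avp_split p Z (h * Q ^ 2) v w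
      · exact avp_sqrt_add (by positivity) (by positivity)
    have hcard : (Ico P (2 * P)).card = P := by rw [Nat.card_Ico]; omega
    refine (Finset.sum_le_sum h1).trans ?_
    rw [Finset.sum_add_distrib]
    refine add_le_add ?_ ?_
    · have h2 := Real.sum_sqrt_mul_sqrt_le (Ico P (2 * P)) (f := fun _ => (1 : ℝ))
        (g := fun p => (avpN p Z (h * Q ^ 2) v w : ℝ)) (fun _ => by norm_num) (fun _ => by positivity)
      simp only [Real.sqrt_one, one_mul, Finset.sum_const, hcard, nsmul_eq_mul, mul_one] at h2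
      refine h2.trans (mul_le_mul_of_nonneg_left ?_ (Real.sqrt_nonneg _))
      have h3 := avp_sum C' ε hε hC' (fun n hn => (hD n hn).1) P Z Y (h * Q ^ 2) v w hP hZY
      refine (Real.sqrt_le_sqrt h3).trans (le_of_eq ?_)
      rw [Real.sqrt_mul (by positivity), Real.sqrt_mul hC'.le, hYYsq, Real.sqrt_mul_self hYYpos.le]
    · rw [Finset.sum_const, hcard, nsmul_eq_mul]
  -- interchange
  have hswap : ∑ p ∈ Ico P (2 * P), ∑ h ∈ Icc 1 H, ∑ v ∈ Ico V (2 * V),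
    ∑ w ∈ (Ico V (2 * V)).filter (fun w => Nat.Coprime v w),
      Real.sqrt (KQ p Z (h * Q ^ 2) v w) = ∑ h ∈ Icc 1 H, ∑ v ∈ Ico V (2 * V),
    ∑ w ∈ (Ico V (2 * V)).filter (fun w => Nat.Coprime v w), ∑ p ∈ Ico P (2 * P),
      Real.sqrt (KQ p Z (h * Q ^ 2) v w) := by
    rw [Finset.sum_comm]
    refine Finset.sum_congr rfl fun h _ => ?_
    rw [Finset.sum_comm]
    refine Finset.sum_congr rfl fun v _ => ?_
    rw [Finset.sum_comm]
  rw [hswap]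
  have hbig : ∑ h ∈ Icc 1 H, ∑ v ∈ Ico V (2 * V),
    ∑ w ∈ (Ico V (2 * V)).filter (fun w => Nat.Coprime v w), ∑ p ∈ Ico P (2 * P),
      Real.sqrt (KQ p Z (h * Q ^ 2) v w) ≤
      Real.sqrt P * (Real.sqrt C' * YY * (∑ h ∈ Icc 1 H, ∑ v ∈ Ico V (2 * V),
    ∑ w ∈ (Ico V (2 * V)).filter (fun w => Nat.Coprime v w), Real.sqrt (KK Z Z Z Z (h * Q ^ 2) v w))) +
      P * (∑ h ∈ Icc 1 H, ∑ v ∈ Ico V (2 * V),
    ∑ w ∈ (Ico V (2 * V)).filter (fun w => Nat.Coprime v w), Real.sqrt (KK Z Z Z 0 (h * Q ^ 2) v w)) := by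
    simp only [Finset.mul_sum, ← Finset.sum_add_distrib]
    refine Finset.sum_le_sum fun h _ => Finset.sum_le_sum fun v _ => Finset.sum_le_sum fun w _ => ?_
    exact hpt h v w
  refine hbig.trans ?_
  have hsP : Real.sqrt P ≤ P := by
    rw [Real.sqrt_le_left (by positivity)]
    nlinarith
  have hsP0 : 0 ≤ Real.sqrt (P : ℝ) := Real.sqrt_nonneg _
  have hS0 : 0 ≤ S := Real.sqrt_nonneg _
  set A : ℝ := V * S * (Z : ℝ) ^ 2 with hAdef
  set B : ℝ := V * S * Real.sqrt ((Z : ℝ) ^ 3) with hBdef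
  set D : ℝ := Q * Real.sqrt H * (V : ℝ) ^ 2 * Z with hDdef
  have hA0 : 0 ≤ A := by positivity
  have hB0 : 0 ≤ B := by positivity
  have hD0 : 0 ≤ D := by positivity
  have hc0 : 0 ≤ Real.sqrt C' := Real.sqrt_nonneg _
  have f1 : Real.sqrt P * (Real.sqrt C' * YY * (∑ h ∈ Icc 1 H, ∑ v ∈ Ico V (2 * V),
    ∑ w ∈ (Ico V (2 * V)).filter (fun w => Nat.Coprime v w), Real.sqrt (KK Z Z Z Z (h * Q ^ 2) v w))) ≤
      Real.sqrt P * (Real.sqrt C' * YY * (C * YY * (4 * A + 5 * D))) :=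
    mul_le_mul_of_nonneg_left (mul_le_mul_of_nonneg_left hB1 (by positivity)) hsP0
  have f2 : P * (∑ h ∈ Icc 1 H, ∑ v ∈ Ico V (2 * V),
    ∑ w ∈ (Ico V (2 * V)).filter (fun w => Nat.Coprime v w), Real.sqrt (KK Z Z Z 0 (h * Q ^ 2) v w)) ≤
      P * (C * YY * (4 * B + 4 * D)) := mul_le_mul_of_nonneg_left hB2 (by positivity)
  have f3 : P * (C * YY * (4 * B + 4 * D)) ≤ P * (C * (YY * YY) * (4 * B + 4 * D)) := by
    refine mul_le_mul_of_nonneg_left ?_ (by positivity)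
    refine mul_le_mul_of_nonneg_right ?_ (by positivity)
    refine mul_le_mul_of_nonneg_left ?_ hC.le
    nlinarith
  have f4 : Real.sqrt P * (Real.sqrt C' * YY * (C * YY * (4 * A + 5 * D))) =
      (C * (YY * YY)) * (Real.sqrt C' * (4 * (Real.sqrt P * A) + 5 * (Real.sqrt P * D))) := by ring
  have f5 : Real.sqrt P * D ≤ P * D := mul_le_mul_of_nonneg_right hsP hD0
  have f6 : Real.sqrt C' * (4 * (Real.sqrt P * A) + 5 * (Real.sqrt P * D)) ≤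
      Real.sqrt C' * (5 * (Real.sqrt P * A) + 5 * (P * D)) := by
    refine mul_le_mul_of_nonneg_left ?_ hc0
    have : 0 ≤ Real.sqrt P * A := by positivity
    linarith
  have f7 : (C * (YY * YY)) * (Real.sqrt C' * (4 * (Real.sqrt P * A) + 5 * (Real.sqrt P * D))) ≤
      (C * (YY * YY)) * (Real.sqrt C' * (5 * (Real.sqrt P * A) + 5 * (P * D))) :=
    mul_le_mul_of_nonneg_left f6 (by positivity)
  rw [hYYsq]
  calc _ ≤ (C * (YY * YY)) * (Real.sqrt C' * (5 * (Real.sqrt P * A) + 5 * (P * D))) +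
        P * (C * (YY * YY) * (4 * B + 4 * D)) := by linarith
    _ = (C * (YY * YY)) * ((5 * Real.sqrt C') * (Real.sqrt P * A + P * D) + 4 * (P * B + P * D)) := by ring
    _ ≤ (C * (YY * YY)) * ((5 * Real.sqrt C' + 4) * (Real.sqrt P * A + P * B + P * D)) := by
        refine mul_le_mul_of_nonneg_left ?_ (by positivity)
        have g1 : 0 ≤ Real.sqrt P * A := by positivity
        have g2 : 0 ≤ (P : ℝ) * B := by positivity
        have g3 : 0 ≤ (P : ℝ) * D := by positivity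
        nlinarith [mul_nonneg hc0 g2]
    _ = _ := by ring

end Pool.Agent.T2h80.L5
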