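import Pool.Agent.T2h80.L5.Stm

/-! Task BET. -/

set_option autoImplicit false

namespace Pool.Agent.T2h80.L5

theorem t_BET : S_BET := by
  intro ν V v w s t m a D y₁ y₂ hGT q hq hma hg hD
  obtain ⟨pv, pw, hvw, ov, ow, os, ot, -, -, -, -, hs0, ht0, -, -, -, -, hav, hv1, hw1, hco,
    hy1, hy2, h4m, h4a, hD8, -, -⟩ := hGT
  have hqv : ¬ q ∣ v := by
    intro h
    have e := (Nat.prime_dvd_prime_iff_eq hq pv).1 h
    subst e
    rcases (Nat.Prime.dvd_mul hq).1 hma with h1 | h1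
    · have h2 : q ∣ s * t := by
        have h3 : q ∣ a * q ^ 2 := (dvd_pow_self q two_ne_zero).mul_left a
        rw [hav] at h3
        exact (Nat.dvd_add_right (h1.mul_right _)).1 h3
      exact Nat.Prime.not_coprime_iff_dvd.2 ⟨q, hq, h2, dvd_mul_right q w⟩ hco
    · have h2 : (q : ℤ) ∣ (t : ℤ) ^ 2 := by
        have h3 : (q : ℤ) ∣ (a : ℤ) * w ^ 2 := (Int.natCast_dvd_natCast.2 h1).mul_right _
        have h4 := hv1.add h3
        rwa [sub_add_cancel] at h4
      have h3 : q ∣ t := by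
        have h4 : q ∣ t ^ 2 := by exact_mod_cast h2
        exact hq.dvd_of_dvd_pow h4
      exact Nat.Prime.not_coprime_iff_dvd.2 ⟨q, hq, h3.mul_left s, dvd_mul_right q w⟩ hco
  have hqw : ¬ q ∣ w := by
    intro h
    have e := (Nat.prime_dvd_prime_iff_eq hq pw).1 h
    subst e
    rcases (Nat.Prime.dvd_mul hq).1 hma with h1 | h1
    · have h2 : (q : ℤ) ∣ (s : ℤ) ^ 2 := by
        have h3 : (q : ℤ) ∣ (m : ℤ) * v ^ 2 := (Int.natCast_dvd_natCast.2 h1).mul_right _
        have h4 := hw1.add h3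
        rwa [sub_add_cancel] at h4
      have h3 : q ∣ s := by
        have h4 : q ∣ s ^ 2 := by exact_mod_cast h2
        exact hq.dvd_of_dvd_pow h4
      exact Nat.Prime.not_coprime_iff_dvd.2 ⟨q, hq, h3.mul_right t, dvd_mul_left q v⟩ hco
    · have h2 : q ∣ s * t := by
        have h3 : q ∣ m * q ^ 2 + s * t := by
          rw [← hav]
          exact h1.mul_right _
        exact (Nat.dvd_add_right ((dvd_pow_self q two_ne_zero).mul_left m)).1 h3
      exact Nat.Prime.not_coprime_iff_dvd.2 ⟨q, hq, h2, dvd_mul_left q v⟩ hco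
  have hqD : q ∣ D := by
    rcases (Nat.Prime.dvd_mul hq).1 hD with h1 | h1
    · rcases (Nat.Prime.dvd_mul hq).1 h1 with h2 | h2
      · exact h2
      · exact absurd h2 hqv
    · exact absurd h1 hqw
  have hq2 : ¬ q ∣ 2 := by
    intro h
    have e := (Nat.prime_dvd_prime_iff_eq hq Nat.prime_two).1 h
    subst e
    omega
  have hqp : Prime (q : ℤ) := Nat.prime_iff_prime_int.1 hq
  have hqDi : (q : ℤ) ∣ D := Int.natCast_dvd_natCast.2 hqD
  have hq2i : ¬ (q : ℤ) ∣ 2 := fun h => hq2 (by exact_mod_cast h)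
  rcases (Nat.Prime.dvd_mul hq).1 hma with h1 | h1
  · have ha : ¬ q ∣ a := fun h => hg (Nat.dvd_gcd h1 h)
    have h1i : (q : ℤ) ∣ m := Int.natCast_dvd_natCast.2 h1
    have hy1' : (q : ℤ) ∣ y₁ := by
      refine hqp.dvd_of_dvd_pow (n := 2) ?_
      have e : y₁ ^ 2 = 4 * (m : ℤ) ^ 2 * a - D * v ^ 2 := by linear_combination -h4m
      rw [e]
      exact dvd_sub (((dvd_pow h1i two_ne_zero).mul_left 4).mul_right _) (hqDi.mul_right _)
    have hy2' : (q : ℤ) ∣ y₂ := by
      refine hqp.dvd_of_dvd_pow (n := 2) ?_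
      have e : y₂ ^ 2 = 4 * (a : ℤ) ^ 2 * m - D * w ^ 2 := by linear_combination -h4a
      rw [e]
      exact dvd_sub (h1i.mul_left _) (hqDi.mul_right _)
    have h2 : (q : ℤ) ∣ 2 * a * s := by
      have e : (2 * a * s : ℤ) = y₁ * w + y₂ * v := by linear_combination -hy1 - hy2
      rw [e]
      exact dvd_add (hy1'.mul_right _) (hy2'.mul_right _)
    have h3 : q ∣ s := by
      rcases hqp.dvd_mul.1 h2 with h4 | h4
      · rcases hqp.dvd_mul.1 h4 with h5 | h5
        · exact absurd h5 hq2i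
        · exact absurd (by exact_mod_cast h5) ha
      · exact_mod_cast h4
    have h4 : q ∣ a * v ^ 2 := by
      rw [hav]
      exact dvd_add (h1.mul_right _) (h3.mul_right _)
    rcases (Nat.Prime.dvd_mul hq).1 h4 with h5 | h5
    · exact ha h5
    · exact hqv (hq.dvd_of_dvd_pow h5)
  · have hm : ¬ q ∣ m := fun h => hg (Nat.dvd_gcd h h1)
    have h1i : (q : ℤ) ∣ a := Int.natCast_dvd_natCast.2 h1
    have hy1' : (q : ℤ) ∣ y₁ := by
      refine hqp.dvd_of_dvd_pow (n := 2) ?_
      have e : y₁ ^ 2 = 4 * (m : ℤ) ^ 2 * a - D * v ^ 2 := by linear_combination -h4m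
      rw [e]
      exact dvd_sub (h1i.mul_left _) (hqDi.mul_right _)
    have hy2' : (q : ℤ) ∣ y₂ := by
      refine hqp.dvd_of_dvd_pow (n := 2) ?_
      have e : y₂ ^ 2 = 4 * (a : ℤ) ^ 2 * m - D * w ^ 2 := by linear_combination -h4a
      rw [e]
      exact dvd_sub (((dvd_pow h1i two_ne_zero).mul_left 4).mul_right _) (hqDi.mul_right _)
    have h2 : (q : ℤ) ∣ 2 * m * t := by
      have e : (2 * m * t : ℤ) = y₂ * v - y₁ * w := by linear_combination hy1 - hy2
      rw [e]
      exact dvd_sub (hy2'.mul_right _) (hy1'.mul_right _)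
    have h3 : q ∣ t := by
      rcases hqp.dvd_mul.1 h2 with h4 | h4
      · rcases hqp.dvd_mul.1 h4 with h5 | h5
        · exact absurd h5 hq2i
        · exact absurd (by exact_mod_cast h5) hm
      · exact_mod_cast h4
    have h4 : q ∣ m * w ^ 2 := by
      have h5 : q ∣ m * w ^ 2 + s * t := by
        rw [← hav]
        exact h1.mul_right _
      exact (Nat.dvd_add_left (h3.mul_left _)).1 h5
    rcases (Nat.Prime.dvd_mul hq).1 h4 with h5 | h5
    · exact hm h5
    · exact hqw (hq.dvd_of_dvd_pow h5)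

end Pool.Agent.T2h80.L5
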