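import Pool.Agent.T2h80.L5.ALx

set_option autoImplicit false

/-! Task CJI. -/

namespace Pool.Agent.T2h80.L5

open Finset NumberField Pool.Agent.T2h80.F5

theorem CJI_aux {n X Y c : ℤ} (hn : n ≠ 0) (hY : n ∣ Y) (h : n ^ 2 ∣ X ^ 2 + 1 * X * Y + c * Y ^ 2) :
    n ∣ X := by
  obtain ⟨Y', rfl⟩ := hY
  obtain ⟨k, hk⟩ := h
  obtain ⟨g, hg⟩ : ∃ g : ℤ, g = (Int.gcd X n : ℤ) := ⟨_, rfl⟩
  have hg0 : g ≠ 0 := by
    rw [hg]
    intro h0
    have : Int.gcd X n = 0 := by exact_mod_cast h0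
    exact hn (Int.gcd_eq_zero_iff.1 this).2
  obtain ⟨X', hX'⟩ : g ∣ X := by rw [hg]; exact Int.gcd_dvd_left ..
  obtain ⟨n', hn'⟩ : g ∣ n := by rw [hg]; exact Int.gcd_dvd_right ..
  have hco : IsCoprime X' n' := by
    have hpos : 0 < Int.gcd X n := by
      rw [Int.gcd_pos_iff]; exact Or.inr hn
    rw [Int.isCoprime_iff_gcd_eq_one]
    have h1 : Int.gcd (g * X') (g * n') = g.natAbs * Int.gcd X' n' := Int.gcd_mul_left ..
    rw [← hX', ← hn'] at h1
    have h2 : g.natAbs = Int.gcd X n := by rw [hg]; simp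
    rw [h2] at h1
    have h3 : Int.gcd X n * 1 = Int.gcd X n * Int.gcd X' n' := by rw [mul_one]; exact h1
    exact (Nat.eq_of_mul_eq_mul_left hpos h3).symm
  have e : X' ^ 2 = n' * (n' * k - X' * Y' - c * n' * Y' ^ 2) := by
    rw [hX', hn'] at hk
    have h2 : g ^ 2 * X' ^ 2 = g ^ 2 * (n' * (n' * k - X' * Y' - c * n' * Y' ^ 2)) := by
      linear_combination hk
    exact mul_left_cancel₀ (pow_ne_zero 2 hg0) h2
  have h3 : n' ∣ X' ^ 2 := ⟨_, e⟩
  have h4 : IsUnit n' := by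
    have := (hco.pow_left (m := 2)).symm
    exact this.isUnit_of_dvd' dvd_rfl h3
  rw [hn', hX']
  exact mul_dvd_mul_left g (h4.dvd)

/-- **CJI** -/
theorem t_CJI : S_CJI := by
  intro K _ _ d ω σ h hd n α β X Y hn hαβ hY hN hI hJ
  have hth : th d = 1 := ALx.th_one hd
  rw [ALx.norm_el h, hth] at hN
  have hX : (n : ℤ) ∣ X := CJI_aux (by exact_mod_cast hn.ne') hY (by push_cast at hN; exact hN)
  have hdv : (n : 𝓞 K) ∣ α * β := by
    rw [hαβ]
    have := (ALx.dvd_el h (q := (n : ℤ)) (x := X) (y := Y)).2 ⟨hX, hY⟩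
    push_cast at this
    exact this
  obtain ⟨I, hIe⟩ : ∃ I, I = Ideal.span {α, (n : 𝓞 K)} := ⟨_, rfl⟩
  obtain ⟨J, hJe⟩ : ∃ J, J = Ideal.span {β, (n : 𝓞 K)} := ⟨_, rfl⟩
  have hle : I * J ≤ Ideal.span {(n : 𝓞 K)} := by
    rw [hIe, hJe, Ideal.span_pair_mul_span_pair, Ideal.span_le]
    rintro z hz
    simp only [Set.mem_insert_iff, Set.mem_singleton_iff] at hz
    rw [SetLike.mem_coe, Ideal.mem_span_singleton]
    rcases hz with rfl | rfl | rfl | rfl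
    · exact hdv
    · exact dvd_mul_left _ _
    · exact dvd_mul_right _ _
    · exact dvd_mul_right _ _
  rw [← hIe] at hI
  rw [← hJe] at hJ
  rw [← hIe, ← hJe]
  obtain ⟨L, hL⟩ := Ideal.dvd_iff_le.2 hle
  have h1 : Ideal.absNorm I * Ideal.absNorm J = n ^ 2 * Ideal.absNorm L := by
    rw [← map_mul, hL, map_mul, ALx.absNorm_nat h]
  rw [hI, hJ] at h1
  have h2 : Ideal.absNorm L = 1 := by
    have : n ^ 2 * 1 = n ^ 2 * Ideal.absNorm L := by rw [← h1]; ring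
    exact (Nat.eq_of_mul_eq_mul_left (pow_pos hn 2) this).symm
  rw [Ideal.absNorm_eq_one_iff] at h2
  rw [h2, Ideal.mul_top] at hL
  have h3 := ALx.mul_map h I
  rw [hI, ← hL] at h3
  have hI0 : I ≠ 0 := by
    intro h0
    rw [h0] at hI
    have : Ideal.absNorm (0 : Ideal (𝓞 K)) = 0 := Ideal.absNorm_bot
    omega
  exact (mul_left_cancel₀ hI0 h3).symm

end Pool.Agent.T2h80.L5
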