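import Pool.Agent.T2h80.L5.Stm

set_option autoImplicit false

/-!
# Common lemmas for the exceptional tuples (EX3, EX4)
-/

namespace Pool.Agent.T2h80.L5.EXA13

open Finset Pool.Agent.T2h80.F5 Pool.Agent.T2h80.L5

/-- the divisor bound in the form used -/
lemma divb (hDIV : F5.S_DIV) (k K : ℕ) : ∃ ν₀ : ℕ, ∀ ν : ℕ, ν₀ ≤ ν → ∀ n : ℕ, 1 ≤ n →
    n ≤ (ν ^ (k + 2)) ^ 20 → K * n.divisors.card ≤ ν := by
  have hk : (0 : ℝ) < k + 2 := by positivity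
  obtain ⟨C, hC, h⟩ := hDIV (1 / (40 * (k + 2))) (by positivity)
  refine ⟨⌈(K * C) ^ 2⌉₊ + 1, fun ν hν n hn hn' => ?_⟩
  have h1 := (h n hn).1
  have hν1 : (K * C) ^ 2 ≤ (ν : ℝ) := by
    have : ((⌈(K * C) ^ 2⌉₊ + 1 : ℕ) : ℝ) ≤ ν := by exact_mod_cast hν
    have h2 := Nat.le_ceil ((K * C) ^ 2)
    push_cast at this
    linarith
  have hν0 : (0 : ℝ) ≤ ν := by positivity
  have h3 : (n : ℝ) ^ (1 / (40 * ((k : ℝ) + 2))) ≤ Real.sqrt ν := by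
    have h4 : (n : ℝ) ≤ (ν : ℝ) ^ ((k + 2) * 20) := by
      rw [pow_mul]; exact_mod_cast hn'
    calc (n : ℝ) ^ (1 / (40 * ((k : ℝ) + 2)))
        ≤ ((ν : ℝ) ^ ((k + 2) * 20)) ^ (1 / (40 * ((k : ℝ) + 2))) :=
          Real.rpow_le_rpow (by positivity) h4 (by positivity)
      _ = Real.sqrt ν := by
          rw [← Real.rpow_natCast, ← Real.rpow_mul hν0, Real.sqrt_eq_rpow]
          congr 1
          push_cast
          field_simp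
          norm_num
  have h5 : (K : ℝ) * C ≤ Real.sqrt ν := Real.le_sqrt_of_sq_le hν1
  have h6 : ((K * n.divisors.card : ℕ) : ℝ) ≤ ν := by
    push_cast
    calc (K : ℝ) * n.divisors.card ≤ K * (C * (n : ℝ) ^ (1 / (40 * ((k : ℝ) + 2)))) := by gcongr
      _ ≤ K * (C * Real.sqrt ν) := by gcongr
      _ = (K * C) * Real.sqrt ν := by ring
      _ ≤ Real.sqrt ν * Real.sqrt ν := by gcongr
      _ = ν := Real.mul_self_sqrt hν0
  exact_mod_cast h6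

/-- counting by a parameter and a divisor -/
lemma card_fib_div {α β : Type*} [DecidableEq β] (T : Finset α) (B : Finset β) (f : α → β)
    (g : α → ℕ) (N : β → ℕ) (D : ℕ) (h1 : ∀ x ∈ T, f x ∈ B)
    (h2 : ∀ x ∈ T, N (f x) ≠ 0 ∧ g x ∣ N (f x) ∧ (N (f x)).divisors.card ≤ D)
    (h3 : ∀ x ∈ T, ∀ y ∈ T, f x = f y → g x = g y → x = y) : T.card ≤ D * B.card := by
  refine Finset.card_le_mul_card_image_of_maps_to h1 D ?_
  intro b hb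
  by_cases hne : (T.filter (fun x => f x = b)).Nonempty
  · obtain ⟨z, hz⟩ := hne
    rw [mem_filter] at hz
    have h4 := h2 z hz.1
    rw [hz.2] at h4
    refine le_trans (Finset.card_le_card_of_injOn (t := (N b).divisors) g ?_ ?_) h4.2.2
    · intro x hx
      have hx' : x ∈ T.filter (fun x => f x = b) := by exact_mod_cast hx
      rw [mem_filter] at hx'
      have h5 := h2 x hx'.1
      rw [hx'.2] at h5
      exact_mod_cast Nat.mem_divisors.2 ⟨h5.2.1, h4.1⟩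
    · intro x hx y hy hxy
      have hx' : x ∈ T.filter (fun x => f x = b) := by exact_mod_cast hx
      have hy' : y ∈ T.filter (fun x => f x = b) := by exact_mod_cast hy
      rw [mem_filter] at hx' hy'
      exact h3 x hx'.1 y hy'.1 (hx'.2.trans hy'.2.symm) hxy
  · rw [Finset.not_nonempty_iff_eq_empty] at hne
    rw [hne]; simp

/-- the basic facts on a tuple -/
lemma base {ν V Q v w s t m : ℕ} (h : ((v, w), s, t, m) ∈ TU ν V Q) :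
    v.Prime ∧ w.Prime ∧ v ≠ w ∧ V ≤ v ∧ v < 2 * V ∧ V ≤ w ∧ w < 2 * V ∧
    ν ^ 2 * V ^ 2 ≤ s ∧ s < 2 * (ν ^ 2 * V ^ 2) ∧ ν ^ 2 * V ^ 2 ≤ t ∧ t < 2 * (ν ^ 2 * V ^ 2) ∧
    676 * ν ^ 4 * V ^ 2 ≤ m ∧ m < 2 * (676 * ν ^ 4 * V ^ 2) ∧
    (v : ℤ) ^ 3 ∣ (t : ℤ) ^ 2 * v ^ 2 - s * t * w ^ 2 - m * w ^ 4 ∧
    (w : ℤ) ∣ (s : ℤ) ^ 2 - m * v ^ 2 := by
  classical
  unfold TU PP PV IS IM Cg at h
  simp only [mem_filter, mem_product, mem_Ico] at h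
  obtain ⟨⟨⟨⟨⟨⟨h1, h2⟩, h3⟩, ⟨h4, h5⟩, h6⟩, h7⟩, ⟨h8, h9⟩, ⟨h10, h11⟩, h12, h13⟩, -, -, h14, h15⟩ := h
  exact ⟨h3, h6, h7, h1, h2, h4, h5, h8, h9, h10, h11, h12, h13, h14, h15⟩

/-- the value of `a` -/
lemma base_a {ν V Q v w s t m : ℕ} (h : ((v, w), s, t, m) ∈ TU ν V Q) :
    aa ((v, w), s, t, m) * v ^ 2 = s * t + m * w ^ 2 ∧
    (v : ℤ) ∣ (t : ℤ) ^ 2 - aa ((v, w), s, t, m) * w ^ 2 ∧
    aa ((v, w), s, t, m) ≤ 6084 * ν ^ 4 * V ^ 2 := by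
  obtain ⟨hv, hw, hvw, hv1, hv2, hw1, hw2, hs1, hs2, ht1, ht2, hm1, hm2, hc1, hc2⟩ := base h
  have hcop : IsCoprime ((v : ℤ) ^ 2) ((w : ℤ) ^ 2) := by
    refine IsCoprime.pow ?_
    exact Nat.isCoprime_iff_coprime.2 ((Nat.coprime_primes hv hw).2 hvw)
  have h1 : (v : ℤ) ^ 2 ∣ (s : ℤ) * t + m * w ^ 2 := by
    have h2 : (v : ℤ) ^ 2 ∣ (t : ℤ) ^ 2 * v ^ 2 - s * t * w ^ 2 - m * w ^ 4 :=
      (pow_dvd_pow _ (by norm_num)).trans hc1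
    have h3 : (v : ℤ) ^ 2 ∣ (w : ℤ) ^ 2 * (s * t + m * w ^ 2) := by
      have h4 : (w : ℤ) ^ 2 * (s * t + m * w ^ 2) =
        (v : ℤ) ^ 2 * t ^ 2 - ((t : ℤ) ^ 2 * v ^ 2 - s * t * w ^ 2 - m * w ^ 4) := by ring
      rw [h4]
      exact dvd_sub (Dvd.intro _ rfl) h2
    exact hcop.dvd_of_dvd_mul_left h3
  have h1n : v ^ 2 ∣ s * t + m * w ^ 2 := by exact_mod_cast h1
  have ha : aa ((v, w), s, t, m) * v ^ 2 = s * t + m * w ^ 2 := by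
    unfold aa
    exact Nat.div_mul_cancel h1n
  set a := aa ((v, w), s, t, m) with hadef
  have haz : (a : ℤ) * v ^ 2 = s * t + m * w ^ 2 := by exact_mod_cast ha
  have hv0 : (v : ℤ) ^ 2 ≠ 0 := by
    have := hv.pos
    positivity
  refine ⟨ha, ?_, ?_⟩
  · have h5 : (v : ℤ) ^ 2 * v ∣ (v : ℤ) ^ 2 * (t ^ 2 - a * w ^ 2) := by
      have h6 : (v : ℤ) ^ 2 * (t ^ 2 - a * w ^ 2) =
        (t : ℤ) ^ 2 * v ^ 2 - s * t * w ^ 2 - m * w ^ 4 := by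
        linear_combination (-(w : ℤ) ^ 2) * haz
      rw [h6]
      have h7 : (v : ℤ) ^ 2 * v = v ^ 3 := by ring
      rw [h7]; exact hc1
    exact (mul_dvd_mul_iff_left hv0).1 h5
  · have hV : 0 < V := by
      rcases Nat.eq_zero_or_pos V with h0 | h0
      · subst h0; omega
      · exact h0
    have h8 : a * V ^ 2 ≤ (6084 * ν ^ 4 * V ^ 2) * V ^ 2 := by
      calc a * V ^ 2 ≤ a * v ^ 2 := by gcongr
        _ = s * t + m * w ^ 2 := ha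
        _ ≤ (2 * (ν ^ 2 * V ^ 2)) * (2 * (ν ^ 2 * V ^ 2)) +
            (2 * (676 * ν ^ 4 * V ^ 2)) * (2 * V) ^ 2 := by gcongr
        _ ≤ (6084 * ν ^ 4 * V ^ 2) * V ^ 2 := by
            ring_nf
            nlinarith [Nat.zero_le (ν ^ 4 * V ^ 4)]
    exact Nat.le_of_mul_le_mul_right h8 (by positivity)

end Pool.Agent.T2h80.L5.EXA13
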