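import Pool.Agent.T2h80.L5.LOW
import Pool.Agent.T2h80.L5.EXA13

set_option autoImplicit false

/-!
# CNL
-/

namespace Pool.Agent.T2h80.L5.CNLx

open Finset Pool.Agent.T2h80.F5 Pool.Agent.T2h80.L5

/-- the exchange of the two sides -/
def ph (x : (ℕ × ℕ) × ℕ × ℕ × ℕ) : (ℕ × ℕ) × ℕ × ℕ × ℕ :=
  ((x.1.2, x.1.1), x.2.2.1, x.2.1, aa x)

theorem TU_sub (ν V Q : ℕ) : TU ν V Q ⊆ TU ν V 1 := by
  intro x hx
  simp only [TU, mem_filter] at hx ⊢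
  exact ⟨hx.1, by simp, by simp, hx.2.2.2⟩

theorem a_low {ν V Q v w s t m : ℕ} (hV : 0 < V) (h : ((v, w), s, t, m) ∈ TU ν V Q) :
    169 * ν ^ 4 * V ^ 2 ≤ aa ((v, w), s, t, m) := by
  obtain ⟨hv, hw, hvw, hv1, hv2, hw1, hw2, hs1, hs2, ht1, ht2, hm1, hm2, hc1, hc2⟩ := EXA13.base h
  obtain ⟨ha, -, -⟩ := EXA13.base_a h
  set a := aa ((v, w), s, t, m) with hadef
  have h1 : v ^ 2 ≤ 4 * V ^ 2 := by nlinarith
  have h2 : V ^ 2 ≤ w ^ 2 := Nat.pow_le_pow_left hw1 2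
  have h3 : (676 * ν ^ 4 * V ^ 2) * V ^ 2 ≤ a * (4 * V ^ 2) := by
    calc (676 * ν ^ 4 * V ^ 2) * V ^ 2 ≤ m * w ^ 2 := Nat.mul_le_mul hm1 h2
      _ ≤ s * t + m * w ^ 2 := Nat.le_add_left _ _
      _ = a * v ^ 2 := ha.symm
      _ ≤ a * (4 * V ^ 2) := Nat.mul_le_mul_left _ h1
  have h4 : (169 * ν ^ 4 * V ^ 2) * (4 * V ^ 2) ≤ a * (4 * V ^ 2) := by
    calc (169 * ν ^ 4 * V ^ 2) * (4 * V ^ 2) = (676 * ν ^ 4 * V ^ 2) * V ^ 2 := by ring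
      _ ≤ _ := h3
  exact Nat.le_of_mul_le_mul_right h4 (by positivity)

theorem mem_TF_one {ν V Q p v w s t m : ℕ} (h : ((v, w), s, t, m) ∈ TU ν V Q)
    (hp : p ∣ s) (hm : p ∣ m) : ((v, w), s, t, m) ∈ TF ν V Q p 1 := by
  simp only [TU, IM, mem_filter, mem_product, mem_Ico] at h
  obtain ⟨⟨h1, h2, h3, h4, h5⟩, h6, h7, h8⟩ := h
  simp only [TF, mem_filter, mem_product, mem_Icc]
  refine ⟨⟨h1, h2, h3, ?_, ?_⟩, h6, h7, by simpa using h8, hp, hm⟩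
  · refine le_trans ?_ h4
    have : 169 * ν ^ 4 * V ^ 2 = 169 * (ν ^ 4 * V ^ 2) := by ring
    have : 676 * ν ^ 4 * V ^ 2 = 676 * (ν ^ 4 * V ^ 2) := by ring
    omega
  · refine h5.le.trans ?_
    have : 6084 * ν ^ 4 * V ^ 2 = 6084 * (ν ^ 4 * V ^ 2) := by ring
    have : 676 * ν ^ 4 * V ^ 2 = 676 * (ν ^ 4 * V ^ 2) := by ring
    omega

theorem mem_TF_neg {ν V Q p v w s t m : ℕ} (hV : 0 < V) (h : ((v, w), s, t, m) ∈ TU ν V Q)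
    (hp : p ∣ t) (ha : p ∣ aa ((v, w), s, t, m)) : ph ((v, w), s, t, m) ∈ TF ν V Q p (-1) := by
  have hlow := a_low hV h
  obtain ⟨hv, hw, hvw, hv1, hv2, hw1, hw2, hs1, hs2, ht1, ht2, hm1, hm2, hc1, hc2⟩ := EXA13.base h
  obtain ⟨ha1, ha2, ha3⟩ := EXA13.base_a h
  simp only [TU, mem_filter, mem_product] at h
  obtain ⟨⟨h1, h2, h3, h4⟩, h6, h7, h8⟩ := h
  simp only [ph, TF, mem_filter, mem_product, mem_Icc]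
  refine ⟨⟨?_, h3, h2, hlow, ha3⟩, h7, h6, ?_, hp, ha⟩
  · simp only [PP, mem_filter, mem_product] at h1 ⊢
    exact ⟨⟨h1.1.2, h1.1.1⟩, h1.2.symm⟩
  · have haz : (aa ((v, w), s, t, m) : ℤ) * v ^ 2 = s * t + m * w ^ 2 := by exact_mod_cast ha1
    refine ⟨?_, ?_⟩
    · have e1 : (s : ℤ) ^ 2 * (w : ℤ) ^ 2 - (-1) * (t : ℤ) * s * (v : ℤ) ^ 2 -
          (aa ((v, w), s, t, m) : ℤ) * (v : ℤ) ^ 4 = (w : ℤ) ^ 2 * (s ^ 2 - m * v ^ 2) := by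
        linear_combination (-(v : ℤ) ^ 2) * haz
      have e2 : (w : ℤ) ^ 3 = (w : ℤ) ^ 2 * w := by ring
      rw [e1, e2]
      exact mul_dvd_mul_left _ hc2
    · have e1 : ((-1) * (t : ℤ)) ^ 2 - (aa ((v, w), s, t, m) : ℤ) * (w : ℤ) ^ 2 =
          t ^ 2 - (aa ((v, w), s, t, m) : ℤ) * (w : ℤ) ^ 2 := by ring
      rw [e1]
      exact ha2

theorem ph_inj {ν V Q : ℕ} : Set.InjOn ph (TU ν V Q : Set ((ℕ × ℕ) × ℕ × ℕ × ℕ)) := by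
  rintro ⟨⟨v, w⟩, s, t, m⟩ hx ⟨⟨v', w'⟩, s', t', m'⟩ hy hxy
  simp only [ph, Prod.mk.injEq] at hxy
  obtain ⟨⟨h1, h2⟩, h3, h4, h5⟩ := hxy
  subst h1 h2 h3 h4
  have b1 := EXA13.base (Finset.mem_coe.1 hx)
  obtain ⟨a1, -, -⟩ := EXA13.base_a (Finset.mem_coe.1 hx)
  obtain ⟨a2, -, -⟩ := EXA13.base_a (Finset.mem_coe.1 hy)
  rw [h5, a2] at a1
  have h6 : m' * w ^ 2 = m * w ^ 2 := by omega
  have hw : 0 < w ^ 2 := by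
    have := b1.2.1.pos
    positivity
  have h7 := Nat.eq_of_mul_eq_mul_right hw h6
  rw [h7]

theorem cases_TU {ν V Q z : ℕ} (hV : 0 < V) (x : (ℕ × ℕ) × ℕ × ℕ × ℕ) (hx : x ∈ TU ν V Q) :
    x ∈ GU ν V Q z ∨ x ∈ (TU ν V 1).filter (fun x => x.1.1 ∣ x.2.1) ∨
    x ∈ (TU ν V 1).filter (fun x => ¬ x.1.1 ∣ x.2.1 ∧ x.1.1 ∣ x.2.2.1) ∨
    x ∈ (TU ν V 1).filter (fun x => (x.1.1).Coprime (x.2.1 * x.2.2.1) ∧ x.1.2 ∣ x.2.1) ∨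
    x ∈ (TU ν V 1).filter (fun x => (x.1.1).Coprime (x.2.1 * x.2.2.1) ∧ ¬ x.1.2 ∣ x.2.1 ∧
      x.1.2 ∣ x.2.2.1) ∨
    (∃ p ∈ (Ioc z (ν ^ 5)).filter Nat.Prime, x ∈ TF ν V Q p 1) ∨
    (∃ p ∈ (Ioc z (ν ^ 5)).filter Nat.Prime, ph x ∈ TF ν V Q p (-1)) := by
  obtain ⟨⟨v, w⟩, s, t, m⟩ := x
  have hx1 := TU_sub ν V Q hx
  obtain ⟨hv, hw, hvw, -⟩ := EXA13.base hx
  obtain ⟨ha1, ha2, ha3⟩ := EXA13.base_a hx
  simp only [mem_filter, hx1, true_and]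
  by_cases c1 : v ∣ s
  · exact Or.inr (Or.inl c1)
  by_cases c2 : v ∣ t
  · exact Or.inr (Or.inr (Or.inl ⟨c1, c2⟩))
  have c3 : v.Coprime (s * t) := by
    rw [Nat.Prime.coprime_iff_not_dvd hv, hv.dvd_mul]
    tauto
  by_cases c4 : w ∣ s
  · exact Or.inr (Or.inr (Or.inr (Or.inl ⟨c3, c4⟩)))
  by_cases c5 : w ∣ t
  · exact Or.inr (Or.inr (Or.inr (Or.inr (Or.inl ⟨c3, c4, c5⟩))))
  have c6 : w.Coprime (s * t) := by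
    rw [Nat.Prime.coprime_iff_not_dvd hw, hw.dvd_mul]
    tauto
  by_cases c7 : ∀ p : ℕ, p.Prime → z < p → p ≤ ν ^ 5 → ¬ (p ∣ m ∧ p ∣ aa ((v, w), s, t, m))
  · left
    simp only [GU, mem_filter]
    exact ⟨hx, (Nat.Coprime.mul_left c3 c6).symm, c7⟩
  · push Not at c7
    obtain ⟨p, hp, hz, hν, hm, ha⟩ := c7
    have hpst : p ∣ s * t := by
      have h1 : p ∣ aa ((v, w), s, t, m) * v ^ 2 := Dvd.dvd.mul_right ha _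
      rw [ha1] at h1
      exact (Nat.dvd_add_left (Dvd.dvd.mul_right hm _)).1 h1
    rcases (hp.dvd_mul).1 hpst with h | h
    · exact Or.inr (Or.inr (Or.inr (Or.inr (Or.inr (Or.inl
        ⟨p, ⟨mem_Ioc.2 ⟨hz, hν⟩, hp⟩, mem_TF_one hx h hm⟩)))))
    · exact Or.inr (Or.inr (Or.inr (Or.inr (Or.inr (Or.inr
        ⟨p, ⟨mem_Ioc.2 ⟨hz, hν⟩, hp⟩, mem_TF_neg hV hx h ha⟩)))))

theorem card_TU {ν V Q z : ℕ} (hV : 0 < V) : (TU ν V Q).card ≤ (GU ν V Q z).card +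
    ((TU ν V 1).filter (fun x => x.1.1 ∣ x.2.1)).card +
    ((TU ν V 1).filter (fun x => ¬ x.1.1 ∣ x.2.1 ∧ x.1.1 ∣ x.2.2.1)).card +
    ((TU ν V 1).filter (fun x => (x.1.1).Coprime (x.2.1 * x.2.2.1) ∧ x.1.2 ∣ x.2.1)).card +
    ((TU ν V 1).filter (fun x => (x.1.1).Coprime (x.2.1 * x.2.2.1) ∧ ¬ x.1.2 ∣ x.2.1 ∧
      x.1.2 ∣ x.2.2.1)).card +
    ∑ p ∈ (Ioc z (ν ^ 5)).filter Nat.Prime, (TF ν V Q p 1).card +
    ∑ p ∈ (Ioc z (ν ^ 5)).filter Nat.Prime, (TF ν V Q p (-1)).card := by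
  classical
  set s := (Ioc z (ν ^ 5)).filter Nat.Prime with hs
  set A := (TU ν V Q).filter (fun x => ph x ∈ s.biUnion (fun p => TF ν V Q p (-1))) with hA
  have h1 : (TU ν V Q) ⊆ GU ν V Q z ∪ (TU ν V 1).filter (fun x => x.1.1 ∣ x.2.1) ∪
    (TU ν V 1).filter (fun x => ¬ x.1.1 ∣ x.2.1 ∧ x.1.1 ∣ x.2.2.1) ∪
    (TU ν V 1).filter (fun x => (x.1.1).Coprime (x.2.1 * x.2.2.1) ∧ x.1.2 ∣ x.2.1) ∪
    (TU ν V 1).filter (fun x => (x.1.1).Coprime (x.2.1 * x.2.2.1) ∧ ¬ x.1.2 ∣ x.2.1 ∧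
      x.1.2 ∣ x.2.2.1) ∪ s.biUnion (fun p => TF ν V Q p 1) ∪ A := by
    intro x hx
    rcases cases_TU (z := z) hV x hx with h | h | h | h | h | ⟨p, hp, h⟩ | ⟨p, hp, h⟩
    · simp only [mem_union]; tauto
    · simp only [mem_union]; tauto
    · simp only [mem_union]; tauto
    · simp only [mem_union]; tauto
    · simp only [mem_union]; tauto
    · exact mem_union_left _ (mem_union_right _ (mem_biUnion.2 ⟨p, hp, h⟩))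
    · exact mem_union_right _ (mem_filter.2 ⟨hx, mem_biUnion.2 ⟨p, hp, h⟩⟩)
  have hAc : A.card ≤ ∑ p ∈ s, (TF ν V Q p (-1)).card := by
    refine le_trans (card_le_card_of_injOn ph (fun x hx => ?_) ?_) card_biUnion_le
    · exact (mem_filter.1 (Finset.mem_coe.1 hx)).2
    · intro x hx y hy hxy
      exact ph_inj (Finset.mem_coe.2 (mem_filter.1 (Finset.mem_coe.1 hx)).1)
        (Finset.mem_coe.2 (mem_filter.1 (Finset.mem_coe.1 hy)).1) hxy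
  refine (card_le_card h1).trans ?_
  refine (card_union_le _ _).trans (add_le_add ?_ hAc)
  refine (card_union_le _ _).trans (add_le_add ?_ card_biUnion_le)
  refine (card_union_le _ _).trans (Nat.add_le_add_right ?_ _)
  refine (card_union_le _ _).trans (Nat.add_le_add_right ?_ _)
  refine (card_union_le _ _).trans (Nat.add_le_add_right ?_ _)
  exact card_union_le _ _

end Pool.Agent.T2h80.L5.CNLx

namespace Pool.Agent.T2h80.L5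

open Finset Pool.Agent.T2h80.F5 Pool.Agent.T2h80.L5.LOWx Pool.Agent.T2h80.L5.CNLx

theorem t_CNL (hLOW : S_LOW) (hFPG : S_FPG) (hEX1 : S_EX1) (hEX2 : S_EX2) (hEX3 : S_EX3)
    (hEX4 : S_EX4) (hPRI : S_PRI) : S_CNL := by
  obtain ⟨C₁, hC₁, hF⟩ := hFPG
  obtain ⟨z₀, hz₀⟩ := exists_nat_ge (2 * C₁)
  refine ⟨z₀ + 2, by omega, ?_⟩
  set z := z₀ + 2 with hz
  intro k hk
  have hQ : 1 ≤ z.factorial := Nat.factorial_pos z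
  set Q := z.factorial with hQd
  obtain ⟨n1, h1⟩ := hLOW Q k hQ (by omega)
  obtain ⟨n2, h2⟩ := hF Q k z hQ (by omega) (by omega)
  obtain ⟨n3, h3⟩ := hEX1 k hk
  obtain ⟨n4, h4⟩ := hEX2 k hk
  obtain ⟨n5, h5⟩ := hEX3 k hk
  obtain ⟨n6, h6⟩ := hEX4 k hk
  have hk0 : (0 : ℝ) < k := by exact_mod_cast (by omega : 0 < k)
  obtain ⟨V₀, h7⟩ := hPRI ((1 / 2) / k) (by positivity)
  refine ⟨n1 + n2 + n3 + n4 + n5 + n6 + V₀ + 16 * Q ^ 4 + 1, fun ν hν => ?_⟩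
  have hVν : ν ≤ ν ^ k := Nat.le_self_pow (by omega) ν
  have hV0 : 0 < ν ^ k := by omega
  have hPP := PP_low (by omega : 1 ≤ ν) (by omega : 1 ≤ k) (1 / 2) (h7 (ν ^ k) (by omega))
  have hνr : (1 : ℝ) ≤ ν := by exact_mod_cast (by omega : 1 ≤ ν)
  have hν0 : (0 : ℝ) < ν := by linarith
  have hc := card_TU (Q := Q) (z := z) (ν := ν) hV0
  have hc' : ((TU ν (ν ^ k) Q).card : ℝ) ≤ ((GU ν (ν ^ k) Q z).card : ℝ) +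
    (((TU ν (ν ^ k) 1).filter (fun x => x.1.1 ∣ x.2.1)).card : ℝ) +
    (((TU ν (ν ^ k) 1).filter (fun x => ¬ x.1.1 ∣ x.2.1 ∧ x.1.1 ∣ x.2.2.1)).card : ℝ) +
    (((TU ν (ν ^ k) 1).filter (fun x => (x.1.1).Coprime (x.2.1 * x.2.2.1) ∧ x.1.2 ∣ x.2.1)).card : ℝ) +
    (((TU ν (ν ^ k) 1).filter (fun x => (x.1.1).Coprime (x.2.1 * x.2.2.1) ∧ ¬ x.1.2 ∣ x.2.1 ∧
      x.1.2 ∣ x.2.2.1)).card : ℝ) +
    ((∑ p ∈ (Ioc z (ν ^ 5)).filter Nat.Prime, (TF ν (ν ^ k) Q p 1).card : ℕ) : ℝ) +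
    ((∑ p ∈ (Ioc z (ν ^ 5)).filter Nat.Prime, (TF ν (ν ^ k) Q p (-1)).card : ℕ) : ℝ) := by
    exact_mod_cast hc
  have g1 := h1 ν (by omega)
  have g2 := h2 ν (by omega) 1 (Or.inl rfl)
  have g2' := h2 ν (by omega) (-1) (Or.inr rfl)
  have g3 := h3 ν (by omega)
  have g4 := h4 ν (by omega)
  have g5 := h5 ν (by omega)
  have g6 := h6 ν (by omega)
  set X : ℝ := (ν : ℝ) ^ 8 * ((ν : ℝ) ^ k) ^ 2 * ((PP (ν ^ k)).card : ℝ) / (Q : ℝ) ^ 2 with hX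
  have hX0 : 0 ≤ X := by positivity
  have e1 : 3 * (ν : ℝ) ^ 8 * ((ν : ℝ) ^ k) ^ 2 * ((PP (ν ^ k)).card : ℝ) / (Q : ℝ) ^ 2 = 3 * X := by
    rw [hX]; ring
  have hzr : (0 : ℝ) < z := by exact_mod_cast (by omega : 0 < z)
  have e2 : C₁ / (z : ℝ) * (ν : ℝ) ^ 8 * ((ν : ℝ) ^ k) ^ 2 * ((PP (ν ^ k)).card : ℝ) / (Q : ℝ) ^ 2 ≤ X / 2 := by
    have e3 : C₁ / (z : ℝ) * (ν : ℝ) ^ 8 * ((ν : ℝ) ^ k) ^ 2 * ((PP (ν ^ k)).card : ℝ) / (Q : ℝ) ^ 2 =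
        C₁ / (z : ℝ) * X := by rw [hX]; ring
    rw [e3]
    have e4 : C₁ / (z : ℝ) ≤ 1 / 2 := by
      rw [div_le_iff₀ hzr]
      have : (z₀ : ℝ) ≤ z := by exact_mod_cast (by omega : z₀ ≤ z)
      linarith
    calc C₁ / (z : ℝ) * X ≤ 1 / 2 * X := mul_le_mul_of_nonneg_right e4 hX0
      _ = X / 2 := by ring
  have e5 : 4 * ((ν : ℝ) ^ 7 * ((ν : ℝ) ^ k) ^ 4) ≤ X := by
    rw [hX, le_div_iff₀ (by positivity)]
    have hsq : 4 * (Q : ℝ) ^ 2 ≤ (ν : ℝ) ^ (1 / 2 : ℝ) := by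
      rw [← Real.sqrt_eq_rpow]
      apply Real.le_sqrt_of_sq_le
      have : 16 * Q ^ 4 ≤ ν := by omega
      have h8 : (16 : ℝ) * (Q : ℝ) ^ 4 ≤ ν := by exact_mod_cast this
      have h9 : (4 * (Q : ℝ) ^ 2) ^ 2 = 16 * (Q : ℝ) ^ 4 := by ring
      rw [h9]
      exact h8
    have hmul : (ν : ℝ) ^ (1 / 2 : ℝ) * (ν : ℝ) ^ (1 / 2 : ℝ) = ν := by
      rw [← Real.rpow_add hν0]; norm_num
    calc 4 * ((ν : ℝ) ^ 7 * ((ν : ℝ) ^ k) ^ 4) * (Q : ℝ) ^ 2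
        = (4 * (Q : ℝ) ^ 2) * ((ν : ℝ) ^ 7 * ((ν : ℝ) ^ k) ^ 2 * ((ν : ℝ) ^ k) ^ 2) := by ring
      _ ≤ (ν : ℝ) ^ (1 / 2 : ℝ) * ((ν : ℝ) ^ 7 * ((ν : ℝ) ^ k) ^ 2 *
          ((ν : ℝ) ^ (1 / 2 : ℝ) * ((PP (ν ^ k)).card : ℝ))) := by
          refine mul_le_mul hsq ?_ (by positivity) (by positivity)
          exact mul_le_mul_of_nonneg_left hPP (by positivity)
      _ = ((ν : ℝ) ^ (1 / 2 : ℝ) * (ν : ℝ) ^ (1 / 2 : ℝ)) * ((ν : ℝ) ^ 7 * ((ν : ℝ) ^ k) ^ 2 *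
          ((PP (ν ^ k)).card : ℝ)) := by ring
      _ = _ := by rw [hmul]; ring
  rw [e1] at g1
  linarith

end Pool.Agent.T2h80.L5
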