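import Pool.Agent.T2h80.L5.Stm

set_option autoImplicit false

namespace Pool.Agent.T2h80.L5

open Finset Pool.Agent.T2h80.F5

namespace COEaux

set_option maxHeartbeats 1000000 in
lemma sizes (e p V v w Ns Nt Z X Y R r k l j : ℝ) (he : 0 ≤ e) (hp : 0 < p) (hV : 0 < V)
    (hNs : 0 < Ns) (hNt : 0 < Nt) (hZ : 0 ≤ Z) (hv : V ≤ v) (hv2 : v ≤ 2 * V) (hw : V ≤ w)
    (hw2 : w ≤ 2 * V) (h1 : 100 * e * (p * Ns + Nt) ≤ Z * V ^ 3) (h2 : 1000 * V ^ 3 ≤ Z * Ns)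
    (h3 : 1000 * p * V ^ 3 ≤ Z * Nt) (hX : |X| ≤ 2 * (p * Ns)) (hY : |Y| ≤ 2 * Nt)
    (hR : |R| * Ns ≤ v ^ 3 * w) (hr : |r| * Nt ≤ p * v ^ 3)
    (hk : e * Y = k * v ^ 3 - R * w ^ 2)
    (hl : e * X = l * v ^ 3 - 2 * R * v ^ 2 - r * w ^ 3) (hj : 5 * R = 2 * l * v + j * w) :
    |k| ≤ Z ∧ |l| ≤ Z ∧ |j| ≤ Z ∧ |r| ≤ Z := by
  have hvp : 0 < v := by linarith
  have hwp : 0 < w := by linarith
  have hv3 : 0 < v ^ 3 := by positivity
  have hV3 : 0 < V ^ 3 := by positivity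
  obtain ⟨c, hc⟩ : ∃ c : ℝ, c = Z / 1000 := ⟨_, rfl⟩
  have hZc : Z = 1000 * c := by rw [hc]; ring
  have hc0 : 0 ≤ c := by rw [hc]; positivity
  obtain ⟨q, hq⟩ : ∃ q : ℝ, q = c / V ^ 3 := ⟨_, rfl⟩
  have hq0 : 0 ≤ q := by rw [hq]; positivity
  have hqV : q * V ^ 3 = c := by rw [hq]; field_simp
  have b1 : w ^ 3 * q ≤ 8 * c := by
    calc w ^ 3 * q ≤ (2 * V) ^ 3 * q := by gcongr
      _ = 8 * (q * V ^ 3) := by ring
      _ = 8 * c := by rw [hqV]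
  have b2 : v ^ 3 * q ≤ 8 * c := by
    calc v ^ 3 * q ≤ (2 * V) ^ 3 * q := by gcongr
      _ = 8 * (q * V ^ 3) := by ring
      _ = 8 * c := by rw [hqV]
  have b3 : v ^ 2 * w * q ≤ 8 * c := by
    calc v ^ 2 * w * q ≤ (2 * V) ^ 2 * (2 * V) * q := by gcongr
      _ = 8 * (q * V ^ 3) := by ring
      _ = 8 * c := by rw [hqV]
  have hRb : |R| ≤ v ^ 3 * w * q := by
    have e1 : |R| * V ^ 3 ≤ (v ^ 3 * w * q) * V ^ 3 := by
      have e2 : V ^ 3 ≤ c * Ns := by rw [hZc] at h2; nlinarith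
      calc |R| * V ^ 3 ≤ |R| * (c * Ns) := by gcongr
        _ = c * (|R| * Ns) := by ring
        _ ≤ c * (v ^ 3 * w) := by gcongr
        _ = (v ^ 3 * w * q) * V ^ 3 := by rw [← hqV]; ring
    exact le_of_mul_le_mul_right e1 hV3
  have hrb : |r| ≤ v ^ 3 * q := by
    have e1 : |r| * (p * V ^ 3) ≤ (v ^ 3 * q) * (p * V ^ 3) := by
      have e2 : p * V ^ 3 ≤ c * Nt := by rw [hZc] at h3; nlinarith
      calc |r| * (p * V ^ 3) ≤ |r| * (c * Nt) := by gcongr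
        _ = c * (|r| * Nt) := by ring
        _ ≤ c * (p * v ^ 3) := by gcongr
        _ = (v ^ 3 * q) * (p * V ^ 3) := by rw [← hqV]; ring
    exact le_of_mul_le_mul_right e1 (by positivity)
  have h1' : 100 * e * (p * Ns) + 100 * e * Nt ≤ 1000 * c * V ^ 3 := by rw [hZc] at h1; linarith
  have hVv : V ^ 3 ≤ v ^ 3 := by gcongr
  have hcV : c * V ^ 3 ≤ c * v ^ 3 := by gcongr
  have heX : e * |X| ≤ 20 * c * v ^ 3 := by
    have e1 : e * |X| ≤ e * (2 * (p * Ns)) := by gcongr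
    have e2 : 0 ≤ 100 * e * Nt := by positivity
    nlinarith
  have heY : e * |Y| ≤ 20 * c * v ^ 3 := by
    have e1 : e * |Y| ≤ e * (2 * Nt) := by gcongr
    have e2 : 0 ≤ 100 * e * (p * Ns) := by positivity
    nlinarith
  have rk : |k| ≤ 28 * c := by
    have e0 : |k| * v ^ 3 = |e * Y + R * w ^ 2| := by
      rw [show e * Y + R * w ^ 2 = k * v ^ 3 by linarith, abs_mul, abs_of_pos hv3]
    have e1 : |e * Y + R * w ^ 2| ≤ e * |Y| + |R| * w ^ 2 := by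
      refine (abs_add_le _ _).trans (le_of_eq ?_)
      rw [abs_mul, abs_mul, abs_of_nonneg he, abs_of_pos (show (0:ℝ) < w ^ 2 by positivity)]
    have e3 : |R| * w ^ 2 ≤ v ^ 3 * (8 * c) := by
      calc |R| * w ^ 2 ≤ v ^ 3 * w * q * w ^ 2 := by gcongr
        _ = v ^ 3 * (w ^ 3 * q) := by ring
        _ ≤ v ^ 3 * (8 * c) := by gcongr
    have e4 : |k| * v ^ 3 ≤ (28 * c) * v ^ 3 := by rw [e0]; linarith
    exact le_of_mul_le_mul_right e4 hv3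
  have rl : |l| ≤ 44 * c := by
    have e0 : |l| * v ^ 3 = |e * X + 2 * R * v ^ 2 + r * w ^ 3| := by
      rw [show e * X + 2 * R * v ^ 2 + r * w ^ 3 = l * v ^ 3 by linarith, abs_mul, abs_of_pos hv3]
    have e1 : |e * X + 2 * R * v ^ 2 + r * w ^ 3| ≤ e * |X| + 2 * |R| * v ^ 2 + |r| * w ^ 3 := by
      refine (abs_add_three _ _ _).trans (le_of_eq ?_)
      rw [abs_mul, abs_mul, abs_mul, abs_mul, abs_of_nonneg he,
        abs_of_pos (show (0:ℝ) < w ^ 3 by positivity), abs_of_pos (show (0:ℝ) < v ^ 2 by positivity),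
        abs_of_pos (show (0:ℝ) < 2 by norm_num)]
    have e3 : 2 * |R| * v ^ 2 ≤ v ^ 3 * (16 * c) := by
      calc 2 * |R| * v ^ 2 ≤ 2 * (v ^ 3 * w * q) * v ^ 2 := by gcongr
        _ = v ^ 3 * (2 * (v ^ 2 * w * q)) := by ring
        _ ≤ v ^ 3 * (2 * (8 * c)) := by gcongr
        _ = v ^ 3 * (16 * c) := by ring
    have e3' : |r| * w ^ 3 ≤ v ^ 3 * (8 * c) := by
      calc |r| * w ^ 3 ≤ v ^ 3 * q * w ^ 3 := by gcongr
        _ = v ^ 3 * (w ^ 3 * q) := by ring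
        _ ≤ v ^ 3 * (8 * c) := by gcongr
    have e4 : |l| * v ^ 3 ≤ (44 * c) * v ^ 3 := by rw [e0]; linarith
    exact le_of_mul_le_mul_right e4 hv3
  have rj : |j| ≤ 216 * c := by
    have e0 : |j| * w = |5 * R - 2 * l * v| := by
      rw [show 5 * R - 2 * l * v = j * w by linarith, abs_mul, abs_of_pos hwp]
    have e1 : |5 * R - 2 * l * v| ≤ 5 * |R| + 2 * |l| * v := by
      refine (abs_sub _ _).trans (le_of_eq ?_)
      rw [abs_mul, abs_mul, abs_mul, abs_of_pos hvp, abs_of_pos (show (0:ℝ) < 2 by norm_num),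
        abs_of_pos (show (0:ℝ) < 5 by norm_num)]
    have e2 : 5 * |R| ≤ w * (40 * c) := by
      calc 5 * |R| ≤ 5 * (v ^ 3 * w * q) := by gcongr
        _ = w * (5 * (v ^ 3 * q)) := by ring
        _ ≤ w * (5 * (8 * c)) := by gcongr
        _ = w * (40 * c) := by ring
    have e3 : 2 * |l| * v ≤ w * (176 * c) := by
      calc 2 * |l| * v ≤ 2 * (44 * c) * (2 * w) := by gcongr; linarith
        _ = w * (176 * c) := by ring
    have e4 : |j| * w ≤ (216 * c) * w := by rw [e0]; linarith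
    exact le_of_mul_le_mul_right e4 hwp
  refine ⟨by linarith, by linarith, by linarith, by linarith⟩

end COEaux

open COEaux

set_option maxHeartbeats 1000000 in
/-- **COE.** -/
theorem t_COE (hDUA : S_DUA) : S_COE := by
  classical
  intro v w p hv0 hw0 hp0 hco hpco σ hσ
  have hσ2 : σ * σ = 1 := by rcases hσ with rfl | rfl <;> norm_num
  have hcoZ : IsCoprime (v : ℤ) (w : ℤ) := Nat.isCoprime_iff_coprime.mpr hco
  have hco3 : IsCoprime ((v : ℤ) ^ 3) (w : ℤ) := hcoZ.pow_left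
  have hcop : IsCoprime (p : ℤ) ((v : ℤ) ^ 3 * w) := by
    have h1 : IsCoprime (p : ℤ) ((v : ℤ) * w) := by
      have := Nat.isCoprime_iff_coprime.mpr hpco
      push_cast at this
      exact this
    exact IsCoprime.mul_right (h1.of_mul_right_left.pow_right) h1.of_mul_right_right
  have hco3' := hco3
  obtain ⟨a1, b1, hab⟩ := hco3
  obtain ⟨a2, b2, hab2⟩ := hcoZ
  obtain ⟨p', b3, hpp⟩ := hcop
  -- `hab : a1 * v^3 + b1 * w = 1`, `hab2 : a2 * v + b2 * w = 1`, `hpp : p' * p + b3 * (v^3*w) = 1`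
  have hvR : (0 : ℝ) < v := by exact_mod_cast hv0
  have hwR : (0 : ℝ) < w := by exact_mod_cast hw0
  have hpR : (0 : ℝ) < p := by exact_mod_cast hp0
  refine ⟨(a1 * v ^ 3) * p * a2 ^ 2, -(σ * ((b1 * w) * b1 ^ 2)), (b1 * w) * p' * v ^ 2 * b1 ^ 4, ?_, ?_⟩
  · intro s t m
    have hq : ((v ^ 3 * w : ℕ) : ℤ) = (v : ℤ) ^ 3 * w := by push_cast; ring
    rw [hq]
    -- congruences mod `v ^ 3`
    have e1 : ((v : ℤ) ^ 3 ∣ t ^ 2 * v ^ 2 - (σ * (p * s)) * t * w ^ 2 - (p * m) * w ^ 4) ↔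
        (v : ℤ) ^ 3 ∣ m - ((a1 * v ^ 3) * p * a2 ^ 2 * s ^ 2 + -(σ * ((b1 * w) * b1 ^ 2)) * s * t +
          (b1 * w) * p' * v ^ 2 * b1 ^ 4 * t ^ 2) := by
      have hw1 : (b1 * w : ℤ) = 1 - a1 * v ^ 3 := by linarith
      have hp1 : (p' * p : ℤ) = 1 - b3 * (v ^ 3 * w) := by linarith
      -- work in `ZMod`
      have hc : ∀ a b : ℤ, ((v : ℤ) ^ 3 ∣ a - b) ↔ a ≡ b [ZMOD (v : ℤ) ^ 3] := by
        intro a b
        rw [Int.modEq_iff_dvd, ← dvd_neg, neg_sub]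
      constructor
      · rintro ⟨z, hz⟩
        obtain ⟨u, hu⟩ : (v : ℤ) ^ 3 ∣ (b1 * w) ^ 4 - 1 :=
          ⟨-a1 * ((b1 * w) ^ 3 + (b1 * w) ^ 2 + (b1 * w) + 1), by
            linear_combination ((b1 * w) ^ 3 + (b1 * w) ^ 2 + (b1 * w) + 1 : ℤ) * hw1⟩
        obtain ⟨u2, hu2⟩ : (v : ℤ) ^ 3 ∣ (b1 * w) ^ 2 - 1 :=
          ⟨-a1 * ((b1 * w) + 1), by linear_combination ((b1 * w) + 1 : ℤ) * hw1⟩
        refine ⟨-(p' * b1 ^ 4 * z) - a1 * p * a2 ^ 2 * s ^ 2 + (-(m * u * (p' * p)) + b3 * w * m) +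
          ((-(a1 * σ * b1 ^ 2 * s * t)) + (b3 * w * σ * s * t * b1 ^ 2) -
            (σ * s * t * b1 ^ 2 * (p' * p)) * u2) +
          a1 * p' * v ^ 2 * b1 ^ 4 * t ^ 2, ?_⟩
        linear_combination (-(p' * b1 ^ 4) : ℤ) * hz - (m * p' * p : ℤ) * hu -
          (σ * s * t * b1 ^ 2 * (p' * p)) * hu2 - (m + σ * s * t * b1 ^ 2) * hp1 +
          (σ * b1 ^ 2 * s * t - p' * v ^ 2 * b1 ^ 4 * t ^ 2) * hw1
      · rintro ⟨z, hz⟩
        obtain ⟨u, hu⟩ : (v : ℤ) ^ 3 ∣ (b1 * w) ^ 5 - 1 :=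
          ⟨-a1 * ((b1 * w) ^ 4 + (b1 * w) ^ 3 + (b1 * w) ^ 2 + (b1 * w) + 1), by
            linear_combination ((b1 * w) ^ 4 + (b1 * w) ^ 3 + (b1 * w) ^ 2 + (b1 * w) + 1 : ℤ) * hw1⟩
        obtain ⟨u3, hu3⟩ : (v : ℤ) ^ 3 ∣ (b1 * w) ^ 3 - 1 :=
          ⟨-a1 * ((b1 * w) ^ 2 + (b1 * w) + 1), by
            linear_combination ((b1 * w) ^ 2 + (b1 * w) + 1 : ℤ) * hw1⟩
        refine ⟨-(p * w ^ 4 * z) - p * w ^ 4 * a1 * p * a2 ^ 2 * s ^ 2 +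
          (p * σ * s * t * w ^ 2) * u3 - (t ^ 2 * v ^ 2 * (p' * p) * u) + (t ^ 2 * v ^ 2) * (b3 * w), ?_⟩
        linear_combination (-(p * w ^ 4 : ℤ)) * hz + (p * σ * s * t * w ^ 2 : ℤ) * hu3 -
          (t ^ 2 * v ^ 2 * (p' * p) : ℤ) * hu - (t ^ 2 * v ^ 2 : ℤ) * hp1
    have e2 : ((w : ℤ) ∣ (σ * (p * s)) ^ 2 - (p * m) * v ^ 2) ↔
        (w : ℤ) ∣ m - ((a1 * v ^ 3) * p * a2 ^ 2 * s ^ 2 + -(σ * ((b1 * w) * b1 ^ 2)) * s * t +
          (b1 * w) * p' * v ^ 2 * b1 ^ 4 * t ^ 2) := by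
      have hw1 : (a1 * v ^ 3 : ℤ) = 1 - b1 * w := by linarith
      have hw2 : (a2 * v : ℤ) = 1 - b2 * w := by linarith
      have hp1 : (p' * p : ℤ) = 1 - b3 * (v ^ 3 * w) := by linarith
      obtain ⟨u2, hu2⟩ : (w : ℤ) ∣ (a2 * v) ^ 2 - 1 :=
          ⟨-b2 * ((a2 * v) + 1), by linear_combination ((a2 * v) + 1 : ℤ) * hw2⟩
      have hσ2' : σ ^ 2 = 1 := by rw [sq]; exact hσ2
      constructor
      · rintro ⟨z, hz⟩
        refine ⟨-(p' * a2 ^ 2 * z) + b3 * v ^ 3 * m - (m * p' * p) * u2 + b1 * p * a2 ^ 2 * s ^ 2 -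
          (b3 * v ^ 3) * (p * s ^ 2 * a2 ^ 2)
          + σ * b1 ^ 3 * s * t - b1 ^ 5 * p' * v ^ 2 * t ^ 2, ?_⟩
        linear_combination (-(p' * a2 ^ 2) : ℤ) * hz - (m * p' * p : ℤ) * hu2 - (m : ℤ) * hp1 -
          (p * a2 ^ 2 * s ^ 2) * hw1 + (p * s ^ 2 * a2 ^ 2) * hp1 +
          (p' * a2 ^ 2 * p ^ 2 * s ^ 2) * hσ2'
      · rintro ⟨z, hz⟩
        refine ⟨-(p * v ^ 2 * z) + (p ^ 2 * s ^ 2) * (b1 * (a2 * v) ^ 2 - u2) +
          p * v ^ 2 * (σ * (b1 * b1 ^ 2) * s * t) - p * v ^ 2 * (b1 * p' * v ^ 2 * b1 ^ 4 * t ^ 2), ?_⟩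
        linear_combination (-(p * v ^ 2) : ℤ) * hz - (p ^ 2 * s ^ 2 : ℤ) * hu2 -
          (p ^ 2 * s ^ 2 * (a2 * v) ^ 2) * hw1 + (p ^ 2 * s ^ 2) * hσ2'
    unfold Cg
    rw [e1, e2]
    constructor
    · rintro ⟨h1, h2⟩
      exact hco3'.mul_dvd h1 h2
    · intro h
      exact ⟨(dvd_mul_right _ _).trans h, (dvd_mul_left _ _).trans h⟩
  · intro V Z e Ns Nt hV1 hV2 hW1 hW2 he1 hN1 hN2 hb1 hb2 hb3
    have hNsR : (0 : ℝ) < Ns := by exact_mod_cast hN1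
    have hNtR : (0 : ℝ) < Nt := by exact_mod_cast hN2
    have heR : (0 : ℝ) < e := by exact_mod_cast he1
    have hV0 : 0 < V := by omega
    have hVR : (0 : ℝ) < V := by exact_mod_cast hV0
    have hσR : ((σ : ℝ)) * σ = 1 := by exact_mod_cast hσ2
    have hσa : |(σ : ℝ)| = 1 := by rcases hσ with rfl | rfl <;> norm_num
    have hcoZ' : IsCoprime (v : ℤ) (w : ℤ) := Nat.isCoprime_iff_coprime.mpr hco
    set A : ℤ := (a1 * v ^ 3) * p * a2 ^ 2 with hA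
    set B' : ℤ := -(σ * (b1 * b1 ^ 2)) with hB'
    set C' : ℤ := b1 * p' * v ^ 2 * b1 ^ 4 with hC'
    have hB : -(σ * ((b1 * w) * b1 ^ 2)) = w * B' := by rw [hB']; ring
    have hC : (b1 * w) * p' * v ^ 2 * b1 ^ 4 = w * C' := by rw [hC']; ring
    rw [hB, hC]
    have hex : ∀ x y : ℤ, |x| ≤ 2 * (Ns : ℤ) → |y| ≤ 2 * (Nt : ℤ) →
        (∃ n : ℤ, |2 * ((e : ℝ) * A / (v ^ 3 * w : ℕ)) * x +
          ((e : ℝ) * ((w * B' : ℤ) : ℝ) / (v ^ 3 * w : ℕ)) * y - n| ≤ 1 / Ns) →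
        (∃ n : ℤ, |((e : ℝ) * ((w * B' : ℤ) : ℝ) / (v ^ 3 * w : ℕ)) * x +
          2 * ((e : ℝ) * ((w * C' : ℤ) : ℝ) / (v ^ 3 * w : ℕ)) * y - n| ≤ 1 / Nt) →
        ∃ q : ℤ × ℤ × ℤ × ℤ, q ∈ BX Z Z Z Z ∧ (p : ℤ) ∣ q.2.2.2 ∧
          5 * ((e : ℤ) * (p * x)) = G1 q.1 q.2.1 q.2.2.1 q.2.2.2 v w ∧
          5 * ((e : ℤ) * (σ * y)) = G2 q.1 q.2.1 q.2.2.1 q.2.2.2 v w := by
      intro x y hx hy h1 h2
      obtain ⟨n, hn⟩ := h1
      obtain ⟨n', hn'⟩ := h2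
      obtain ⟨R, hR⟩ : ∃ R : ℤ, R = e * (2 * A * x + w * B' * y) - n * v ^ 3 * w := ⟨_, rfl⟩
      obtain ⟨r₀, hr₀⟩ : ∃ r₀ : ℤ, r₀ = e * (B' * x + 2 * C' * y) - n' * v ^ 3 := ⟨_, rfl⟩
      have hRr : (R : ℝ) = (2 * ((e : ℝ) * A / (v ^ 3 * w : ℕ)) * x +
          ((e : ℝ) * ((w * B' : ℤ) : ℝ) / (v ^ 3 * w : ℕ)) * y - n) * (v ^ 3 * w) := by
        rw [hR]; push_cast; field_simp
      have hrr : (r₀ : ℝ) = (((e : ℝ) * ((w * B' : ℤ) : ℝ) / (v ^ 3 * w : ℕ)) * x +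
          2 * ((e : ℝ) * ((w * C' : ℤ) : ℝ) / (v ^ 3 * w : ℕ)) * y - n') * v ^ 3 := by
        rw [hr₀]; push_cast; field_simp
      have hRb : |(R : ℝ)| * Ns ≤ (v : ℝ) ^ 3 * w := by
        rw [hRr, abs_mul, abs_of_pos (show (0 : ℝ) < v ^ 3 * w by positivity)]
        calc _ ≤ (1 / (Ns : ℝ) * ((v : ℝ) ^ 3 * w)) * Ns := by gcongr
          _ = (v : ℝ) ^ 3 * w := by field_simp
      have hrb : |(r₀ : ℝ)| * Nt ≤ (v : ℝ) ^ 3 := by
        rw [hrr, abs_mul, abs_of_pos (show (0 : ℝ) < (v : ℝ) ^ 3 by positivity)]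
        calc _ ≤ (1 / (Nt : ℝ) * ((v : ℝ) ^ 3)) * Nt := by gcongr
          _ = (v : ℝ) ^ 3 := by field_simp
      have hw1 : (b1 * w : ℤ) = 1 - a1 * v ^ 3 := by linarith
      have hw1' : (a1 * v ^ 3 : ℤ) = 1 - b1 * w := by linarith
      have hw2 : (a2 * v : ℤ) = 1 - b2 * w := by linarith
      have hp1 : (p' * p : ℤ) = 1 - b3 * (v ^ 3 * w) := by linarith
      have hσ2' : σ ^ 2 = 1 := by rw [sq]; exact hσ2
      have d1 : (v : ℤ) ^ 3 ∣ e * (σ * y) + R * w ^ 2 := by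
        obtain ⟨u3, hu3⟩ : (v : ℤ) ^ 3 ∣ (b1 * w) ^ 3 - 1 :=
          ⟨-a1 * ((b1 * w) ^ 2 + (b1 * w) + 1), by
            linear_combination ((b1 * w) ^ 2 + (b1 * w) + 1 : ℤ) * hw1⟩
        refine ⟨e * 2 * a1 * p * a2 ^ 2 * x * w ^ 2 - n * w * w ^ 2 - e * σ * y * u3, ?_⟩
        rw [hR, hA, hB']
        linear_combination (-(e * σ * y) : ℤ) * hu3
      have d2 : (w : ℤ) ∣ 2 * e * (p * x) - R * v ^ 2 := by
        obtain ⟨u2, hu2⟩ : (w : ℤ) ∣ (a2 * v) ^ 2 - 1 :=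
          ⟨-b2 * ((a2 * v) + 1), by linear_combination ((a2 * v) + 1 : ℤ) * hw2⟩
        refine ⟨-(2 * e * p * x) * u2 + 2 * e * p * x * (a2 * v) ^ 2 * b1 - e * B' * y * v ^ 2 +
          n * v ^ 3 * v ^ 2, ?_⟩
        rw [hR, hA]
        linear_combination (-(2 * e * p * x) : ℤ) * hu2 - (2 * e * p * x * (a2 * v) ^ 2 : ℤ) * hw1'
      have d3 : (v : ℤ) ^ 3 ∣ (σ * p * r₀) * w ^ 5 - e * (2 * v ^ 2 * (σ * y) - w ^ 2 * (p * x)) := by
        obtain ⟨u3, hu3⟩ : (v : ℤ) ^ 3 ∣ (b1 * w) ^ 3 - 1 :=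
          ⟨-a1 * ((b1 * w) ^ 2 + (b1 * w) + 1), by
            linear_combination ((b1 * w) ^ 2 + (b1 * w) + 1 : ℤ) * hw1⟩
        obtain ⟨u, hu⟩ : (v : ℤ) ^ 3 ∣ (b1 * w) ^ 5 - 1 :=
          ⟨-a1 * ((b1 * w) ^ 4 + (b1 * w) ^ 3 + (b1 * w) ^ 2 + (b1 * w) + 1), by
            linear_combination ((b1 * w) ^ 4 + (b1 * w) ^ 3 + (b1 * w) ^ 2 + (b1 * w) + 1 : ℤ) * hw1⟩
        refine ⟨-(p * e * x * w ^ 2 * u3) + 2 * σ * e * y * v ^ 2 * (p' * p) * u -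
          2 * σ * e * y * v ^ 2 * (b3 * w) - σ * p * n' * w ^ 5, ?_⟩
        rw [hr₀, hB', hC']
        linear_combination (-(p * e * x * w ^ 2) : ℤ) * hu3 +
          (2 * σ * e * y * v ^ 2 * (p' * p) : ℤ) * hu + (2 * σ * e * y * v ^ 2 : ℤ) * hp1 -
          (p * e * x * (b1 * w) ^ 3 * w ^ 2) * hσ2'
      obtain ⟨k, l, j, i1, i2, i3, i4, i5⟩ := hDUA v w e (p * x) (σ * y) R (σ * p * r₀)
        (by exact_mod_cast hv0) (by exact_mod_cast hw0) hcoZ' d1 d2 d3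
      have j1 : (e : ℝ) * ((σ : ℝ) * y) = k * v ^ 3 - R * w ^ 2 := by exact_mod_cast i1
      have j2 : (e : ℝ) * ((p : ℝ) * x) = l * v ^ 3 - 2 * R * v ^ 2 - (σ * p * r₀) * w ^ 3 := by
        exact_mod_cast i2
      have j3 : 5 * (R : ℝ) = 2 * l * v + j * w := by exact_mod_cast i3
      have hX : |(p : ℝ) * x| ≤ 2 * (p * Ns) := by
        have : |(x : ℝ)| ≤ 2 * (Ns : ℝ) := by exact_mod_cast hx
        rw [abs_mul, abs_of_pos hpR]
        nlinarith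
      have hY : |(σ : ℝ) * y| ≤ 2 * Nt := by
        have : |(y : ℝ)| ≤ 2 * (Nt : ℝ) := by exact_mod_cast hy
        rw [abs_mul, hσa, one_mul]
        exact this
      have hrb' : |(σ : ℝ) * p * r₀| * Nt ≤ p * (v : ℝ) ^ 3 := by
        rw [abs_mul, abs_mul, hσa, one_mul, abs_of_pos hpR, mul_assoc]
        exact mul_le_mul_of_nonneg_left hrb hpR.le
      obtain ⟨k1, k2, k3, k4⟩ := sizes e p V v w Ns Nt Z (p * x) (σ * y) R (σ * p * r₀) k l j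
        heR.le hpR hVR hNsR hNtR (Nat.cast_nonneg _) (by exact_mod_cast hV1)
        (by exact_mod_cast hV2.le) (by exact_mod_cast hW1) (by exact_mod_cast hW2.le)
        (by exact_mod_cast hb1) (by exact_mod_cast hb2) (by exact_mod_cast hb3) hX hY hRb hrb'
        j1 j2 j3
      refine ⟨(k, l, j, σ * p * r₀), ?_, ⟨σ * r₀, by ring⟩, i4, i5⟩
      simp only [BX, Finset.mem_product, Finset.mem_Icc]
      exact ⟨abs_le.mp (by exact_mod_cast k1), abs_le.mp (by exact_mod_cast k2),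
        abs_le.mp (by exact_mod_cast k3), abs_le.mp (by exact_mod_cast k4)⟩
    have hepos : (0 : ℤ) < (e : ℤ) := by exact_mod_cast he1
    have hppos : (0 : ℤ) < (p : ℤ) := by exact_mod_cast hp0
    have hσ0 : σ ≠ 0 := by rcases hσ with rfl | rfl <;> norm_num
    rw [DW]
    set S := ((Icc (-(2 * Ns : ℤ)) (2 * Ns)) ×ˢ (Icc (-(2 * Nt : ℤ)) (2 * Nt))).filter
      (fun x : ℤ × ℤ =>
        (∃ n : ℤ, |2 * ((e : ℝ) * A / (v ^ 3 * w : ℕ)) * x.1 +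
          ((e : ℝ) * ((w * B' : ℤ) : ℝ) / (v ^ 3 * w : ℕ)) * x.2 - n| ≤ 1 / Ns) ∧
        (∃ n : ℤ, |((e : ℝ) * ((w * B' : ℤ) : ℝ) / (v ^ 3 * w : ℕ)) * x.1 +
          2 * ((e : ℝ) * ((w * C' : ℤ) : ℝ) / (v ^ 3 * w : ℕ)) * x.2 - n| ≤ 1 / Nt)) with hS
    have hmem : ∀ z ∈ S, ∃ q : ℤ × ℤ × ℤ × ℤ, q ∈ BX Z Z Z Z ∧ (p : ℤ) ∣ q.2.2.2 ∧
        5 * ((e : ℤ) * (p * z.1)) = G1 q.1 q.2.1 q.2.2.1 q.2.2.2 v w ∧
        5 * ((e : ℤ) * (σ * z.2)) = G2 q.1 q.2.1 q.2.2.1 q.2.2.2 v w := by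
      rintro ⟨x, y⟩ hp
      rw [hS, Finset.mem_filter, Finset.mem_product, Finset.mem_Icc, Finset.mem_Icc] at hp
      obtain ⟨⟨hx, hy⟩, hn, hn'⟩ := hp
      exact hex x y (abs_le.mpr hx) (abs_le.mpr hy) hn hn'
    choose! f hf1 hf0 hf2 hf3 using hmem
    have hcard : (S.erase (0, 0)).card ≤ KQ p Z e v w := by
      rw [KQ]
      apply Finset.card_le_card_of_injOn f
      · intro z hp
        rw [Finset.mem_coe, Finset.mem_erase] at hp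
        rw [Finset.mem_coe, Finset.mem_filter]
        refine ⟨hf1 z hp.2, hf0 z hp.2, ?_, ?_, ?_⟩
        · rw [← hf2 z hp.2]
          exact ⟨5 * (p * z.1), by ring⟩
        · rw [← hf3 z hp.2]
          exact ⟨5 * (σ * z.2), by ring⟩
        · rintro ⟨z1, z2⟩
          rw [← hf2 z hp.2] at z1
          rw [← hf3 z hp.2] at z2
          apply hp.1
          have y1 : z.1 = 0 := by
            rcases mul_eq_zero.mp z1 with h' | h'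
            · norm_num at h'
            · exact (mul_eq_zero.mp ((mul_eq_zero.mp h').resolve_left hepos.ne')).resolve_left
                hppos.ne'
          have y2 : z.2 = 0 := by
            rcases mul_eq_zero.mp z2 with h' | h'
            · norm_num at h'
            · exact (mul_eq_zero.mp ((mul_eq_zero.mp h').resolve_left hepos.ne')).resolve_left hσ0
          exact Prod.ext y1 y2
      · intro z hp z' hp' hpp2
        rw [Finset.mem_coe, Finset.mem_erase] at hp hp'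
        have a1 := hf2 z hp.2
        have a2 := hf2 z' hp'.2
        have b1 := hf3 z hp.2
        have b2 := hf3 z' hp'.2
        rw [hpp2, ← a2] at a1
        rw [hpp2, ← b2] at b1
        have a3 := mul_left_cancel₀ hppos.ne'
          (mul_left_cancel₀ hepos.ne' (mul_left_cancel₀ (by norm_num) a1))
        have b3 := mul_left_cancel₀ hσ0
          (mul_left_cancel₀ hepos.ne' (mul_left_cancel₀ (by norm_num) b1))
        exact Prod.ext a3 b3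
    have := Finset.pred_card_le_card_erase (s := S) (a := ((0 : ℤ), (0 : ℤ)))
    omega

end Pool.Agent.T2h80.L5
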