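import Pool.Agent.T2h80.L5.Stm

set_option autoImplicit false

namespace Pool.Agent.T2h80.L5

open Finset Pool.Agent.T2h80.F5

theorem ex1_two_step {α β γ : Type} [DecidableEq β] [DecidableEq γ] (s : Finset α) (g : α → β)
    (h : α → γ) (B : Finset β) (d : β → Finset γ) (D : ℝ) (L : ℕ)
    (hg : ∀ a ∈ s, g a ∈ B) (hh : ∀ a ∈ s, h a ∈ d (g a)) (hd : ∀ b ∈ B, ((d b).card : ℝ) ≤ D)
    (hL : ∀ b c, (s.filter (fun a => g a = b ∧ h a = c)).card ≤ L) :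
    (s.card : ℝ) ≤ L * (D * B.card) := by
  have h1 : s.card ≤ L * (B.sigma d).card := by
    refine Finset.card_le_mul_card_image_of_maps_to (f := fun a => (⟨g a, h a⟩ : Σ _ : β, γ)) ?_ L ?_
    · intro a ha
      rw [Finset.mem_sigma]
      exact ⟨hg a ha, hh a ha⟩
    · rintro ⟨b, c⟩ _
      refine le_trans (Finset.card_le_card ?_) (hL b c)
      intro a ha
      simp only [Finset.mem_filter, Sigma.mk.injEq, heq_eq_eq] at ha ⊢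
      exact ha
  have h2 : ((B.sigma d).card : ℝ) ≤ D * B.card := by
    rw [Finset.card_sigma]
    push_cast
    refine (Finset.sum_le_sum hd).trans (le_of_eq ?_)
    rw [Finset.sum_const, nsmul_eq_mul, mul_comm]
  calc (s.card : ℝ) ≤ ((L * (B.sigma d).card : ℕ) : ℝ) := by exact_mod_cast h1
    _ = L * ((B.sigma d).card : ℝ) := by push_cast; rfl
    _ ≤ _ := mul_le_mul_of_nonneg_left h2 (by positivity)

/-- the conditions on a tuple of `TU ν V 1` with `v ∣ s` -/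
def ex1C (ν V v w s t m : ℕ) : Prop :=
  v.Prime ∧ w.Prime ∧ v ≠ w ∧ V ≤ v ∧ v < 2 * V ∧ V ≤ w ∧ w < 2 * V ∧
  ν ^ 2 * V ^ 2 ≤ s ∧ s < 2 * (ν ^ 2 * V ^ 2) ∧ ν ^ 2 * V ^ 2 ≤ t ∧ t < 2 * (ν ^ 2 * V ^ 2) ∧
  m < 2 * (676 * ν ^ 4 * V ^ 2) ∧ Cg v w s t m ∧ v ∣ s

theorem ex1_mem (ν V : ℕ) (x : (ℕ × ℕ) × ℕ × ℕ × ℕ) (hx : x ∈ TU ν V 1) (hd : x.1.1 ∣ x.2.1) :
    ex1C ν V x.1.1 x.1.2 x.2.1 x.2.2.1 x.2.2.2 := by
  obtain ⟨⟨v, w⟩, s, t, m⟩ := x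
  simp only [TU, mem_filter, mem_product, PP, PV, IS, IM, mem_Ico] at hx
  obtain ⟨⟨⟨⟨⟨⟨hv1, hv2⟩, hvp⟩, ⟨hw1, hw2⟩, hwp⟩, hvw⟩, ⟨hs1, hs2⟩, ⟨ht1, ht2⟩, hm1, hm2⟩,
    _, _, hC⟩ := hx
  exact ⟨hvp, hwp, hvw, hv1, hv2, hw1, hw2, hs1, hs2, ht1, ht2, hm2, hC, hd⟩

theorem ex1_facts {ν V v w s t m : ℕ} (h : ex1C ν V v w s t m) :
    ∃ s' m' : ℕ, s = v * s' ∧ m = v * m' ∧
      (v : ℤ) ^ 2 ∣ (t : ℤ) ^ 2 * v - s' * t * (w : ℤ) ^ 2 - m' * (w : ℤ) ^ 4 ∧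
      (w : ℤ) ∣ (s' : ℤ) ^ 2 - v * m' := by
  obtain ⟨hvp, hwp, hvw, hv1, hv2, hw1, hw2, hs1, hs2, ht1, ht2, hm2, ⟨hC1, hC2⟩, s', rfl⟩ := h
  have hvwc : Nat.Coprime v w := (Nat.coprime_primes hvp hwp).2 hvw
  have hvwZ : IsCoprime (v : ℤ) (w : ℤ) := Nat.isCoprime_iff_coprime.2 hvwc
  have hv0 : (0 : ℤ) < v := by exact_mod_cast hvp.pos
  have hvm : (v : ℤ) ∣ m := by
    have h1 : (v : ℤ) ∣ (t : ℤ) ^ 2 * (v : ℤ) ^ 2 - ((v * s' : ℕ) : ℤ) * t * (w : ℤ) ^ 2 - m * (w : ℤ) ^ 4 :=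
      dvd_trans (dvd_pow_self _ (by norm_num)) hC1
    have h2 : (v : ℤ) ∣ (w : ℤ) ^ 4 * m := by
      have : (w : ℤ) ^ 4 * m = (v : ℤ) * ((t : ℤ) ^ 2 * v - s' * t * (w : ℤ) ^ 2) -
        ((t : ℤ) ^ 2 * (v : ℤ) ^ 2 - ((v * s' : ℕ) : ℤ) * t * (w : ℤ) ^ 2 - m * (w : ℤ) ^ 4) := by
        push_cast; ring
      rw [this]
      exact dvd_sub (dvd_mul_right _ _) h1
    exact (hvwZ.pow_right (n := 4)).dvd_of_dvd_mul_left h2
  obtain ⟨m', rfl⟩ := (Int.natCast_dvd_natCast.1 hvm)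
  refine ⟨s', m', rfl, rfl, ?_, ?_⟩
  · have h1 : (t : ℤ) ^ 2 * (v : ℤ) ^ 2 - ((v * s' : ℕ) : ℤ) * t * (w : ℤ) ^ 2 - ((v * m' : ℕ) : ℤ) * (w : ℤ) ^ 4 =
      v * ((t : ℤ) ^ 2 * v - s' * t * (w : ℤ) ^ 2 - m' * (w : ℤ) ^ 4) := by push_cast; ring
    rw [h1, show (v : ℤ) ^ 3 = v * (v : ℤ) ^ 2 by ring] at hC1
    exact (mul_dvd_mul_iff_left hv0.ne').1 hC1
  · have h1 : (((v * s' : ℕ) : ℤ)) ^ 2 - ((v * m' : ℕ) : ℤ) * (v : ℤ) ^ 2 =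
      (v : ℤ) ^ 2 * ((s' : ℤ) ^ 2 - v * m') := by push_cast; ring
    rw [h1] at hC2
    exact (hvwZ.symm.pow_right (n := 2)).dvd_of_dvd_mul_left hC2

theorem ex1_t {v w : ℕ} (hvp : v.Prime) (hvwZ : IsCoprime (v : ℤ) (w : ℤ)) (s' m' t t' : ℤ)
    (hs' : ¬ (v : ℤ) ∣ s')
    (h1 : (v : ℤ) ^ 2 ∣ t ^ 2 * v - s' * t * (w : ℤ) ^ 2 - m' * (w : ℤ) ^ 4)
    (h2 : (v : ℤ) ^ 2 ∣ t' ^ 2 * v - s' * t' * (w : ℤ) ^ 2 - m' * (w : ℤ) ^ 4) :
    (v : ℤ) ^ 2 ∣ t - t' := by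
  have hvP : Prime (v : ℤ) := Nat.prime_iff_prime_int.1 hvp
  have h3 : (v : ℤ) ^ 2 ∣ ((t + t') * v - s' * (w : ℤ) ^ 2) * (t - t') := by
    have : ((t + t') * v - s' * (w : ℤ) ^ 2) * (t - t') =
      (t ^ 2 * v - s' * t * (w : ℤ) ^ 2 - m' * (w : ℤ) ^ 4) -
      (t' ^ 2 * v - s' * t' * (w : ℤ) ^ 2 - m' * (w : ℤ) ^ 4) := by ring
    rw [this]
    exact dvd_sub h1 h2
  have h4 : IsCoprime (v : ℤ) ((t + t') * v - s' * (w : ℤ) ^ 2) := by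
    rw [(hvP.coprime_iff_not_dvd)]
    intro h5
    have h6 : (v : ℤ) ∣ s' * (w : ℤ) ^ 2 := by
      have : s' * (w : ℤ) ^ 2 = (t + t') * v - ((t + t') * v - s' * (w : ℤ) ^ 2) := by ring
      rw [this]
      exact dvd_sub (dvd_mul_left _ _) h5
    exact hs' ((hvwZ.pow_right (n := 2)).dvd_of_dvd_mul_right h6)
  exact (h4.pow_left (m := 2)).dvd_of_dvd_mul_left h3

theorem ex1_five (a b : ℤ) (hb : b ≠ 0) : a ^ 2 - b * a - b ^ 2 ≠ 0 := by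
  intro h
  have h1 : (2 * a - b) ^ 2 = 5 * b ^ 2 := by linear_combination 4 * h
  have h2 : Prime (5 : ℤ) := by norm_num
  have h3 : Irrational (Real.sqrt 5) := by
    have := Nat.Prime.irrational_sqrt (p := 5) (by norm_num)
    simpa using this
  apply h3
  refine ⟨|((2 * a - b : ℤ) : ℚ) / b|, ?_⟩
  have h4 : (((2 * a - b : ℤ) : ℝ)) ^ 2 = 5 * (b : ℝ) ^ 2 := by exact_mod_cast h1
  have hb' : (b : ℝ) ≠ 0 := by exact_mod_cast hb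
  have h5 : (((2 * a - b : ℤ) : ℝ) / b) ^ 2 = 5 := by
    rw [div_pow, h4]; field_simp
  have h6 : (5 : ℝ) = (|((2 * a - b : ℤ) : ℝ) / b|) ^ 2 := by rw [sq_abs, h5]
  rw [h6, Real.sqrt_sq (abs_nonneg _)]
  push_cast
  rfl

theorem ex1_natAbs_sub (a b c : ℕ) (ha : a ≤ c) (hb : b ≤ c) : ((a : ℤ) - b).natAbs ≤ c := by omega

theorem ex1_a (ν V : ℕ) (hν : 1 ≤ ν) (hV : 1 ≤ V) (D : ℝ)
    (hD : ∀ n : ℕ, n ≤ 3000 * ν ^ 4 * V ^ 4 → (n.divisors.card : ℝ) ≤ D)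
    (A : Finset ((ℕ × ℕ) × ℕ × ℕ × ℕ))
    (hA : ∀ x ∈ A, ex1C ν V x.1.1 x.1.2 x.2.1 x.2.2.1 x.2.2.2 ∧ x.2.1 ^ 2 ≠ x.2.2.2 * x.1.1 ^ 2 ∧
      ¬ x.1.1 ^ 2 ∣ x.2.1) :
    (A.card : ℝ) ≤ (ν : ℝ) ^ 2 * (D * ((V : ℝ) * (2 * ν ^ 2 * V) * (1352 * ν ^ 4 * V))) := by
  classical
  have key := ex1_two_step A (fun x => (x.1.1, x.2.1 / x.1.1, x.2.2.2 / x.1.1)) (fun x => x.1.2)
    (Ico V (2 * V) ×ˢ Finset.range (2 * ν ^ 2 * V) ×ˢ Finset.range (1352 * ν ^ 4 * V))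
    (fun b => (((b.2.1 ^ 2 : ℕ) : ℤ) - ((b.1 * b.2.2 : ℕ) : ℤ)).natAbs.divisors) D (ν ^ 2) ?_ ?_ ?_ ?_
  · refine key.trans (le_of_eq ?_)
    simp only [Finset.card_product, Nat.card_Ico, Finset.card_range]
    have : 2 * V - V = V := by omega
    rw [this]
    push_cast
    ring
  · intro x hx
    obtain ⟨⟨hvp, hwp, hvw, hv1, hv2, hw1, hw2, hs1, hs2, ht1, ht2, hm2, _, _⟩, _, _⟩ := hA x hx
    simp only [mem_product, mem_Ico, Finset.mem_range]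
    refine ⟨⟨hv1, hv2⟩, ?_, ?_⟩
    · refine Nat.div_lt_of_lt_mul (hs2.trans_le ?_)
      calc 2 * (ν ^ 2 * V ^ 2) = V * (2 * ν ^ 2 * V) := by ring
        _ ≤ x.1.1 * (2 * ν ^ 2 * V) := Nat.mul_le_mul_right _ hv1
    · refine Nat.div_lt_of_lt_mul (hm2.trans_le ?_)
      calc 2 * (676 * ν ^ 4 * V ^ 2) = V * (1352 * ν ^ 4 * V) := by ring
        _ ≤ x.1.1 * (1352 * ν ^ 4 * V) := Nat.mul_le_mul_right _ hv1
  · intro x hx
    obtain ⟨hC, hne, _⟩ := hA x hx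
    obtain ⟨s', m', hs', hm', _, h2⟩ := ex1_facts hC
    have hv0 : 0 < x.1.1 := hC.1.pos
    simp only [hs', hm', Nat.mul_div_cancel_left _ hv0]
    rw [Nat.mem_divisors]
    constructor
    · rw [← Int.natCast_dvd]
      push_cast
      exact h2
    · rw [Int.natAbs_ne_zero]
      intro h0
      apply hne
      have h0' : s' ^ 2 = x.1.1 * m' := by
        have := sub_eq_zero.1 h0
        exact_mod_cast this
      rw [hs', hm', mul_pow, h0']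
      ring
  · rintro ⟨v, s', m'⟩ hb
    simp only [mem_product, mem_Ico, Finset.mem_range] at hb
    obtain ⟨⟨hv1, hv2⟩, hs', hm'⟩ := hb
    refine hD _ (ex1_natAbs_sub _ _ _ ?_ ?_)
    · calc s' ^ 2 ≤ (2 * ν ^ 2 * V) ^ 2 := Nat.pow_le_pow_left hs'.le 2
        _ = 4 * ν ^ 4 * V ^ 2 := by ring
        _ ≤ 3000 * ν ^ 4 * V ^ 4 := Nat.mul_le_mul (Nat.mul_le_mul_right _ (by norm_num))
            (Nat.pow_le_pow_right hV (by norm_num))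
    · calc v * m' ≤ (2 * V) * (1352 * ν ^ 4 * V) := Nat.mul_le_mul hv2.le hm'.le
        _ = 2704 * ν ^ 4 * V ^ 2 := by ring
        _ ≤ 3000 * ν ^ 4 * V ^ 4 := Nat.mul_le_mul (Nat.mul_le_mul_right _ (by norm_num))
            (Nat.pow_le_pow_right hV (by norm_num))
  · rintro ⟨v, s', m'⟩ w
    have : (A.filter (fun a => (a.1.1, a.2.1 / a.1.1, a.2.2.2 / a.1.1) = (v, s', m') ∧ a.1.2 = w)).card ≤
        (Finset.range (ν ^ 2)).card := by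
      refine Finset.card_le_card_of_injOn (fun x => (x.2.2.1 - ν ^ 2 * V ^ 2) / v ^ 2) ?_ ?_
      · intro x hx
        simp only [Finset.coe_filter, Set.mem_ofPred_eq, Prod.mk.injEq] at hx
        obtain ⟨hxA, ⟨rfl, _, _⟩, _⟩ := hx
        obtain ⟨⟨hvp, hwp, hvw, hv1, hv2, hw1, hw2, hs1, hs2, ht1, ht2, hm2, _, _⟩, _, _⟩ := hA x hxA
        simp only [Finset.coe_range, Set.mem_Iio]
        refine Nat.div_lt_of_lt_mul ?_
        have h1 : ν ^ 2 * V ^ 2 ≤ x.1.1 ^ 2 * ν ^ 2 := by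
          rw [mul_comm]
          exact Nat.mul_le_mul_right _ (Nat.pow_le_pow_left hv1 2)
        omega
      · intro x hx y hy hxy
        simp only [Finset.coe_filter, Set.mem_ofPred_eq, Prod.mk.injEq] at hx hy
        obtain ⟨hxA, ⟨hxv, hxs, hxm⟩, hxw⟩ := hx
        obtain ⟨hyA, ⟨hyv, hys, hym⟩, hyw⟩ := hy
        obtain ⟨hCx, hnex, hdx⟩ := hA x hxA
        obtain ⟨hCy, hney, hdy⟩ := hA y hyA
        obtain ⟨sx, mx, hsx, hmx, hx1, _⟩ := ex1_facts hCx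
        obtain ⟨sy, my, hsy, hmy, hy1, _⟩ := ex1_facts hCy
        have hvp := hCx.1
        have hv0 : 0 < x.1.1 := hvp.pos
        have hv0' : 0 < y.1.1 := hCy.1.pos
        have e1 : sx = s' := by rw [hsx, Nat.mul_div_cancel_left _ hv0] at hxs; exact hxs
        have e2 : sy = s' := by rw [hsy, Nat.mul_div_cancel_left _ hv0'] at hys; exact hys
        have e3 : mx = m' := by rw [hmx, Nat.mul_div_cancel_left _ hv0] at hxm; exact hxm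
        have e4 : my = m' := by rw [hmy, Nat.mul_div_cancel_left _ hv0'] at hym; exact hym
        subst e1 e3
        rw [e2] at hsy hy1
        rw [e4] at hmy hy1
        rw [hyv, hyw] at hy1
        rw [hxv, hxw] at hx1
        rw [hxv] at hvp
        have hwp : w.Prime := by rw [← hxw]; exact hCx.2.1
        have hvwne : v ≠ w := by rw [← hxv, ← hxw]; exact hCx.2.2.1
        have hvwZ : IsCoprime (v : ℤ) (w : ℤ) :=
          Nat.isCoprime_iff_coprime.2 ((Nat.coprime_primes hvp hwp).2 hvwne)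
        have hns : ¬ (v : ℤ) ∣ (sx : ℤ) := by
          intro h
          apply hdx
          rw [hsx, pow_two]
          refine Nat.mul_dvd_mul_left _ ?_
          rw [hxv]
          exact_mod_cast h
        have ht := ex1_t hvp hvwZ sx mx x.2.2.1 y.2.2.1 hns hx1 hy1
        have htx1 : ν ^ 2 * V ^ 2 ≤ x.2.2.1 := hCx.2.2.2.2.2.2.2.2.2.1
        have hty1 : ν ^ 2 * V ^ 2 ≤ y.2.2.1 := hCy.2.2.2.2.2.2.2.2.2.1
        have hteq : x.2.2.1 = y.2.2.1 := by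
          simp only at hxy
          have hm : (x.2.2.1 - ν ^ 2 * V ^ 2) % v ^ 2 = (y.2.2.1 - ν ^ 2 * V ^ 2) % v ^ 2 := by
            have : ((y.2.2.1 - ν ^ 2 * V ^ 2 : ℕ) : ℤ) ≡ ((x.2.2.1 - ν ^ 2 * V ^ 2 : ℕ) : ℤ) [ZMOD ((v ^ 2 : ℕ) : ℤ)] := by
              rw [Int.modEq_iff_dvd]
              push_cast [Nat.cast_sub htx1, Nat.cast_sub hty1]
              have : (x.2.2.1 : ℤ) - (ν : ℤ) ^ 2 * (V : ℤ) ^ 2 - ((y.2.2.1 : ℤ) - (ν : ℤ) ^ 2 * (V : ℤ) ^ 2) =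
                x.2.2.1 - y.2.2.1 := by ring
              rw [this]
              exact ht
            exact ((Int.natCast_modEq_iff.1 this).symm)
          have h1 := Nat.div_add_mod (x.2.2.1 - ν ^ 2 * V ^ 2) (v ^ 2)
          have h2 := Nat.div_add_mod (y.2.2.1 - ν ^ 2 * V ^ 2) (v ^ 2)
          rw [hxy, hm] at h1
          omega
        refine Prod.ext (Prod.ext ?_ ?_) (Prod.ext ?_ (Prod.ext hteq ?_))
        · rw [hxv, hyv]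
        · rw [hxw, hyw]
        · rw [hsx, hsy, hxv, hyv]
        · rw [hmx, hmy, hxv, hyv]
    simpa using this

theorem ex1_facts2 {ν V v w s t m : ℕ} (h : ex1C ν V v w s t m) (hd : v ^ 2 ∣ s) :
    ∃ s' m' : ℕ, s = v ^ 2 * s' ∧ m = v ^ 2 * m' ∧
      (v : ℤ) ∣ (t : ℤ) ^ 2 - (s' * t * (w : ℤ) ^ 2 + m' * (w : ℤ) ^ 4) ∧
      (w : ℤ) ∣ (s' : ℤ) ^ 2 - m' := by
  obtain ⟨s₁, m₁, hs₁, hm₁, h1, h2⟩ := ex1_facts h
  have hvp := h.1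
  have hv0 : 0 < v := hvp.pos
  have hv0Z : (0 : ℤ) < v := by exact_mod_cast hv0
  have hvwc : Nat.Coprime v w := (Nat.coprime_primes hvp h.2.1).2 h.2.2.1
  have hvwZ : IsCoprime (v : ℤ) (w : ℤ) := Nat.isCoprime_iff_coprime.2 hvwc
  have hvs : v ∣ s₁ := by
    rw [hs₁, pow_two] at hd
    exact Nat.dvd_of_mul_dvd_mul_left hv0 hd
  obtain ⟨s', rfl⟩ := hvs
  have hvm : (v : ℤ) ∣ m₁ := by
    have h3 : (v : ℤ) ∣ (t : ℤ) ^ 2 * v - ((v * s' : ℕ) : ℤ) * t * (w : ℤ) ^ 2 - m₁ * (w : ℤ) ^ 4 :=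
      dvd_trans (dvd_pow_self _ (by norm_num)) h1
    have h4 : (v : ℤ) ∣ (w : ℤ) ^ 4 * m₁ := by
      have : (w : ℤ) ^ 4 * m₁ = (v : ℤ) * ((t : ℤ) ^ 2 - s' * t * (w : ℤ) ^ 2) -
        ((t : ℤ) ^ 2 * v - ((v * s' : ℕ) : ℤ) * t * (w : ℤ) ^ 2 - m₁ * (w : ℤ) ^ 4) := by
        push_cast; ring
      rw [this]
      exact dvd_sub (dvd_mul_right _ _) h3
    exact (hvwZ.pow_right (n := 4)).dvd_of_dvd_mul_left h4
  obtain ⟨m', rfl⟩ := (Int.natCast_dvd_natCast.1 hvm)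
  refine ⟨s', m', by rw [hs₁]; ring, by rw [hm₁]; ring, ?_, ?_⟩
  · have h3 : (t : ℤ) ^ 2 * v - ((v * s' : ℕ) : ℤ) * t * (w : ℤ) ^ 2 - ((v * m' : ℕ) : ℤ) * (w : ℤ) ^ 4 =
      v * ((t : ℤ) ^ 2 - (s' * t * (w : ℤ) ^ 2 + m' * (w : ℤ) ^ 4)) := by push_cast; ring
    rw [h3, pow_two] at h1
    exact (mul_dvd_mul_iff_left hv0Z.ne').1 h1
  · have h3 : (((v * s' : ℕ) : ℤ)) ^ 2 - v * ((v * m' : ℕ) : ℤ) =
      (v : ℤ) ^ 2 * ((s' : ℤ) ^ 2 - m') := by push_cast; ring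
    rw [h3] at h2
    exact (hvwZ.symm.pow_right (n := 2)).dvd_of_dvd_mul_left h2

theorem ex1_b (ν V : ℕ) (hV : 1 ≤ V) (D : ℝ)
    (hD : ∀ n : ℕ, n ≤ 3000 * ν ^ 4 * V ^ 4 → (n.divisors.card : ℝ) ≤ D)
    (A : Finset ((ℕ × ℕ) × ℕ × ℕ × ℕ))
    (hA : ∀ x ∈ A, ex1C ν V x.1.1 x.1.2 x.2.1 x.2.2.1 x.2.2.2 ∧ x.2.1 ^ 2 ≠ x.2.2.2 * x.1.1 ^ 2 ∧
      x.1.1 ^ 2 ∣ x.2.1) :
    (A.card : ℝ) ≤ ((ν : ℝ) ^ 2 * (V : ℝ) ^ 2) * (D * ((V : ℝ) * (2 * ν ^ 2) * (1352 * ν ^ 4))) := by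
  classical
  have key := ex1_two_step A (fun x => (x.1.1, x.2.1 / x.1.1 ^ 2, x.2.2.2 / x.1.1 ^ 2)) (fun x => x.1.2)
    (Ico V (2 * V) ×ˢ Finset.range (2 * ν ^ 2) ×ˢ Finset.range (1352 * ν ^ 4))
    (fun b => (((b.2.1 ^ 2 : ℕ) : ℤ) - ((b.2.2 : ℕ) : ℤ)).natAbs.divisors) D (ν ^ 2 * V ^ 2) ?_ ?_ ?_ ?_
  · refine key.trans (le_of_eq ?_)
    simp only [Finset.card_product, Nat.card_Ico, Finset.card_range]
    have : 2 * V - V = V := by omega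
    rw [this]
    push_cast
    ring
  · intro x hx
    obtain ⟨⟨hvp, hwp, hvw, hv1, hv2, hw1, hw2, hs1, hs2, ht1, ht2, hm2, _, _⟩, _, _⟩ := hA x hx
    simp only [mem_product, mem_Ico, Finset.mem_range]
    have hvv : V ^ 2 ≤ x.1.1 ^ 2 := Nat.pow_le_pow_left hv1 2
    refine ⟨⟨hv1, hv2⟩, ?_, ?_⟩
    · refine Nat.div_lt_of_lt_mul (hs2.trans_le ?_)
      calc 2 * (ν ^ 2 * V ^ 2) = V ^ 2 * (2 * ν ^ 2) := by ring
        _ ≤ x.1.1 ^ 2 * (2 * ν ^ 2) := Nat.mul_le_mul_right _ hvv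
    · refine Nat.div_lt_of_lt_mul (hm2.trans_le ?_)
      calc 2 * (676 * ν ^ 4 * V ^ 2) = V ^ 2 * (1352 * ν ^ 4) := by ring
        _ ≤ x.1.1 ^ 2 * (1352 * ν ^ 4) := Nat.mul_le_mul_right _ hvv
  · intro x hx
    obtain ⟨hC, hne, hdv⟩ := hA x hx
    obtain ⟨s', m', hs', hm', _, h2⟩ := ex1_facts2 hC hdv
    have hv0 : 0 < x.1.1 ^ 2 := by have := hC.1.pos; positivity
    simp only [hs', hm', Nat.mul_div_cancel_left _ hv0]
    rw [Nat.mem_divisors]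
    constructor
    · rw [← Int.natCast_dvd]
      push_cast
      exact h2
    · rw [Int.natAbs_ne_zero]
      intro h0
      apply hne
      have h0' : s' ^ 2 = m' := by
        have := sub_eq_zero.1 h0
        exact_mod_cast this
      rw [hs', hm', mul_pow, h0']
      ring
  · rintro ⟨v, s', m'⟩ hb
    simp only [mem_product, mem_Ico, Finset.mem_range] at hb
    obtain ⟨⟨hv1, hv2⟩, hs', hm'⟩ := hb
    refine hD _ (ex1_natAbs_sub _ _ _ ?_ ?_)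
    · calc s' ^ 2 ≤ (2 * ν ^ 2) ^ 2 := Nat.pow_le_pow_left hs'.le 2
        _ = 4 * ν ^ 4 * 1 := by ring
        _ ≤ 3000 * ν ^ 4 * V ^ 4 := Nat.mul_le_mul (Nat.mul_le_mul_right _ (by norm_num))
            (Nat.one_le_pow _ _ hV)
    · calc m' ≤ 1352 * ν ^ 4 * 1 := by omega
        _ ≤ 3000 * ν ^ 4 * V ^ 4 := Nat.mul_le_mul (Nat.mul_le_mul_right _ (by norm_num))
            (Nat.one_le_pow _ _ hV)
  · rintro ⟨v, s', m'⟩ w
    have : (A.filter (fun a => (a.1.1, a.2.1 / a.1.1 ^ 2, a.2.2.2 / a.1.1 ^ 2) = (v, s', m') ∧ a.1.2 = w)).card ≤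
        (IS ν V).card := by
      refine Finset.card_le_card_of_injOn (fun x => x.2.2.1) ?_ ?_
      · intro x hx
        simp only [Finset.coe_filter, Set.mem_ofPred_eq, Prod.mk.injEq] at hx
        obtain ⟨hxA, ⟨rfl, _, _⟩, _⟩ := hx
        obtain ⟨⟨hvp, hwp, hvw, hv1, hv2, hw1, hw2, hs1, hs2, ht1, ht2, hm2, _, _⟩, _, _⟩ := hA x hxA
        simp only [IS, Finset.coe_Ico, Set.mem_Ico]
        exact ⟨ht1, ht2⟩
      · intro x hx y hy hxy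
        simp only [Finset.coe_filter, Set.mem_ofPred_eq, Prod.mk.injEq] at hx hy
        obtain ⟨hxA, ⟨hxv, hxs, hxm⟩, hxw⟩ := hx
        obtain ⟨hyA, ⟨hyv, hys, hym⟩, hyw⟩ := hy
        obtain ⟨hCx, hnex, hdx⟩ := hA x hxA
        obtain ⟨hCy, hney, hdy⟩ := hA y hyA
        obtain ⟨sx, mx, hsx, hmx, hx1, _⟩ := ex1_facts2 hCx hdx
        obtain ⟨sy, my, hsy, hmy, hy1, _⟩ := ex1_facts2 hCy hdy
        have hv0 : 0 < x.1.1 ^ 2 := by have := hCx.1.pos; positivity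
        have hv0' : 0 < y.1.1 ^ 2 := by have := hCy.1.pos; positivity
        have e1 : sx = s' := by rw [hsx, Nat.mul_div_cancel_left _ hv0] at hxs; exact hxs
        have e2 : sy = s' := by rw [hsy, Nat.mul_div_cancel_left _ hv0'] at hys; exact hys
        have e3 : mx = m' := by rw [hmx, Nat.mul_div_cancel_left _ hv0] at hxm; exact hxm
        have e4 : my = m' := by rw [hmy, Nat.mul_div_cancel_left _ hv0'] at hym; exact hym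
        refine Prod.ext (Prod.ext ?_ ?_) (Prod.ext ?_ (Prod.ext hxy ?_))
        · rw [hxv, hyv]
        · rw [hxw, hyw]
        · rw [hsx, hsy, hxv, hyv, e1, e2]
        · rw [hmx, hmy, hxv, hyv, e3, e4]
    refine this.trans (le_of_eq ?_)
    rw [IS, Nat.card_Ico]
    omega

theorem ex1_c (ν V : ℕ) (hν : 1 ≤ ν) (hV : 1 ≤ V) (D : ℝ)
    (hD : ∀ n : ℕ, n ≤ 3000 * ν ^ 4 * V ^ 4 → (n.divisors.card : ℝ) ≤ D)
    (A : Finset ((ℕ × ℕ) × ℕ × ℕ × ℕ))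
    (hA : ∀ x ∈ A, ex1C ν V x.1.1 x.1.2 x.2.1 x.2.2.1 x.2.2.2 ∧ x.2.1 ^ 2 = x.2.2.2 * x.1.1 ^ 2) :
    (A.card : ℝ) ≤ D * ((2 * ν ^ 2) * ((ν : ℝ) ^ 2 * (V : ℝ) ^ 2) * V) := by
  classical
  have hsq : ∀ x ∈ A, ∃ s' : ℕ, 0 < s' ∧ x.2.1 = x.1.1 ^ 2 * s' ∧ x.2.2.2 = x.1.1 ^ 2 * s' ^ 2 ∧
      (x.1.1 : ℤ) ∣ (x.2.2.1 : ℤ) ^ 2 - (s' * x.2.2.1 * (x.1.2 : ℤ) ^ 2 + (s' : ℤ) ^ 2 * (x.1.2 : ℤ) ^ 4) := by
    intro x hx
    obtain ⟨hC, heq⟩ := hA x hx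
    have hvp := hC.1
    have hv0 : 0 < x.1.1 := hvp.pos
    have hdv : x.1.1 ^ 2 ∣ x.2.1 := by
      obtain ⟨s₁, m₁, hs₁, hm₁, _, _⟩ := ex1_facts hC
      have h1 : s₁ ^ 2 = x.1.1 * m₁ := by
        rw [hs₁, hm₁] at heq
        have h2 : x.1.1 ^ 2 * s₁ ^ 2 = x.1.1 ^ 2 * (x.1.1 * m₁) := by
          calc x.1.1 ^ 2 * s₁ ^ 2 = (x.1.1 * s₁) ^ 2 := by ring
            _ = _ := heq
            _ = _ := by ring
        exact Nat.eq_of_mul_eq_mul_left (by positivity) h2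
      have h3 : x.1.1 ∣ s₁ := hvp.dvd_of_dvd_pow (n := 2) ⟨_, h1⟩
      rw [hs₁, pow_two]
      exact Nat.mul_dvd_mul_left _ h3
    obtain ⟨s', m', hs', hm', h1, _⟩ := ex1_facts2 hC hdv
    have hsm : m' = s' ^ 2 := by
      rw [hs', hm'] at heq
      have h2 : x.1.1 ^ 4 * s' ^ 2 = x.1.1 ^ 4 * m' := by
        calc x.1.1 ^ 4 * s' ^ 2 = (x.1.1 ^ 2 * s') ^ 2 := by ring
          _ = _ := heq
          _ = _ := by ring
      exact (Nat.eq_of_mul_eq_mul_left (by positivity) h2).symm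
    refine ⟨s', ?_, hs', by rw [hm', hsm], ?_⟩
    · rcases Nat.eq_zero_or_pos s' with h0 | h0
      · exfalso
        have h2 : ν ^ 2 * V ^ 2 ≤ x.2.1 := hC.2.2.2.2.2.2.2.1
        rw [hs', h0, mul_zero] at h2
        have : 0 < ν ^ 2 * V ^ 2 := by positivity
        omega
      · exact h0
    · rw [hsm] at h1
      exact_mod_cast h1
  have key := ex1_two_step A (fun x => (x.2.1 / x.1.1 ^ 2, x.2.2.1, x.1.2)) (fun x => x.1.1)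
    (Finset.range (2 * ν ^ 2) ×ˢ IS ν V ×ˢ Ico V (2 * V))
    (fun b => (((b.2.1 ^ 2 : ℕ) : ℤ) - ((b.1 * b.2.1 * b.2.2 ^ 2 + b.1 ^ 2 * b.2.2 ^ 4 : ℕ) : ℤ)).natAbs.divisors)
    D 1 ?_ ?_ ?_ ?_
  · refine key.trans (le_of_eq ?_)
    simp only [Finset.card_product, Nat.card_Ico, Finset.card_range, IS]
    have : 2 * V - V = V := by omega
    rw [this]
    have : 2 * (ν ^ 2 * V ^ 2) - ν ^ 2 * V ^ 2 = ν ^ 2 * V ^ 2 := by omega
    rw [this]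
    push_cast
    ring
  · intro x hx
    obtain ⟨⟨hvp, hwp, hvw, hv1, hv2, hw1, hw2, hs1, hs2, ht1, ht2, hm2, _, _⟩, _⟩ := hA x hx
    simp only [mem_product, mem_Ico, Finset.mem_range, IS]
    have hvv : V ^ 2 ≤ x.1.1 ^ 2 := Nat.pow_le_pow_left hv1 2
    refine ⟨?_, ⟨ht1, ht2⟩, hw1, hw2⟩
    refine Nat.div_lt_of_lt_mul (hs2.trans_le ?_)
    calc 2 * (ν ^ 2 * V ^ 2) = V ^ 2 * (2 * ν ^ 2) := by ring
      _ ≤ x.1.1 ^ 2 * (2 * ν ^ 2) := Nat.mul_le_mul_right _ hvv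
  · intro x hx
    obtain ⟨s', hs0, hs', hm', h2⟩ := hsq x hx
    obtain ⟨hC, heq⟩ := hA x hx
    have hv0 : 0 < x.1.1 ^ 2 := by have := hC.1.pos; positivity
    have hw0 : 0 < x.1.2 := hC.2.1.pos
    simp only [hs', Nat.mul_div_cancel_left _ hv0]
    rw [Nat.mem_divisors]
    constructor
    · rw [← Int.natCast_dvd]
      push_cast
      exact h2
    · rw [Int.natAbs_ne_zero]
      intro h0
      refine ex1_five x.2.2.1 (s' * (x.1.2 : ℤ) ^ 2) (by positivity) ?_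
      push_cast at h0
      linear_combination h0
  · rintro ⟨s', t, w⟩ hb
    simp only [mem_product, mem_Ico, Finset.mem_range, IS] at hb
    obtain ⟨hs', ⟨ht1, ht2⟩, hw1, hw2⟩ := hb
    refine hD _ (ex1_natAbs_sub _ _ _ ?_ ?_)
    · calc t ^ 2 ≤ (2 * (ν ^ 2 * V ^ 2)) ^ 2 := Nat.pow_le_pow_left ht2.le 2
        _ = 4 * ν ^ 4 * V ^ 4 := by ring
        _ ≤ 3000 * ν ^ 4 * V ^ 4 := Nat.mul_le_mul_right _ (Nat.mul_le_mul_right _ (by norm_num))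
    · calc s' * t * w ^ 2 + s' ^ 2 * w ^ 4 ≤ (2 * ν ^ 2) * (2 * (ν ^ 2 * V ^ 2)) * (2 * V) ^ 2 +
            (2 * ν ^ 2) ^ 2 * (2 * V) ^ 4 := by
            refine Nat.add_le_add ?_ ?_
            · exact Nat.mul_le_mul (Nat.mul_le_mul hs'.le ht2.le) (Nat.pow_le_pow_left hw2.le 2)
            · exact Nat.mul_le_mul (Nat.pow_le_pow_left hs'.le 2) (Nat.pow_le_pow_left hw2.le 4)
        _ = 80 * ν ^ 4 * V ^ 4 := by ring
        _ ≤ 3000 * ν ^ 4 * V ^ 4 := Nat.mul_le_mul_right _ (Nat.mul_le_mul_right _ (by norm_num))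
  · rintro ⟨s', t, w⟩ v
    rw [Finset.card_le_one]
    intro x hx y hy
    simp only [Finset.mem_filter, Prod.mk.injEq] at hx hy
    obtain ⟨hxA, ⟨hxs, hxt, hxw⟩, hxv⟩ := hx
    obtain ⟨hyA, ⟨hys, hyt, hyw⟩, hyv⟩ := hy
    obtain ⟨sx, _, hsx, hmx, _⟩ := hsq x hxA
    obtain ⟨sy, _, hsy, hmy, _⟩ := hsq y hyA
    have hv0 : 0 < x.1.1 ^ 2 := by have := (hA x hxA).1.1.pos; positivity
    have hv0' : 0 < y.1.1 ^ 2 := by have := (hA y hyA).1.1.pos; positivity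
    have e1 : sx = s' := by rw [hsx, Nat.mul_div_cancel_left _ hv0] at hxs; exact hxs
    have e2 : sy = s' := by rw [hsy, Nat.mul_div_cancel_left _ hv0'] at hys; exact hys
    refine Prod.ext (Prod.ext ?_ ?_) (Prod.ext ?_ (Prod.ext ?_ ?_))
    · rw [hxv, hyv]
    · rw [hxw, hyw]
    · rw [hsx, hsy, hxv, hyv, e1, e2]
    · rw [hxt, hyt]
    · rw [hmx, hmy, hxv, hyv, e1, e2]

theorem t_EX1 (hDIV : F5.S_DIV) : S_EX1 := by
  classical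
  intro k hk
  obtain ⟨C, hC, hD⟩ := hDIV (1 / (4 * k + 4)) (by positivity)
  obtain ⟨ν₀, hν₀⟩ := exists_nat_ge (C * 3000 * 5410)
  refine ⟨ν₀ + 1, ?_⟩
  intro ν hν
  have hν1 : 1 ≤ ν := by omega
  have hνR : (1 : ℝ) ≤ ν := by exact_mod_cast hν1
  have hV1 : 1 ≤ ν ^ k := Nat.one_le_pow _ _ hν1
  set V := ν ^ k with hVdef
  have hVR : (1 : ℝ) ≤ V := by exact_mod_cast hV1
  have hVcast : ((ν : ℝ) ^ k) = (V : ℝ) := by rw [hVdef]; push_cast; rfl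
  rw [hVcast]
  set D : ℝ := C * (3000 * ν) with hDdef
  have hD0 : 0 ≤ D := by positivity
  have hDn : ∀ n : ℕ, n ≤ 3000 * ν ^ 4 * V ^ 4 → (n.divisors.card : ℝ) ≤ D := by
    intro n hn
    rcases Nat.eq_zero_or_pos n with h0 | h0
    · rw [h0]; simpa using hD0
    · refine ((hD n h0).1).trans (mul_le_mul_of_nonneg_left ?_ hC.le)
      have h1 : (n : ℝ) ≤ 3000 * (ν : ℝ) ^ (4 * k + 4) := by
        have : (n : ℝ) ≤ ((3000 * ν ^ 4 * V ^ 4 : ℕ) : ℝ) := by exact_mod_cast hn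
        refine this.trans (le_of_eq ?_)
        rw [hVdef]
        push_cast
        ring
      have hk4 : (0 : ℝ) < 4 * k + 4 := by positivity
      calc (n : ℝ) ^ ((1 : ℝ) / (4 * k + 4)) ≤ (3000 * (ν : ℝ) ^ (4 * k + 4)) ^ ((1 : ℝ) / (4 * k + 4)) :=
            Real.rpow_le_rpow (by positivity) h1 (by positivity)
        _ = (3000 : ℝ) ^ ((1 : ℝ) / (4 * k + 4)) * ν := by
            rw [Real.mul_rpow (by norm_num) (by positivity), ← Real.rpow_natCast (ν : ℝ) (4 * k + 4),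
              ← Real.rpow_mul (by positivity)]
            have : ((4 * k + 4 : ℕ) : ℝ) * (1 / (4 * k + 4)) = 1 := by
              push_cast; field_simp
            rw [this, Real.rpow_one]
        _ ≤ 3000 * ν := by
            refine mul_le_mul_of_nonneg_right ?_ (by positivity)
            calc (3000 : ℝ) ^ ((1 : ℝ) / (4 * k + 4)) ≤ (3000 : ℝ) ^ (1 : ℝ) := by
                  refine Real.rpow_le_rpow_of_exponent_le (by norm_num) ?_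
                  rw [div_le_one hk4]
                  have : (0 : ℝ) ≤ k := by positivity
                  linarith
              _ = 3000 := Real.rpow_one _
  -- the three parts
  set T := (TU ν V 1).filter (fun x => x.1.1 ∣ x.2.1) with hT
  set Tc := T.filter (fun x => x.2.1 ^ 2 = x.2.2.2 * x.1.1 ^ 2) with hTc
  set Tn := T.filter (fun x => ¬ x.2.1 ^ 2 = x.2.2.2 * x.1.1 ^ 2) with hTn
  set Tb := Tn.filter (fun x => x.1.1 ^ 2 ∣ x.2.1) with hTb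
  set Ta := Tn.filter (fun x => ¬ x.1.1 ^ 2 ∣ x.2.1) with hTa
  have hmem : ∀ x ∈ T, ex1C ν V x.1.1 x.1.2 x.2.1 x.2.2.1 x.2.2.2 := by
    intro x hx
    rw [hT, Finset.mem_filter] at hx
    exact ex1_mem ν V x hx.1 hx.2
  have h1 : (Tc.card : ℝ) ≤ D * ((2 * ν ^ 2) * ((ν : ℝ) ^ 2 * (V : ℝ) ^ 2) * V) := by
    refine ex1_c ν V hν1 hV1 D hDn Tc ?_
    intro x hx
    rw [hTc, Finset.mem_filter] at hx
    exact ⟨hmem x hx.1, hx.2⟩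
  have h2 : (Tb.card : ℝ) ≤ ((ν : ℝ) ^ 2 * (V : ℝ) ^ 2) * (D * ((V : ℝ) * (2 * ν ^ 2) * (1352 * ν ^ 4))) := by
    refine ex1_b ν V hV1 D hDn Tb ?_
    intro x hx
    rw [hTb, Finset.mem_filter, hTn, Finset.mem_filter] at hx
    exact ⟨hmem x hx.1.1, hx.1.2, hx.2⟩
  have h3 : (Ta.card : ℝ) ≤ (ν : ℝ) ^ 2 * (D * ((V : ℝ) * (2 * ν ^ 2 * V) * (1352 * ν ^ 4 * V))) := by
    refine ex1_a ν V hν1 hV1 D hDn Ta ?_
    intro x hx
    rw [hTa, Finset.mem_filter, hTn, Finset.mem_filter] at hx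
    exact ⟨hmem x hx.1.1, hx.1.2, hx.2⟩
  have h4 : T.card = Tc.card + (Tb.card + Ta.card) := by
    rw [hTb, hTa, Finset.card_filter_add_card_filter_not, hTc, hTn,
      Finset.card_filter_add_card_filter_not]
  have h5 : (T.card : ℝ) = Tc.card + (Tb.card + Ta.card) := by exact_mod_cast h4
  rw [h5]
  have h6 : (C * 3000 * 5410) ≤ ν := hν₀.trans (by exact_mod_cast (by omega : ν₀ ≤ ν))
  have h7 : (ν : ℝ) ^ 3 ≤ V := by
    rw [← hVcast]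
    exact pow_le_pow_right₀ hνR (by omega)
  have h8 : (0 : ℝ) ≤ (ν : ℝ) ^ 8 * (V : ℝ) ^ 3 := by positivity
  have h9 : (ν : ℝ) ^ 4 * (V : ℝ) ^ 3 ≤ (ν : ℝ) ^ 8 * (V : ℝ) ^ 3 :=
    mul_le_mul_of_nonneg_right (pow_le_pow_right₀ hνR (by norm_num)) (by positivity)
  calc (Tc.card : ℝ) + (Tb.card + Ta.card) ≤
      D * (2 * ((ν : ℝ) ^ 4 * (V : ℝ) ^ 3)) + (D * (2704 * ((ν : ℝ) ^ 8 * (V : ℝ) ^ 3)) +
        D * (2704 * ((ν : ℝ) ^ 8 * (V : ℝ) ^ 3))) := by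
        refine add_le_add (h1.trans (le_of_eq (by ring))) (add_le_add (h2.trans (le_of_eq (by ring)))
          (h3.trans (le_of_eq (by ring))))
    _ ≤ D * (2 * ((ν : ℝ) ^ 8 * (V : ℝ) ^ 3)) + (D * (2704 * ((ν : ℝ) ^ 8 * (V : ℝ) ^ 3)) +
        D * (2704 * ((ν : ℝ) ^ 8 * (V : ℝ) ^ 3))) := by
        have := mul_le_mul_of_nonneg_left h9 hD0
        linarith
    _ = (C * 3000 * 5410) * ((ν : ℝ) ^ 9 * (V : ℝ) ^ 3) := by rw [hDdef]; ring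
    _ ≤ ν * ((ν : ℝ) ^ 9 * (V : ℝ) ^ 3) := mul_le_mul_of_nonneg_right h6 (by positivity)
    _ = ((ν : ℝ) ^ 7 * (V : ℝ) ^ 3) * (ν : ℝ) ^ 3 := by ring
    _ ≤ ((ν : ℝ) ^ 7 * (V : ℝ) ^ 3) * V := mul_le_mul_of_nonneg_left h7 (by positivity)
    _ = _ := by ring

end Pool.Agent.T2h80.L5
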