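import Pool.Agent.T2h80.F5.Stm

set_option autoImplicit false

/-!
# A lower bound for the 5-torsion of the class groups of imaginary quadratic fields: statements

Target (`S_FINL`): for every `ε > 0` and all large `X`
`∑_{-X < D < 0 fundamental} (|Cl(K_D)[5]| - 1) ≥ X ^ (1 - ε)`.

Parameters: `ν` (large), `V = ν ^ k` (`k` fixed and large), `S = ν ^ 2 V ^ 2` (size of `s, t`),
`M = 676 ν ^ 4 V ^ 2` (size of `m, a`), discriminants of size `ν ^ 12 V ^ 4`.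
-/

namespace Pool.Agent.T2h80.L5

open Finset NumberField Pool.Agent.T2h80.F5

/-! ## The tuples -/

/-- the congruences -/
def Cg (v w : ℕ) (s t m : ℤ) : Prop :=
  (v : ℤ) ^ 3 ∣ t ^ 2 * v ^ 2 - s * t * w ^ 2 - m * w ^ 4 ∧ (w : ℤ) ∣ s ^ 2 - m * v ^ 2

/-- the primes of `[V, 2V)` -/
def PV (V : ℕ) : Finset ℕ := (Ico V (2 * V)).filter Nat.Prime

/-- the pairs of distinct primes of `[V, 2V)` -/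
def PP (V : ℕ) : Finset (ℕ × ℕ) := (PV V ×ˢ PV V).filter (fun x => x.1 ≠ x.2)

/-- the range of `s` and `t` -/
def IS (ν V : ℕ) : Finset ℕ := Ico (ν ^ 2 * V ^ 2) (2 * (ν ^ 2 * V ^ 2))

/-- the range of `m` -/
def IM (ν V : ℕ) : Finset ℕ := Ico (676 * ν ^ 4 * V ^ 2) (2 * (676 * ν ^ 4 * V ^ 2))

open Classical in
/-- the tuples `((v, w), s, t, m)` -/
noncomputable def TU (ν V Q : ℕ) : Finset ((ℕ × ℕ) × ℕ × ℕ × ℕ) :=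
  (PP V ×ˢ IS ν V ×ˢ IS ν V ×ˢ IM ν V).filter (fun x =>
    (Q : ℤ) ∣ (x.2.1 : ℤ) - 1 ∧ (Q : ℤ) ∣ (x.2.2.1 : ℤ) - 1 ∧
    Cg x.1.1 x.1.2 x.2.1 x.2.2.1 x.2.2.2)

open Classical in
/-- the tuples with `p ∣ s` and `p ∣ m` (`m` in a longer interval, sign `σ` of `s`) -/
noncomputable def TF (ν V Q p : ℕ) (σ : ℤ) : Finset ((ℕ × ℕ) × ℕ × ℕ × ℕ) :=
  (PP V ×ˢ IS ν V ×ˢ IS ν V ×ˢ Icc (169 * ν ^ 4 * V ^ 2) (6084 * ν ^ 4 * V ^ 2)).filter (fun x =>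
    (Q : ℤ) ∣ (x.2.1 : ℤ) - 1 ∧ (Q : ℤ) ∣ (x.2.2.1 : ℤ) - 1 ∧
    Cg x.1.1 x.1.2 (σ * x.2.1) x.2.2.1 x.2.2.2 ∧ p ∣ x.2.1 ∧ p ∣ x.2.2.2)

/-! ## Exponential sums -/

/-- **FEL.** (lower bound by a nonnegative kernel)
Let `B > 0`, `D(h) = ∑_{0 ≤ b < B} ee(h b / q)`.  For `n ∈ ℤ` let `r(n)` be the number of
`(b₁,b₂,b₃,b₄) ∈ [0,B)⁴` with `b₁+b₂-b₃-b₄ = n`; `r(n) ≤ B³` and `r(n) = 0` for `|n| ≥ 2B-1`.  Hence the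
number of `m ∈ [A, A+4B)` with `q ∣ m - φ` is at least `B⁻³ ∑_{n, q ∣ A+2B+n-φ} r(n) =
B⁻³ q⁻¹ ∑_{h mod q} |D(h)|⁴ ee(h(φ-A-2B)/q)` (up to conjugation).  Sum over `i`; the term `h = 0` is
`B |s| / q`; for the others `|D(h)| ≤ min(B, q/(2h))` for `1 ≤ h ≤ q/2` and `|D(q-h)| = |D(h)|`,
`‖∑ ee((q-h)φ/q)‖ = ‖∑ ee(hφ/q)‖`. -/
def S_FEL : Prop := ∀ (ι : Type) (s : Finset ι) (φ : ι → ℤ) (q B : ℕ) (A : ℤ), 0 < q → 0 < B →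
  (B : ℝ) / q * s.card - 2 * ((B : ℝ) / q) * ∑ h ∈ Icc 1 q,
      (min 1 ((q : ℝ) / (B * h))) ^ 4 * ‖∑ i ∈ s, ee ((h : ℝ) * φ i / q)‖ ≤
    (((s ×ˢ Ico A (A + 4 * B)).filter (fun x => (q : ℤ) ∣ x.2 - φ x.1)).card : ℝ)

open Classical in
/-- the number of `(k, l, j, r)` in the box with `p ∣ r` such that `e` divides both values, not both
zero -/
noncomputable def KQ (p Z e v w : ℕ) : ℕ :=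
  ((BX Z Z Z Z).filter (fun x => (p : ℤ) ∣ x.2.2.2 ∧
    (e : ℤ) ∣ G1 x.1 x.2.1 x.2.2.1 x.2.2.2 v w ∧ (e : ℤ) ∣ G2 x.1 x.2.1 x.2.2.1 x.2.2.2 v w ∧
    ¬ (G1 x.1 x.2.1 x.2.2.1 x.2.2.2 v w = 0 ∧ G2 x.1 x.2.1 x.2.2.1 x.2.2.2 v w = 0))).card

/-- **COE.** (from F5.DUA; compare F5/DC.lean, F5/INN.lean and R5/DCR.lean)
Choose `α, β, E₁, E₂, p'` with `w α ≡ 1 (v³)`, `v β ≡ 1 (w)`, `E₁ ≡ 1 (v³), 0 (w)`, `E₂ ≡ 1 (w), 0 (v³)`,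
`p p' ≡ 1 (v³ w)` and put `A = E₂ p β²`, `B = -σ E₁ α²`, `C = E₁ p' v² α⁴`.  The congruences
`Cg v w (σ p s) t (p m)` say `m ≡ p' t² v² α⁴ - σ s t α² (v³)` and `m ≡ p s² β² (w)`: first claim.
Second claim: let `(x, y) ≠ 0` be counted by `DW` (with `q = v³ w`): `2eAx + eBy = q n + R`,
`eBx + 2eCy = q n' + R'` with `|R| ≤ q/Ns`, `|R'| ≤ q/Nt`.  As `w ∣ B, C`, `R' = w r₀`, `|r₀| ≤ v³/Nt`.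
Put `X = p x`, `Y = σ y`, `r = σ p r₀`.  Then `v³ ∣ e Y + R w²`, `w ∣ 2 e X - R v²`,
`v³ ∣ r w⁵ - e (2 v² Y - w² X)` and F5.DUA gives `k, l, j` with `e Y = k v³ - R w²`,
`e X = l v³ - 2 R v² - r w³`, `5R = 2lv + jw`, `5eX = G1`, `5eY = G2`.  So `(x, y) ↦ (k, l, j, r)` is
injective, `(G1, G2) ≠ 0`, `e ∣ G1, G2`, `p ∣ r`; sizes: `|k| ≤ 2eNt/v³ + w³/Ns`,
`|l| ≤ 2epNs/v³ + 2v²w/Ns + p w³/Nt`, `|j| ≤ 5v³/Ns + 2v|l|/w`, `|r| ≤ p v³/Nt`, all `≤ Z` by the three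
hypotheses (`V ≤ v, w < 2V`). -/
def S_COE : Prop := ∀ v w p : ℕ, 0 < v → 0 < w → 0 < p → v.Coprime w → p.Coprime (v * w) →
  ∀ σ : ℤ, (σ = 1 ∨ σ = -1) → ∃ A B C : ℤ,
  (∀ s t m : ℤ, Cg v w (σ * (p * s)) t (p * m) ↔
    ((v ^ 3 * w : ℕ) : ℤ) ∣ m - (A * s ^ 2 + B * s * t + C * t ^ 2)) ∧
  ∀ V Z e Ns Nt : ℕ, V ≤ v → v < 2 * V → V ≤ w → w < 2 * V → 1 ≤ e → 1 ≤ Ns → 1 ≤ Nt →
    100 * e * (p * Ns + Nt) ≤ Z * V ^ 3 → 1000 * V ^ 3 ≤ Z * Ns → 1000 * p * V ^ 3 ≤ Z * Nt →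
    DW ((e : ℝ) * A / (v ^ 3 * w : ℕ)) ((e : ℝ) * B / (v ^ 3 * w : ℕ))
      ((e : ℝ) * C / (v ^ 3 * w : ℕ)) Ns Nt ≤ 1 + KQ p Z e v w

/-- **EXQ.** (from F5.WEY) expand the squares: the phase is `a s² + b s t + c t² + (linear) + const`
with `a = h Q² A / q` etc.; the constant phase has absolute value one. -/
def S_EXQ : Prop := ∃ C₀ : ℝ, 0 < C₀ ∧ ∀ (q Q h : ℕ), 0 < q → ∀ (A B C s₀ t₀ : ℤ)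
  (n₁ n₂ Ns Nt : ℕ), 1 ≤ Ns → 1 ≤ Nt → n₁ ≤ Ns → n₂ ≤ Nt →
  ‖∑ x ∈ Finset.range n₁ ×ˢ Finset.range n₂,
    ee ((h : ℝ) * ((A * (s₀ + Q * (x.1 : ℤ)) ^ 2 + B * (s₀ + Q * (x.1 : ℤ)) * (t₀ + Q * (x.2 : ℤ)) +
      C * (t₀ + Q * (x.2 : ℤ)) ^ 2 : ℤ) : ℝ) / q)‖ ^ 2 ≤
  C₀ * Ns * Nt * (1 + Real.log Ns) * (1 + Real.log Nt) *
    (DW (((h * Q ^ 2 : ℕ) : ℝ) * A / q) (((h * Q ^ 2 : ℕ) : ℝ) * B / q)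
      (((h * Q ^ 2 : ℕ) : ℝ) * C / q) Ns Nt : ℝ)

/-- **AVP.** (from F5.AVG, F5.DIV)
`KQ p = (vectors with r ≠ 0) + (vectors with r = 0)`.  For `r ≠ 0`: `∑_{p ∈ [P,2P)} 1_{p ∣ r} ≤ d(|r|)`, so by
Cauchy `∑_p √KQ_p^{≠} ≤ √P √(∑_p KQ_p^{≠}) ≤ √P √(C Y^ε) √(KK Z Z Z Z (hQ²) v w)` and F5.AVG
(with `G = Q²`, `ρ = 1`: its sum over `g ∈ [G, 2G)` contains `g = Q²`) bounds the sum over `h, v, w`.  For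
`r = 0`: `KQ_p^{=} ≤ KK Z Z Z 0 (hQ²) v w`, F5.AVG with `R = 0`, times `P`.  Use `1 + Z ≤ 2Z`. -/
def S_AVP : Prop := ∀ ε : ℝ, 0 < ε → ∃ C : ℝ, 0 < C ∧ ∀ P Q H V Z Y : ℕ,
  1 ≤ P → 1 ≤ Q → 1 ≤ H → 1 ≤ V → 1 ≤ Z → P ≤ Y → Q ^ 2 ≤ Y → H ≤ Y → V ≤ Y → Z ≤ Y →
  ∑ p ∈ Ico P (2 * P), ∑ h ∈ Icc 1 H, ∑ v ∈ Ico V (2 * V),
    ∑ w ∈ (Ico V (2 * V)).filter (fun w => Nat.Coprime v w),
      Real.sqrt (KQ p Z (h * Q ^ 2) v w) ≤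
  C * (Y : ℝ) ^ ε * (Real.sqrt P * (V * Real.sqrt ((V : ℝ) ^ 2 + Q ^ 2 * H) * (Z : ℝ) ^ 2) +
    P * (V * Real.sqrt ((V : ℝ) ^ 2 + Q ^ 2 * H) * Real.sqrt ((Z : ℝ) ^ 3)) +
    P * (Q * Real.sqrt H * (V : ℝ) ^ 2 * Z))

/-- the number of dyadic ranges -/
def JJ (k ν : ℕ) : ℕ := 6 + (2 * k + 4) * (Nat.log 2 ν + 1)

/-- **LWA.** (from FEL, COE with `p = 1, σ = 1`, EXQ) one pair `(v, w)`.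
Let `q = v³w ∈ [V⁴, 16V⁴)`, `B = 169 ν⁴ V²` (so `4B = M`), `A, B', C` from COE, index set: the pairs
`(s, t) = (s₀ + Q x₁, t₀ + Q x₂)` of `IS × IS` congruent to `1 mod Q` (`s₀` the first one), `n₁ = n₂ ≥
ν²V²/Q - 1 ≥ ν²V²/(1.01 Q)` for large `ν`.  FEL: count `≥ (B/q) n₁ n₂ - (2B/q) ∑_{1≤h≤q} min(1, q/(Bh))⁴ ‖S(h)‖`; main term
`≥ 169/16 ν⁸V²/(1.03 Q²)`.  Since `q/B ≤ ν^{2k-4} =: H₀`, the `h ≤ H₀` and the ranges `2^{j-1}H₀ < h ≤ 2^j H₀`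
have `min(..)⁴ ≤ 16 · 16^{-j}`, and `2^{JJ-1} H₀ ≥ 16V⁴ > q`.  EXQ with `Ns = Nt = 2ν²V²` and COE with
`e = hQ²`, `Z = 1000 Q² 2^j ν^{k-2}` (`100 hQ² 4ν²V² ≤ 400 Q² 2^j V²ν^{-4}ν²V² ≤ Z V³`; `1000V³ ≤ Z 2ν²V²`) give
`‖S(h)‖ ≤ √C₀ 2ν²V²(1+log(2ν²V²)) √(1+KQ)`; `(2B/q) 2ν²V² ≤ 676 ν⁶`. -/
def S_LWA : Prop := ∀ Q : ℕ, 1 ≤ Q → ∃ C : ℝ, 0 < C ∧ ∀ k : ℕ, 6 ≤ k → ∃ ν₀ : ℕ, ∀ ν : ℕ, ν₀ ≤ ν →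
  ∀ x ∈ PP (ν ^ k), 4 * (ν : ℝ) ^ 8 * ((ν : ℝ) ^ k) ^ 2 / Q ^ 2 -
    C * (1 + Real.log ν) * (k + 2) * (ν : ℝ) ^ 6 * ∑ j ∈ Finset.range (JJ k ν), (1 / 16 : ℝ) ^ j *
      ∑ h ∈ Icc 1 (2 ^ j * ν ^ (2 * k - 4)),
        Real.sqrt (1 + (KQ 1 (1000 * Q ^ 2 * 2 ^ j * ν ^ (k - 2)) (h * Q ^ 2) x.1 x.2 : ℝ)) ≤
    (((TU ν (ν ^ k) Q).filter (fun y => y.1 = x)).card : ℝ)

/-- **LOW.** (from LWA, AVP, PRI)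
Sum LWA over the pairs.  With `H = 2^j ν^{2k-4}`, `Z = 1000Q²2^jν^{k-2}`, `V = ν^k`: `√(1+KQ) ≤ 1 + √KQ`, the ones
give `V² H = 2^j V⁴/ν⁴`; AVP with `P = 1` (`V² + Q²H ≤ 2Q²2^jV²`, so the three terms are
`≤ C_Q 2^{5j/2} V⁴/ν⁴`).  `∑_j 16^{-j} 2^{5j/2} ≤ 4` (`2^{5/2}/16 < 1/2`).  Total error `≤ C_Q Y^{2ε} ν² V⁴` with
`Y ≤ (2ν)^{20k}`, and `|PP V| ≥ V^{2-ε'}` by PRI, so the error is `≤ ν⁸V²|PP V|/Q²` for `ε` small in terms of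
`k` and `ν` large. -/
def S_LOW : Prop := ∀ Q k : ℕ, 1 ≤ Q → 6 ≤ k → ∃ ν₀ : ℕ, ∀ ν : ℕ, ν₀ ≤ ν →
  3 * (ν : ℝ) ^ 8 * ((ν : ℝ) ^ k) ^ 2 * ((PP (ν ^ k)).card : ℝ) / Q ^ 2 ≤
    ((TU ν (ν ^ k) Q).card : ℝ)

/-- **PRI.** many primes (Chebyshev), as `|PP V| = N (N - 1)`. -/
def S_PRI : Prop := ∀ ε : ℝ, 0 < ε → ∃ V₀ : ℕ, ∀ V : ℕ, V₀ ≤ V →
  (V : ℝ) ^ (2 - ε) ≤ ((PP V).card : ℝ)

/-- **FPA.** (from F5.FEJ, COE, EXQ) one prime `p` and one pair `(v, w)`; `C₁` is absolute.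
If `p ∣ Q` the set is empty (`Q ∣ s - 1`, `p ∣ s`).  Otherwise `s = p s₁`, `m = p m₁`, `s₁` runs over an interval of a class
mod `Q` (at most `ν²V²/(pQ) + 1 ≤ 2ν²V²/(pQ)` values), `t` over a class mod `Q` (at most `2ν²V²/Q` values), `m₁` in an
interval of length `M₁ = ⌊6084ν⁴V²/p⌋ + 1 ≤ 7000ν⁴V²/p`.  `p ≤ ν⁵ < V ≤ v, w` so `p` is coprime to `vw`.  F5.FEJ with `q = v³w ≥ V⁴`:
`h = 0` gives `24 (M₁/q) 4ν⁴V⁴/(pQ²) ≤ C₁ν⁸V²/(p²Q²)`; the `h ≠ 0` have `|h| ≤ q/M₁ ≤ p ν^{2k-4}` (symmetric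
in `h`).  EXQ with `Ns = ⌊2ν²V²/p⌋`, `Nt = 2ν²V²`, COE with `e = hQ²`, `Z = 1000Q²pν^{k-2}`:
`100 hQ²(pNs+Nt) ≤ 400Q²p V²ν^{-4}ν²V² ≤ ZV³`, `1000V³ ≤ Z Ns` (`Ns ≥ ν²V²/p`), `1000pV³ ≤ Z Nt`.
`(M₁/q) √(Ns Nt) ≤ C ν⁶ p^{-3/2}`. -/
def S_FPA : Prop := ∃ C₁ : ℝ, 0 < C₁ ∧ ∀ Q : ℕ, 1 ≤ Q → ∃ C : ℝ, 0 < C ∧ ∀ k : ℕ, 6 ≤ k →
  ∃ ν₀ : ℕ, ∀ ν : ℕ, ν₀ ≤ ν → ∀ x ∈ PP (ν ^ k), ∀ p : ℕ, p.Prime → p ≤ ν ^ 5 →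
  ∀ σ : ℤ, (σ = 1 ∨ σ = -1) →
    (((TF ν (ν ^ k) Q p σ).filter (fun y => y.1 = x)).card : ℝ) ≤
    C₁ * (ν : ℝ) ^ 8 * ((ν : ℝ) ^ k) ^ 2 / (p ^ 2 * Q ^ 2) +
    C * (1 + Real.log ν) * (k + 2) * ((ν : ℝ) ^ 6 / (p * Real.sqrt p)) *
      ∑ h ∈ Icc 1 (p * ν ^ (2 * k - 4)),
        Real.sqrt (1 + (KQ p (1000 * Q ^ 2 * p * ν ^ (k - 2)) (h * Q ^ 2) x.1 x.2 : ℝ))

/-- **FPG.** (from FPA, AVP, PRI)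
Sum FPA over the pairs and the primes `z < p ≤ ν⁵` in dyadic ranges `[P, 2P)`, `P = 2^i`.  First term: `∑_{p>z} p^{-2} ≤ 1/z`
(`∑_{n>z} 1/n² ≤ 1/z`).  Second: for `p ∈ [P,2P)`: `KQ p` is monotone in `Z`, take `Z = 2000Q²Pν^{k-2}`, `H = 2Pν^{2k-4}`, `V = ν^k`;
`√(1+KQ) ≤ 1+√KQ`; the ones: `P·2Pν^{2k-4}·V² = 2P²V⁴/ν⁴`; AVP: `V² + Q²H ≤ 3Q²(1 + P/ν⁴)V²`, its three terms
are `≤ C_Q P^{5/2}(V⁴/ν⁴)√(1+P/ν⁴)` (use `ν² ≤ V`).  Times `ν⁶P^{-3/2}`: `≤ C_Q Y^ε P ν²V⁴ √(1+P/ν⁴) ≤ C_Q Y^ε ν^{15/2} V⁴`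
for `P ≤ ν⁵`; there are `≤ 6 (log₂ν+1)` dyadic `P`, `Y ≤ ν^{20k}`; by PRI it is `≤ (1/z) ν⁸V²|PP V|/Q²` for `ν` large. -/
def S_FPG : Prop := ∃ C₁ : ℝ, 0 < C₁ ∧ ∀ Q k z : ℕ, 1 ≤ Q → 6 ≤ k → 1 ≤ z → ∃ ν₀ : ℕ,
  ∀ ν : ℕ, ν₀ ≤ ν → ∀ σ : ℤ, (σ = 1 ∨ σ = -1) →
    ((∑ p ∈ (Ioc z (ν ^ 5)).filter Nat.Prime, (TF ν (ν ^ k) Q p σ).card : ℕ) : ℝ) ≤
    C₁ / z * (ν : ℝ) ^ 8 * ((ν : ℝ) ^ k) ^ 2 * ((PP (ν ^ k)).card : ℝ) / Q ^ 2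

/-! ## The exceptional tuples -/

/-- **EX1.** (from F5.DIV) `v ∣ s`.  Divisor bound below: a nonzero integer of absolute value `≤ (10νV)^{20}` has
`≤ C(νV)^ε` divisors; write `X^ε` for such factors.  `S = ν²V²`, `M = 676ν⁴V²`.
`v³ ∣ t²v²-stw²-mw⁴` and `v ∣ s` give `v ∣ m` (`v ≠ w`).  `s = vs'`, `m = vm'`: (*) `v² ∣ t²v - s'tw² - m'w⁴`;
`w ∣ s² - mv²` gives `w ∣ s'² - vm'`.
(a) `s'² ≠ vm'`, `v ∤ s'`: `(v, s', m')` has `≤ V(2S/V)(2M/V)` values, `w` then `X^ε` values; (*) determines `t mod v²` (two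
solutions: `(t-t')((t+t')v - s'w²) ≡ 0`), so `≤ 2S/v² + 1` values of `t`.
(b) `s'² ≠ vm'`, `v ∣ s'`: then `v ∣ m'`; `(v, s'/v, m'/v)`: `≤ V(2S/V²+1)(2M/V²+1)`, `w`: `X^ε`, `t`: `≤ S`.
(c) `s'² = vm'`: `s' = vs''`, `m' = vs''²`, (*) gives `v ∣ t² - s''tw² - s''²w⁴ ≠ 0` (`5` is not a square);
`(s'', t, w)`: `≤ (2S/V²)·S·V`, `v`: `X^ε`.
Total `≤ X^ε C (S²M/V³ + S²/V) ≤ X^ε C ν⁸V³ ≤ ν⁷V⁴` (`V = ν^k`, `k ≥ 20`; take `ε` with `X^ε ≤ C ν`). -/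
def S_EX1 : Prop := ∀ k : ℕ, 20 ≤ k → ∃ ν₀ : ℕ, ∀ ν : ℕ, ν₀ ≤ ν →
  (((TU ν (ν ^ k) 1).filter (fun x => x.1.1 ∣ x.2.1)).card : ℝ) ≤ (ν : ℝ) ^ 7 * ((ν : ℝ) ^ k) ^ 4

/-- **EX2.** (from F5.DIV) `v ∣ t`, `v ∤ s`.  `v³ ∣ t²v²-stw²-mw⁴` gives `v ∣ m`; `t = vt'`, `m = vm'`,
`v² ∣ s t' + m'w²`; `w ∣ s² - m'v³ ≠ 0` (`v ∤ s`).  `(v, m', s)`: `≤ V·(2M/V)·S` values, `w`: `X^ε` values, `t' < 2S/V < V²` is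
determined mod `v²`.  Total `≤ X^ε·4MS ≤ X^ε 10⁴ν⁶V⁴ ≤ ν⁷V⁴` (`ε` with `X^ε ≤ C ν^{1/2}`). -/
def S_EX2 : Prop := ∀ k : ℕ, 20 ≤ k → ∃ ν₀ : ℕ, ∀ ν : ℕ, ν₀ ≤ ν →
  (((TU ν (ν ^ k) 1).filter (fun x => ¬ x.1.1 ∣ x.2.1 ∧ x.1.1 ∣ x.2.2.1)).card : ℝ) ≤
    (ν : ℝ) ^ 7 * ((ν : ℝ) ^ k) ^ 4

/-- **EX3.** (from F5.DIV) `w ∣ s` (and `v ∤ st`).  First `v² ∣ st + mw²`; put `a = (st+mw²)/v² ≤ 9M`; `v ∣ t² - aw²`.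
`w ∣ m`, `w ∣ a`; `s = ws'`, `a = wa'`, `m = wm'`: `a'v² = s't + m'w²`, `v ∣ t² - a'w³`.
If `w ∤ t`: `t² ≠ a'w³`; `(w, a', t)`: `≤ V(9M/V)2S`, `v`: `X^ε`; `s't ≡ a'v² mod w²` determines `s' mod w²`, `s' < 2S/V < V²`;
then `m'`.  Total `≤ X^ε MS`.  If `w ∣ t`, `t = wt'`: `w² ∣ a` (as `av² = st + mw²`, `w² ∣ st`), `a = w²a''`, `a''v² = s't' + m'w`;
`(s', t', a'', v)`: `≤ (2S/V)²(9M/V²)V`, then `m'w = a''v² - s't' > 0` has `X^ε` factorizations. -/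
def S_EX3 : Prop := ∀ k : ℕ, 20 ≤ k → ∃ ν₀ : ℕ, ∀ ν : ℕ, ν₀ ≤ ν →
  (((TU ν (ν ^ k) 1).filter (fun x => (x.1.1).Coprime (x.2.1 * x.2.2.1) ∧ x.1.2 ∣ x.2.1)).card : ℝ) ≤
    (ν : ℝ) ^ 7 * ((ν : ℝ) ^ k) ^ 4

/-- **EX4.** (from F5.DIV) `w ∣ t`, `w ∤ s` (and `v ∤ st`).  As in EX3 `a = (st+mw²)/v² ≤ 9M`, `v ∣ t² - aw²`.  `t = wt'`, `w ∣ a`, `a = wa'`:
`a'v² = st' + mw`, `v ∣ t'² - a'w` .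
(a) `w ∤ t'`: `t'² ≠ a'w`; `(w, a', t')`: `≤ V(9M/V)(2S/V)`, `v`: `X^ε`; `w ∣ s² - mv²` and `mw = a'v² - st'` give
`t'v²s + ws² ≡ a'v⁴ mod w²`, one solution `s mod w²`: `≤ 2S/w²+1`; `m` determined.
(b) `w ∣ t'`, `t' = wt''`: `w ∣ a'`, `a' = wa''`, `a''v² = st'' + m`, `v ∣ t''² - a''`.  If `t''² ≠ a''`: `(w, a'', t'')`:
`≤ V(9M/V²)(2S/V²)`, `v`: `X^ε`, `s`: `≤ S`.  If `t''² = a''`: `m = t''²v² - st''`, `w ∣ s² + t''v²s - t''²v⁴ ≠ 0`; `(s, t'', v)`: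
`≤ S(2S/V²)V`, `w`: `X^ε`. -/
def S_EX4 : Prop := ∀ k : ℕ, 20 ≤ k → ∃ ν₀ : ℕ, ∀ ν : ℕ, ν₀ ≤ ν →
  (((TU ν (ν ^ k) 1).filter (fun x => (x.1.1).Coprime (x.2.1 * x.2.2.1) ∧ ¬ x.1.2 ∣ x.2.1 ∧
    x.1.2 ∣ x.2.2.1)).card : ℝ) ≤ (ν : ℝ) ^ 7 * ((ν : ℝ) ^ k) ^ 4

/-- the value of `a` -/
def aa (x : (ℕ × ℕ) × ℕ × ℕ × ℕ) : ℕ := (x.2.1 * x.2.2.1 + x.2.2.2 * x.1.2 ^ 2) / x.1.1 ^ 2

open Classical in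
/-- the good tuples -/
noncomputable def GU (ν V Q z : ℕ) : Finset ((ℕ × ℕ) × ℕ × ℕ × ℕ) :=
  (TU ν V Q).filter (fun x => (x.2.1 * x.2.2.1).Coprime (x.1.1 * x.1.2) ∧
    ∀ p : ℕ, p.Prime → z < p → p ≤ ν ^ 5 → ¬ (p ∣ x.2.2.2 ∧ p ∣ aa x))

/-- **CNL.** (from LOW, FPG, EX1, EX2, EX3, EX4, PRI)
Take `z ≥ 2` with `2C₁/z ≤ 1` and `Q = z!`.  `TU` with `Q` is contained in `TU` with `1`; the tuples of `TU` with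
`gcd(st, vw) > 1` are in one of the four sets of EX1..EX4 (`v, w` prime): `≤ 4ν⁷V⁴ ≤ ν⁸V²|PP|/Q²/2` by PRI.  If
`gcd(st,vw) = 1` and the prime `p ∈ (z, ν⁵]` divides `m` and `a` then `p ∣ st` (`av² = st + mw²`).  If `p ∣ s`: `x ∈ TF p 1`.
If `p ∣ t`: `((w, v), t, s, a) ∈ TF p (-1)` (injective in `x`; `Cg w v (-t) s a`: `s²w²+stv²-av⁴ = w²(s²-mv²)` is divisible by `w³`, and
`v ∣ t² - aw²`; `169ν⁴V² ≤ a ≤ 6084ν⁴V²`). -/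
def S_CNL : Prop := ∃ z : ℕ, 2 ≤ z ∧ ∀ k : ℕ, 20 ≤ k → ∃ ν₀ : ℕ, ∀ ν : ℕ, ν₀ ≤ ν →
  (ν : ℝ) ^ 8 * ((ν : ℝ) ^ k) ^ 2 * ((PP (ν ^ k)).card : ℝ) / (z.factorial : ℝ) ^ 2 ≤
    ((GU ν (ν ^ k) z.factorial z).card : ℝ)

/-! ## From tuples to forms -/

/-- the full data attached to a tuple -/
def GT (ν V : ℕ) (x : (ℕ × ℕ) × ℕ × ℕ × ℕ) (a D : ℕ) (y₁ y₂ : ℤ) : Prop :=
  match x with
  | ((v, w), s, t, m) =>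
    v.Prime ∧ w.Prime ∧ v ≠ w ∧ Odd v ∧ Odd w ∧ Odd s ∧ Odd t ∧ V ≤ v ∧ v < 2 * V ∧ V ≤ w ∧
    w < 2 * V ∧ 0 < s ∧ 0 < t ∧ 676 * ν ^ 4 * V ^ 2 ≤ m ∧ m < 2 * (676 * ν ^ 4 * V ^ 2) ∧
    169 * ν ^ 4 * V ^ 2 ≤ a ∧ a ≤ 6084 * ν ^ 4 * V ^ 2 ∧ a * v ^ 2 = m * w ^ 2 + s * t ∧
    (v : ℤ) ∣ t ^ 2 - a * w ^ 2 ∧ (w : ℤ) ∣ s ^ 2 - m * v ^ 2 ∧ (s * t).Coprime (v * w) ∧
    y₁ * w = a * s - m * t ∧ y₂ * v = a * s + m * t ∧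
    4 * (m : ℤ) ^ 2 * a = y₁ ^ 2 + D * v ^ 2 ∧ 4 * (a : ℤ) ^ 2 * m = y₂ ^ 2 + D * w ^ 2 ∧
    D % 8 = 7 ∧ 676 ^ 3 * ν ^ 12 * V ^ 4 ≤ 8 * D ∧ D ≤ 144 * 676 ^ 3 * ν ^ 12 * V ^ 4

/-- **GTX.** `v³ ∣ t²v² - w²(st+mw²)` gives `v² ∣ st+mw²`, `a := (st+mw²)/v²`, then `v ∣ t² - aw²`.  `4V²a > av² ≥ mw² ≥ MV²`,
`V²a ≤ av² < 8MV² + 4S²`.  `s(as-mt) ≡ a m v² - m s t = m²w² ≡ 0 (w)`, `t(as+mt) ≡ a st + m a w² = a²v² ≡ 0 (v)`.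
Identities: `4m²aw² - (as-mt)² = 4ma²v² - (as+mt)²` (use `av² = mw²+st`), i.e. `w²(4m²a - y₁²) = v²(4a²m - y₂²)`, so
`D := (4m²a-y₁²)/v²` is an integer.  `|y₁| ≤ max(as, mt)/w ≤ 9M·2S/V`, `y₁² ≤ 324M²ν⁴V² = 324M³/676 < M³/2`, `4m²a ≥ M³`, so
`Dv² ≥ M³/2`, `D ≥ M³/(8V²)`; `DV² ≤ 4m²a ≤ 144M³`.  `M³/V² = 676³ν¹²V⁴`.  `s, t, v, w` odd: exactly one of `m, a` is even, `y₁` is odd,
`Dv² ≡ -1 mod 8`. -/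
def S_GTX : Prop := ∀ ν V Q : ℕ, 1 ≤ ν → 3 ≤ V → 2 ∣ Q → ∀ x ∈ TU ν V Q,
  (x.2.1 * x.2.2.1).Coprime (x.1.1 * x.1.2) → ∃ (D : ℕ) (y₁ y₂ : ℤ), GT ν V x (aa x) D y₁ y₂

/-- the reduced data: `g` is the greatest common divisor of the two norms, `g m`, `g a` the norms, `g f` the conductor -/
def Dat (d g f m a v w : ℕ) (x₁ x₂ : ℤ) : Prop :=
  d % 8 = 7 ∧ 0 < g ∧ 0 < f ∧ 0 < m ∧ 0 < a ∧ 0 < v ∧ 0 < w ∧ m.Coprime a ∧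
  x₁ ^ 2 + x₁ * (v * f) + n0 d * (v * f) ^ 2 = g * m ^ 2 * a ∧
  x₂ ^ 2 + x₂ * (w * f) + n0 d * (w * f) ^ 2 = g * m * a ^ 2 ∧
  (a : ℤ) ∣ x₁ * w + x₂ * v + v * w * f ∧ (m : ℤ) ∣ x₂ * v - x₁ * w ∧
  (∀ q : ℕ, q.Prime → q ∣ m * a → ¬ q ∣ g → ¬ q ∣ d * f * v * w)

/-- **BET.** Let `q` be a prime with `q ∣ m a` but not `q ∣ gcd(m, a)`.  Then `q ∤ D v w`.
`gcd(ma, vw) = 1`: `v ∣ m` gives `v ∣ st` (from `av² = mw²+st`), `v ∣ a` gives `v ∣ t²`, `w ∣ a` gives `w ∣ st`, `w ∣ m` gives `w ∣ s²`.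
Suppose `q ∣ D` (so `q` is odd as `D ≡ 7 mod 8`).  `q ∣ y₁², y₂²`.  So `q ∣ y₁w + y₂v = 2as` and `q ∣ y₂v - y₁w = 2mt`.
If `q ∣ m`, `q ∤ a`: `q ∣ s`, and `av² = mw²+st` gives `q ∣ av²`, contradiction.  If `q ∣ a`, `q ∤ m`: `q ∣ t`, `q ∣ mw²`, contradiction. -/
def S_BET : Prop := ∀ (ν V : ℕ) (v w s t m a D : ℕ) (y₁ y₂ : ℤ), GT ν V ((v, w), s, t, m) a D y₁ y₂ →
  ∀ q : ℕ, q.Prime → q ∣ m * a → ¬ q ∣ Nat.gcd m a → ¬ q ∣ D * v * w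

/-- **GDV.** Let `D = d F²` with `d` squarefree.  `g = gcd(m, a)` is odd (one of `m, a` is odd), coprime to `vw`, so `g ∣ y₁, y₂`
(`y₁w = as - mt`), `g² ∣ 4m²a - y₁² = Dv²`, `g² ∣ D = dF²`; `g` odd and `d` squarefree give `g ∣ F`.  `F` odd, `d ≡ 7 mod 8`.
With `f = F/g`, `x₁ = (y₁/g - vf)/2`, `x₂ = (y₂/g - wf)/2` (integers: `y₁, y₂, v, w, f, g` are odd): `4(x₁² + x₁vf + n0 d (vf)²) =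
(2x₁+vf)² + d(vf)² = (y₁² + Dv²)/g² = 4m²a/g²`.  `x₁w+x₂v+vwf = (y₁w+y₂v)/(2g) = (a/g)s`, `x₂v-x₁w = (m/g)t`.  Last clause of `Dat`
from BET (`q ∣ (m/g)(a/g)`, `q ∤ g`; `q ∤ D v w` and `d f ∣ D`). Also: every prime factor `q` of `g` divides `s t`. -/
def S_GDV : Prop := ∀ (ν V : ℕ) (v w s t m a D : ℕ) (y₁ y₂ : ℤ), GT ν V ((v, w), s, t, m) a D y₁ y₂ →
  ∀ d F : ℕ, Squarefree d → D = d * F ^ 2 → Odd F ∧ d % 8 = 7 ∧ ∃ f : ℕ, F = Nat.gcd m a * f ∧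
  (∀ q : ℕ, q.Prime → q ∣ Nat.gcd m a → q ∣ s * t) ∧
  ∃ x₁ x₂ : ℤ, y₁ = Nat.gcd m a * (2 * x₁ + v * f) ∧ y₂ = Nat.gcd m a * (2 * x₂ + w * f) ∧
    Dat d (Nat.gcd m a) f (m / Nat.gcd m a) (a / Nat.gcd m a) v w x₁ x₂

/-! ## Ideals -/

/-- the element with the coordinates `x, y` -/
def el {K : Type} [Field K] [NumberField K] (ω : 𝓞 K) (x y : ℤ) : 𝓞 K := (x : 𝓞 K) + (y : 𝓞 K) * ω

/-- **SPT.** Let `α = el x y` have norm `n₁n₂` with coprime `n₁, n₂ > 0`.  `(α, n₁)(α, n₂) = (α², αn₁, αn₂, n₁n₂) =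
α(α, n₁, n₂, σα) = (α)` as `n₁n₂ = α σα`.  `(α, n₁)(σα, n₁) = (n₁n₂, n₁α, n₁σα, n₁²) = n₁(n₂, α, σα, n₁) = (n₁)`, so the norm of `(α, n₁)`
is `n₁` (`IsQ`: `absNorm (I.map σ) = absNorm I`, `absNorm (span {n}) = n²`). -/
def S_SPT : Prop := ∀ (K : Type) [Field K] [NumberField K] (d : ℕ) (ω : 𝓞 K) (σ : 𝓞 K →+* 𝓞 K),
  IsQ K d ω σ → ∀ (x y : ℤ) (n₁ n₂ : ℕ), 0 < n₁ → 0 < n₂ → n₁.Coprime n₂ →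
  Algebra.norm ℤ (el ω x y) = ((n₁ * n₂ : ℕ) : ℤ) →
  Ideal.span {el ω x y} = Ideal.span {el ω x y, (n₁ : 𝓞 K)} * Ideal.span {el ω x y, (n₂ : 𝓞 K)} ∧
  Ideal.absNorm (Ideal.span {el ω x y, (n₁ : 𝓞 K)}) = n₁

/-- **SQI.** (from SPT) Let `α = el x y` have norm `n²b` with `gcd(n, b) = 1` and let `n` be coprime to `d y`
(`d` odd).  `(α, n²) = (α, n)²`: `(α,n)² = (α², nα, n²) ⊆ (α, n²)`; conversely `α - σα = y(2ω-1)`, whose square is `-d y²`,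
so `1 ∈ (n, α-σα)`; `α(α-σα) = α² - n²b` and `αn` are in `(α², nα, n²)`, hence `α` is. By SPT `absNorm (α, n²) = n²`, so `absNorm (α, n) = n`.
`(α,n)` is contained in no `(q)`, `q ≥ 2` (else `q ∣ n` and `q ∣ y`). -/
def S_SQI : Prop := ∀ (K : Type) [Field K] [NumberField K] (d : ℕ) (ω : 𝓞 K) (σ : 𝓞 K →+* 𝓞 K),
  IsQ K d ω σ → d % 8 = 7 → ∀ (x y : ℤ) (n b : ℕ), 0 < n → 0 < b → n.Coprime b →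
  Algebra.norm ℤ (el ω x y) = ((n ^ 2 * b : ℕ) : ℤ) → (∀ q : ℕ, q.Prime → q ∣ n → ¬ (q : ℤ) ∣ d * y) →
  Ideal.span {el ω x y, ((n ^ 2 : ℕ) : 𝓞 K)} = Ideal.span {el ω x y, (n : 𝓞 K)} ^ 2 ∧
  Ideal.absNorm (Ideal.span {el ω x y, (n : 𝓞 K)}) = n ∧
  ∀ q : ℕ, 2 ≤ q → ¬ Ideal.span {el ω x y, (n : 𝓞 K)} ≤ Ideal.span {(q : 𝓞 K)}

/-- **CJI.** (elements) Let `ξ = el X Y` with `n ∣ Y` and `n² ∣ norm ξ = X² + XY + n0 d Y²`; then `n ∣ ξ` (for a prime power `q^k ∥ n`: if `v_q(X) < k` then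
`v_q(X(X+Y)) = 2v_q(X) < 2k`).  Let `I = (α, n)`, `J = (β, n)` have both norm `n` and `αβ = ξ ∈ (n)`: then
`I J = (αβ, nα, nβ, n²) ⊆ (n)` and both have norm `n²`, so `I J = (n)`; since `I · I.map σ = (n)`, `J = I.map σ`. -/
def S_CJI : Prop := ∀ (K : Type) [Field K] [NumberField K] (d : ℕ) (ω : 𝓞 K) (σ : 𝓞 K →+* 𝓞 K),
  IsQ K d ω σ → d % 8 = 7 → ∀ (n : ℕ) (α β : 𝓞 K) (X Y : ℤ), 0 < n → α * β = el ω X Y →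
  (n : ℤ) ∣ Y → ((n ^ 2 : ℕ) : ℤ) ∣ Algebra.norm ℤ (el ω X Y) →
  Ideal.absNorm (Ideal.span {α, (n : 𝓞 K)}) = n → Ideal.absNorm (Ideal.span {β, (n : 𝓞 K)}) = n →
  Ideal.span {β, (n : 𝓞 K)} = (Ideal.span {α, (n : 𝓞 K)}).map σ

/-- **IDL.** (from SPT, SQI, CJI) the ideals attached to the reduced data.
Write `m = m₁m₂`, `a = a₁a₂` with `m₁, a₁` coprime to `g` and `m₂, a₂` composed of primes of `g`.  `α = el x₁ (vf)` has norm `m₁² · (g m₂² a)`,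
`β = el x₂ (wf)` has norm `a₁² (g m a₂²)`.  The primes of `m₁a₁` do not divide `d f v w` (last clause of `Dat`).
`P = (α, m₁)`, `A = (β, a₁)` by SQI.  SPT twice: `(α) = (α, m₁²)(α, a₁)(α, g m₂² a₂) = P² (α,a₁) J₁`, `(β) = A² (β, m₁) J₂`.  CJI with `n = a₁` for
`αβ = el .. (f(x₁w+x₂v+vwf))` gives `(α, a₁) = A.map σ` (apply it as `(β, a₁)` and `(α,a₁)`); with `n = m₁` for `σα·β`, whose second coordinate is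
`f(x₂v... )`: `σα = el (x₁+vf) (-vf)`, `σα β = el .. (f(x₁w - x₂v))` up to sign, gives `(β, m₁) = ((σα, m₁)).map σ = (α, m₁) = P`. -/
def S_IDL : Prop := ∀ (K : Type) [Field K] [NumberField K] (d : ℕ) (ω : 𝓞 K) (σ : 𝓞 K →+* 𝓞 K),
  IsQ K d ω σ → ∀ (g f m a v w : ℕ) (x₁ x₂ : ℤ), Dat d g f m a v w x₁ x₂ →
  ∃ (P A J₁ J₂ : Ideal (𝓞 K)) (m₁ m₂ a₁ a₂ : ℕ), m = m₁ * m₂ ∧ a = a₁ * a₂ ∧ m₁.Coprime g ∧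
    a₁.Coprime g ∧ m₂.primeFactors ⊆ g.primeFactors ∧ a₂.primeFactors ⊆ g.primeFactors ∧
    Ideal.absNorm P = m₁ ∧ Ideal.absNorm A = a₁ ∧ Ideal.absNorm J₁ = g * m₂ ^ 2 * a₂ ∧
    Ideal.absNorm J₂ = g * m₂ * a₂ ^ 2 ∧
    (∀ q : ℕ, 2 ≤ q → ¬ P ≤ Ideal.span {(q : 𝓞 K)}) ∧
    (∀ q : ℕ, 2 ≤ q → ¬ A ≤ Ideal.span {(q : 𝓞 K)}) ∧
    Ideal.span {el ω x₁ (v * f)} = P ^ 2 * A.map σ * J₁ ∧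
    Ideal.span {el ω x₂ (w * f)} = A ^ 2 * P * J₂

/-! ## Counting ideals with given classes -/

/-- the second coordinate of `(x + y ω)⁵`, `ω² = ω - c` -/
def I5 (c x y : ℤ) : ℤ := 5 * x ^ 4 * y + 10 * x ^ 3 * y ^ 2 + 10 * (1 - c) * x ^ 2 * y ^ 3 +
  5 * (1 - 2 * c) * x * y ^ 4 + (1 - 3 * c + c ^ 2) * y ^ 5

/-- **RNP.** the residue classes modulo a prime power.
For `z = (x, y)` with `p^k ∣ I5 c x y` and `p ∤ x²+xy+cy²`.  For two such `z, z'` put `ξ = (x+yω)·σ(x'+y'ω) = el X Y`, `Y = x'y - xy'`; `ξ⁵` has second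
coordinate `≡ 0 mod p^k` (a product of two elements with second coordinate `≡ 0`), i.e. `p^k ∣ I5 c X Y`, and `p ∤ X²+XY+cY²`.  If `p ∣ Y` then `p ∤ X` and
`I5 c X Y = 5X⁴Y + 5Y²(...) + Y⁵(...)` has valuation `v(Y)` if `p ≠ 5` and `v(Y)+1` if `p = 5`.  So: `p ≠ 5`: `z, z'` proportional mod `p` ⟹ `p^k ∣ Y`; `p = 5`:
⟹ `5^{k-1} ∣ Y`.  Colour `z` by its projective class mod `p` (for `p ≥ 7` or `p ≤ 3`: at most 5 classes are roots of `I5` mod `p`, a nonzero binary quintic form as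
the coefficient of `x⁴y` is `5`; `p ≤ 5`: at most 6 classes) and for `p = 5` in addition: inside a class fix a reference `z₀` and colour by `Y(z, z₀)/5^{k-1}·unit mod 5` (i.e. the
projective class mod `5^k`: the classes over the one of `z₀` with `5^{k-1} ∣ Y` are `z₀ + λ 5^{k-1} u`, five of them).  At most 30 colours. -/
def S_RNP : Prop := ∀ (c : ℤ) (p k : ℕ), p.Prime → ∃ χ : ℤ × ℤ → Fin 30, ∀ z z' : ℤ × ℤ,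
  ((p ^ k : ℕ) : ℤ) ∣ I5 c z.1 z.2 → ((p ^ k : ℕ) : ℤ) ∣ I5 c z'.1 z'.2 →
  ¬ (p : ℤ) ∣ z.1 ^ 2 + z.1 * z.2 + c * z.2 ^ 2 → ¬ (p : ℤ) ∣ z'.1 ^ 2 + z'.1 * z'.2 + c * z'.2 ^ 2 →
  χ z = χ z' → ((p ^ k : ℕ) : ℤ) ∣ z.1 * z'.2 - z'.1 * z.2

/-- **RNC.** (from RNP) the product over the prime powers `p^k ∥ n`. -/
def S_RNC : Prop := ∀ (c : ℤ) (n : ℕ), 0 < n → ∃ χ : ℤ × ℤ → Fin (30 ^ n.primeFactors.card),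
  ∀ z z' : ℤ × ℤ, (n : ℤ) ∣ I5 c z.1 z.2 → (n : ℤ) ∣ I5 c z'.1 z'.2 →
  IsCoprime (n : ℤ) (z.1 ^ 2 + z.1 * z.2 + c * z.2 ^ 2) →
  IsCoprime (n : ℤ) (z'.1 ^ 2 + z'.1 * z'.2 + c * z'.2 ^ 2) →
  χ z = χ z' → (n : ℤ) ∣ z.1 * z'.2 - z'.1 * z.2

/-- **ANG.** pairwise independent vectors whose determinants are divisible by `b`, in an ellipse.
Put `ζ = x + y(1+i√d)/2 ∈ ℂ`: `|ζ|² ≤ R`, `Im(conj ζ ζ') = (√d/2) det`, so `|sin(arg ζ - arg ζ')| ≥ b√d/(2R) =: c`.  Modulo `π` the arguments are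
`c`-separated: cut `[0, π)` into `⌊π/c⌋ + 1` intervals of length `< c`; two vectors in one interval have `|sin| ≤ |difference| < c`.
So the number is `≤ π/c + 1 ≤ 1 + 2πR/(b√d)`. -/
def S_ANG : Prop := ∀ (d b : ℕ) (R : ℝ), d % 8 = 7 → 0 < b → 0 < R → ∀ T : Finset (ℤ × ℤ),
  (∀ z ∈ T, ((z.1 ^ 2 + z.1 * z.2 + n0 d * z.2 ^ 2 : ℤ) : ℝ) ≤ R) →
  (∀ z ∈ T, ∀ z' ∈ T, z ≠ z' → z.1 * z'.2 - z'.1 * z.2 ≠ 0 ∧ (b : ℤ) ∣ z.1 * z'.2 - z'.1 * z.2) →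
  (T.card : ℝ) ≤ 1 + 7 * R / (b * Real.sqrt d)

/-- two ideals with two relations, in fixed classes -/
def Rec {K : Type} [Field K] [NumberField K] (ω : 𝓞 K) (σ : 𝓞 K →+* 𝓞 K) (n B : ℕ)
    (J₁ J₂ : Ideal (𝓞 K)) (P A : Ideal (𝓞 K)) (x₁ u₁ x₂ u₂ : ℤ) : Prop :=
  P ≠ ⊥ ∧ A ≠ ⊥ ∧ J₁ ≠ ⊥ ∧ J₂ ≠ ⊥ ∧ Ideal.absNorm P ≤ B ∧ Ideal.absNorm A ≤ B ∧
  (∀ q : ℕ, 2 ≤ q → ¬ P ≤ Ideal.span {(q : 𝓞 K)}) ∧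
  (∀ q : ℕ, 2 ≤ q → ¬ A ≤ Ideal.span {(q : 𝓞 K)}) ∧
  Ideal.span {el ω x₁ u₁} = P ^ 2 * A.map σ * J₁ ∧ Ideal.span {el ω x₂ u₂} = A ^ 2 * P * J₂ ∧
  (n : ℤ) ∣ u₁ ∧ (n : ℤ) ∣ u₂ ∧
  (Ideal.absNorm P * Ideal.absNorm A * Ideal.absNorm J₁ * Ideal.absNorm J₂).Coprime n

/-- **GM5.** comparison of two records with the same `J₁, J₂` and `P' ∼ P`, `A' ∼ A`.
`P' · P.map σ = (γ)` and `A' · A.map σ = (η)` are principal (`P · P.map σ` is principal).  With `α, α'` the two first generators: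
`(α' σα) = (P' Pσ)² (A'σ A) J₁J₁σ = (γ² ση N(J₁))`, the units are `±1` (`d ≥ 7`: `x²+xy+n0 y² = 1` forces `y = 0`), so `α'σα = ± γ² ση N(J₁)`; likewise
`β'σβ = ± η²γ N(J₂)`.  Hence `(α'σα)²(β'σβ) = ± γ⁵ · N(η)² N(J₁)² N(J₂)`, an element with second coordinate `≡ 0 mod n` (all four generators have it), and
`N(η)N(J₁)N(J₂)` is coprime to `n` (`N(η) = N(A)N(A')`): `n ∣ I5 (n0 d) γ`.  If `P' = P` take `γ = N(P)`: `α'σα = ± N(P)² N(J₁) ση` gives `n ∣` second coordinate of `η`. -/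
def S_GM5 : Prop := ∀ (K : Type) [Field K] [NumberField K] (d : ℕ) (ω : 𝓞 K) (σ : 𝓞 K →+* 𝓞 K),
  IsQ K d ω σ → d % 8 = 7 → ∀ (n B : ℕ), 0 < n → ∀ (J₁ J₂ P A P' A' : Ideal (𝓞 K))
  (x₁ u₁ x₂ u₂ x₁' u₁' x₂' u₂' : ℤ), Rec ω σ n B J₁ J₂ P A x₁ u₁ x₂ u₂ →
  Rec ω σ n B J₁ J₂ P' A' x₁' u₁' x₂' u₂' →
  (∃ γ : 𝓞 K, P' * P.map σ = Ideal.span {γ}) → (∃ η : 𝓞 K, A' * A.map σ = Ideal.span {η}) →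
  (∀ X Y : ℤ, P' * P.map σ = Ideal.span {el ω X Y} → (n : ℤ) ∣ I5 (n0 d) X Y) ∧
  (P' = P → ∀ X Y : ℤ, A' * A.map σ = Ideal.span {el ω X Y} → (n : ℤ) ∣ Y)

/-- **IND.** two ideals `P', P''` (contained in no `(q)`, `q ≥ 2`) with `P' I = (γ')`, `P'' I = (γ'')`, `I ≠ ⊥`: the determinant of the coordinates of `γ', γ''` is divisible by
`absNorm I` (it is the index of the sublattice `ℤγ'+ℤγ''` of the lattice `I` in `𝓞 K`, or zero; compare R5/LATC.lean `det_dvd`), and if it is zero then `P' = P''`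
(`kγ' = lγ''` with coprime `k, l ≥ 1` up to sign, `kP' = lP''`, so `l ∣ P'`, `k ∣ P''`, `k = l = 1`). -/
def S_IND : Prop := ∀ (K : Type) [Field K] [NumberField K] (d : ℕ) (ω : 𝓞 K) (σ : 𝓞 K →+* 𝓞 K),
  IsQ K d ω σ → d % 8 = 7 → ∀ (I P P' : Ideal (𝓞 K)) (X Y X' Y' : ℤ), I ≠ ⊥ → P ≠ ⊥ → P' ≠ ⊥ →
  (∀ q : ℕ, 2 ≤ q → ¬ P ≤ Ideal.span {(q : 𝓞 K)}) →
  (∀ q : ℕ, 2 ≤ q → ¬ P' ≤ Ideal.span {(q : 𝓞 K)}) →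
  P * I = Ideal.span {el ω X Y} → P' * I = Ideal.span {el ω X' Y'} →
  ((Ideal.absNorm I : ℕ) : ℤ) ∣ X * Y' - X' * Y ∧ (X * Y' - X' * Y = 0 → P = P')

/-- **MLT.** (from RNC, ANG, GM5, IND) the number of records with given `J₁, J₂` and given classes.
Fix one record `(P₀, A₀)`.  For each `P` choose `γ_P = el X Y` with `P · P₀.map σ = (γ_P)`; `norm γ_P = N(P)N(P₀) ≤ B N(P₀)`, coprime to `n`, `n ∣ I5 γ_P` (GM5).  For the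
`P` with `χ(γ_P)` given (RNC) the determinants are divisible by `n N(P₀)` (RNC, IND; `n` is coprime to `N(P₀)`) and nonzero (IND): ANG with `b = nN(P₀)`, `R = BN(P₀)`: at most
`1 + 7B/(n√d)` such `P`.  Given `P`, fix `A₀`; for the `A` of records `(P, A)` the generators `η_A` of `A · A₀.map σ` have second coordinate divisible by `n` (GM5), determinants divisible
by `n N(A₀)`: at most `1 + 7B/(n√d)`.  Given `(P, A)`: `el x₁ u₁` and `el x₂ u₂` are determined up to sign. -/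
def S_MLT : Prop := ∀ (K : Type) [Field K] [NumberField K] (d : ℕ) (ω : 𝓞 K) (σ : 𝓞 K →+* 𝓞 K),
  IsQ K d ω σ → d % 8 = 7 → ∀ (n B : ℕ), 0 < n → ∀ (J₁ J₂ : Ideal (𝓞 K)) (κ κ' : ClassGroup (𝓞 K))
  (T : Finset (ℤ × ℤ × ℤ × ℤ)), (∀ x ∈ T, ∃ (P A : Ideal (𝓞 K)) (hP : P ∈ nonZeroDivisors (Ideal (𝓞 K)))
    (hA : A ∈ nonZeroDivisors (Ideal (𝓞 K))), ClassGroup.mk0 ⟨P, hP⟩ = κ ∧
    ClassGroup.mk0 ⟨A, hA⟩ = κ' ∧ Rec ω σ n B J₁ J₂ P A x.1 x.2.1 x.2.2.1 x.2.2.2) →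
  (T.card : ℝ) ≤ 4 * (30 : ℝ) ^ n.primeFactors.card * (1 + 7 * (B : ℝ) / (n * Real.sqrt d)) ^ 2

/-- **JCT.** (from F5.SMO, F5.DIV) the ideals whose norm is composed of primes of `g`.
The norms: at most `C(gZ)^ε` (F5.SMO); for each norm `N` at most `d(N)²` ideals (for `IsQ`: an ideal of norm `N` contains `N`, so divides `(N)`; each rational prime has at most two
primes above it, so the number of ideals of norm `N` is `≤ ∏_{p^e ∥ N} (e+1)`; any bound `C N^ε` is enough). -/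
def S_JCT : Prop := ∀ ε : ℝ, 0 < ε → ∃ C : ℝ, 0 < C ∧ ∀ (K : Type) [Field K] [NumberField K] (d : ℕ)
  (ω : 𝓞 K) (σ : 𝓞 K →+* 𝓞 K), IsQ K d ω σ → ∀ (g Z : ℕ), 1 ≤ g → 1 ≤ Z →
  ∀ T : Finset (Ideal (𝓞 K)), (∀ J ∈ T, J ≠ ⊥ ∧ Ideal.absNorm J ≤ Z ∧
    (Ideal.absNorm J).primeFactors ⊆ g.primeFactors) → (T.card : ℝ) ≤ C * ((g : ℝ) * Z) ^ ε

/-- a tuple belongs to the discriminant `-d F²` and has greatest common divisor `g` -/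
def Bel (ν V d F g : ℕ) (x : (ℕ × ℕ) × ℕ × ℕ × ℕ) : Prop :=
  ∃ (a : ℕ) (y₁ y₂ : ℤ), GT ν V x a (d * F ^ 2) y₁ y₂ ∧ Nat.gcd x.2.2.2 a = g

open Classical in
/-- **TPL.** (from GDV, IDL, MLT, JCT, F5.OM, F5.DIV) the tuples with given `d, F, g`; here `F = g n f₂` with `n` coprime to `g` and `f₂` composed of primes of `g`.
By GDV, `Dat d g f m' a' v w x₁ x₂` with `f = n f₂` and by IDL the ideals `P, A, J₁, J₂`.  Norms of `J₁, J₂` are `≤ (10νV)^{40}`, composed of primes of `g`: at most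
`C(νV)^ε` pairs `(J₁, J₂)` (JCT).  The classes: `P²·Aσ·J₁ ∼ 1`, `A²·P·J₂ ∼ 1` (`Aσ ∼ A⁻¹`), so `[A] = [P]²[J₁]`, `[P]⁵ = [J₁]⁻²[J₂]⁻¹`: at most `|Cl[5]|` classes `[P]`.  MLT with this `n` and
`B = ⌊6084ν⁴V²/g⌋` (`N(P) ≤ m/g`, `N(A) ≤ a/g`; `n ∣ vf, wf`; norms coprime to `n`: a prime of `n` does not divide `g` and not `m'a'` by `Dat`); `B/(n√d) =
B g f₂/√(dF²) ≤ 6084ν⁴V²f₂/√(dF²) ≤ f₂` because `dF² ≥ 676³ν¹²V⁴/8`.  `30^{ω(n)} ≤ C n^ε`.  The record `(x₁, vf, x₂, wf)` determines the tuple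
(`v, w`, then `y₁, y₂`, `4m²a = y₁²+Dv²`, `4a²m = y₂²+Dw²` give `m³`, `a`; `2as = y₁w+y₂v`, `2mt = y₂v-y₁w`). -/
def S_TPL : Prop := ∀ ε : ℝ, 0 < ε → ∃ C : ℝ, 0 < C ∧ ∀ (K : Type) [Field K] [NumberField K]
  (d : ℕ), Squarefree d → Module.finrank ℚ K = 2 → discr K = -(d : ℤ) → ∀ ν V g n f₂ : ℕ, 1 ≤ ν → 1 ≤ V →
  n.Coprime g → f₂.primeFactors ⊆ g.primeFactors → 0 < f₂ → ∀ T : Finset ((ℕ × ℕ) × ℕ × ℕ × ℕ),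
  (∀ x ∈ T, Bel ν V d (g * n * f₂) g x) →
  (T.card : ℝ) ≤ C * ((ν : ℝ) * V) ^ ε * (f₂ : ℝ) ^ 2 *
    (Nat.card {c : ClassGroup (𝓞 K) // c ^ 5 = 1} : ℝ)

open Classical in
/-- **TPN.** (from GDV, IDL, MLT, F5.OM, F5.DIV) the tuples with `g = 1` and `F ≤ ν⁵`: as TPL with `J₁ = J₂ = ⊤` (norm 1), `n = F`, and `[P] ≠ 1`: if `P = (β)`, `β = el X Y`,
`X²+XY+n0 d Y² = N(P) = m < 2·676ν⁴V²`; `d ≥ 676³ν¹²V⁴/(8F²) ≥ 676³ν²V⁴/8 > 4m` (`V ≥ ν`), so `Y = 0`, `P = (X)`, `X = ±1` (`P` is in no `(q)`), `m = 1`: contradiction.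
So at most `|Cl[5]| - 1` classes. -/
def S_TPN : Prop := ∀ ε : ℝ, 0 < ε → ∃ C : ℝ, 0 < C ∧ ∀ (K : Type) [Field K] [NumberField K]
  (d : ℕ), Squarefree d → Module.finrank ℚ K = 2 → discr K = -(d : ℤ) → ∀ ν V F : ℕ, 1 ≤ ν → ν ≤ V →
  F ≤ ν ^ 5 → ∀ T : Finset ((ℕ × ℕ) × ℕ × ℕ × ℕ), (∀ x ∈ T, Bel ν V d F 1 x) →
  (T.card : ℝ) ≤ C * ((ν : ℝ) * V) ^ ε *
    ((Nat.card {c : ClassGroup (𝓞 K) // c ^ 5 = 1} : ℝ) - 1)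

/-! ## Summation -/

open Classical in
/-- **SMB.** (from TPL, GDV, F5.FIN, F5.SMO, F5.DIV) the tuples with large conductor.
Each tuple has a unique `(d, F, g)`; write `F = g n f₂`.  The condition gives `g n > ν⁵` (if `g = 1` then `f₂ = 1`).  TPL and F5.FIN (`-d` is a fundamental discriminant, `d ≡ 7 mod 8` by GDV;
`d ≤ Y/(g n f₂)²`, `Y = 144·676³ν¹²V⁴`, so only `(g n f₂)² ≤ Y` occur): the number is `≤ C(νV)^ε ∑_{g,n,f₂} f₂² Y/(gnf₂)²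
≤ C(νV)^ε Y ∑ 1/(gn)²`, the number of `f₂ ≤ √Y` with primes in `g` is `≤ C(νV)^ε`, and `∑_{gn > ν⁵} (gn)⁻² ≤ ∑_{l>ν⁵} d(l)l⁻² ≤ C(νV)^ε ν⁻⁵` (`l ≤ √Y`). -/
def S_SMB : Prop := ∀ ε : ℝ, 0 < ε → ∃ C : ℝ, 0 < C ∧ ∀ (K : ℤ → Type) [∀ D, Field (K D)]
  [∀ D, NumberField (K D)],
  (∀ D : ℤ, D < 0 → FDp D → Module.finrank ℚ (K D) = 2 ∧ discr (K D) = D) →
  ∀ ν V : ℕ, 1 ≤ ν → 1 ≤ V → ∀ T : Finset ((ℕ × ℕ) × ℕ × ℕ × ℕ),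
  (∀ x ∈ T, ∃ d F g : ℕ, Squarefree d ∧ Bel ν V d F g x ∧ g ∣ F ∧
    ((g = 1 ∧ ν ^ 5 < F) ∨ ν ^ 5 < g)) →
  (T.card : ℝ) ≤ C * ((ν : ℝ) * V) ^ ε * ((ν : ℝ) ^ 7 * (V : ℝ) ^ 4)

open Classical in
/-- the sum to be bounded below -/
noncomputable def AX (K : ℤ → Type) [∀ D, Field (K D)] [∀ D, NumberField (K D)] (X : ℕ) : ℝ :=
  ∑ D ∈ (Finset.Ioo (-(X : ℤ)) (0 : ℤ)).filter (fun D : ℤ => FDp D),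
    ((Nat.card {c : ClassGroup (𝓞 (K D)) // c ^ 5 = 1} : ℝ) - 1)

/-- **SMA.** (from TPN) the tuples with `g = 1`, `F ≤ ν⁵`: sum TPN over `F ≤ ν⁵` and `d ≤ Y/F²` (every term of `AX` is `≥ 0`; `-d` is fundamental). -/
def S_SMA : Prop := ∀ ε : ℝ, 0 < ε → ∃ C : ℝ, 0 < C ∧ ∀ (K : ℤ → Type) [∀ D, Field (K D)]
  [∀ D, NumberField (K D)],
  (∀ D : ℤ, D < 0 → FDp D → Module.finrank ℚ (K D) = 2 ∧ discr (K D) = D) →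
  ∀ ν V : ℕ, 1 ≤ ν → ν ≤ V → ∀ T : Finset ((ℕ × ℕ) × ℕ × ℕ × ℕ),
  (∀ x ∈ T, ∃ d F : ℕ, Squarefree d ∧ Bel ν V d F 1 x ∧ F ≤ ν ^ 5) →
  (T.card : ℝ) ≤ C * ((ν : ℝ) * V) ^ ε * (ν : ℝ) ^ 5 * AX K (144 * 676 ^ 3 * ν ^ 12 * V ^ 4 + 1)

/-- **FINL.** (from CNL, GTX, GDV, SMA, SMB, PRI)
Given `ε`, fix `k ≥ 20` with `10/(4k+12) < ε/2` and small `δ`.  For `X` large let `ν` be maximal with `Y+1 ≤ X`, `Y = 144·676³ν¹²V⁴`, `V = ν^k`; then `X ≤ C_k Y` and `AX K X ≥ AX K (Y+1)`.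
By CNL and PRI `|GU| ≥ ν⁸V^{4-δ}/Q²`.  Each tuple of `GU` satisfies GTX (`Q = z!` is even); write `D = dF²` (`Nat.sq_mul_squarefree`), `g = gcd(m, a)`; by GDV `g ∣ F` and the primes of `g` divide
`st`, hence are `> z` (`s ≡ t ≡ 1 mod z!`), hence `> ν⁵` by the definition of `GU`.  So either `g = 1`, `F ≤ ν⁵` (SMA) or the condition of SMB holds; SMB is `≤ C(νV)^δ ν⁷V⁴ ≤ |GU|/2`.  So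
`AX ≥ |GU| (νV)^{-δ} ν⁻⁵/(2C) ≥ ν³V⁴(νV)^{-2δ}.. ≥ Y^{1-ε/2-..}`. -/
def S_FINL : Prop := ∀ ε : ℝ, 0 < ε → ∃ X₀ : ℕ, ∀ X : ℕ, X₀ ≤ X → ∀ (K : ℤ → Type)
  [∀ D, Field (K D)] [∀ D, NumberField (K D)],
  (∀ D : ℤ, D < 0 → FDp D → Module.finrank ℚ (K D) = 2 ∧ discr (K D) = D) →
  (X : ℝ) ^ (1 - ε) ≤ AX K X

end Pool.Agent.T2h80.L5
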