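import Mathlib
import Pool.Agent.T2h80.L5.Stm

/-!
# EX2 (helper37)
-/

set_option autoImplicit false
set_option linter.all false

namespace Pool.Agent.T2h80.L5

open Finset Pool.Agent.T2h80.F5

namespace EX2

/-- the divisor bound -/
theorem div_small (hDIV : F5.S_DIV) (K : ℕ) (c : ℝ) (hc : 0 ≤ c) : ∃ ν₀ : ℕ, ∀ ν : ℕ, ν₀ ≤ ν →
    ∀ n : ℕ, 1 ≤ n → n ≤ ν ^ K → c * (n.divisors.card : ℝ) ≤ ν := by
  obtain ⟨C, hC, h⟩ := hDIV (1 / (2 * (K + 1))) (by positivity)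
  refine ⟨⌈(c * C) ^ 2⌉₊ + 1, fun ν hν n hn hnK => ?_⟩
  have h1 := (h n hn).1
  have hν1 : (1 : ℝ) ≤ ν := by
    have : 1 ≤ ν := by omega
    exact_mod_cast this
  have hν2 : (c * C) ^ 2 ≤ ν := by
    have e1 := Nat.le_ceil ((c * C) ^ 2)
    have e2 : ((⌈(c * C) ^ 2⌉₊ : ℕ) : ℝ) ≤ ν := by exact_mod_cast (by omega : ⌈(c * C) ^ 2⌉₊ ≤ ν)
    linarith
  have h2 : (n : ℝ) ^ ((1 : ℝ) / (2 * (K + 1))) ≤ Real.sqrt ν := by
    have e1 : (n : ℝ) ≤ (ν : ℝ) ^ K := by exact_mod_cast hnK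
    calc (n : ℝ) ^ ((1 : ℝ) / (2 * (K + 1))) ≤ ((ν : ℝ) ^ K) ^ ((1 : ℝ) / (2 * (K + 1))) :=
          Real.rpow_le_rpow (by positivity) e1 (by positivity)
      _ = (ν : ℝ) ^ ((K : ℝ) * ((1 : ℝ) / (2 * (K + 1)))) := by
          rw [← Real.rpow_natCast, ← Real.rpow_mul (by linarith)]
      _ ≤ (ν : ℝ) ^ (1 / 2 : ℝ) := by
          refine Real.rpow_le_rpow_of_exponent_le hν1 ?_
          rw [mul_one_div, div_le_div_iff₀ (by positivity) (by norm_num)]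
          linarith
      _ = Real.sqrt ν := (Real.sqrt_eq_rpow _).symm
  have h3 : c * C ≤ Real.sqrt ν := by
    rw [← Real.sqrt_sq (by positivity : 0 ≤ c * C)]
    exact Real.sqrt_le_sqrt hν2
  calc c * (n.divisors.card : ℝ) ≤ c * (C * (n : ℝ) ^ ((1 : ℝ) / (2 * (K + 1)))) := by gcongr
    _ = c * C * (n : ℝ) ^ ((1 : ℝ) / (2 * (K + 1))) := by ring
    _ ≤ Real.sqrt ν * Real.sqrt ν := by
        gcongr
    _ = ν := Real.mul_self_sqrt (by positivity)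

/-- the facts about a tuple -/
theorem facts {ν V v w s t m : ℕ} (hx : ((v, w), s, t, m) ∈ TU ν V 1) :
    V ≤ v ∧ v < 2 * V ∧ v.Prime ∧ V ≤ w ∧ w < 2 * V ∧ w.Prime ∧ v ≠ w ∧
    ν ^ 2 * V ^ 2 ≤ s ∧ s < 2 * (ν ^ 2 * V ^ 2) ∧ ν ^ 2 * V ^ 2 ≤ t ∧ t < 2 * (ν ^ 2 * V ^ 2) ∧
    676 * ν ^ 4 * V ^ 2 ≤ m ∧ m < 2 * (676 * ν ^ 4 * V ^ 2) ∧ Cg v w s t m := by
  simp only [TU, Finset.mem_filter, Finset.mem_product, PP, PV, IS, IM, Finset.mem_Ico] at hx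
  obtain ⟨⟨⟨⟨⟨⟨a1, a2⟩, a3⟩, ⟨a4, a5⟩, a6⟩, a7⟩, ⟨a8, a9⟩, ⟨a10, a11⟩, a12, a13⟩, -, -, a14⟩ := hx
  exact ⟨a1, a2, a3, a4, a5, a6, a7, a8, a9, a10, a11, a12, a13, a14⟩

/-- the arithmetic of the tuples with `v ∣ t` -/
theorem arith {v w s t m : ℕ} (hv : v.Prime) (hw : w.Prime) (hvw : v ≠ w) (h : Cg v w s t m)
    (hs : ¬ v ∣ s) (ht : v ∣ t) :
    v ∣ m ∧ (v : ℤ) ^ 2 ∣ s * ((t / v : ℕ) : ℤ) + ((m / v : ℕ) : ℤ) * w ^ 2 ∧
      (w : ℤ) ∣ (s : ℤ) ^ 2 - ((m / v : ℕ) : ℤ) * v ^ 3 ∧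
      (s : ℤ) ^ 2 - ((m / v : ℕ) : ℤ) * v ^ 3 ≠ 0 := by
  obtain ⟨h1, h2⟩ := h
  obtain ⟨t', rfl⟩ := ht
  have hv0 : (v : ℤ) ≠ 0 := by exact_mod_cast hv.ne_zero
  have hvp : Prime (v : ℤ) := Nat.prime_iff_prime_int.1 hv
  have hcop : IsCoprime (v : ℤ) (w : ℤ) := by
    rw [Nat.isCoprime_iff_coprime]
    exact (Nat.coprime_primes hv hw).2 hvw
  have hvm : v ∣ m := by
    have e1 : (v : ℤ) ∣ (m : ℤ) * w ^ 4 := by
      have e2 : (v : ℤ) ∣ ((v * t' : ℕ) : ℤ) ^ 2 * v ^ 2 - s * ((v * t' : ℕ) : ℤ) * w ^ 2 - m * w ^ 4 :=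
        dvd_trans (dvd_pow_self _ (by norm_num)) h1
      have e3 : (m : ℤ) * w ^ 4 = v * (v * t' * (v * t') * v - s * t' * w ^ 2) -
          (((v * t' : ℕ) : ℤ) ^ 2 * v ^ 2 - s * ((v * t' : ℕ) : ℤ) * w ^ 2 - m * w ^ 4) := by
        push_cast
        ring
      rw [e3]
      exact dvd_sub (dvd_mul_right _ _) e2
    have e4 : (v : ℤ) ∣ (m : ℤ) := (hcop.pow_right (n := 4)).dvd_of_dvd_mul_right e1
    exact_mod_cast e4
  obtain ⟨m', rfl⟩ := hvm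
  rw [Nat.mul_div_cancel_left _ hv.pos, Nat.mul_div_cancel_left _ hv.pos]
  refine ⟨dvd_mul_right _ _, ?_, ?_, ?_⟩
  · have e1 : (v : ℤ) ^ 3 ∣ v * (w ^ 2 * (s * t' + m' * w ^ 2)) := by
      have e2 : (v : ℤ) * (w ^ 2 * (s * t' + m' * w ^ 2)) = v ^ 3 * (v * t' ^ 2) -
          (((v * t' : ℕ) : ℤ) ^ 2 * v ^ 2 - s * ((v * t' : ℕ) : ℤ) * w ^ 2 - ((v * m' : ℕ) : ℤ) * w ^ 4) := by
        push_cast
        ring
      rw [e2]
      exact dvd_sub (dvd_mul_right _ _) h1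
    have e3 : (v : ℤ) ^ 2 ∣ w ^ 2 * (s * t' + m' * w ^ 2) := by
      rw [pow_succ'] at e1
      exact (mul_dvd_mul_iff_left hv0).1 e1
    exact (IsCoprime.pow hcop).dvd_of_dvd_mul_left e3
  · have e1 : (s : ℤ) ^ 2 - m' * v ^ 3 = s ^ 2 - ((v * m' : ℕ) : ℤ) * v ^ 2 := by
      push_cast
      ring
    rw [e1]
    exact h2
  · intro h0
    apply hs
    have e1 : (v : ℤ) ∣ (s : ℤ) ^ 2 := ⟨m' * v ^ 2, by linear_combination h0⟩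
    have := hvp.dvd_of_dvd_pow e1
    exact_mod_cast this

end EX2

open EX2

theorem t_EX2 (hDIV : F5.S_DIV) : S_EX2 := by
  classical
  intro k hk
  obtain ⟨ν₀, hν₀⟩ := div_small hDIV (4 * k + 5) 1352 (by norm_num)
  refine ⟨ν₀ + 10816, fun ν hν => ?_⟩
  have hν1 : 10816 ≤ ν := by omega
  obtain ⟨V, hV⟩ : ∃ V : ℕ, V = ν ^ k := ⟨_, rfl⟩
  have hVR : ((ν : ℝ) ^ k) = (V : ℝ) := by rw [hV]; push_cast; rfl
  rw [hVR, ← hV]
  have hVν : 2 * ν ^ 2 ≤ V := by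
    calc 2 * ν ^ 2 ≤ ν * ν ^ 2 := Nat.mul_le_mul_right _ (by omega)
      _ = ν ^ 3 := by ring
      _ ≤ ν ^ k := Nat.pow_le_pow_right (by omega) (by omega)
      _ = V := hV.symm
  have hV0 : 0 < V := by
    have : 0 < ν ^ 2 := by positivity
    omega
  -- the target
  set F0 : Finset (ℕ × ℕ × ℕ) := (Ico V (2 * V) ×ˢ range (1352 * ν ^ 4 * V) ×ˢ IS ν V).filter
    (fun y => ((y.2.2 : ℤ) ^ 2 - (y.2.1 : ℤ) * (y.1 : ℤ) ^ 3 ≠ 0)) with hF0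
  set F : Finset (Σ _ : ℕ × ℕ × ℕ, ℕ) := F0.sigma
    (fun y => ((y.2.2 : ℤ) ^ 2 - (y.2.1 : ℤ) * (y.1 : ℤ) ^ 3).natAbs.divisors) with hF
  have hle : (((TU ν V 1).filter (fun x => ¬ x.1.1 ∣ x.2.1 ∧ x.1.1 ∣ x.2.2.1)).card) ≤ F.card := by
    refine Finset.card_le_card_of_injOn (fun x => ⟨(x.1.1, x.2.2.2 / x.1.1, x.2.1), x.1.2⟩) ?_ ?_
    · rintro ⟨⟨v, w⟩, s, t, m⟩ hx
      simp only [Finset.coe_filter, Set.mem_setOf_eq] at hx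
      obtain ⟨hx, hs, ht⟩ := hx
      obtain ⟨a1, a2, a3, a4, a5, a6, a7, a8, a9, a10, a11, a12, a13, a14⟩ := facts hx
      obtain ⟨b1, b2, b3, b4⟩ := arith a3 a6 a7 a14 hs ht
      simp only [hF, Finset.coe_sigma, Set.mem_sigma_iff, Finset.mem_coe, hF0, Finset.mem_filter,
        Finset.mem_product, Finset.mem_Ico, Finset.mem_range, IS, Nat.mem_divisors]
      refine ⟨⟨⟨⟨a1, a2⟩, ?_, a8, a9⟩, b4⟩, ?_, ?_⟩
      · rw [Nat.div_lt_iff_lt_mul a3.pos]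
        calc m < 2 * (676 * ν ^ 4 * V ^ 2) := a13
          _ = 1352 * ν ^ 4 * V * V := by ring
          _ ≤ 1352 * ν ^ 4 * V * v := Nat.mul_le_mul_left _ a1
      · exact Int.natCast_dvd.1 b3
      · exact Int.natAbs_ne_zero.2 b4
    · rintro ⟨⟨v, w⟩, s, t, m⟩ hx ⟨⟨v', w'⟩, s', t', m'⟩ hx' he
      simp only [Finset.coe_filter, Set.mem_setOf_eq] at hx hx'
      obtain ⟨hx, hs, ht⟩ := hx
      obtain ⟨hx', hs', ht'⟩ := hx'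
      obtain ⟨a1, a2, a3, a4, a5, a6, a7, a8, a9, a10, a11, a12, a13, a14⟩ := facts hx
      obtain ⟨c1, c2, c3, c4, c5, c6, c7, c8, c9, c10, c11, c12, c13, c14⟩ := facts hx'
      obtain ⟨b1, b2, b3, b4⟩ := arith a3 a6 a7 a14 hs ht
      obtain ⟨d1, d2, d3, d4⟩ := arith c3 c6 c7 c14 hs' ht'
      simp only [Sigma.mk.injEq, Prod.mk.injEq, heq_eq_eq] at he
      obtain ⟨⟨rfl, hm, rfl⟩, rfl⟩ := he
      have hmm : m = m' := by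
        rw [← Nat.mul_div_cancel' b1, ← Nat.mul_div_cancel' d1, hm]
      subst hmm
      have hcop : IsCoprime ((v : ℤ) ^ 2) (s : ℤ) := by
        apply IsCoprime.pow_left
        rw [Nat.isCoprime_iff_coprime]
        exact (Nat.Prime.coprime_iff_not_dvd a3).2 hs
      have e1 : (v : ℤ) ^ 2 ∣ s * (((t / v : ℕ) : ℤ) - ((t' / v : ℕ) : ℤ)) := by
        have := dvd_sub b2 d2
        have e : (s : ℤ) * (((t / v : ℕ) : ℤ) - ((t' / v : ℕ) : ℤ)) =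
          s * ((t / v : ℕ) : ℤ) + ((m / v : ℕ) : ℤ) * w ^ 2 - (s * ((t' / v : ℕ) : ℤ) + ((m / v : ℕ) : ℤ) * w ^ 2) := by
          ring
        rw [e]
        exact this
      have e2 := hcop.dvd_of_dvd_mul_left e1
      have hsz : ∀ u : ℕ, u < 2 * (ν ^ 2 * V ^ 2) → u / v < v ^ 2 := by
        intro u hu
        rw [Nat.div_lt_iff_lt_mul a3.pos]
        calc u < 2 * (ν ^ 2 * V ^ 2) := hu
          _ = 2 * ν ^ 2 * V ^ 2 := by ring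
          _ ≤ V * V ^ 2 := Nat.mul_le_mul_right _ hVν
          _ = V ^ 3 := by ring
          _ ≤ v ^ 3 := Nat.pow_le_pow_left a1 3
          _ = v ^ 2 * v := by ring
      have e3 : ((t / v : ℕ) : ℤ) - ((t' / v : ℕ) : ℤ) = 0 := by
        refine Int.eq_zero_of_abs_lt_dvd e2 ?_
        have f1 : ((t / v : ℕ) : ℤ) < (v : ℤ) ^ 2 := by exact_mod_cast hsz t a11
        have f2 : ((t' / v : ℕ) : ℤ) < (v : ℤ) ^ 2 := by exact_mod_cast hsz t' c11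
        have f3 : (0 : ℤ) ≤ ((t / v : ℕ) : ℤ) := by positivity
        have f4 : (0 : ℤ) ≤ ((t' / v : ℕ) : ℤ) := by positivity
        rw [abs_lt]
        constructor <;> linarith
      have e4 : t / v = t' / v := by
        have : ((t / v : ℕ) : ℤ) = ((t' / v : ℕ) : ℤ) := by linarith
        exact_mod_cast this
      have e5 : t = t' := by
        rw [← Nat.mul_div_cancel' ht, ← Nat.mul_div_cancel' ht', e4]
      rw [e5]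
  -- the bound
  have hF0c : F0.card ≤ V * (1352 * ν ^ 4 * V * (ν ^ 2 * V ^ 2)) := by
    refine (Finset.card_filter_le _ _).trans ?_
    rw [Finset.card_product, Finset.card_product, IS, Nat.card_Ico, Nat.card_Ico, Finset.card_range]
    refine le_of_eq ?_
    congr 1
    · omega
    · congr 1
      omega
  have hdiv : ∀ y ∈ F0, (1352 : ℝ) * ((((y.2.2 : ℤ) ^ 2 - (y.2.1 : ℤ) * (y.1 : ℤ) ^ 3).natAbs.divisors.card : ℕ) : ℝ) ≤ ν := by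
    rintro ⟨v, m, s⟩ hy
    simp only [hF0, Finset.mem_filter, Finset.mem_product, Finset.mem_Ico, Finset.mem_range, IS] at hy
    obtain ⟨⟨⟨y1, y2⟩, y3, y4, y5⟩, y6⟩ := hy
    refine hν₀ ν (by omega) _ (Int.natAbs_pos.2 y6) ?_
    have e1 : ν ^ (4 * k + 5) = ν * (ν ^ 4 * V ^ 4) := by
      rw [hV]
      ring
    rw [e1]
    have e2 : s ^ 2 ≤ 10816 * (ν ^ 4 * V ^ 4) := by
      calc s ^ 2 ≤ (2 * (ν ^ 2 * V ^ 2)) ^ 2 := Nat.pow_le_pow_left y5.le 2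
        _ = 4 * (ν ^ 4 * V ^ 4) := by ring
        _ ≤ _ := Nat.mul_le_mul_right _ (by norm_num)
    have e3 : m * v ^ 3 ≤ 10816 * (ν ^ 4 * V ^ 4) := by
      calc m * v ^ 3 ≤ (1352 * ν ^ 4 * V) * (2 * V) ^ 3 := Nat.mul_le_mul y3.le (Nat.pow_le_pow_left y2.le 3)
        _ = 10816 * (ν ^ 4 * V ^ 4) := by ring
    have e4 : 10816 * (ν ^ 4 * V ^ 4) ≤ ν * (ν ^ 4 * V ^ 4) := Nat.mul_le_mul_right _ hν1
    have e5 : ((s : ℤ) ^ 2 - (m : ℤ) * (v : ℤ) ^ 3).natAbs ≤ max (s ^ 2) (m * v ^ 3) := by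
      have f1 : ((s : ℤ) ^ 2) = ((s ^ 2 : ℕ) : ℤ) := by push_cast; rfl
      have f2 : ((m : ℤ) * (v : ℤ) ^ 3) = ((m * v ^ 3 : ℕ) : ℤ) := by push_cast; rfl
      rw [f1, f2]
      omega
    exact e5.trans ((max_le e2 e3).trans e4)
  have hsum : (1352 : ℝ) * (F.card : ℝ) ≤ (F0.card : ℝ) * ν := by
    rw [hF, Finset.card_sigma]
    push_cast
    rw [Finset.mul_sum]
    calc _ ≤ ∑ y ∈ F0, (ν : ℝ) := Finset.sum_le_sum hdiv
      _ = _ := by rw [Finset.sum_const, nsmul_eq_mul]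
  have hleR : ((((TU ν V 1).filter (fun x => ¬ x.1.1 ∣ x.2.1 ∧ x.1.1 ∣ x.2.2.1)).card : ℕ) : ℝ) ≤ F.card := by
    exact_mod_cast hle
  have hF0R : (F0.card : ℝ) ≤ (V : ℝ) * (1352 * ν ^ 4 * V * (ν ^ 2 * V ^ 2)) := by exact_mod_cast hF0c
  have hνR : (0 : ℝ) ≤ ν := by positivity
  have h1 : (F0.card : ℝ) * ν ≤ (V : ℝ) * (1352 * ν ^ 4 * V * (ν ^ 2 * V ^ 2)) * ν := by gcongr
  have h2 : (V : ℝ) * (1352 * ν ^ 4 * V * (ν ^ 2 * V ^ 2)) * ν = 1352 * ((ν : ℝ) ^ 7 * (V : ℝ) ^ 4) := by ring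
  refine hleR.trans ?_
  linarith

end Pool.Agent.T2h80.L5
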