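import Pool.Agent.T2h80.L5.EXA13

set_option autoImplicit false

/-!
# EX3: the tuples with `w ∣ s`
-/

namespace Pool.Agent.T2h80.L5.EX3

open Finset Pool.Agent.T2h80.F5 Pool.Agent.T2h80.L5 Pool.Agent.T2h80.L5.EXA13

lemma not_dvd_of_ne {v w : ℕ} (hv : v.Prime) (hw : w.Prime) (h : v ≠ w) : ¬ w ∣ v := fun h1 =>
  h ((Nat.prime_dvd_prime_iff_eq hw hv).1 h1).symm

/-- `w` divides `m` and `a` when `w ∣ s` -/
lemma wdvd {ν V Q v w s t m : ℕ} (h : ((v, w), s, t, m) ∈ TU ν V Q) (hws : w ∣ s) :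
    w ∣ m ∧ w ∣ aa ((v, w), s, t, m) := by
  obtain ⟨hv, hw, hvw, hv1, hv2, hw1, hw2, hs1, hs2, ht1, ht2, hm1, hm2, hc1, hc2⟩ := base h
  obtain ⟨ha, -, -⟩ := base_a h
  have hwv := not_dvd_of_ne hv hw hvw
  have h1 : w ∣ m := by
    have h2 : (w : ℤ) ∣ (m : ℤ) * v ^ 2 := by
      have h3 : (w : ℤ) ∣ (s : ℤ) ^ 2 := (Int.natCast_dvd_natCast.2 hws).trans
        (dvd_pow_self _ (by norm_num))
      have h4 : (m : ℤ) * v ^ 2 = (s : ℤ) ^ 2 - ((s : ℤ) ^ 2 - m * v ^ 2) := by ring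
      rw [h4]; exact dvd_sub h3 hc2
    have h5 : w ∣ m * v ^ 2 := by exact_mod_cast h2
    rcases (Nat.Prime.dvd_mul hw).1 h5 with h6 | h6
    · exact h6
    · exact absurd (hw.dvd_of_dvd_pow h6) hwv
  refine ⟨h1, ?_⟩
  have h7 : w ∣ aa ((v, w), s, t, m) * v ^ 2 := by
    rw [ha]
    exact dvd_add (hws.mul_right t) (h1.mul_right _)
  rcases (Nat.Prime.dvd_mul hw).1 h7 with h8 | h8
  · exact h8
  · exact absurd (hw.dvd_of_dvd_pow h8) hwv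

lemma posV {ν V Q v w s t m : ℕ} (h : ((v, w), s, t, m) ∈ TU ν V Q) : 0 < V := by
  obtain ⟨hv, hw, hvw, hv1, hv2, hw1, hw2, hs1, hs2, ht1, ht2, hm1, hm2, hc1, hc2⟩ := base h
  omega

lemma posν {ν V Q v w s t m : ℕ} (h : ((v, w), s, t, m) ∈ TU ν V Q) : 0 < ν := by
  obtain ⟨hv, hw, hvw, hv1, hv2, hw1, hw2, hs1, hs2, ht1, ht2, hm1, hm2, hc1, hc2⟩ := base h
  rcases Nat.eq_zero_or_pos ν with h0 | h0
  · subst h0; simp at hs2
  · exact h0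

lemma case1 {ν V D : ℕ} (hV : 2 * ν ^ 2 ≤ V)
    (hD : ∀ n : ℕ, 1 ≤ n → n ≤ 30000 * ν ^ 4 * V ^ 4 → n.divisors.card ≤ D) :
    ((TU ν V 1).filter (fun x => x.1.2 ∣ x.2.1 ∧ ¬ x.1.2 ∣ x.2.2.1)).card ≤
      D * (V * ((6084 * ν ^ 4 * V + 1) * (ν ^ 2 * V ^ 2))) := by
  classical
  refine (card_fib_div _ (Ico V (2 * V) ×ˢ range (6084 * ν ^ 4 * V + 1) ×ˢ IS ν V)
    (fun x => (x.1.2, aa x / x.1.2, x.2.2.1)) (fun x => x.1.1)
    (fun b => ((b.2.2 : ℤ) ^ 2 - b.2.1 * (b.1 : ℤ) ^ 3).natAbs) D ?_ ?_ ?_).trans ?_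
  · rintro ⟨⟨v, w⟩, s, t, m⟩ hx
    rw [mem_filter] at hx
    obtain ⟨hx, hws, hwt⟩ := hx
    simp only at hws hwt
    obtain ⟨hv, hw, hvw, hv1, hv2, hw1, hw2, hs1, hs2, ht1, ht2, hm1, hm2, hc1, hc2⟩ := base hx
    obtain ⟨ha, ha2, ha3⟩ := base_a hx
    have hV0 := posV hx
    simp only [mem_product, mem_Ico, mem_range, IS]
    refine ⟨⟨hw1, hw2⟩, ?_, ht1, ht2⟩
    have h1 : aa ((v, w), s, t, m) / w ≤ 6084 * ν ^ 4 * V := by
      calc aa ((v, w), s, t, m) / w ≤ (6084 * ν ^ 4 * V ^ 2) / w := Nat.div_le_div_right ha3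
        _ ≤ (6084 * ν ^ 4 * V ^ 2) / V := Nat.div_le_div_left hw1 hV0
        _ = 6084 * ν ^ 4 * V := by
            rw [show 6084 * ν ^ 4 * V ^ 2 = (6084 * ν ^ 4 * V) * V by ring]
            exact Nat.mul_div_cancel _ hV0
    omega
  · rintro ⟨⟨v, w⟩, s, t, m⟩ hx
    rw [mem_filter] at hx
    obtain ⟨hx, hws, hwt⟩ := hx
    simp only at hws hwt
    obtain ⟨hv, hw, hvw, hv1, hv2, hw1, hw2, hs1, hs2, ht1, ht2, hm1, hm2, hc1, hc2⟩ := base hx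
    obtain ⟨ha, ha2, ha3⟩ := base_a hx
    obtain ⟨hwm, hwa⟩ := wdvd hx hws
    obtain ⟨a', ha'⟩ := hwa
    have hdiv : aa ((v, w), s, t, m) / w = a' := by
      rw [ha']; exact Nat.mul_div_cancel_left _ hw.pos
    simp only [hdiv]
    have hne : (t : ℤ) ^ 2 - a' * (w : ℤ) ^ 3 ≠ 0 := by
      intro h0
      have h1 : (w : ℤ) ∣ (t : ℤ) ^ 2 := by
        have h2 : (t : ℤ) ^ 2 = w * (a' * w ^ 2) := by linear_combination h0
        rw [h2]; exact Dvd.intro _ rfl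
      have h3 : w ∣ t ^ 2 := by exact_mod_cast h1
      exact hwt (hw.dvd_of_dvd_pow h3)
    have hne' : ((t : ℤ) ^ 2 - a' * (w : ℤ) ^ 3).natAbs ≠ 0 := by
      rwa [Ne, Int.natAbs_eq_zero]
    refine ⟨hne', ?_, ?_⟩
    · have h4 : (v : ℤ) ∣ (t : ℤ) ^ 2 - a' * (w : ℤ) ^ 3 := by
        have h5 : (t : ℤ) ^ 2 - a' * (w : ℤ) ^ 3 =
          (t : ℤ) ^ 2 - aa ((v, w), s, t, m) * w ^ 2 := by
          rw [ha']; push_cast; ring
        rw [h5]; exact ha2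
      exact Int.natCast_dvd.1 h4
    · refine hD _ (Nat.one_le_iff_ne_zero.2 hne') ?_
      have h6 : (((t : ℤ) ^ 2 - a' * (w : ℤ) ^ 3).natAbs : ℤ) ≤ ((30000 * ν ^ 4 * V ^ 4 : ℕ) : ℤ) := by
        rw [Int.natCast_natAbs, abs_le]
        have h7 : a' * w ^ 3 ≤ 24336 * ν ^ 4 * V ^ 4 := by
          calc a' * w ^ 3 = (w * a') * w ^ 2 := by ring
            _ = aa ((v, w), s, t, m) * w ^ 2 := by rw [ha']
            _ ≤ (6084 * ν ^ 4 * V ^ 2) * (2 * V) ^ 2 := by gcongr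
            _ = 24336 * ν ^ 4 * V ^ 4 := by ring
        have h8 : t ^ 2 ≤ 4 * ν ^ 4 * V ^ 4 := by
          calc t ^ 2 ≤ (2 * (ν ^ 2 * V ^ 2)) ^ 2 := by gcongr
            _ = 4 * ν ^ 4 * V ^ 4 := by ring
        have h7' : (a' : ℤ) * w ^ 3 ≤ 24336 * ν ^ 4 * V ^ 4 := by exact_mod_cast h7
        have h8' : (t : ℤ) ^ 2 ≤ 4 * ν ^ 4 * V ^ 4 := by exact_mod_cast h8
        have h9 : (0 : ℤ) ≤ (ν : ℤ) ^ 4 * V ^ 4 := by positivity
        have h10 : (0 : ℤ) ≤ (a' : ℤ) * w ^ 3 := by positivity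
        have h11 : (0 : ℤ) ≤ (t : ℤ) ^ 2 := by positivity
        push_cast
        constructor <;> nlinarith
      exact_mod_cast h6
  · rintro ⟨⟨v, w⟩, s, t, m⟩ hx ⟨⟨v₂, w₂⟩, s₂, t₂, m₂⟩ hy hf hg
    rw [mem_filter] at hx hy
    obtain ⟨hx, hws, hwt⟩ := hx
    obtain ⟨hy, hws₂, hwt₂⟩ := hy
    simp only [Prod.mk.injEq] at hf hg hws hwt hws₂ hwt₂
    obtain ⟨hf1, hf2, hf3⟩ := hf
    subst hf1 hf3 hg
    obtain ⟨hv, hw, hvw, hv1, hv2, hw1, hw2, hs1, hs2, ht1, ht2, hm1, hm2, hc1, hc2⟩ := base hx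
    obtain ⟨-, -, -, -, -, -, -, hs1', hs2', -, -, hm1', hm2', -, -⟩ := base hy
    obtain ⟨ha, ha2, ha3⟩ := base_a hx
    obtain ⟨hb, hb2, hb3⟩ := base_a hy
    obtain ⟨hwm, hwa⟩ := wdvd hx hws
    obtain ⟨hwm₂, hwb⟩ := wdvd hy hws₂
    have hab : aa ((v, w), s, t, m) = aa ((v, w), s₂, t, m₂) := by
      rw [← Nat.div_mul_cancel hwa, ← Nat.div_mul_cancel hwb, hf2]
    have h1 : s * t + m * w ^ 2 = s₂ * t + m₂ * w ^ 2 := by rw [← ha, ← hb, hab]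
    obtain ⟨s', rfl⟩ := hws
    obtain ⟨s₂', rfl⟩ := hws₂
    obtain ⟨m', rfl⟩ := hwm
    obtain ⟨m₂', rfl⟩ := hwm₂
    have hw0 : (w : ℤ) ≠ 0 := by exact_mod_cast hw.ne_zero
    have h2 : ((s' : ℤ) - s₂') * t = (m₂' - m') * w ^ 2 := by
      have h3 : ((w * s' * t + w * m' * w ^ 2 : ℕ) : ℤ) = ((w * s₂' * t + w * m₂' * w ^ 2 : ℕ) : ℤ) := by
        exact_mod_cast h1
      push_cast at h3
      have h4 : (w : ℤ) * (((s' : ℤ) - s₂') * t) = w * ((m₂' - m') * w ^ 2) := by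
        linear_combination h3
      exact mul_left_cancel₀ hw0 h4
    have hcop : IsCoprime ((w : ℤ) ^ 2) (t : ℤ) := by
      refine IsCoprime.pow_left ?_
      exact Nat.isCoprime_iff_coprime.2 ((Nat.Prime.coprime_iff_not_dvd hw).2 hwt)
    have h5 : (w : ℤ) ^ 2 ∣ (s' : ℤ) - s₂' :=
      hcop.dvd_of_dvd_mul_right (by rw [h2]; exact Dvd.intro_left _ rfl)
    have hV0 := posV hx
    have hs' : s' < w ^ 2 := by
      have h6 : w * s' < w * w ^ 2 := by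
        calc w * s' < 2 * (ν ^ 2 * V ^ 2) := hs2
          _ = (2 * ν ^ 2) * V ^ 2 := by ring
          _ ≤ V * V ^ 2 := by gcongr
          _ ≤ w * w ^ 2 := by gcongr
      exact Nat.lt_of_mul_lt_mul_left h6
    have hs₂' : s₂' < w ^ 2 := by
      have h6 : w * s₂' < w * w ^ 2 := by
        calc w * s₂' < 2 * (ν ^ 2 * V ^ 2) := hs2'
          _ = (2 * ν ^ 2) * V ^ 2 := by ring
          _ ≤ V * V ^ 2 := by gcongr
          _ ≤ w * w ^ 2 := by gcongr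
      exact Nat.lt_of_mul_lt_mul_left h6
    have h7 : (s' : ℤ) - s₂' = 0 := by
      refine Int.eq_zero_of_abs_lt_dvd h5 ?_
      have h8 : (s' : ℤ) < (w : ℤ) ^ 2 := by exact_mod_cast hs'
      have h9 : (s₂' : ℤ) < (w : ℤ) ^ 2 := by exact_mod_cast hs₂'
      rw [abs_lt]
      constructor <;> omega
    have h10 : s' = s₂' := by omega
    subst h10
    rw [sub_self, zero_mul] at h2
    have h11 : (m₂' : ℤ) - m' = 0 := by
      rcases mul_eq_zero.1 h2.symm with h12 | h12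
      · exact h12
      · exact absurd h12 (pow_ne_zero _ hw0)
    have h13 : m' = m₂' := by omega
    subst h13
    rfl
  · rw [card_product, card_product, Nat.card_Ico, card_range, IS, Nat.card_Ico]
    refine Nat.mul_le_mul_left D ?_
    rw [show 2 * V - V = V by omega, show 2 * (ν ^ 2 * V ^ 2) - ν ^ 2 * V ^ 2 = ν ^ 2 * V ^ 2 by omega]

lemma case2 {ν V D : ℕ}
    (hD : ∀ n : ℕ, 1 ≤ n → n ≤ 30000 * ν ^ 4 * V ^ 4 → n.divisors.card ≤ D) :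
    ((TU ν V 1).filter (fun x => x.1.2 ∣ x.2.1 ∧ x.1.2 ∣ x.2.2.1)).card ≤
      D * ((2 * ν ^ 2 * V) * ((2 * ν ^ 2 * V) * ((6084 * ν ^ 4 + 1) * V))) := by
  classical
  refine (card_fib_div _ (range (2 * ν ^ 2 * V) ×ˢ range (2 * ν ^ 2 * V) ×ˢ
    range (6084 * ν ^ 4 + 1) ×ˢ Ico V (2 * V))
    (fun x => (x.2.1 / x.1.2, x.2.2.1 / x.1.2, aa x / x.1.2 ^ 2, x.1.1)) (fun x => x.1.2)
    (fun b => ((b.2.2.1 : ℤ) * b.2.2.2 ^ 2 - b.1 * b.2.1).natAbs) D ?_ ?_ ?_).trans ?_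
  · rintro ⟨⟨v, w⟩, s, t, m⟩ hx
    rw [mem_filter] at hx
    obtain ⟨hx, hws, hwt⟩ := hx
    simp only at hws hwt
    obtain ⟨hv, hw, hvw, hv1, hv2, hw1, hw2, hs1, hs2, ht1, ht2, hm1, hm2, hc1, hc2⟩ := base hx
    obtain ⟨ha, ha2, ha3⟩ := base_a hx
    have hV0 := posV hx
    simp only [mem_product, mem_Ico, mem_range]
    have hdiv : ∀ n : ℕ, n < 2 * (ν ^ 2 * V ^ 2) → n / w < 2 * ν ^ 2 * V := by
      intro n hn
      rw [Nat.div_lt_iff_lt_mul hw.pos]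
      calc n < 2 * (ν ^ 2 * V ^ 2) := hn
        _ = 2 * ν ^ 2 * V * V := by ring
        _ ≤ 2 * ν ^ 2 * V * w := by gcongr
    refine ⟨hdiv s hs2, hdiv t ht2, ?_, hv1, hv2⟩
    have h1 : aa ((v, w), s, t, m) / w ^ 2 ≤ 6084 * ν ^ 4 := by
      calc aa ((v, w), s, t, m) / w ^ 2 ≤ (6084 * ν ^ 4 * V ^ 2) / w ^ 2 :=
            Nat.div_le_div_right ha3
        _ ≤ (6084 * ν ^ 4 * V ^ 2) / V ^ 2 := Nat.div_le_div_left (by gcongr) (by positivity)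
        _ = 6084 * ν ^ 4 := Nat.mul_div_cancel _ (by positivity)
    omega
  · rintro ⟨⟨v, w⟩, s, t, m⟩ hx
    rw [mem_filter] at hx
    obtain ⟨hx, hws, hwt⟩ := hx
    simp only at hws hwt
    obtain ⟨hv, hw, hvw, hv1, hv2, hw1, hw2, hs1, hs2, ht1, ht2, hm1, hm2, hc1, hc2⟩ := base hx
    obtain ⟨ha, ha2, ha3⟩ := base_a hx
    obtain ⟨hwm, hwa⟩ := wdvd hx hws
    have hwv := not_dvd_of_ne hv hw hvw
    have hm0 : 0 < m := by
      have := posν hx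
      have := posV hx
      refine lt_of_lt_of_le ?_ hm1
      positivity
    have hwa2 : w ^ 2 ∣ aa ((v, w), s, t, m) := by
      have h1 : w ^ 2 ∣ aa ((v, w), s, t, m) * v ^ 2 := by
        rw [ha]
        refine dvd_add ?_ (Dvd.intro_left _ rfl)
        rw [sq]; exact mul_dvd_mul hws hwt
      refine Nat.Coprime.dvd_of_dvd_mul_right ?_ h1
      exact Nat.Coprime.pow _ _ ((Nat.coprime_primes hw hv).2 (Ne.symm hvw))
    obtain ⟨a', ha'⟩ := hwa2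
    obtain ⟨s', rfl⟩ := hws
    obtain ⟨t', rfl⟩ := hwt
    obtain ⟨m', rfl⟩ := hwm
    have hdiv : aa ((v, w), w * s', w * t', w * m') / w ^ 2 = a' := by
      rw [ha']; exact Nat.mul_div_cancel_left _ (pow_pos hw.pos 2)
    simp only [hdiv, Nat.mul_div_cancel_left _ hw.pos]
    have hw0 : (w : ℤ) ^ 2 ≠ 0 := pow_ne_zero _ (by exact_mod_cast hw.ne_zero)
    have hN : (a' : ℤ) * v ^ 2 - s' * t' = ((w * m' : ℕ) : ℤ) := by
      have h2 : ((aa ((v, w), w * s', w * t', w * m') * v ^ 2 : ℕ) : ℤ) =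
        ((w * s' * (w * t') + w * m' * w ^ 2 : ℕ) : ℤ) := by exact_mod_cast ha
      rw [ha'] at h2
      push_cast at h2 ⊢
      have h3 : (w : ℤ) ^ 2 * ((a' : ℤ) * v ^ 2 - s' * t') = w ^ 2 * (w * m') := by
        linear_combination h2
      exact mul_left_cancel₀ hw0 h3
    rw [hN, Int.natAbs_natCast]
    refine ⟨hm0.ne', Dvd.intro _ rfl, hD _ hm0 ?_⟩
    have hν0 := posν hx
    have hV0 := posV hx
    calc w * m' ≤ 2 * (676 * ν ^ 4 * V ^ 2) := hm2.le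
      _ = 1352 * ν ^ 4 * V ^ 2 * 1 := by ring
      _ ≤ 30000 * ν ^ 4 * V ^ 2 * V ^ 2 := by
          gcongr
          · norm_num
          · exact Nat.one_le_pow _ _ hV0
      _ = 30000 * ν ^ 4 * V ^ 4 := by ring
  · rintro ⟨⟨v, w⟩, s, t, m⟩ hx ⟨⟨v₂, w₂⟩, s₂, t₂, m₂⟩ hy hf hg
    rw [mem_filter] at hx hy
    obtain ⟨hx, hws, hwt⟩ := hx
    obtain ⟨hy, hws₂, hwt₂⟩ := hy
    simp only [Prod.mk.injEq] at hf hg hws hwt hws₂ hwt₂
    obtain ⟨hf1, hf2, hf3, hf4⟩ := hf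
    subst hg hf4
    obtain ⟨hv, hw, hvw, hv1, hv2, hw1, hw2, hs1, hs2, ht1, ht2, hm1, hm2, hc1, hc2⟩ := base hx
    obtain ⟨ha, ha2, ha3⟩ := base_a hx
    obtain ⟨hb, hb2, hb3⟩ := base_a hy
    have hcopw : (w ^ 2).Coprime (v ^ 2) :=
      Nat.Coprime.pow _ _ ((Nat.coprime_primes hw hv).2 (Ne.symm hvw))
    have hwa2 : w ^ 2 ∣ aa ((v, w), s, t, m) := by
      have h1 : w ^ 2 ∣ aa ((v, w), s, t, m) * v ^ 2 := by
        rw [ha]
        refine dvd_add ?_ (Dvd.intro_left _ rfl)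
        rw [sq]; exact mul_dvd_mul hws hwt
      exact hcopw.dvd_of_dvd_mul_right h1
    have hwb2 : w ^ 2 ∣ aa ((v, w), s₂, t₂, m₂) := by
      have h1 : w ^ 2 ∣ aa ((v, w), s₂, t₂, m₂) * v ^ 2 := by
        rw [hb]
        refine dvd_add ?_ (Dvd.intro_left _ rfl)
        rw [sq]; exact mul_dvd_mul hws₂ hwt₂
      exact hcopw.dvd_of_dvd_mul_right h1
    have hab : aa ((v, w), s, t, m) = aa ((v, w), s₂, t₂, m₂) := by
      rw [← Nat.div_mul_cancel hwa2, ← Nat.div_mul_cancel hwb2, hf3]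
    have hss : s = s₂ := by rw [← Nat.div_mul_cancel hws, ← Nat.div_mul_cancel hws₂, hf1]
    have htt : t = t₂ := by rw [← Nat.div_mul_cancel hwt, ← Nat.div_mul_cancel hwt₂, hf2]
    subst hss htt
    have h1 : s * t + m * w ^ 2 = s * t + m₂ * w ^ 2 := by rw [← ha, ← hb, hab]
    have h2 : m * w ^ 2 = m₂ * w ^ 2 := by omega
    have h3 : m = m₂ := Nat.eq_of_mul_eq_mul_right (pow_pos hw.pos 2) h2
    subst h3
    rfl
  · rw [card_product, card_product, card_product, Nat.card_Ico, card_range, card_range]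
    refine Nat.mul_le_mul_left D ?_
    rw [show 2 * V - V = V by omega]

end Pool.Agent.T2h80.L5.EX3

namespace Pool.Agent.T2h80.L5

open Finset Pool.Agent.T2h80.F5 Pool.Agent.T2h80.L5.EXA13 Pool.Agent.T2h80.L5.EX3

theorem t_EX3 (hDIV : F5.S_DIV) : S_EX3 := by
  intro k hk
  obtain ⟨ν₀, h0⟩ := divb hDIV k 40000
  refine ⟨ν₀ + 2, fun ν hν => ?_⟩
  have hν2 : 2 ≤ ν := by omega
  have hν1 : 1 ≤ ν := by omega
  set V := ν ^ k with hVdef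
  set D := ν / 40000 with hDdef
  have hD : ∀ n : ℕ, 1 ≤ n → n ≤ 30000 * ν ^ 4 * V ^ 4 → n.divisors.card ≤ D := by
    intro n hn hn'
    rw [hDdef, Nat.le_div_iff_mul_le (by norm_num), mul_comm]
    refine h0 ν (by omega) n hn (hn'.trans ?_)
    calc 30000 * ν ^ 4 * V ^ 4 ≤ 2 ^ 15 * ν ^ 4 * V ^ 4 := by gcongr; norm_num
      _ ≤ ν ^ 15 * ν ^ 4 * V ^ 4 := by gcongr
      _ = ν ^ (19 + k * 4) := by rw [hVdef]; ring
      _ ≤ ν ^ ((k + 2) * 20) := Nat.pow_le_pow_right hν1 (by omega)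
      _ = (ν ^ (k + 2)) ^ 20 := by rw [← pow_mul]
  have hD2 : 40000 * D ≤ ν := by rw [hDdef]; exact Nat.mul_div_le ν 40000
  have hV2 : ν ^ 2 * ν ^ 2 ≤ V := by
    calc ν ^ 2 * ν ^ 2 = ν ^ 4 := by ring
      _ ≤ ν ^ k := Nat.pow_le_pow_right hν1 (by omega)
  have hV1 : 2 * ν ^ 2 ≤ V := by
    refine le_trans ?_ hV2
    gcongr
    calc 2 ≤ ν := hν2
      _ ≤ ν ^ 2 := Nat.le_self_pow (by norm_num) ν
  have hV3 : ν ^ 2 ≤ V := by omega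
  have hV0 : 1 ≤ V := Nat.one_le_pow _ _ hν1
  have hsub : ((TU ν V 1).filter (fun x => (x.1.1).Coprime (x.2.1 * x.2.2.1) ∧ x.1.2 ∣ x.2.1)) ⊆
      ((TU ν V 1).filter (fun x => x.1.2 ∣ x.2.1 ∧ ¬ x.1.2 ∣ x.2.2.1)) ∪
      ((TU ν V 1).filter (fun x => x.1.2 ∣ x.2.1 ∧ x.1.2 ∣ x.2.2.1)) := by
    intro x hx
    rw [mem_filter] at hx
    rw [mem_union, mem_filter, mem_filter]
    tauto
  have h1 := (card_le_card hsub).trans (card_union_le _ _)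
  have h2 := case1 hV1 hD
  have h3 := case2 hD
  have h4 : ((TU ν V 1).filter (fun x => (x.1.1).Coprime (x.2.1 * x.2.2.1) ∧
      x.1.2 ∣ x.2.1)).card ≤ ν ^ 7 * V ^ 4 := by
    refine h1.trans ((add_le_add h2 h3).trans ?_)
    have h5 : D * (V * ((6084 * ν ^ 4 * V + 1) * (ν ^ 2 * V ^ 2))) ≤ (6085 * D) * (ν ^ 6 * V ^ 4) := by
      have h6 : 1 ≤ ν ^ 4 * V := Nat.one_le_iff_ne_zero.2 (by positivity)
      calc D * (V * ((6084 * ν ^ 4 * V + 1) * (ν ^ 2 * V ^ 2)))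
          ≤ D * (V * ((6084 * ν ^ 4 * V + ν ^ 4 * V) * (ν ^ 2 * V ^ 2))) := by gcongr
        _ = (6085 * D) * (ν ^ 6 * V ^ 4) := by ring
    have h7 : D * ((2 * ν ^ 2 * V) * ((2 * ν ^ 2 * V) * ((6084 * ν ^ 4 + 1) * V))) ≤
        (24340 * D) * (ν ^ 6 * V ^ 4) := by
      have h6 : 1 ≤ ν ^ 4 := Nat.one_le_pow _ _ hν1
      calc D * ((2 * ν ^ 2 * V) * ((2 * ν ^ 2 * V) * ((6084 * ν ^ 4 + 1) * V)))
          ≤ D * ((2 * ν ^ 2 * V) * ((2 * ν ^ 2 * V) * ((6084 * ν ^ 4 + ν ^ 4) * V))) := by gcongr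
        _ = (24340 * D) * (ν ^ 6 * V ^ 3 * ν ^ 2) := by ring
        _ ≤ (24340 * D) * (ν ^ 6 * V ^ 3 * V) := by gcongr
        _ = (24340 * D) * (ν ^ 6 * V ^ 4) := by ring
    calc _ ≤ (6085 * D) * (ν ^ 6 * V ^ 4) + (24340 * D) * (ν ^ 6 * V ^ 4) := add_le_add h5 h7
      _ = (30425 * D) * (ν ^ 6 * V ^ 4) := by ring
      _ ≤ (40000 * D) * (ν ^ 6 * V ^ 4) := by gcongr; norm_num
      _ ≤ ν * (ν ^ 6 * V ^ 4) := by gcongr
      _ = ν ^ 7 * V ^ 4 := by ring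
  have h8 : (((TU ν V 1).filter (fun x => (x.1.1).Coprime (x.2.1 * x.2.2.1) ∧
      x.1.2 ∣ x.2.1)).card : ℝ) ≤ ((ν ^ 7 * V ^ 4 : ℕ) : ℝ) := by exact_mod_cast h4
  refine h8.trans (le_of_eq ?_)
  rw [hVdef]; push_cast; ring

end Pool.Agent.T2h80.L5
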