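import Pool.Agent.T2h80.L5.EXA13

set_option autoImplicit false

/-!
# EX4: the tuples with `w ∣ t`
-/

namespace Pool.Agent.T2h80.L5.EX4

open Finset Pool.Agent.T2h80.F5 Pool.Agent.T2h80.L5 Pool.Agent.T2h80.L5.EXA13

lemma posV {ν V Q v w s t m : ℕ} (h : ((v, w), s, t, m) ∈ TU ν V Q) : 0 < V := by
  obtain ⟨hv, hw, hvw, hv1, hv2, hw1, hw2, hs1, hs2, ht1, ht2, hm1, hm2, hc1, hc2⟩ := base h
  omega

lemma posν {ν V Q v w s t m : ℕ} (h : ((v, w), s, t, m) ∈ TU ν V Q) : 0 < ν := by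
  obtain ⟨hv, hw, hvw, hv1, hv2, hw1, hw2, hs1, hs2, ht1, ht2, hm1, hm2, hc1, hc2⟩ := base h
  rcases Nat.eq_zero_or_pos ν with h0 | h0
  · subst h0; simp at hs2
  · exact h0

lemma coprime_wv {ν V Q v w s t m : ℕ} (h : ((v, w), s, t, m) ∈ TU ν V Q) : w.Coprime v := by
  obtain ⟨hv, hw, hvw, hv1, hv2, hw1, hw2, hs1, hs2, ht1, ht2, hm1, hm2, hc1, hc2⟩ := base h
  exact (Nat.coprime_primes hw hv).2 (Ne.symm hvw)

/-- one factor `w` -/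
lemma data1 {ν V Q v w s t m : ℕ} (h : ((v, w), s, t, m) ∈ TU ν V Q) (hwt : w ∣ t) :
    ∃ a' t' : ℕ, aa ((v, w), s, t, m) = w * a' ∧ t = w * t' ∧ a' * v ^ 2 = s * t' + m * w ∧
      (v : ℤ) ∣ (t' : ℤ) ^ 2 - a' * w := by
  obtain ⟨hv, hw, hvw, hv1, hv2, hw1, hw2, hs1, hs2, ht1, ht2, hm1, hm2, hc1, hc2⟩ := base h
  obtain ⟨ha, ha2, ha3⟩ := base_a h
  have hcop := coprime_wv h
  have hwa : w ∣ aa ((v, w), s, t, m) := by
    have h1 : w ∣ aa ((v, w), s, t, m) * v ^ 2 := by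
      rw [ha]
      refine dvd_add (hwt.mul_left s) ?_
      rw [sq]; exact Dvd.intro_left (m * w) (by ring)
    exact (Nat.Coprime.pow_right 2 hcop).dvd_of_dvd_mul_right h1
  obtain ⟨a', ha'⟩ := hwa
  obtain ⟨t', rfl⟩ := hwt
  have hw0 : (w : ℤ) ≠ 0 := by exact_mod_cast hw.ne_zero
  refine ⟨a', t', ha', rfl, ?_, ?_⟩
  · rw [ha'] at ha
    refine Nat.eq_of_mul_eq_mul_left hw.pos ?_
    calc w * (a' * v ^ 2) = w * a' * v ^ 2 := by ring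
      _ = s * (w * t') + m * w ^ 2 := ha
      _ = w * (s * t' + m * w) := by ring
  · have h2 : (v : ℤ) ∣ (w : ℤ) ^ 2 * ((t' : ℤ) ^ 2 - a' * w) := by
      have h3 : (w : ℤ) ^ 2 * ((t' : ℤ) ^ 2 - a' * w) =
        ((w * t' : ℕ) : ℤ) ^ 2 - aa ((v, w), s, w * t', m) * w ^ 2 := by
        rw [ha']; push_cast; ring
      rw [h3]; exact ha2
    have h4 : IsCoprime (v : ℤ) ((w : ℤ) ^ 2) := by
      refine IsCoprime.pow_right ?_
      exact Nat.isCoprime_iff_coprime.2 hcop.symm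
    exact h4.dvd_of_dvd_mul_left h2

/-- two factors `w` -/
lemma data2 {ν V Q v w s t m : ℕ} (h : ((v, w), s, t, m) ∈ TU ν V Q) (hwt : w ∣ t)
    (hwt2 : w ∣ t / w) :
    ∃ a' t' : ℕ, aa ((v, w), s, t, m) = w ^ 2 * a' ∧ t = w ^ 2 * t' ∧ a' * v ^ 2 = s * t' + m ∧
      (v : ℤ) ∣ (t' : ℤ) ^ 2 - a' := by
  obtain ⟨hv, hw, hvw, hv1, hv2, hw1, hw2, hs1, hs2, ht1, ht2, hm1, hm2, hc1, hc2⟩ := base h
  have hcop := coprime_wv h
  obtain ⟨a', t', h1, h2, h3, h4⟩ := data1 h hwt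
  have h5 : t / w = t' := by rw [h2]; exact Nat.mul_div_cancel_left _ hw.pos
  rw [h5] at hwt2
  have hwa : w ∣ a' := by
    have h6 : w ∣ a' * v ^ 2 := by
      rw [h3]
      exact dvd_add (hwt2.mul_left s) (Dvd.intro_left _ rfl)
    exact (Nat.Coprime.pow_right 2 hcop).dvd_of_dvd_mul_right h6
  obtain ⟨a'', rfl⟩ := hwa
  obtain ⟨t'', rfl⟩ := hwt2
  refine ⟨a'', t'', by rw [h1]; ring, by rw [h2]; ring, ?_, ?_⟩
  · refine Nat.eq_of_mul_eq_mul_left hw.pos ?_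
    calc w * (a'' * v ^ 2) = w * a'' * v ^ 2 := by ring
      _ = s * (w * t'') + m * w := h3
      _ = w * (s * t'' + m) := by ring
  · have h6 : (v : ℤ) ∣ (w : ℤ) ^ 2 * ((t'' : ℤ) ^ 2 - a'') := by
      have h7 : (w : ℤ) ^ 2 * ((t'' : ℤ) ^ 2 - a'') =
        ((w * t'' : ℕ) : ℤ) ^ 2 - ((w * a'' : ℕ) : ℤ) * w := by
        push_cast; ring
      rw [h7]; exact h4
    have h8 : IsCoprime (v : ℤ) ((w : ℤ) ^ 2) := by
      refine IsCoprime.pow_right ?_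
      exact Nat.isCoprime_iff_coprime.2 hcop.symm
    exact h8.dvd_of_dvd_mul_left h6

lemma divt {ν V Q v w s t m : ℕ} (h : ((v, w), s, t, m) ∈ TU ν V Q) {n : ℕ}
    (hn : n < 2 * (ν ^ 2 * V ^ 2)) : n / w < 2 * ν ^ 2 * V ∧ n / w ^ 2 < 2 * ν ^ 2 := by
  obtain ⟨hv, hw, hvw, hv1, hv2, hw1, hw2, hs1, hs2, ht1, ht2, hm1, hm2, hc1, hc2⟩ := base h
  constructor
  · rw [Nat.div_lt_iff_lt_mul hw.pos]
    calc n < 2 * (ν ^ 2 * V ^ 2) := hn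
      _ = 2 * ν ^ 2 * V * V := by ring
      _ ≤ 2 * ν ^ 2 * V * w := by gcongr
  · rw [Nat.div_lt_iff_lt_mul (pow_pos hw.pos 2)]
    calc n < 2 * (ν ^ 2 * V ^ 2) := hn
      _ = 2 * ν ^ 2 * V ^ 2 := by ring
      _ ≤ 2 * ν ^ 2 * w ^ 2 := by gcongr

lemma diva {ν V Q v w s t m : ℕ} (h : ((v, w), s, t, m) ∈ TU ν V Q) :
    aa ((v, w), s, t, m) / w < 6084 * ν ^ 4 * V + 1 ∧
    aa ((v, w), s, t, m) / w ^ 2 < 6084 * ν ^ 4 + 1 := by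
  obtain ⟨hv, hw, hvw, hv1, hv2, hw1, hw2, hs1, hs2, ht1, ht2, hm1, hm2, hc1, hc2⟩ := base h
  obtain ⟨ha, ha2, ha3⟩ := base_a h
  have hV0 := posV h
  constructor
  · have h1 : aa ((v, w), s, t, m) / w ≤ 6084 * ν ^ 4 * V := by
      calc aa ((v, w), s, t, m) / w ≤ (6084 * ν ^ 4 * V ^ 2) / w := Nat.div_le_div_right ha3
        _ ≤ (6084 * ν ^ 4 * V ^ 2) / V := Nat.div_le_div_left hw1 hV0
        _ = 6084 * ν ^ 4 * V := by
            rw [show 6084 * ν ^ 4 * V ^ 2 = (6084 * ν ^ 4 * V) * V by ring]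
            exact Nat.mul_div_cancel _ hV0
    omega
  · have h1 : aa ((v, w), s, t, m) / w ^ 2 ≤ 6084 * ν ^ 4 := by
      calc aa ((v, w), s, t, m) / w ^ 2 ≤ (6084 * ν ^ 4 * V ^ 2) / w ^ 2 :=
            Nat.div_le_div_right ha3
        _ ≤ (6084 * ν ^ 4 * V ^ 2) / V ^ 2 := Nat.div_le_div_left (by gcongr) (by positivity)
        _ = 6084 * ν ^ 4 := Nat.mul_div_cancel _ (by positivity)
    omega

lemma natAbs_bound {x y : ℤ} {B : ℕ} (hx : 0 ≤ x) (hy : 0 ≤ y) (hxB : x ≤ B) (hyB : y ≤ B) :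
    (x - y).natAbs ≤ B := by
  have : ((x - y).natAbs : ℤ) ≤ B := by
    rw [Int.natCast_natAbs, abs_le]
    constructor <;> linarith
  exact_mod_cast this

/-- case (a) -/
lemma case1 {ν V D : ℕ}
    (hD : ∀ n : ℕ, 1 ≤ n → n ≤ 30000 * ν ^ 4 * V ^ 4 → n.divisors.card ≤ D) :
    ((TU ν V 1).filter (fun x => x.1.2 ∣ x.2.2.1 ∧ ¬ x.1.2 ∣ x.2.2.1 / x.1.2)).card ≤
      D * (V * ((6084 * ν ^ 4 * V + 1) * ((2 * ν ^ 2 * V) * (2 * ν ^ 2)))) := by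
  classical
  refine (card_fib_div _ (Ico V (2 * V) ×ˢ range (6084 * ν ^ 4 * V + 1) ×ˢ
    range (2 * ν ^ 2 * V) ×ˢ range (2 * ν ^ 2))
    (fun x => (x.1.2, aa x / x.1.2, x.2.2.1 / x.1.2, x.2.1 / x.1.2 ^ 2)) (fun x => x.1.1)
    (fun b => ((b.2.2.1 : ℤ) ^ 2 - b.2.1 * (b.1 : ℤ)).natAbs) D ?_ ?_ ?_).trans ?_
  · rintro ⟨⟨v, w⟩, s, t, m⟩ hx
    rw [mem_filter] at hx
    obtain ⟨hx, hwt, hwt2⟩ := hx
    simp only at hwt hwt2
    obtain ⟨hv, hw, hvw, hv1, hv2, hw1, hw2, hs1, hs2, ht1, ht2, hm1, hm2, hc1, hc2⟩ := base hx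
    simp only [mem_product, mem_Ico, mem_range]
    exact ⟨⟨hw1, hw2⟩, (diva hx).1, (divt hx ht2).1, (divt hx hs2).2⟩
  · rintro ⟨⟨v, w⟩, s, t, m⟩ hx
    rw [mem_filter] at hx
    obtain ⟨hx, hwt, hwt2⟩ := hx
    simp only at hwt hwt2
    obtain ⟨hv, hw, hvw, hv1, hv2, hw1, hw2, hs1, hs2, ht1, ht2, hm1, hm2, hc1, hc2⟩ := base hx
    obtain ⟨ha, ha2, ha3⟩ := base_a hx
    have hV0 := posV hx
    have hd1 := (divt hx ht2).1
    have hd2 := (diva hx).1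
    obtain ⟨a', t', h1, h2, h3, h4⟩ := data1 hx hwt
    have h5 : t / w = t' := by rw [h2]; exact Nat.mul_div_cancel_left _ hw.pos
    have h6 : aa ((v, w), s, t, m) / w = a' := by
      rw [h1]; exact Nat.mul_div_cancel_left _ hw.pos
    rw [h5] at hwt2 hd1
    rw [h6] at hd2
    simp only [h5, h6]
    have hne : (t' : ℤ) ^ 2 - a' * (w : ℤ) ≠ 0 := by
      intro h0
      have h7 : (w : ℤ) ∣ (t' : ℤ) ^ 2 := by
        have h8 : (t' : ℤ) ^ 2 = w * a' := by linear_combination h0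
        rw [h8]; exact Dvd.intro _ rfl
      have h9 : w ∣ t' ^ 2 := by exact_mod_cast h7
      exact hwt2 (hw.dvd_of_dvd_pow h9)
    have hne' : ((t' : ℤ) ^ 2 - a' * (w : ℤ)).natAbs ≠ 0 := by
      rwa [Ne, Int.natAbs_eq_zero]
    refine ⟨hne', Int.natCast_dvd.1 h4, hD _ (Nat.one_le_iff_ne_zero.2 hne') ?_⟩
    refine natAbs_bound (by positivity) (by positivity) ?_ ?_
    · have h7 : t' ^ 2 ≤ 30000 * ν ^ 4 * V ^ 4 := by
        calc t' ^ 2 ≤ (2 * ν ^ 2 * V) ^ 2 := by gcongr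
          _ = 4 * ν ^ 4 * V ^ 2 * 1 := by ring
          _ ≤ 30000 * ν ^ 4 * V ^ 2 * V ^ 2 := by
            gcongr
            · norm_num
            · exact Nat.one_le_pow _ _ hV0
          _ = 30000 * ν ^ 4 * V ^ 4 := by ring
      exact_mod_cast h7
    · have h7 : a' * w ≤ 30000 * ν ^ 4 * V ^ 4 := by
        calc a' * w = w * a' := by ring
          _ = aa ((v, w), s, t, m) := h1.symm
          _ ≤ 6084 * ν ^ 4 * V ^ 2 := ha3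
          _ = 6084 * ν ^ 4 * V ^ 2 * 1 := by ring
          _ ≤ 30000 * ν ^ 4 * V ^ 2 * V ^ 2 := by
            gcongr
            · norm_num
            · exact Nat.one_le_pow _ _ hV0
          _ = 30000 * ν ^ 4 * V ^ 4 := by ring
      exact_mod_cast h7
  · rintro ⟨⟨v, w⟩, s, t, m⟩ hx ⟨⟨v₂, w₂⟩, s₂, t₂, m₂⟩ hy hf hg
    rw [mem_filter] at hx hy
    obtain ⟨hx, hwt, hwt2⟩ := hx
    obtain ⟨hy, hwtb, hwtb2⟩ := hy
    simp only [Prod.mk.injEq] at hf hg hwt hwt2 hwtb hwtb2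
    obtain ⟨hf1, hf2, hf3, hf4⟩ := hf
    subst hf1 hg
    obtain ⟨hv, hw, hvw, hv1, hv2, hw1, hw2, hs1, hs2, ht1, ht2, hm1, hm2, hc1, hc2⟩ := base hx
    obtain ⟨-, -, -, -, -, -, -, hs1', hs2', -, -, hm1', hm2', -, hd2⟩ := base hy
    obtain ⟨a', t', h1, h2, h3, h4⟩ := data1 hx hwt
    obtain ⟨a₂', t₂', g1, g2, g3, g4⟩ := data1 hy hwtb
    have h5 : t / w = t' := by rw [h2]; exact Nat.mul_div_cancel_left _ hw.pos
    have h6 : aa ((v, w), s, t, m) / w = a' := by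
      rw [h1]; exact Nat.mul_div_cancel_left _ hw.pos
    have g5 : t₂ / w = t₂' := by rw [g2]; exact Nat.mul_div_cancel_left _ hw.pos
    have g6 : aa ((v, w), s₂, t₂, m₂) / w = a₂' := by
      rw [g1]; exact Nat.mul_div_cancel_left _ hw.pos
    rw [h6, g6] at hf2
    rw [h5, g5] at hf3
    rw [h5] at hwt2
    subst hf2 hf3
    have h3z : (a' : ℤ) * v ^ 2 = s * t' + m * w := by exact_mod_cast h3
    have g3z : (a' : ℤ) * v ^ 2 = s₂ * t' + m₂ * w := by exact_mod_cast g3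
    have k1 : (w : ℤ) ^ 2 ∣ w * (s : ℤ) ^ 2 + t' * v ^ 2 * s - a' * v ^ 4 := by
      have e1 : (w : ℤ) * (s : ℤ) ^ 2 + t' * v ^ 2 * s - a' * v ^ 4 =
          w * ((s : ℤ) ^ 2 - m * v ^ 2) := by
        linear_combination (-(v : ℤ) ^ 2) * h3z
      rw [e1, sq]
      exact mul_dvd_mul_left _ hc2
    have k2 : (w : ℤ) ^ 2 ∣ w * (s₂ : ℤ) ^ 2 + t' * v ^ 2 * s₂ - a' * v ^ 4 := by
      have e1 : (w : ℤ) * (s₂ : ℤ) ^ 2 + t' * v ^ 2 * s₂ - a' * v ^ 4 =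
          w * ((s₂ : ℤ) ^ 2 - m₂ * v ^ 2) := by
        linear_combination (-(v : ℤ) ^ 2) * g3z
      rw [e1, sq]
      exact mul_dvd_mul_left _ hd2
    have k3 : (w : ℤ) ^ 2 ∣ ((s : ℤ) - s₂) * (w * (s + s₂) + t' * v ^ 2) := by
      have e1 : ((s : ℤ) - s₂) * (w * (s + s₂) + t' * v ^ 2) =
        (w * (s : ℤ) ^ 2 + t' * v ^ 2 * s - a' * v ^ 4) -
        (w * (s₂ : ℤ) ^ 2 + t' * v ^ 2 * s₂ - a' * v ^ 4) := by ring
      rw [e1]; exact dvd_sub k1 k2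
    have hcop : IsCoprime ((w : ℤ) ^ 2) (w * ((s : ℤ) + s₂) + t' * v ^ 2) := by
      refine IsCoprime.pow_left ?_
      have e1 : IsCoprime (w : ℤ) ((t' : ℤ) * v ^ 2) := by
        refine IsCoprime.mul_right ?_ (IsCoprime.pow_right ?_)
        · exact Nat.isCoprime_iff_coprime.2 ((Nat.Prime.coprime_iff_not_dvd hw).2 hwt2)
        · exact Nat.isCoprime_iff_coprime.2 (coprime_wv hx)
      have e2 := e1.add_mul_left_right ((s : ℤ) + s₂)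
      rw [add_comm] at e2
      exact e2
    have k4 : (w : ℤ) ^ 2 ∣ (s : ℤ) - s₂ := hcop.dvd_of_dvd_mul_right k3
    have k5 : s₂ ≡ s [MOD w ^ 2] := by
      rw [Nat.modEq_iff_dvd]; push_cast; exact k4
    have k6 : s = s₂ := by
      rw [← Nat.div_add_mod s (w ^ 2), ← Nat.div_add_mod s₂ (w ^ 2), hf4, k5]
    subst k6
    have k7 : t = t₂ := by rw [h2, g2]
    subst k7
    have k8 : m * w = m₂ * w := by omega
    have k9 : m = m₂ := Nat.eq_of_mul_eq_mul_right hw.pos k8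
    subst k9
    rfl
  · rw [card_product, card_product, card_product, Nat.card_Ico, card_range, card_range, card_range]
    refine Nat.mul_le_mul_left D ?_
    rw [show 2 * V - V = V by omega]

/-- case (b), `t'² ≠ a'` -/
lemma case2 {ν V D : ℕ}
    (hD : ∀ n : ℕ, 1 ≤ n → n ≤ 30000 * ν ^ 4 * V ^ 4 → n.divisors.card ≤ D) :
    ((TU ν V 1).filter (fun x => x.1.2 ∣ x.2.2.1 ∧ x.1.2 ∣ x.2.2.1 / x.1.2 ∧
      (x.2.2.1 / x.1.2 ^ 2) ^ 2 ≠ aa x / x.1.2 ^ 2)).card ≤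
      D * (V * ((6084 * ν ^ 4 + 1) * ((2 * ν ^ 2) * (ν ^ 2 * V ^ 2)))) := by
  classical
  refine (card_fib_div _ (Ico V (2 * V) ×ˢ range (6084 * ν ^ 4 + 1) ×ˢ
    range (2 * ν ^ 2) ×ˢ IS ν V)
    (fun x => (x.1.2, aa x / x.1.2 ^ 2, x.2.2.1 / x.1.2 ^ 2, x.2.1)) (fun x => x.1.1)
    (fun b => ((b.2.2.1 : ℤ) ^ 2 - b.2.1).natAbs) D ?_ ?_ ?_).trans ?_
  · rintro ⟨⟨v, w⟩, s, t, m⟩ hx
    rw [mem_filter] at hx
    obtain ⟨hx, hwt, hwt2, hwt3⟩ := hx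
    obtain ⟨hv, hw, hvw, hv1, hv2, hw1, hw2, hs1, hs2, ht1, ht2, hm1, hm2, hc1, hc2⟩ := base hx
    simp only [mem_product, mem_Ico, mem_range, IS]
    exact ⟨⟨hw1, hw2⟩, (diva hx).2, (divt hx ht2).2, hs1, hs2⟩
  · rintro ⟨⟨v, w⟩, s, t, m⟩ hx
    rw [mem_filter] at hx
    obtain ⟨hx, hwt, hwt2, hwt3⟩ := hx
    simp only at hwt hwt2 hwt3
    obtain ⟨hv, hw, hvw, hv1, hv2, hw1, hw2, hs1, hs2, ht1, ht2, hm1, hm2, hc1, hc2⟩ := base hx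
    have hV0 := posV hx
    have hd1 := (divt hx ht2).2
    have hd2 := (diva hx).2
    obtain ⟨a', t', h1, h2, h3, h4⟩ := data2 hx hwt hwt2
    have h5 : t / w ^ 2 = t' := by rw [h2]; exact Nat.mul_div_cancel_left _ (pow_pos hw.pos 2)
    have h6 : aa ((v, w), s, t, m) / w ^ 2 = a' := by
      rw [h1]; exact Nat.mul_div_cancel_left _ (pow_pos hw.pos 2)
    rw [h5, h6] at hwt3
    rw [h5] at hd1
    rw [h6] at hd2
    simp only [h5, h6]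
    have hne : (t' : ℤ) ^ 2 - a' ≠ 0 := by
      intro h0
      apply hwt3
      have h7 : (t' : ℤ) ^ 2 = a' := by linarith
      exact_mod_cast h7
    have hne' : ((t' : ℤ) ^ 2 - a').natAbs ≠ 0 := by
      rwa [Ne, Int.natAbs_eq_zero]
    refine ⟨hne', Int.natCast_dvd.1 h4, hD _ (Nat.one_le_iff_ne_zero.2 hne') ?_⟩
    refine natAbs_bound (by positivity) (by positivity) ?_ ?_
    · have h7 : t' ^ 2 ≤ 30000 * ν ^ 4 * V ^ 4 := by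
        calc t' ^ 2 ≤ (2 * ν ^ 2) ^ 2 := by gcongr
          _ = 4 * ν ^ 4 * 1 := by ring
          _ ≤ 30000 * ν ^ 4 * V ^ 4 := by
            gcongr
            · norm_num
            · exact Nat.one_le_pow _ _ hV0
      exact_mod_cast h7
    · have h7 : a' ≤ 30000 * ν ^ 4 * V ^ 4 := by
        calc a' ≤ 6084 * ν ^ 4 := by omega
          _ = 6084 * ν ^ 4 * 1 := by ring
          _ ≤ 30000 * ν ^ 4 * V ^ 4 := by
            gcongr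
            · norm_num
            · exact Nat.one_le_pow _ _ hV0
      exact_mod_cast h7
  · rintro ⟨⟨v, w⟩, s, t, m⟩ hx ⟨⟨v₂, w₂⟩, s₂, t₂, m₂⟩ hy hf hg
    rw [mem_filter] at hx hy
    obtain ⟨hx, hwt, hwt2, hwt3⟩ := hx
    obtain ⟨hy, hwtb, hwtb2, hwtb3⟩ := hy
    simp only [Prod.mk.injEq] at hf hg hwt hwt2 hwtb hwtb2
    obtain ⟨hf1, hf2, hf3, hf4⟩ := hf
    subst hf1 hg hf4
    obtain ⟨hv, hw, hvw, hv1, hv2, hw1, hw2, hs1, hs2, ht1, ht2, hm1, hm2, hc1, hc2⟩ := base hx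
    obtain ⟨a', t', h1, h2, h3, h4⟩ := data2 hx hwt hwt2
    obtain ⟨a₂', t₂', g1, g2, g3, g4⟩ := data2 hy hwtb hwtb2
    have h5 : t / w ^ 2 = t' := by rw [h2]; exact Nat.mul_div_cancel_left _ (pow_pos hw.pos 2)
    have h6 : aa ((v, w), s, t, m) / w ^ 2 = a' := by
      rw [h1]; exact Nat.mul_div_cancel_left _ (pow_pos hw.pos 2)
    have g5 : t₂ / w ^ 2 = t₂' := by rw [g2]; exact Nat.mul_div_cancel_left _ (pow_pos hw.pos 2)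
    have g6 : aa ((v, w), s, t₂, m₂) / w ^ 2 = a₂' := by
      rw [g1]; exact Nat.mul_div_cancel_left _ (pow_pos hw.pos 2)
    rw [h6, g6] at hf2
    rw [h5, g5] at hf3
    subst hf2 hf3
    have k7 : t = t₂ := by rw [h2, g2]
    subst k7
    have k9 : m = m₂ := by omega
    subst k9
    rfl
  · rw [card_product, card_product, card_product, Nat.card_Ico, card_range, card_range, IS,
      Nat.card_Ico]
    refine Nat.mul_le_mul_left D ?_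
    rw [show 2 * V - V = V by omega,
      show 2 * (ν ^ 2 * V ^ 2) - ν ^ 2 * V ^ 2 = ν ^ 2 * V ^ 2 by omega]

lemma five_not_sq {s X : ℤ} (hs : s ≠ 0) : s ^ 2 + s * X - X ^ 2 ≠ 0 := by
  intro h
  have hX : X ≠ 0 := by
    rintro rfl
    apply hs
    have : s ^ 2 = 0 := by linarith
    exact pow_eq_zero_iff (by norm_num) |>.1 this
  have h1 : (2 * s + X) ^ 2 = 5 * X ^ 2 := by linear_combination 4 * h
  have h2 : IsSquare ((5 : ℕ) : ℚ) := by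
    refine ⟨(2 * s + X : ℤ) / X, ?_⟩
    have hX' : (X : ℚ) ≠ 0 := by exact_mod_cast hX
    have h3 : ((2 * s + X : ℤ) : ℚ) ^ 2 = 5 * (X : ℚ) ^ 2 := by exact_mod_cast h1
    field_simp
    push_cast at h3 ⊢
    linarith
  rw [Rat.isSquare_natCast_iff] at h2
  obtain ⟨r, hr⟩ := h2
  have : r ≤ 2 := by nlinarith
  interval_cases r <;> omega

/-- case (b), `t'² = a'` -/
lemma case3 {ν V D : ℕ}
    (hD : ∀ n : ℕ, 1 ≤ n → n ≤ 30000 * ν ^ 4 * V ^ 4 → n.divisors.card ≤ D) :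
    ((TU ν V 1).filter (fun x => x.1.2 ∣ x.2.2.1 ∧ x.1.2 ∣ x.2.2.1 / x.1.2 ∧
      (x.2.2.1 / x.1.2 ^ 2) ^ 2 = aa x / x.1.2 ^ 2)).card ≤
      D * ((ν ^ 2 * V ^ 2) * ((2 * ν ^ 2) * V)) := by
  classical
  refine (card_fib_div _ (IS ν V ×ˢ range (2 * ν ^ 2) ×ˢ Ico V (2 * V))
    (fun x => (x.2.1, x.2.2.1 / x.1.2 ^ 2, x.1.1)) (fun x => x.1.2)
    (fun b => (((b.1 : ℤ) ^ 2 + b.1 * (b.2.1 * (b.2.2 : ℤ) ^ 2)) -
      (b.2.1 * (b.2.2 : ℤ) ^ 2) ^ 2).natAbs) D ?_ ?_ ?_).trans ?_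
  · rintro ⟨⟨v, w⟩, s, t, m⟩ hx
    rw [mem_filter] at hx
    obtain ⟨hx, hwt, hwt2, hwt3⟩ := hx
    obtain ⟨hv, hw, hvw, hv1, hv2, hw1, hw2, hs1, hs2, ht1, ht2, hm1, hm2, hc1, hc2⟩ := base hx
    simp only [mem_product, mem_Ico, mem_range, IS]
    exact ⟨⟨hs1, hs2⟩, (divt hx ht2).2, hv1, hv2⟩
  · rintro ⟨⟨v, w⟩, s, t, m⟩ hx
    rw [mem_filter] at hx
    obtain ⟨hx, hwt, hwt2, hwt3⟩ := hx
    simp only at hwt hwt2 hwt3
    obtain ⟨hv, hw, hvw, hv1, hv2, hw1, hw2, hs1, hs2, ht1, ht2, hm1, hm2, hc1, hc2⟩ := base hx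
    have hV0 := posV hx
    have hν0 := posν hx
    have hd1 := (divt hx ht2).2
    obtain ⟨a', t', h1, h2, h3, h4⟩ := data2 hx hwt hwt2
    have h5 : t / w ^ 2 = t' := by rw [h2]; exact Nat.mul_div_cancel_left _ (pow_pos hw.pos 2)
    have h6 : aa ((v, w), s, t, m) / w ^ 2 = a' := by
      rw [h1]; exact Nat.mul_div_cancel_left _ (pow_pos hw.pos 2)
    rw [h5, h6] at hwt3
    rw [h5] at hd1
    simp only [h5]
    have hs0 : (s : ℤ) ≠ 0 := by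
      have : 0 < s := lt_of_lt_of_le (by positivity) hs1
      exact_mod_cast this.ne'
    have hne := five_not_sq (s := (s : ℤ)) (X := (t' : ℤ) * (v : ℤ) ^ 2) hs0
    have hne' : (((s : ℤ) ^ 2 + s * ((t' : ℤ) * (v : ℤ) ^ 2)) -
        ((t' : ℤ) * (v : ℤ) ^ 2) ^ 2).natAbs ≠ 0 := by
      rwa [Ne, Int.natAbs_eq_zero]
    refine ⟨hne', ?_, hD _ (Nat.one_le_iff_ne_zero.2 hne') ?_⟩
    · refine Int.natCast_dvd.1 ?_
      have h3z : (a' : ℤ) * v ^ 2 = s * t' + m := by exact_mod_cast h3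
      have h7z : (t' : ℤ) ^ 2 = a' := by exact_mod_cast hwt3
      have h8 : ((s : ℤ) ^ 2 + s * ((t' : ℤ) * (v : ℤ) ^ 2)) - ((t' : ℤ) * (v : ℤ) ^ 2) ^ 2 =
          (s : ℤ) ^ 2 - m * v ^ 2 := by
        linear_combination (-(v : ℤ) ^ 2) * h3z - (v : ℤ) ^ 4 * h7z
      rw [h8]; exact hc2
    · refine natAbs_bound (by positivity) (by positivity) ?_ ?_
      · have h7 : s ^ 2 + s * (t' * v ^ 2) ≤ 30000 * ν ^ 4 * V ^ 4 := by
          calc s ^ 2 + s * (t' * v ^ 2) ≤ (2 * (ν ^ 2 * V ^ 2)) ^ 2 +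
                (2 * (ν ^ 2 * V ^ 2)) * ((2 * ν ^ 2) * (2 * V) ^ 2) := by gcongr
            _ = 20 * (ν ^ 4 * V ^ 4) := by ring
            _ ≤ 30000 * (ν ^ 4 * V ^ 4) := by gcongr; norm_num
            _ = 30000 * ν ^ 4 * V ^ 4 := by ring
        exact_mod_cast h7
      · have h7 : (t' * v ^ 2) ^ 2 ≤ 30000 * ν ^ 4 * V ^ 4 := by
          calc (t' * v ^ 2) ^ 2 ≤ ((2 * ν ^ 2) * (2 * V) ^ 2) ^ 2 := by gcongr
            _ = 64 * (ν ^ 4 * V ^ 4) := by ring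
            _ ≤ 30000 * (ν ^ 4 * V ^ 4) := by gcongr; norm_num
            _ = 30000 * ν ^ 4 * V ^ 4 := by ring
        exact_mod_cast h7
  · rintro ⟨⟨v, w⟩, s, t, m⟩ hx ⟨⟨v₂, w₂⟩, s₂, t₂, m₂⟩ hy hf hg
    rw [mem_filter] at hx hy
    obtain ⟨hx, hwt, hwt2, hwt3⟩ := hx
    obtain ⟨hy, hwtb, hwtb2, hwtb3⟩ := hy
    simp only [Prod.mk.injEq] at hf hg hwt hwt2 hwtb hwtb2 hwt3 hwtb3
    obtain ⟨hf1, hf2, hf3⟩ := hf
    subst hf1 hg hf3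
    obtain ⟨hv, hw, hvw, hv1, hv2, hw1, hw2, hs1, hs2, ht1, ht2, hm1, hm2, hc1, hc2⟩ := base hx
    obtain ⟨a', t', h1, h2, h3, h4⟩ := data2 hx hwt hwt2
    obtain ⟨a₂', t₂', g1, g2, g3, g4⟩ := data2 hy hwtb hwtb2
    have h5 : t / w ^ 2 = t' := by rw [h2]; exact Nat.mul_div_cancel_left _ (pow_pos hw.pos 2)
    have h6 : aa ((v, w), s, t, m) / w ^ 2 = a' := by
      rw [h1]; exact Nat.mul_div_cancel_left _ (pow_pos hw.pos 2)
    have g5 : t₂ / w ^ 2 = t₂' := by rw [g2]; exact Nat.mul_div_cancel_left _ (pow_pos hw.pos 2)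
    have g6 : aa ((v, w), s, t₂, m₂) / w ^ 2 = a₂' := by
      rw [g1]; exact Nat.mul_div_cancel_left _ (pow_pos hw.pos 2)
    rw [h5, g5] at hf2
    rw [h5, h6] at hwt3
    rw [g5, g6] at hwtb3
    subst hf2
    have k7 : t = t₂ := by rw [h2, g2]
    subst k7
    have k8 : a' = a₂' := by rw [← hwt3, ← hwtb3]
    subst k8
    have k9 : m = m₂ := by omega
    subst k9
    rfl
  · rw [card_product, card_product, Nat.card_Ico, card_range, IS, Nat.card_Ico]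
    refine Nat.mul_le_mul_left D ?_
    rw [show 2 * V - V = V by omega,
      show 2 * (ν ^ 2 * V ^ 2) - ν ^ 2 * V ^ 2 = ν ^ 2 * V ^ 2 by omega]

end Pool.Agent.T2h80.L5.EX4

namespace Pool.Agent.T2h80.L5

open Finset Pool.Agent.T2h80.F5 Pool.Agent.T2h80.L5.EXA13 Pool.Agent.T2h80.L5.EX4

theorem t_EX4 (hDIV : F5.S_DIV) : S_EX4 := by
  intro k hk
  obtain ⟨ν₀, h0⟩ := divb hDIV k 40000
  refine ⟨ν₀ + 2, fun ν hν => ?_⟩
  have hν2 : 2 ≤ ν := by omega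
  have hν1 : 1 ≤ ν := by omega
  set V := ν ^ k with hVdef
  set D := ν / 40000 with hDdef
  have hD : ∀ n : ℕ, 1 ≤ n → n ≤ 30000 * ν ^ 4 * V ^ 4 → n.divisors.card ≤ D := by
    intro n hn hn'
    rw [hDdef, Nat.le_div_iff_mul_le (by norm_num), mul_comm]
    refine h0 ν (by omega) n hn (hn'.trans ?_)
    calc 30000 * ν ^ 4 * V ^ 4 ≤ 2 ^ 15 * ν ^ 4 * V ^ 4 := by gcongr; norm_num
      _ ≤ ν ^ 15 * ν ^ 4 * V ^ 4 := by gcongr
      _ = ν ^ (19 + k * 4) := by rw [hVdef]; ring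
      _ ≤ ν ^ ((k + 2) * 20) := Nat.pow_le_pow_right hν1 (by omega)
      _ = (ν ^ (k + 2)) ^ 20 := by rw [← pow_mul]
  have hD2 : 40000 * D ≤ ν := by rw [hDdef]; exact Nat.mul_div_le ν 40000
  have hV2 : ν ^ 2 ≤ V := Nat.pow_le_pow_right hν1 (by omega)
  have hV0 : 1 ≤ V := Nat.one_le_pow _ _ hν1
  have hsub : ((TU ν V 1).filter (fun x => (x.1.1).Coprime (x.2.1 * x.2.2.1) ∧ ¬ x.1.2 ∣ x.2.1 ∧
      x.1.2 ∣ x.2.2.1)) ⊆
      ((TU ν V 1).filter (fun x => x.1.2 ∣ x.2.2.1 ∧ ¬ x.1.2 ∣ x.2.2.1 / x.1.2)) ∪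
      (((TU ν V 1).filter (fun x => x.1.2 ∣ x.2.2.1 ∧ x.1.2 ∣ x.2.2.1 / x.1.2 ∧
        (x.2.2.1 / x.1.2 ^ 2) ^ 2 ≠ aa x / x.1.2 ^ 2)) ∪
      ((TU ν V 1).filter (fun x => x.1.2 ∣ x.2.2.1 ∧ x.1.2 ∣ x.2.2.1 / x.1.2 ∧
        (x.2.2.1 / x.1.2 ^ 2) ^ 2 = aa x / x.1.2 ^ 2))) := by
    intro x hx
    rw [mem_filter] at hx
    rw [mem_union, mem_union, mem_filter, mem_filter, mem_filter]
    tauto
  have h1 := (card_le_card hsub).trans ((card_union_le _ _).trans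
    (Nat.add_le_add_left (card_union_le _ _) _))
  have h2 := case1 hD
  have h3 := case2 hD
  have h3' := case3 hD
  have h4 : ((TU ν V 1).filter (fun x => (x.1.1).Coprime (x.2.1 * x.2.2.1) ∧ ¬ x.1.2 ∣ x.2.1 ∧
      x.1.2 ∣ x.2.2.1)).card ≤ ν ^ 7 * V ^ 4 := by
    refine h1.trans ((add_le_add h2 (add_le_add h3 h3')).trans ?_)
    have h6 : 1 ≤ ν ^ 4 := Nat.one_le_pow _ _ hν1
    have h5 : D * (V * ((6084 * ν ^ 4 * V + 1) * ((2 * ν ^ 2 * V) * (2 * ν ^ 2)))) ≤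
        (24340 * D) * (ν ^ 6 * V ^ 3 * ν ^ 2) := by
      have h6 : 1 ≤ ν ^ 4 * V := Nat.one_le_iff_ne_zero.2 (by positivity)
      calc D * (V * ((6084 * ν ^ 4 * V + 1) * ((2 * ν ^ 2 * V) * (2 * ν ^ 2))))
          ≤ D * (V * ((6084 * ν ^ 4 * V + ν ^ 4 * V) * ((2 * ν ^ 2 * V) * (2 * ν ^ 2)))) := by
            gcongr
        _ = (24340 * D) * (ν ^ 6 * V ^ 3 * ν ^ 2) := by ring
    have h7 : D * (V * ((6084 * ν ^ 4 + 1) * ((2 * ν ^ 2) * (ν ^ 2 * V ^ 2)))) ≤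
        (12170 * D) * (ν ^ 6 * V ^ 3 * ν ^ 2) := by
      calc D * (V * ((6084 * ν ^ 4 + 1) * ((2 * ν ^ 2) * (ν ^ 2 * V ^ 2))))
          ≤ D * (V * ((6084 * ν ^ 4 + ν ^ 4) * ((2 * ν ^ 2) * (ν ^ 2 * V ^ 2)))) := by gcongr
        _ = (12170 * D) * (ν ^ 6 * V ^ 3 * ν ^ 2) := by ring
    have h8 : D * ((ν ^ 2 * V ^ 2) * ((2 * ν ^ 2) * V)) ≤ (2 * D) * (ν ^ 6 * V ^ 3 * ν ^ 2) := by
      calc D * ((ν ^ 2 * V ^ 2) * ((2 * ν ^ 2) * V)) = (2 * D) * (ν ^ 4 * V ^ 3 * 1) := by ring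
        _ ≤ (2 * D) * (ν ^ 4 * V ^ 3 * ν ^ 4) := by gcongr
        _ = (2 * D) * (ν ^ 6 * V ^ 3 * ν ^ 2) := by ring
    calc _ ≤ (24340 * D) * (ν ^ 6 * V ^ 3 * ν ^ 2) + ((12170 * D) * (ν ^ 6 * V ^ 3 * ν ^ 2) +
            (2 * D) * (ν ^ 6 * V ^ 3 * ν ^ 2)) := add_le_add h5 (add_le_add h7 h8)
      _ = (36512 * D) * (ν ^ 6 * V ^ 3 * ν ^ 2) := by ring
      _ ≤ (40000 * D) * (ν ^ 6 * V ^ 3 * V) := by gcongr; norm_num
      _ ≤ ν * (ν ^ 6 * V ^ 3 * V) := by gcongr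
      _ = ν ^ 7 * V ^ 4 := by ring
  have h8 : (((TU ν V 1).filter (fun x => (x.1.1).Coprime (x.2.1 * x.2.2.1) ∧ ¬ x.1.2 ∣ x.2.1 ∧
      x.1.2 ∣ x.2.2.1)).card : ℝ) ≤ ((ν ^ 7 * V ^ 4 : ℕ) : ℝ) := by exact_mod_cast h4
  refine h8.trans (le_of_eq ?_)
  rw [hVdef]; push_cast; ring

end Pool.Agent.T2h80.L5
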