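import Mathlib
import Pool.Agent.T2h80.L5.Stm
import Pool.Agent.T2h80.F5.EE

/-!
# EXQ (helper37)
-/

set_option autoImplicit false
set_option linter.all false

namespace Pool.Agent.T2h80.L5

open Finset Pool.Agent.T2h80.F5

namespace EXQ

theorem sum_Ico_zero {M : Type*} [AddCommMonoid M] (f : ℤ → M) (n : ℕ) :
    ∑ s ∈ Ico (0 : ℤ) (0 + n), f s = ∑ i ∈ range n, f (i : ℤ) := by
  symm
  refine Finset.sum_bij (fun (i : ℕ) _ => (i : ℤ)) ?_ ?_ ?_ ?_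
  · intro i hi
    rw [Finset.mem_range] at hi
    rw [Finset.mem_Ico]
    omega
  · intro i _ j _ h
    exact_mod_cast h
  · intro b hb
    rw [Finset.mem_Ico] at hb
    exact ⟨b.toNat, by rw [Finset.mem_range]; omega, by omega⟩
  · intro i _
    rfl

end EXQ

open EXQ

theorem t_EXQ (hWEY : F5.S_WEY) : S_EXQ := by
  obtain ⟨C₀, hC₀, hW⟩ := hWEY
  refine ⟨C₀, hC₀, ?_⟩
  intro q Q h hq A B C s₀ t₀ n₁ n₂ Ns Nt hNs hNt h₁ h₂
  have hqR : (0 : ℝ) < q := by exact_mod_cast hq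
  have key := hW (((h * Q ^ 2 : ℕ) : ℝ) * A / q) (((h * Q ^ 2 : ℕ) : ℝ) * B / q)
    (((h * Q ^ 2 : ℕ) : ℝ) * C / q) ((h : ℝ) * (2 * A * s₀ * Q + B * Q * t₀) / q)
    ((h : ℝ) * (B * s₀ * Q + 2 * C * t₀ * Q) / q) 0 0 n₁ n₂ Ns Nt hNs hNt h₁ h₂
  refine le_trans (le_of_eq ?_) key
  congr 1
  rw [sum_Ico_zero]
  simp only [sum_Ico_zero]
  symm
  rw [← Finset.sum_product', ← EE.norm_sum_shift (Finset.range n₁ ×ˢ Finset.range n₂) _
    ((h : ℝ) * (A * s₀ ^ 2 + B * s₀ * t₀ + C * t₀ ^ 2) / q)]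
  congr 1
  refine Finset.sum_congr rfl fun x _ => ?_
  congr 1
  push_cast
  field_simp
  ring

end Pool.Agent.T2h80.L5
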