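import Mathlib
import Pool.Agent.T2h80.L5.Stm
import Pool.Agent.T2h80.F5.EE
import Pool.Agent.T2h80.F5.WEY

/-!
# FEL (helper37)
-/

set_option autoImplicit false
set_option linter.all false

namespace Pool.Agent.T2h80.L5

open Finset Pool.Agent.T2h80.F5 Pool.Agent.T2h80.F5.EE

namespace FEL

/-- orthogonality -/
theorem orth (q : ℕ) (hq : 0 < q) (n : ℤ) :
    ∑ h ∈ range q, ee ((h : ℝ) * n / q) = if (q : ℤ) ∣ n then (q : ℂ) else 0 := by
  have hqR : (q : ℝ) ≠ 0 := by positivity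
  split_ifs with hd
  · obtain ⟨k, rfl⟩ := hd
    have : ∀ h ∈ range q, ee ((h : ℝ) * (((q : ℤ) * k : ℤ) : ℝ) / q) = 1 := by
      intro h _
      have e1 : (h : ℝ) * (((q : ℤ) * k : ℤ) : ℝ) / q = (((h : ℤ) * k : ℤ) : ℝ) := by
        push_cast
        field_simp
      rw [e1, ee_int]
    rw [Finset.sum_congr rfl this]
    simp
  · have e1 : ∀ h ∈ range q, ee ((h : ℝ) * n / q) = ee ((n : ℝ) / q) ^ h := by
      intro h _
      rw [← ee_nat_mul]
      congr 1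
      ring
    rw [Finset.sum_congr rfl e1]
    have hz : ee ((n : ℝ) / q) ≠ 1 := by
      intro hz
      unfold ee at hz
      rw [Complex.exp_eq_one_iff] at hz
      obtain ⟨k, hk⟩ := hz
      apply hd
      have h2 : (((n : ℝ) / q : ℝ) : ℂ) = ((k : ℝ) : ℂ) := by
        have h3 : (2 * (Real.pi : ℂ) * Complex.I) ≠ 0 := Complex.two_pi_I_ne_zero
        have h4 : (2 * (Real.pi : ℂ) * Complex.I) * (((n : ℝ) / q : ℝ) : ℂ) =
            (2 * (Real.pi : ℂ) * Complex.I) * ((k : ℝ) : ℂ) := by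
          rw [hk]
          push_cast
          ring
        exact mul_left_cancel₀ h3 h4
      have h3 : (n : ℝ) / q = k := by exact_mod_cast h2
      rw [div_eq_iff hqR] at h3
      refine ⟨k, ?_⟩
      have : (n : ℝ) = ((q : ℤ) * k : ℤ) := by
        push_cast
        rw [h3]
        ring
      exact_mod_cast this
    rw [geom_sum_eq hz, ← ee_nat_mul]
    have : (q : ℝ) * ((n : ℝ) / q) = ((n : ℤ) : ℝ) := by field_simp
    rw [this, ee_int, sub_self, zero_div]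

/-- the bound of the geometric sum -/
theorem geo (q B h : ℕ) (h1 : 1 ≤ h) (h2 : 2 * h ≤ q) :
    ‖∑ b ∈ range B, ee ((h : ℝ) * (b : ℝ) / q)‖ ≤ (q : ℝ) / (2 * h) := by
  have hq : 0 < q := by omega
  have hqR : (0 : ℝ) < q := by exact_mod_cast hq
  have hhR : (0 : ℝ) < h := by exact_mod_cast h1
  set θ : ℝ := (h : ℝ) / q with hθ
  have hθ0 : 0 < θ := by positivity
  have hθ1 : θ ≤ 1 / 2 := by
    rw [hθ, div_le_iff₀ hqR]
    have : (2 : ℝ) * h ≤ q := by exact_mod_cast h2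
    linarith
  have e1 : ∑ b ∈ range B, ee ((h : ℝ) * (b : ℝ) / q) = ∑ s ∈ Ico (0 : ℤ) (0 + B), ee (θ * s) := by
    rw [WEY.sum_Ico_int]
    refine Finset.sum_congr rfl fun b _ => ?_
    congr 1
    rw [hθ]
    push_cast
    ring
  have e2 := WEY.tele θ 0 B
  rw [← e1] at e2
  have e3 : ‖∑ b ∈ range B, ee ((h : ℝ) * (b : ℝ) / q)‖ * ‖ee θ - 1‖ ≤ 2 := by
    rw [← norm_mul, e2]
    refine (norm_sub_le _ _).trans ?_
    rw [norm_ee, norm_ee]
    norm_num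
  rw [WEY.norm_ee_sub_one θ hθ0.le (by linarith)] at e3
  have e4 := WEY.sin_lower θ hθ0.le (by linarith)
  rw [min_eq_left (by linarith)] at e4
  have e5 : ‖∑ b ∈ range B, ee ((h : ℝ) * (b : ℝ) / q)‖ * (4 * θ) ≤ 2 := by
    refine le_trans ?_ e3
    have := norm_nonneg (∑ b ∈ range B, ee ((h : ℝ) * (b : ℝ) / q))
    nlinarith
  have e6 : (q : ℝ) / (2 * h) = 2 / (4 * θ) := by
    rw [hθ]
    field_simp
    ring
  rw [e6, le_div_iff₀ (by positivity)]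
  exact e5

/-- the number of representations -/
theorem fiber (q B : ℕ) (A u : ℤ) :
    (((range B ×ˢ range B) ×ˢ (range B ×ˢ range B)).filter (fun x : (ℕ × ℕ) × (ℕ × ℕ) =>
      (q : ℤ) ∣ (A + 2 * B) + ((x.1.1 : ℤ) + x.1.2) - (x.2.1 + x.2.2) - u)).card ≤
    B ^ 3 * ((Ico A (A + 4 * B)).filter (fun m => (q : ℤ) ∣ m - u)).card := by
  refine Finset.card_le_mul_card_image_of_maps_to
    (f := fun x : (ℕ × ℕ) × (ℕ × ℕ) => (A + 2 * B) + ((x.1.1 : ℤ) + x.1.2) - (x.2.1 + x.2.2)) ?_ _ ?_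
  · rintro ⟨⟨a, b⟩, ⟨c, d⟩⟩ hx
    simp only [Finset.mem_filter, Finset.mem_product, Finset.mem_range] at hx
    simp only [Finset.mem_filter, Finset.mem_Ico]
    obtain ⟨⟨⟨h1, h2⟩, ⟨h3, h4⟩⟩, h5⟩ := hx
    refine ⟨⟨by omega, by omega⟩, h5⟩
  · intro m _
    have h1 : ((((range B ×ˢ range B) ×ˢ (range B ×ˢ range B)).filter (fun x : (ℕ × ℕ) × (ℕ × ℕ) =>
      (q : ℤ) ∣ (A + 2 * B) + ((x.1.1 : ℤ) + x.1.2) - (x.2.1 + x.2.2) - u)).filter
      (fun x : (ℕ × ℕ) × (ℕ × ℕ) => (A + 2 * B) + ((x.1.1 : ℤ) + x.1.2) - (x.2.1 + x.2.2) = m)).card ≤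
      ((range B ×ˢ range B) ×ˢ range B).card := by
      refine Finset.card_le_card_of_injOn (fun x => (x.1, x.2.1)) ?_ ?_
      · rintro ⟨⟨a, b⟩, ⟨c, d⟩⟩ hx
        simp only [Finset.coe_filter, Finset.mem_filter, Finset.mem_product, Finset.mem_range,
          Set.mem_setOf_eq] at hx
        simp only [Finset.coe_product, Set.mem_prod, Finset.mem_coe, Finset.mem_range]
        exact ⟨⟨hx.1.1.1.1, hx.1.1.1.2⟩, hx.1.1.2.1⟩
      · rintro ⟨⟨a, b⟩, ⟨c, d⟩⟩ hx ⟨⟨a', b'⟩, ⟨c', d'⟩⟩ hx' he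
        simp only [Finset.coe_filter, Finset.mem_filter, Finset.mem_product, Finset.mem_range,
          Set.mem_setOf_eq] at hx hx'
        simp only [Prod.mk.injEq] at he
        obtain ⟨⟨rfl, rfl⟩, rfl⟩ := he
        have e1 := hx.2
        have e2 := hx'.2
        have : d = d' := by omega
        rw [this]
    refine h1.trans (le_of_eq ?_)
    rw [Finset.card_product, Finset.card_product, Finset.card_range]
    ring

end FEL

open FEL

theorem t_FEL : S_FEL := by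
  classical
  intro ι s φ q B A hq hB
  have hqR : (0 : ℝ) < q := by exact_mod_cast hq
  have hBR : (0 : ℝ) < B := by exact_mod_cast hB
  obtain ⟨S, hS⟩ : ∃ S : ℕ → ℝ, ∀ h : ℕ, S h = ‖∑ i ∈ s, ee ((h : ℝ) * φ i / q)‖ := ⟨_, fun _ => rfl⟩
  simp only [← hS]
  have hS0 : ∀ h, 0 ≤ S h := fun h => by rw [hS]; exact norm_nonneg _
  obtain ⟨D, hD⟩ : ∃ D : ℕ → ℂ, ∀ h : ℕ, D h = ∑ b ∈ range B, ee ((h : ℝ) * (b : ℝ) / q) := ⟨_, fun _ => rfl⟩
  set c : ℤ := A + 2 * B with hc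
  set P : Finset (ℕ × ℕ) := range B ×ˢ range B with hP
  -- the count
  have hcard : ((s ×ˢ Ico A (A + 4 * B)).filter (fun x => (q : ℤ) ∣ x.2 - φ x.1)).card =
      ∑ i ∈ s, ((Ico A (A + 4 * B)).filter (fun m => (q : ℤ) ∣ m - φ i)).card := by
    rw [Finset.card_filter, Finset.sum_product]
    simp only [Finset.card_filter]
  obtain ⟨T, hT⟩ : ∃ T : ℕ, T = ∑ i ∈ s, ((P ×ˢ P).filter (fun x : (ℕ × ℕ) × (ℕ × ℕ) =>
      (q : ℤ) ∣ c + ((x.1.1 : ℤ) + x.1.2) - (x.2.1 + x.2.2) - φ i)).card := ⟨_, rfl⟩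
  have hT1 : T ≤ B ^ 3 * ((s ×ˢ Ico A (A + 4 * B)).filter (fun x => (q : ℤ) ∣ x.2 - φ x.1)).card := by
    rw [hT, hcard, Finset.mul_sum]
    exact Finset.sum_le_sum fun i _ => fiber q B A (φ i)
  -- the Fourier expansion
  have hF : ∀ h : ℕ, ((‖D h‖ ^ 4 : ℝ) : ℂ) = ∑ p ∈ P, ∑ p' ∈ P,
      ee ((h : ℝ) * (((p.1 : ℝ) + p.2)) / q - (h : ℝ) * (((p'.1 : ℝ) + p'.2)) / q) := by
    intro h
    rw [← sq_norm_sum]
    congr 1
    have : ∑ p ∈ P, ee ((h : ℝ) * (((p.1 : ℝ) + p.2)) / q) = D h * D h := by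
      rw [hD, Finset.sum_mul_sum, hP, Finset.sum_product]
      refine Finset.sum_congr rfl fun a _ => Finset.sum_congr rfl fun b _ => ?_
      rw [← ee_add]
      congr 1
      ring
    rw [this, norm_mul]
    ring
  have hTq : ((q : ℂ) * (T : ℂ)) = ∑ h ∈ range q, (∑ i ∈ s, ee (-((h : ℝ) * φ i / q) + (h : ℝ) * c / q)) *
      ((‖D h‖ ^ 4 : ℝ) : ℂ) := by
    have e1 : ((q : ℂ) * (T : ℂ)) = ∑ i ∈ s, ∑ p ∈ P, ∑ p' ∈ P,
        (if (q : ℤ) ∣ c + ((p.1 : ℤ) + p.2) - (p'.1 + p'.2) - φ i then (q : ℂ) else 0) := by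
      rw [hT]
      push_cast
      rw [Finset.mul_sum]
      refine Finset.sum_congr rfl fun i _ => ?_
      rw [Finset.card_filter, Finset.sum_product]
      push_cast
      rw [Finset.mul_sum]
      refine Finset.sum_congr rfl fun p _ => ?_
      rw [Finset.mul_sum]
      refine Finset.sum_congr rfl fun p' _ => ?_
      split_ifs <;> simp
    rw [e1]
    have e2 : ∀ i ∈ s, ∑ p ∈ P, ∑ p' ∈ P,
        (if (q : ℤ) ∣ c + ((p.1 : ℤ) + p.2) - (p'.1 + p'.2) - φ i then (q : ℂ) else 0) =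
        ∑ h ∈ range q, ee (-((h : ℝ) * φ i / q) + (h : ℝ) * c / q) * ((‖D h‖ ^ 4 : ℝ) : ℂ) := by
      intro i _
      have e3 : ∀ p ∈ P, ∑ p' ∈ P,
          (if (q : ℤ) ∣ c + ((p.1 : ℤ) + p.2) - (p'.1 + p'.2) - φ i then (q : ℂ) else 0) =
          ∑ h ∈ range q, ∑ p' ∈ P, ee (-((h : ℝ) * φ i / q) + (h : ℝ) * c / q) *
            ee ((h : ℝ) * (((p.1 : ℝ) + p.2)) / q - (h : ℝ) * (((p'.1 : ℝ) + p'.2)) / q) := by
        intro p _
        rw [Finset.sum_comm]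
        refine Finset.sum_congr rfl fun p' _ => ?_
        rw [← orth q hq]
        refine Finset.sum_congr rfl fun h _ => ?_
        rw [← ee_add]
        congr 1
        push_cast
        ring
      rw [Finset.sum_congr rfl e3, Finset.sum_comm]
      refine Finset.sum_congr rfl fun h _ => ?_
      rw [hF, Finset.mul_sum]
      refine Finset.sum_congr rfl fun p _ => ?_
      rw [Finset.mul_sum]
    rw [Finset.sum_congr rfl e2, Finset.sum_comm]
    refine Finset.sum_congr rfl fun h _ => ?_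
    rw [Finset.sum_mul]
  have hD0 : D 0 = B := by
    rw [hD]
    simp [ee_zero]
  -- lower bound of `q T`
  have hlow : (s.card : ℝ) * (B : ℝ) ^ 4 - ∑ h ∈ Ico 1 q, S h * ‖D h‖ ^ 4 ≤ (q : ℝ) * T := by
    have e1 : ((q : ℂ) * (T : ℂ)) - (s.card : ℂ) * (B : ℂ) ^ 4 = ∑ h ∈ Ico 1 q,
        (∑ i ∈ s, ee (-((h : ℝ) * φ i / q) + (h : ℝ) * c / q)) * ((‖D h‖ ^ 4 : ℝ) : ℂ) := by
      rw [hTq, Finset.range_eq_Ico, Finset.sum_eq_sum_Ico_succ_bot hq]
      have : (∑ i ∈ s, ee (-(((0 : ℕ) : ℝ) * φ i / q) + ((0 : ℕ) : ℝ) * c / q)) * ((‖D 0‖ ^ 4 : ℝ) : ℂ) =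
          (s.card : ℂ) * (B : ℂ) ^ 4 := by
        rw [hD0]
        simp [ee_zero]
      rw [this]
      ring
    have e2 : ‖((q : ℂ) * (T : ℂ)) - (s.card : ℂ) * (B : ℂ) ^ 4‖ ≤ ∑ h ∈ Ico 1 q, S h * ‖D h‖ ^ 4 := by
      rw [e1]
      refine (norm_sum_le _ _).trans (Finset.sum_le_sum fun h _ => ?_)
      rw [norm_mul, norm_sum_shift, norm_sum_neg, ← hS, Complex.norm_real, Real.norm_of_nonneg (by positivity)]
    have e3 : ((q : ℂ) * (T : ℂ)) - (s.card : ℂ) * (B : ℂ) ^ 4 =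
        (((q : ℝ) * T - s.card * (B : ℝ) ^ 4 : ℝ) : ℂ) := by
      push_cast
      ring
    rw [e3, Complex.norm_real, Real.norm_eq_abs] at e2
    have := (abs_le.1 e2).1
    linarith
  -- the bound of the error
  set g : ℕ → ℝ := fun h => (min 1 ((q : ℝ) / (B * h))) ^ 4 * S h with hg
  have hg0 : ∀ h, 0 ≤ g h := fun h => mul_nonneg (by positivity) (hS0 h)
  have hDB : ∀ h, ‖D h‖ ≤ B := by
    intro h
    rw [hD]
    have := norm_sum_le_card (range B) (fun b : ℕ => (h : ℝ) * (b : ℝ) / q)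
    rwa [Finset.card_range] at this
  have hhalf : ∀ h : ℕ, 1 ≤ h → 2 * h ≤ q → S h * ‖D h‖ ^ 4 ≤ (B : ℝ) ^ 4 * g h := by
    intro h h1 h2
    have hhR : (0 : ℝ) < h := by exact_mod_cast h1
    have e1 : ‖D h‖ ≤ B * min 1 ((q : ℝ) / (B * h)) := by
      rw [mul_min_of_nonneg _ _ hBR.le, mul_one]
      refine le_min (hDB h) ?_
      have := geo q B h h1 h2
      rw [← hD] at this
      refine this.trans ?_
      have e2 : (B : ℝ) * ((q : ℝ) / (B * h)) = q / h := by field_simp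
      rw [e2]
      exact div_le_div_of_nonneg_left hqR.le hhR (by linarith)
    calc S h * ‖D h‖ ^ 4 ≤ S h * (B * min 1 ((q : ℝ) / (B * h))) ^ 4 := by
          have := hS0 h
          gcongr
      _ = (B : ℝ) ^ 4 * g h := by
          simp only [hg]
          ring
  have hrefl : ∀ h : ℕ, h < q → S (q - h) = S h ∧ ‖D (q - h)‖ = ‖D h‖ := by
    intro h hh
    have e0 : ((q - h : ℕ) : ℝ) = q - h := by
      rw [Nat.cast_sub hh.le]
    constructor
    · rw [hS, hS, ← norm_sum_neg s (fun i => (h : ℝ) * φ i / q)]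
      congr 1
      refine Finset.sum_congr rfl fun i _ => ?_
      rw [← ee_add_int (-((h : ℝ) * φ i / q)) (φ i)]
      congr 1
      rw [e0]
      field_simp
      ring
    · rw [hD, hD, ← norm_sum_neg (range B) (fun b : ℕ => (h : ℝ) * (b : ℝ) / q)]
      congr 1
      refine Finset.sum_congr rfl fun b _ => ?_
      rw [← ee_add_int (-((h : ℝ) * (b : ℝ) / q)) (b : ℤ)]
      congr 1
      rw [e0]
      push_cast
      field_simp
      ring
  have herr : ∑ h ∈ Ico 1 q, S h * ‖D h‖ ^ 4 ≤ 2 * (B : ℝ) ^ 4 * ∑ h ∈ Icc 1 q, g h := by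
    have e1 : ∀ h ∈ Ico 1 q, S h * ‖D h‖ ^ 4 ≤ (B : ℝ) ^ 4 * g h + (B : ℝ) ^ 4 * g (q - h) := by
      intro h hh
      rw [Finset.mem_Ico] at hh
      have p1 : 0 ≤ (B : ℝ) ^ 4 * g h := mul_nonneg (by positivity) (hg0 h)
      have p2 : 0 ≤ (B : ℝ) ^ 4 * g (q - h) := mul_nonneg (by positivity) (hg0 _)
      rcases le_total (2 * h) q with h2 | h2
      · linarith [hhalf h hh.1 h2]
      · obtain ⟨r1, r2⟩ := hrefl h hh.2
        have := hhalf (q - h) (by omega) (by omega)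
        rw [r1, r2] at this
        linarith
    refine (Finset.sum_le_sum e1).trans ?_
    rw [Finset.sum_add_distrib, ← Finset.mul_sum, ← Finset.mul_sum]
    have e2 : ∑ h ∈ Ico 1 q, g (q - h) = ∑ h ∈ Ico 1 q, g h := by
      refine Finset.sum_nbij' (fun h => q - h) (fun h => q - h) ?_ ?_ ?_ ?_ ?_
      · intro h hh; rw [Finset.mem_Ico] at hh ⊢; omega
      · intro h hh; rw [Finset.mem_Ico] at hh ⊢; omega
      · intro h hh; rw [Finset.mem_Ico] at hh; omega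
      · intro h hh; rw [Finset.mem_Ico] at hh; omega
      · intro h hh; rfl
    rw [e2]
    have e3 : ∑ h ∈ Ico 1 q, g h ≤ ∑ h ∈ Icc 1 q, g h := by
      refine Finset.sum_le_sum_of_subset_of_nonneg ?_ fun h _ _ => hg0 h
      intro h hh
      rw [Finset.mem_Ico] at hh
      rw [Finset.mem_Icc]
      omega
    have : (0 : ℝ) ≤ (B : ℝ) ^ 4 := by positivity
    nlinarith
  have hT2 : (T : ℝ) ≤ (B : ℝ) ^ 3 *
      (((s ×ˢ Ico A (A + 4 * B)).filter (fun x => (q : ℤ) ∣ x.2 - φ x.1)).card : ℝ) := by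
    exact_mod_cast hT1
  set X : ℝ := (((s ×ˢ Ico A (A + 4 * B)).filter (fun x => (q : ℤ) ∣ x.2 - φ x.1)).card : ℝ) with hX
  set Y : ℝ := ∑ h ∈ Icc 1 q, g h with hY
  have h1 : (s.card : ℝ) * (B : ℝ) ^ 4 - 2 * (B : ℝ) ^ 4 * Y ≤ (q : ℝ) * ((B : ℝ) ^ 3 * X) := by
    have : (q : ℝ) * T ≤ (q : ℝ) * ((B : ℝ) ^ 3 * X) := by gcongr
    linarith
  have h2 : ((B : ℝ) * s.card - 2 * B * Y) * (B : ℝ) ^ 3 ≤ (q : ℝ) * X * (B : ℝ) ^ 3 := by
    nlinarith
  have h3 : (B : ℝ) * s.card - 2 * B * Y ≤ (q : ℝ) * X := le_of_mul_le_mul_right h2 (by positivity)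
  have h4 : (B : ℝ) / q * s.card - 2 * ((B : ℝ) / q) * Y = ((B : ℝ) * s.card - 2 * B * Y) / q := by
    field_simp
  change (B : ℝ) / q * s.card - 2 * ((B : ℝ) / q) * Y ≤ X
  rw [h4, div_le_iff₀ hqR]
  linarith

end Pool.Agent.T2h80.L5
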