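import Pool.Agent.T2h80.L5.Stm

set_option autoImplicit false

namespace Pool.Agent.T2h80.L5

open Finset NumberField Pool.Agent.T2h80.F5

section

variable (K : ℤ → Type) [∀ D, Field (K D)] [∀ D, NumberField (K D)]

lemma term_nonneg (D : ℤ) :
    0 ≤ (Nat.card {c : ClassGroup (𝓞 (K D)) // c ^ 5 = 1} : ℝ) - 1 := by
  have h : 0 < Nat.card {c : ClassGroup (𝓞 (K D)) // c ^ 5 = 1} := by
    haveI : Nonempty {c : ClassGroup (𝓞 (K D)) // c ^ 5 = 1} := ⟨⟨1, one_pow 5⟩⟩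
    exact Nat.card_pos
  have h' : (1 : ℝ) ≤ (Nat.card {c : ClassGroup (𝓞 (K D)) // c ^ 5 = 1} : ℝ) := by
    exact_mod_cast h
  linarith

lemma AX_mono {X Y : ℕ} (h : X ≤ Y) : AX K X ≤ AX K Y := by
  classical
  unfold AX
  refine sum_le_sum_of_subset_of_nonneg ?_ (fun D _ _ => term_nonneg K D)
  intro D hD
  rw [mem_filter, mem_Ioo] at hD ⊢
  have : (X : ℤ) ≤ Y := by exact_mod_cast h
  exact ⟨⟨by linarith [hD.1.1], hD.1.2⟩, hD.2⟩

end

lemma exists_nu (c e : ℕ) (hc : 0 < c) (he : 0 < e) (ν₁ X : ℕ) (hX : c * ν₁ ^ e + 1 ≤ X)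
    (hν₁ : 1 ≤ ν₁) : ∃ ν : ℕ, ν₁ ≤ ν ∧ c * ν ^ e + 1 ≤ X ∧ X ≤ c * (2 * ν) ^ e := by
  set P : ℕ → Prop := fun n => c * n ^ e + 1 ≤ X with hP
  have h1 : ν₁ ≤ X := by
    have : ν₁ ≤ ν₁ ^ e := Nat.le_self_pow he.ne' _
    nlinarith
  have h2 : ν₁ ≤ Nat.findGreatest P X := Nat.le_findGreatest h1 hX
  have h3 : P (Nat.findGreatest P X) := Nat.findGreatest_spec (P := P) h1 hX
  refine ⟨Nat.findGreatest P X, h2, h3, ?_⟩
  set ν := Nat.findGreatest P X with hν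
  by_contra hcon
  push Not at hcon
  have h4 : (ν + 1) ^ e ≤ (2 * ν) ^ e := Nat.pow_le_pow_left (by omega) _
  have h5 : c * (ν + 1) ^ e ≤ c * (2 * ν) ^ e := Nat.mul_le_mul_left _ h4
  have h6 : P (ν + 1) := by
    show c * (ν + 1) ^ e + 1 ≤ X
    omega
  have h7 : ν + 1 ≤ X := by
    have : ν + 1 ≤ (ν + 1) ^ e := Nat.le_self_pow he.ne' _
    nlinarith
  have h8 : ν + 1 ≤ Nat.findGreatest P X := Nat.le_findGreatest h7 h6
  omega

/-- the splitting of the good tuples -/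
lemma split_GU (hGTX : S_GTX) (hGDV : S_GDV) (z ν V : ℕ) (hz : 2 ≤ z) (hν : 1 ≤ ν) (hV : 3 ≤ V)
    (x : (ℕ × ℕ) × ℕ × ℕ × ℕ) (hx : x ∈ GU ν V z.factorial z) :
    (∃ d F : ℕ, Squarefree d ∧ Bel ν V d F 1 x ∧ F ≤ ν ^ 5) ∨
    (∃ d F g : ℕ, Squarefree d ∧ Bel ν V d F g x ∧ g ∣ F ∧ ((g = 1 ∧ ν ^ 5 < F) ∨ ν ^ 5 < g)) := by
  classical
  obtain ⟨⟨v, w⟩, s, t, m⟩ := x
  rw [GU, mem_filter] at hx
  obtain ⟨hTU, hcop, hp⟩ := hx
  have hdvd : 2 ∣ z.factorial := Nat.dvd_factorial (by norm_num) hz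
  obtain ⟨D, y₁, y₂, hGT⟩ := hGTX ν V z.factorial hν hV hdvd _ hTU hcop
  have hTU' := hTU
  rw [TU, mem_filter] at hTU'
  obtain ⟨-, hQs, hQt, -⟩ := hTU'
  simp only at hQs hQt
  have hD0 : 0 < D := by
    have := hGT
    simp only [GT] at this
    have h7 : D % 8 = 7 := by
      obtain ⟨_, _, _, _, _, _, _, _, _, _, _, _, _, _, _, _, _, _, _, _, _, _, _, _, _, h, _⟩ := this
      exact h
    omega
  obtain ⟨d, F, hd0, hF0, hDF, hsq⟩ := Nat.sq_mul_squarefree_of_pos hD0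
  have hDF' : D = d * F ^ 2 := by rw [← hDF]; ring
  set a := aa ((v, w), s, t, m) with ha
  obtain ⟨hFodd, hd8, f, hFf, hq, -⟩ := hGDV ν V v w s t m a D y₁ y₂ hGT d F hsq hDF'
  have hBel : Bel ν V d F (Nat.gcd m a) ((v, w), s, t, m) := ⟨a, y₁, y₂, by rw [← hDF']; exact hGT, rfl⟩
  by_cases hg : Nat.gcd m a = 1
  · rw [hg] at hBel
    by_cases hF : F ≤ ν ^ 5
    · exact Or.inl ⟨d, F, hsq, hBel, hF⟩
    · exact Or.inr ⟨d, F, 1, hsq, hBel, one_dvd _, Or.inl ⟨rfl, by omega⟩⟩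
  · right
    refine ⟨d, F, Nat.gcd m a, hsq, hBel, ⟨f, hFf⟩, Or.inr ?_⟩
    have hgpos : 0 < Nat.gcd m a := by
      rcases Nat.eq_zero_or_pos (Nat.gcd m a) with h | h
      · rw [h, zero_mul] at hFf; omega
      · exact h
    have hqp := Nat.minFac_prime hg
    have hqd := Nat.minFac_dvd (Nat.gcd m a)
    set q := (Nat.gcd m a).minFac with hqdef
    have hqst := hq q hqp hqd
    have hqz : z < q := by
      by_contra hcon
      push Not at hcon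
      have hqf : q ∣ z.factorial := Nat.dvd_factorial hqp.pos hcon
      have hqfz : (q : ℤ) ∣ (z.factorial : ℤ) := by exact_mod_cast hqf
      rcases (hqp.dvd_mul).1 hqst with h | h
      · have h1 : (q : ℤ) ∣ (s : ℤ) - 1 := hqfz.trans hQs
        have h2 : (q : ℤ) ∣ (s : ℤ) := by exact_mod_cast h
        have h3 : (q : ℤ) ∣ 1 := by
          have := dvd_sub h2 h1
          simpa using this
        have h4 := Int.le_of_dvd (by norm_num) h3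
        have := hqp.two_le
        omega
      · have h1 : (q : ℤ) ∣ (t : ℤ) - 1 := hqfz.trans hQt
        have h2 : (q : ℤ) ∣ (t : ℤ) := by exact_mod_cast h
        have h3 : (q : ℤ) ∣ 1 := by
          have := dvd_sub h2 h1
          simpa using this
        have h4 := Int.le_of_dvd (by norm_num) h3
        have := hqp.two_le
        omega
    have hqν : ν ^ 5 < q := by
      by_contra hcon
      push Not at hcon
      exact hp q hqp hqz hcon ⟨hqd.trans (Nat.gcd_dvd_left _ _), hqd.trans (Nat.gcd_dvd_right _ _)⟩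
    exact lt_of_lt_of_le hqν (Nat.le_of_dvd hgpos hqd)

theorem t_FINL (hCNL : S_CNL) (hGTX : S_GTX) (hGDV : S_GDV) (hSMA : S_SMA) (hSMB : S_SMB)
    (hPRI : S_PRI) : S_FINL := by
  classical
  have key : ∀ ε : ℝ, 0 < ε → ε ≤ 1 / 2 → ∃ X₀ : ℕ, ∀ X : ℕ, X₀ ≤ X → ∀ (K : ℤ → Type)
      [∀ D, Field (K D)] [∀ D, NumberField (K D)],
      (∀ D : ℤ, D < 0 → FDp D → Module.finrank ℚ (K D) = 2 ∧ discr (K D) = D) →
      (X : ℝ) ^ (1 - ε) ≤ AX K X := by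
    intro ε hε hε2
    obtain ⟨z, hz, hz'⟩ := hCNL
    obtain ⟨k, hk1, hk2⟩ : ∃ k : ℕ, 20 ≤ k ∧ 3 ≤ k * ε := by
      obtain ⟨n, hn⟩ := exists_nat_ge (3 / ε)
      refine ⟨max 20 n, le_max_left _ _, ?_⟩
      rw [div_le_iff₀ hε] at hn
      have : (n : ℝ) ≤ ((max 20 n : ℕ) : ℝ) := by exact_mod_cast le_max_right _ _
      nlinarith
    obtain ⟨ν₀, hν₀⟩ := hz' k hk1
    set δ : ℝ := 1 / (8 * (k : ℝ) + 4) with hδ
    have hkR : (20 : ℝ) ≤ k := by exact_mod_cast hk1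
    have hδ0 : 0 < δ := by rw [hδ]; positivity
    obtain ⟨V₀, hV₀⟩ := hPRI δ hδ0
    obtain ⟨CA, hCA, hA⟩ := hSMA δ hδ0
    obtain ⟨CB, hCB, hB⟩ := hSMB δ hδ0
    set Qf : ℝ := (z.factorial : ℝ) ^ 2 with hQf
    have hQf1 : 1 ≤ Qf := by
      rw [hQf]
      have : (1 : ℝ) ≤ (z.factorial : ℝ) := by exact_mod_cast Nat.factorial_pos z
      nlinarith
    set c : ℕ := 144 * 676 ^ 3 with hc
    set c2 : ℝ := (c : ℝ) * 2 ^ (4 * k + 12) with hc2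
    have hc2pos : 1 ≤ c2 := by
      rw [hc2, hc]
      have : (1 : ℝ) ≤ 2 ^ (4 * k + 12) := one_le_pow₀ (by norm_num)
      push_cast
      nlinarith
    -- the size of ν
    obtain ⟨N₁, hN₁⟩ := exists_nat_ge ((2 * CB * Qf) ^ 2 + c2 * (2 * CA * Qf) + 3)
    set ν₁ : ℕ := max (max ν₀ V₀) (max N₁ 3) with hν₁
    refine ⟨c * ν₁ ^ (4 * k + 12) + 1, fun X hX K _ _ hK => ?_⟩
    have hν₁1 : 1 ≤ ν₁ := le_trans (by norm_num) (le_trans (le_max_right N₁ 3) (le_max_right _ _))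
    obtain ⟨ν, hν, hXl, hXu⟩ := exists_nu c (4 * k + 12) (by rw [hc]; norm_num) (by omega) ν₁ X hX hν₁1
    have hνν₀ : ν₀ ≤ ν := le_trans (le_trans (le_max_left _ _) (le_max_left _ _)) hν
    have hνV₀ : V₀ ≤ ν := le_trans (le_trans (le_max_right _ _) (le_max_left _ _)) hν
    have hνN₁ : N₁ ≤ ν := le_trans (le_trans (le_max_left _ _) (le_max_right _ _)) hν
    have hν3 : 3 ≤ ν := le_trans (le_trans (le_max_right _ _) (le_max_right _ _)) hν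
    have hν1 : 1 ≤ ν := by omega
    have hνR : (3 : ℝ) ≤ ν := by exact_mod_cast hν3
    have hν0 : (0 : ℝ) < ν := by linarith
    have hν1R : (1 : ℝ) ≤ ν := by linarith
    have hN₁R : (N₁ : ℝ) ≤ ν := by exact_mod_cast hνN₁
    set V : ℕ := ν ^ k with hV
    have hνV : ν ≤ V := Nat.le_self_pow (by omega) _
    have hV3 : 3 ≤ V := le_trans hν3 hνV
    have hVR : (V : ℝ) = (ν : ℝ) ^ k := by rw [hV]; push_cast; rfl
    have hV0 : (0 : ℝ) < V := by rw [hVR]; positivity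
    have hV1 : (1 : ℝ) ≤ V := by rw [hVR]; exact one_le_pow₀ hν1R
    -- lower bound for the good tuples
    have hGU : (ν : ℝ) ^ 8 * (V : ℝ) ^ 4 / (Qf * (V : ℝ) ^ δ) ≤ ((GU ν V z.factorial z).card : ℝ) := by
      have h1 := hν₀ ν hνν₀
      have h2 := hV₀ V (le_trans hνV₀ hνV)
      rw [← hV] at h1
      refine le_trans ?_ h1
      rw [← hVR]
      have h3 : (V : ℝ) ^ (2 - δ) = (V : ℝ) ^ 2 / (V : ℝ) ^ δ := by
        rw [Real.rpow_sub hV0]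
        norm_cast
      rw [h3] at h2
      have hVδ : 0 < (V : ℝ) ^ δ := Real.rpow_pos_of_pos hV0 _
      calc (ν : ℝ) ^ 8 * (V : ℝ) ^ 4 / (Qf * (V : ℝ) ^ δ)
          = (ν : ℝ) ^ 8 * (V : ℝ) ^ 2 * ((V : ℝ) ^ 2 / (V : ℝ) ^ δ) / Qf := by
            field_simp
        _ ≤ (ν : ℝ) ^ 8 * (V : ℝ) ^ 2 * ((PP V).card : ℝ) / Qf := by gcongr
    -- the powers
    have hpow : ((ν : ℝ) * V) ^ δ * (V : ℝ) ^ δ ≤ (ν : ℝ) ^ (1 / 2 : ℝ) := by
      rw [← Real.mul_rpow (by positivity) hV0.le]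
      have h1 : (ν : ℝ) * V * V = (ν : ℝ) ^ (2 * k + 1) := by rw [hVR]; ring
      rw [h1, ← Real.rpow_natCast, ← Real.rpow_mul hν0.le]
      refine Real.rpow_le_rpow_of_exponent_le hν1R ?_
      rw [hδ]
      push_cast
      rw [mul_one_div, div_le_div_iff₀ (by positivity) (by norm_num)]
      linarith
    have hVδ : 0 < (V : ℝ) ^ δ := Real.rpow_pos_of_pos hV0 _
    have hνVδ : 0 < ((ν : ℝ) * V) ^ δ := Real.rpow_pos_of_pos (by positivity) _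
    have hhalf : (ν : ℝ) ^ (1 / 2 : ℝ) * (ν : ℝ) ^ (1 / 2 : ℝ) = ν := by
      rw [← Real.rpow_add hν0]; norm_num
    have hhalf0 : 0 < (ν : ℝ) ^ (1 / 2 : ℝ) := Real.rpow_pos_of_pos hν0 _
    -- the two parts
    set TA := (GU ν V z.factorial z).filter
      (fun x => ∃ d F : ℕ, Squarefree d ∧ Bel ν V d F 1 x ∧ F ≤ ν ^ 5) with hTA
    set TB := (GU ν V z.factorial z).filter
      (fun x => ¬ ∃ d F : ℕ, Squarefree d ∧ Bel ν V d F 1 x ∧ F ≤ ν ^ 5) with hTB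
    have hcard : (TA.card : ℝ) + TB.card = ((GU ν V z.factorial z).card : ℝ) := by
      have := card_filter_add_card_filter_not (s := GU ν V z.factorial z)
        (fun x => ∃ d F : ℕ, Squarefree d ∧ Bel ν V d F 1 x ∧ F ≤ ν ^ 5)
      rw [← hTA, ← hTB] at this
      exact_mod_cast this
    have hTAb : (TA.card : ℝ) ≤ CA * ((ν : ℝ) * V) ^ δ * (ν : ℝ) ^ 5 *
        AX K (144 * 676 ^ 3 * ν ^ 12 * V ^ 4 + 1) :=
      hA K hK ν V hν1 hνV TA (fun x hx => (mem_filter.1 hx).2)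
    have hTBb : (TB.card : ℝ) ≤ CB * ((ν : ℝ) * V) ^ δ * ((ν : ℝ) ^ 7 * (V : ℝ) ^ 4) := by
      refine hB K hK ν V hν1 (by omega) TB (fun x hx => ?_)
      have hx' := mem_filter.1 hx
      rcases split_GU hGTX hGDV z ν V hz hν1 hV3 x hx'.1 with h | h
      · exact absurd h hx'.2
      · exact h
    -- the bad part is at most one half
    have hTB2 : (TB.card : ℝ) ≤ (ν : ℝ) ^ 8 * (V : ℝ) ^ 4 / (Qf * (V : ℝ) ^ δ) / 2 := by
      refine le_trans hTBb ?_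
      rw [div_div, le_div_iff₀ (by positivity)]
      have h1 : 2 * CB * Qf ≤ (ν : ℝ) ^ (1 / 2 : ℝ) := by
        have h2 : (2 * CB * Qf) ^ 2 ≤ ν := by nlinarith [mul_pos (mul_pos (by norm_num : (0:ℝ) < 2) hCA) (by linarith : (0:ℝ) < Qf)]
        by_contra hcon
        push Not at hcon
        nlinarith
      calc CB * ((ν : ℝ) * V) ^ δ * ((ν : ℝ) ^ 7 * (V : ℝ) ^ 4) * (Qf * (V : ℝ) ^ δ * 2)
          = (2 * CB * Qf) * (((ν : ℝ) * V) ^ δ * (V : ℝ) ^ δ) * ((ν : ℝ) ^ 7 * (V : ℝ) ^ 4) := by ring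
        _ ≤ (ν : ℝ) ^ (1 / 2 : ℝ) * (ν : ℝ) ^ (1 / 2 : ℝ) * ((ν : ℝ) ^ 7 * (V : ℝ) ^ 4) := by
            gcongr
        _ = (ν : ℝ) ^ 8 * (V : ℝ) ^ 4 := by rw [hhalf]; ring
    have hTA2 : (ν : ℝ) ^ 8 * (V : ℝ) ^ 4 / (Qf * (V : ℝ) ^ δ) / 2 ≤ TA.card := by linarith
    -- the sum
    set Y : ℕ := 144 * 676 ^ 3 * ν ^ 12 * V ^ 4 with hY
    have hYX : Y + 1 ≤ X := by
      have : Y = c * ν ^ (4 * k + 12) := by rw [hY, hc, hV]; ring
      rw [this]; exact hXl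
    have hAX : (ν : ℝ) ^ (4 * k + 2) / (2 * CA * Qf) ≤ AX K (Y + 1) := by
      rw [div_le_iff₀ (by positivity)]
      have h1 := le_trans hTA2 hTAb
      rw [div_div, div_le_iff₀ (by positivity)] at h1
      have hAX0 : 0 ≤ AX K (Y + 1) := by
        unfold AX
        exact sum_nonneg (fun D _ => term_nonneg K D)
      have h2 : (ν : ℝ) ^ 8 * (V : ℝ) ^ 4 ≤
          (ν : ℝ) ^ 6 * (AX K (Y + 1) * (2 * CA * Qf)) := by
        calc (ν : ℝ) ^ 8 * (V : ℝ) ^ 4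
            ≤ CA * ((ν : ℝ) * V) ^ δ * (ν : ℝ) ^ 5 * AX K (Y + 1) * (Qf * (V : ℝ) ^ δ * 2) := h1
          _ = (((ν : ℝ) * V) ^ δ * (V : ℝ) ^ δ) * (ν : ℝ) ^ 5 * (AX K (Y + 1) * (2 * CA * Qf)) := by ring
          _ ≤ (ν : ℝ) ^ (1 / 2 : ℝ) * (ν : ℝ) ^ 5 * (AX K (Y + 1) * (2 * CA * Qf)) := by
              gcongr
          _ ≤ (ν : ℝ) * (ν : ℝ) ^ 5 * (AX K (Y + 1) * (2 * CA * Qf)) := by
              have : (ν : ℝ) ^ (1 / 2 : ℝ) ≤ ν := by
                calc (ν : ℝ) ^ (1 / 2 : ℝ) ≤ (ν : ℝ) ^ (1 : ℝ) :=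
                      Real.rpow_le_rpow_of_exponent_le hν1R (by norm_num)
                  _ = ν := Real.rpow_one _
              gcongr
          _ = (ν : ℝ) ^ 6 * (AX K (Y + 1) * (2 * CA * Qf)) := by ring
      have h3 : (ν : ℝ) ^ 6 * (ν : ℝ) ^ (4 * k + 2) = (ν : ℝ) ^ 8 * (V : ℝ) ^ 4 := by
        rw [hVR]; ring
      rw [← h3] at h2
      exact le_of_mul_le_mul_left h2 (by positivity)
    have hXR : (X : ℝ) ≤ c2 * (ν : ℝ) ^ (4 * k + 12) := by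
      have : (X : ℝ) ≤ (c : ℝ) * (2 * (ν : ℝ)) ^ (4 * k + 12) := by exact_mod_cast hXu
      rw [mul_pow] at this
      rw [hc2]; linarith
    have hXpos : (0 : ℝ) ≤ X := Nat.cast_nonneg X
    calc (X : ℝ) ^ (1 - ε) ≤ (c2 * (ν : ℝ) ^ (4 * k + 12)) ^ (1 - ε) :=
          Real.rpow_le_rpow hXpos hXR (by linarith)
      _ = c2 ^ (1 - ε) * ((ν : ℝ) ^ (4 * k + 12)) ^ (1 - ε) := by
          rw [Real.mul_rpow (by linarith) (by positivity)]
      _ ≤ c2 * (ν : ℝ) ^ (4 * k) := by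
          have h1 : c2 ^ (1 - ε) ≤ c2 := by
            calc c2 ^ (1 - ε) ≤ c2 ^ (1 : ℝ) := Real.rpow_le_rpow_of_exponent_le hc2pos (by linarith)
              _ = c2 := Real.rpow_one _
          have h2 : ((ν : ℝ) ^ (4 * k + 12)) ^ (1 - ε) ≤ (ν : ℝ) ^ (4 * k) := by
            rw [← Real.rpow_natCast, ← Real.rpow_mul hν0.le, ← Real.rpow_natCast]
            refine Real.rpow_le_rpow_of_exponent_le hν1R ?_
            push_cast
            nlinarith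
          exact mul_le_mul h1 h2 (by positivity) (by linarith)
      _ ≤ (ν : ℝ) ^ (4 * k + 2) / (2 * CA * Qf) := by
          rw [le_div_iff₀ (by positivity)]
          have h1 : c2 * (2 * CA * Qf) ≤ (ν : ℝ) ^ 2 := by
            have h2 : c2 * (2 * CA * Qf) ≤ ν := by nlinarith [sq_nonneg (2 * CB * Qf)]
            nlinarith
          calc c2 * (ν : ℝ) ^ (4 * k) * (2 * CA * Qf) = (c2 * (2 * CA * Qf)) * (ν : ℝ) ^ (4 * k) := by ring
            _ ≤ (ν : ℝ) ^ 2 * (ν : ℝ) ^ (4 * k) := by gcongr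
            _ = (ν : ℝ) ^ (4 * k + 2) := by ring
      _ ≤ AX K (Y + 1) := hAX
      _ ≤ AX K X := AX_mono K hYX
  intro ε hε
  rcases le_total ε (1 / 2) with h | h
  · exact key ε hε h
  · obtain ⟨X₀, hX₀⟩ := key (1 / 2) (by norm_num) le_rfl
    refine ⟨max X₀ 1, fun X hX K _ _ hK => le_trans ?_ (hX₀ X (le_trans (le_max_left _ _) hX) K hK)⟩
    have hX1 : (1 : ℝ) ≤ X := by exact_mod_cast le_trans (le_max_right _ _) hX
    exact Real.rpow_le_rpow_of_exponent_le hX1 (by linarith)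

end Pool.Agent.T2h80.L5
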