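import Pool.Agent.T2h80.L5.Stm
import Pool.Agent.T2h80.F5.EE

set_option autoImplicit false
set_option linter.all false

namespace Pool.Agent.T2h80.L5

open Finset Pool.Agent.T2h80.F5

namespace FPAaux

/-- the progressions -/
lemma base (Q : ℕ) (hQ : 1 ≤ Q) (a c : ℤ) : ∃ s₀ : ℤ, ∀ s : ℤ, a ≤ s → (Q : ℤ) ∣ s - c →
    ∃ x : ℕ, s = s₀ + Q * x ∧ (Q : ℤ) * x ≤ s - a := by
  have hQ0 : (0 : ℤ) < Q := by exact_mod_cast hQ
  refine ⟨a + (c - a) % Q, ?_⟩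
  intro s hs hd
  have h1 := Int.emod_nonneg (c - a) hQ0.ne'
  have h2 := Int.emod_lt_of_pos (c - a) hQ0
  have h3 : (Q : ℤ) ∣ s - (a + (c - a) % Q) := by
    have h4 : s - (a + (c - a) % Q) = (s - c) + Q * ((c - a) / Q) := by
      have := Int.emod_add_mul_ediv (c - a) Q
      linarith
    rw [h4]
    exact hd.add (dvd_mul_right _ _)
  obtain ⟨y, hy⟩ := h3
  have hy0 : 0 ≤ y := by
    by_contra hneg
    push_neg at hneg
    have : (Q : ℤ) * y ≤ Q * (-1) := mul_le_mul_of_nonneg_left (by omega) hQ0.le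
    linarith
  refine ⟨y.toNat, ?_, ?_⟩
  · rw [Int.toNat_of_nonneg hy0]
    linarith
  · rw [Int.toNat_of_nonneg hy0]
    linarith

/-- symmetric sums -/
theorem sym_sum (f : ℤ → ℝ) (hf : ∀ h, f (-h) = f h) (K : ℕ) :
    ∑ h ∈ Icc (-(K : ℤ)) K, f h = f 0 + 2 * ∑ h ∈ Icc 1 K, f (h : ℕ) := by
  induction K with
  | zero => simp
  | succ K ih =>
    have e1 : Icc (-((K + 1 : ℕ) : ℤ)) ((K + 1 : ℕ) : ℤ) =
        insert (-((K + 1 : ℕ) : ℤ)) (insert ((K + 1 : ℕ) : ℤ) (Icc (-(K : ℤ)) K)) := by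
      ext x
      simp only [Finset.mem_Icc, Finset.mem_insert]
      push_cast
      omega
    rw [e1, Finset.sum_insert, Finset.sum_insert, ih, Finset.sum_Icc_succ_top (by omega), hf]
    · ring
    · rw [Finset.mem_Icc]
      push_cast
      omega
    · rw [Finset.mem_insert, Finset.mem_Icc]
      push_cast
      omega

end FPAaux

open FPAaux

/-- **FPA.** -/
theorem t_FPA (hFEJ : S_FEJ) (hCOE : S_COE) (hEXQ : S_EXQ) : S_FPA := by
  classical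
  obtain ⟨C₀, hC₀, hX⟩ := hEXQ
  refine ⟨672000, by norm_num, fun Q hQ => ⟨1344000 * Real.sqrt C₀, by positivity, fun k hk =>
    ⟨Q + 2, fun ν hν x hx p hp hpν σ hσ => ?_⟩⟩⟩
  obtain ⟨v, w⟩ := x
  simp only
  obtain ⟨V, hV⟩ : ∃ V : ℕ, V = ν ^ k := ⟨_, rfl⟩
  obtain ⟨W, hW⟩ : ∃ W : ℕ, W = ν ^ (k - 2) := ⟨_, rfl⟩
  have hVW : V = W * ν ^ 2 := by
    rw [hV, hW, ← pow_add]
    congr 1
    omega
  have hWW : ν ^ (2 * k - 4) = W ^ 2 := by
    rw [hW, ← pow_mul]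
    congr 1
    omega
  have hVR : ((ν : ℝ) ^ k) = (V : ℝ) := by rw [hV]; push_cast; ring
  rw [← hV, hVR, ← hW, hWW]
  rw [← hV] at hx
  have hν2 : 2 ≤ ν := by omega
  have hν0 : 0 < ν := by omega
  have hV6 : ν ^ 6 ≤ V := by rw [hV]; exact Nat.pow_le_pow_right hν0 hk
  have hpV : p < V := by
    have h1 : ν ^ 5 < ν ^ 6 := Nat.pow_lt_pow_right (by omega) (by norm_num)
    omega
  have hp0 : 0 < p := hp.pos
  have hW0 : 0 < W := by rw [hW]; positivity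
  have hV0 : 0 < V := by rw [hV]; positivity
  unfold PP PV at hx
  rw [Finset.mem_filter, Finset.mem_product, Finset.mem_filter, Finset.mem_filter, Finset.mem_Ico,
    Finset.mem_Ico] at hx
  obtain ⟨⟨⟨⟨hv1, hv2⟩, hvp⟩, ⟨⟨hw1, hw2⟩, hwp⟩⟩, hvw⟩ := hx
  simp only at hv1 hv2 hvp hw1 hw2 hwp hvw
  have hco : v.Coprime w := (Nat.coprime_primes hvp hwp).2 hvw
  have hpco : p.Coprime (v * w) := by
    apply Nat.Coprime.mul_right
    · exact (Nat.coprime_primes hp hvp).2 (by omega)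
    · exact (Nat.coprime_primes hp hwp).2 (by omega)
  obtain ⟨A, B, C, hABC, hDW⟩ := hCOE v w p hvp.pos hwp.pos hp0 hco hpco σ hσ
  obtain ⟨N, hN⟩ : ∃ N : ℕ, N = ν ^ 2 * V ^ 2 := ⟨_, rfl⟩
  -- the right side is nonnegative
  have hpR : (0 : ℝ) < p := by exact_mod_cast hp0
  have hνR : (1 : ℝ) ≤ ν := by exact_mod_cast hν0
  have hlog : 0 ≤ Real.log ν := Real.log_nonneg hνR
  have hQR : (0 : ℝ) < Q := by exact_mod_cast hQ
  have hVRp : (0 : ℝ) < V := by exact_mod_cast hV0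
  obtain ⟨Y, hY⟩ : ∃ Y : ℝ, Y = ∑ h ∈ Icc 1 (p * W ^ 2),
    Real.sqrt (1 + (KQ p (1000 * Q ^ 2 * p * W) (h * Q ^ 2) v w : ℝ)) := ⟨_, rfl⟩
  rw [← hY]
  have hY0 : 0 ≤ Y := by rw [hY]; exact Finset.sum_nonneg fun _ _ => Real.sqrt_nonneg _
  have hN0 : 0 < N := by rw [hN]; positivity
  have hNQ : p * (Q + 1) ≤ N := by
    calc p * (Q + 1) ≤ ν ^ 5 * ν := Nat.mul_le_mul hpν (by omega)
      _ = ν ^ 6 := by ring
      _ ≤ V := hV6
      _ ≤ V ^ 2 := Nat.le_self_pow (by norm_num) V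
      _ ≤ ν ^ 2 * V ^ 2 := Nat.le_mul_of_pos_left _ (by positivity)
      _ = N := hN.symm
  rcases Nat.Prime.eq_one_or_self_of_dvd hp (Nat.gcd p Q) (Nat.gcd_dvd_left p Q) with hg | hg
  swap
  · -- `p ∣ Q`
    have hpQ : p ∣ Q := by
      have := Nat.gcd_dvd_right p Q
      rwa [hg] at this
    have hemp : (TF ν V Q p σ).filter (fun y => y.1 = (v, w)) = ∅ := by
      rw [Finset.eq_empty_iff_forall_notMem]
      intro y hy
      rw [Finset.mem_filter, TF, Finset.mem_filter] at hy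
      obtain ⟨⟨-, h1, -, -, h2, -⟩, -⟩ := hy
      have h3 : (p : ℤ) ∣ (y.2.1 : ℤ) - 1 := (Int.natCast_dvd_natCast.2 hpQ).trans h1
      have h4 : (p : ℤ) ∣ (y.2.1 : ℤ) := Int.natCast_dvd_natCast.2 h2
      have h5 : (p : ℤ) ∣ 1 := by
        have := h4.sub h3
        simpa using this
      have h6 : p ∣ 1 := by exact_mod_cast h5
      exact hp.one_lt.ne' (Nat.dvd_one.1 h6)
    rw [hemp, Finset.card_empty, Nat.cast_zero]
    positivity
  -- `p ∤ Q`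
  have hpQ : IsCoprime (p : ℤ) (Q : ℤ) := Nat.isCoprime_iff_coprime.mpr hg
  obtain ⟨c, c', hcc⟩ := hpQ
  obtain ⟨a, ha⟩ : ∃ a : ℕ, a = N / p := ⟨_, rfl⟩
  obtain ⟨s₀, hs₀⟩ := base Q hQ (a : ℤ) c
  obtain ⟨t₀, ht₀⟩ := base Q hQ (N : ℤ) 1
  obtain ⟨n₁, hn₁⟩ : ∃ n₁ : ℕ, n₁ = (a + 1) / Q + 1 := ⟨_, rfl⟩
  obtain ⟨n₂, hn₂⟩ : ∃ n₂ : ℕ, n₂ = N / Q + 1 := ⟨_, rfl⟩
  obtain ⟨M, hM⟩ : ∃ M : ℕ, M = 6084 * ν ^ 4 * V ^ 2 / p + 1 := ⟨_, rfl⟩
  obtain ⟨q, hq⟩ : ∃ q : ℕ, q = v ^ 3 * w := ⟨_, rfl⟩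
  have ha1 : a * p ≤ N := by rw [ha]; exact Nat.div_mul_le_self N p
  have ha2 : N < (a + 1) * p := by
    rw [ha]
    have h1 := Nat.div_add_mod N p
    have h2 := Nat.mod_lt N hp0
    nlinarith
  have hQa : Q + 1 ≤ a := by
    rw [ha]
    exact (Nat.le_div_iff_mul_le hp0).2 (by rw [mul_comm]; exact hNQ)
  have haN : a ≤ N := by rw [ha]; exact Nat.div_le_self N p
  have hn1Q : n₁ * Q ≤ 2 * a := by
    have h1 : (a + 1) / Q * Q ≤ a + 1 := Nat.div_mul_le_self _ _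
    rw [hn₁, add_mul, one_mul]
    omega
  have hn2Q : n₂ * Q ≤ 2 * N := by
    have h1 : N / Q * Q ≤ N := Nat.div_mul_le_self _ _
    rw [hn₂, add_mul, one_mul]
    omega
  have hMp : 6084 * ν ^ 4 * V ^ 2 < M * p := by
    rw [hM]
    have h1 := Nat.div_add_mod (6084 * ν ^ 4 * V ^ 2) p
    have h2 := Nat.mod_lt (6084 * ν ^ 4 * V ^ 2) hp0
    nlinarith
  have hMp2 : M * p ≤ 7000 * ν ^ 4 * V ^ 2 := by
    have h1 : 6084 * ν ^ 4 * V ^ 2 / p * p ≤ 6084 * ν ^ 4 * V ^ 2 := Nat.div_mul_le_self _ _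
    have h2 : p ≤ 916 * (ν ^ 4 * V ^ 2) := by
      calc p ≤ V := hpV.le
        _ ≤ V ^ 2 := Nat.le_self_pow (by norm_num) V
        _ ≤ ν ^ 4 * V ^ 2 := Nat.le_mul_of_pos_left _ (by positivity)
        _ ≤ 916 * (ν ^ 4 * V ^ 2) := Nat.le_mul_of_pos_left _ (by norm_num)
    rw [hM, add_mul, one_mul]
    nlinarith
  have hq0 : 0 < q := by
    rw [hq]
    have := hvp.pos
    have := hwp.pos
    positivity
  have hM0 : 0 < M := by rw [hM]; exact Nat.succ_pos _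
  have hqV : V ^ 4 ≤ q := by
    rw [hq]
    calc V ^ 4 = V ^ 3 * V := by ring
      _ ≤ v ^ 3 * w := Nat.mul_le_mul (Nat.pow_le_pow_left hv1 3) hw1
  have hqV2 : q ≤ 16 * V ^ 4 := by
    rw [hq]
    calc v ^ 3 * w ≤ (2 * V) ^ 3 * (2 * V) := Nat.mul_le_mul (Nat.pow_le_pow_left hv2.le 3) hw2.le
      _ = 16 * V ^ 4 := by ring
  obtain ⟨φ, hφ⟩ : ∃ φ : ℕ × ℕ → ℤ, φ = fun x : ℕ × ℕ => A * (s₀ + Q * (x.1 : ℤ)) ^ 2 +
      B * (s₀ + Q * (x.1 : ℤ)) * (t₀ + Q * (x.2 : ℤ)) + C * (t₀ + Q * (x.2 : ℤ)) ^ 2 := ⟨_, rfl⟩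
  obtain ⟨F, hF⟩ : ∃ F, F = (TF ν V Q p σ).filter (fun y => y.1 = (v, w)) := ⟨_, rfl⟩
  rw [← hF]
  have hmem : ∀ y ∈ F, ∃ z : (ℕ × ℕ) × ℤ,
      z ∈ (((range n₁ ×ˢ range n₂) ×ˢ Ico (0 : ℤ) (0 + M)).filter
        (fun x : (ℕ × ℕ) × ℤ => (q : ℤ) ∣ x.2 - φ x.1)) ∧
      (y.2.1 : ℤ) = p * (s₀ + Q * z.1.1) ∧ (y.2.2.1 : ℤ) = t₀ + Q * z.1.2 ∧
      (y.2.2.2 : ℤ) = p * z.2 := by
    rintro ⟨⟨v', w'⟩, s, t, m⟩ hy
    rw [hF, Finset.mem_filter, TF, Finset.mem_filter] at hy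
    obtain ⟨⟨h0, h1, h2, h3, h4, h5⟩, h6⟩ := hy
    simp only [Prod.mk.injEq] at h1 h2 h3 h4 h5 h6
    obtain ⟨rfl, rfl⟩ := h6
    rw [Finset.mem_product, Finset.mem_product, Finset.mem_product] at h0
    obtain ⟨-, h7, h8, h9⟩ := h0
    simp only [IS, Finset.mem_Ico, Finset.mem_Icc, ← hN] at h7 h8 h9
    obtain ⟨s₁, rfl⟩ := h4
    obtain ⟨m₁, rfl⟩ := h5
    have hpZ : (0 : ℤ) < p := by exact_mod_cast hp0
    have k1 : a ≤ s₁ := by
      have : a * p ≤ s₁ * p := by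
        calc a * p ≤ N := ha1
          _ ≤ p * s₁ := h7.1
          _ = s₁ * p := mul_comm _ _
      exact Nat.le_of_mul_le_mul_right this hp0
    have k2 : s₁ < 2 * (a + 1) := by
      have : s₁ * p < (2 * (a + 1)) * p := by
        calc s₁ * p = p * s₁ := mul_comm _ _
          _ < 2 * N := h7.2
          _ ≤ 2 * ((a + 1) * p) := by omega
          _ = (2 * (a + 1)) * p := by ring
      exact Nat.lt_of_mul_lt_mul_right this
    have k3 : (Q : ℤ) ∣ (s₁ : ℤ) - c := by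
      have : (s₁ : ℤ) - c = c * (((p * s₁ : ℕ) : ℤ) - 1) + Q * (c' * s₁) := by
        push_cast
        linear_combination (-(s₁ : ℤ)) * hcc
      rw [this]
      exact (h1.mul_left _).add (dvd_mul_right _ _)
    obtain ⟨x₁, hx1, hx1'⟩ := hs₀ s₁ (by exact_mod_cast k1) k3
    obtain ⟨x₂, hx2, hx2'⟩ := ht₀ t (by exact_mod_cast h8.1) h2
    have l1 : x₁ < n₁ := by
      rw [hn₁]
      have h10 : Q * x₁ ≤ a + 1 := by
        have : (Q : ℤ) * x₁ ≤ a + 1 := by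
          have : (s₁ : ℤ) < 2 * (a + 1) := by exact_mod_cast k2
          linarith
        exact_mod_cast this
      have : x₁ ≤ (a + 1) / Q := (Nat.le_div_iff_mul_le hQ).2 (by rw [mul_comm]; exact h10)
      omega
    have l2 : x₂ < n₂ := by
      rw [hn₂]
      have h10 : Q * x₂ ≤ N := by
        have : (Q : ℤ) * x₂ ≤ N := by
          have : (t : ℤ) < 2 * N := by exact_mod_cast h8.2
          linarith
        exact_mod_cast this
      have : x₂ ≤ N / Q := (Nat.le_div_iff_mul_le hQ).2 (by rw [mul_comm]; exact h10)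
      omega
    have l3 : m₁ < M := by
      have : m₁ * p < M * p := by
        calc m₁ * p = p * m₁ := mul_comm _ _
          _ ≤ 6084 * ν ^ 4 * V ^ 2 := h9.2
          _ < M * p := hMp
      exact Nat.lt_of_mul_lt_mul_right this
    refine ⟨((x₁, x₂), (m₁ : ℤ)), ?_, ?_, hx2, ?_⟩
    · rw [Finset.mem_filter, Finset.mem_product, Finset.mem_product, Finset.mem_range,
        Finset.mem_range, Finset.mem_Ico]
      refine ⟨⟨⟨l1, l2⟩, by positivity, ?_⟩, ?_⟩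
      · rw [zero_add]
        show (m₁ : ℤ) < M
        exact_mod_cast l3
      · have h11 := (hABC s₁ t m₁).1 (by push_cast at h3; exact h3)
        rw [hφ, hq]
        simp only
        rw [← hx1, ← hx2]
        exact h11
    · simp only
      rw [← hx1]
      push_cast
      ring
    · simp only
      push_cast
      ring
  choose! f hf1 hf2 hf3 hf4 using hmem
  have hcard : F.card ≤ (((range n₁ ×ˢ range n₂) ×ˢ Ico (0 : ℤ) (0 + M)).filter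
        (fun x : (ℕ × ℕ) × ℤ => (q : ℤ) ∣ x.2 - φ x.1)).card := by
    apply Finset.card_le_card_of_injOn f
    · intro z hz
      exact hf1 z hz
    · intro y hy y' hy' hyy
      have a1 := hf2 y hy
      have a2 := hf2 y' hy'
      have b1 := hf3 y hy
      have b2 := hf3 y' hy'
      have c1 := hf4 y hy
      have c2 := hf4 y' hy'
      rw [hyy, ← a2] at a1
      rw [hyy, ← b2] at b1
      rw [hyy, ← c2] at c1
      have d1 : y.1 = (v, w) := by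
        rw [Finset.mem_coe, hF, Finset.mem_filter] at hy
        exact hy.2
      have d2 : y'.1 = (v, w) := by
        rw [Finset.mem_coe, hF, Finset.mem_filter] at hy'
        exact hy'.2
      refine Prod.ext (d1.trans d2.symm) (Prod.ext ?_ (Prod.ext ?_ ?_))
      · exact_mod_cast a1
      · exact_mod_cast b1
      · exact_mod_cast c1
  have hfej := hFEJ (ℕ × ℕ) (range n₁ ×ˢ range n₂) φ q M 0 hq0 hM0
  have hcardR : (F.card : ℝ) ≤ ((((range n₁ ×ˢ range n₂) ×ˢ Ico (0 : ℤ) (0 + M)).filter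
        (fun x : (ℕ × ℕ) × ℤ => (q : ℤ) ∣ x.2 - φ x.1)).card : ℝ) := by exact_mod_cast hcard
  refine hcardR.trans (hfej.trans ?_)
  rw [sym_sum (fun h : ℤ => ‖∑ i ∈ range n₁ ×ˢ range n₂, ee ((h : ℝ) * φ i / q)‖)]
  swap
  · intro h
    have : ∀ i : ℕ × ℕ, (((-h : ℤ) : ℝ) * φ i / q) = -((h : ℝ) * φ i / q) := by
      intro i
      push_cast
      ring
    simp only [this]
    exact EE.norm_sum_neg _ _
  have hqR : (0 : ℝ) < q := by exact_mod_cast hq0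
  have hz : ‖∑ i ∈ range n₁ ×ˢ range n₂, ee (((0 : ℤ) : ℝ) * φ i / q)‖ ≤ (n₁ : ℝ) * n₂ := by
    refine (EE.norm_sum_le_card _ _).trans ?_
    rw [Finset.card_product, Finset.card_range, Finset.card_range]
    push_cast
    exact le_refl _
  -- the frequencies
  obtain ⟨L, hL⟩ : ∃ L : ℝ, L = 2 * ((k : ℝ) + 2) * (1 + Real.log ν) := ⟨_, rfl⟩
  have hL0 : 0 ≤ L := by rw [hL]; positivity
  have hNR : (0 : ℝ) < N := by exact_mod_cast hN0
  have hlogN : 1 + Real.log (2 * (N : ℝ)) ≤ L := by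
    have e1 : Real.log (2 * (N : ℝ)) = Real.log 2 + (2 * k + 2) * Real.log ν := by
      have : (N : ℝ) = (ν : ℝ) ^ (2 * k + 2) := by
        rw [hN, hV]
        push_cast
        ring
      rw [this, Real.log_mul (by norm_num) (by positivity), Real.log_pow]
      push_cast
      ring
    have e2 : Real.log 2 ≤ 1 := by
      have := Real.log_two_lt_d9
      linarith
    rw [e1, hL]
    have e3 : (0 : ℝ) ≤ k := Nat.cast_nonneg k
    nlinarith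
  obtain ⟨Ns, hNs⟩ : ∃ Ns : ℕ, Ns = 2 * N / p := ⟨_, rfl⟩
  have hNs1 : Ns * p ≤ 2 * N := by rw [hNs]; exact Nat.div_mul_le_self _ _
  have hpN : p ≤ N := by
    calc p = p * 1 := (mul_one p).symm
      _ ≤ p * (Q + 1) := Nat.mul_le_mul_left p (by omega)
      _ ≤ N := hNQ
  have hNs2 : N ≤ p * Ns := by
    have h1 := Nat.div_add_mod (2 * N) p
    have h2 := Nat.mod_lt (2 * N) hp0
    rw [hNs]
    omega
  have hNs3 : 2 * a ≤ Ns := by
    rw [hNs]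
    refine (Nat.le_div_iff_mul_le hp0).2 ?_
    calc 2 * a * p = 2 * (a * p) := by ring
      _ ≤ 2 * N := by omega
  have hNs0 : 1 ≤ Ns := by omega
  have hn1s : n₁ ≤ Ns := by
    calc n₁ ≤ n₁ * Q := Nat.le_mul_of_pos_right _ hQ
      _ ≤ 2 * a := hn1Q
      _ ≤ Ns := hNs3
  have hn2s : n₂ ≤ 2 * N := by
    calc n₂ ≤ n₂ * Q := Nat.le_mul_of_pos_right _ hQ
      _ ≤ 2 * N := hn2Q
  have hsp : 0 < Real.sqrt p := Real.sqrt_pos.2 hpR
  have hspp : Real.sqrt p * Real.sqrt p = p := Real.mul_self_sqrt hpR.le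
  have hfreq : ∀ h ∈ Icc 1 (p * W ^ 2),
      ‖∑ i ∈ range n₁ ×ˢ range n₂, ee ((((h : ℕ) : ℤ) : ℝ) * φ i / q)‖ ≤
      (Real.sqrt C₀ * (2 * N / Real.sqrt p) * L) *
        Real.sqrt (1 + (KQ p (1000 * Q ^ 2 * p * W) (h * Q ^ 2) v w : ℝ)) := by
    intro h hh
    rw [Finset.mem_Icc] at hh
    obtain ⟨hh1, hh2⟩ := hh
    have hx1 := hX q Q h hq0 A B C s₀ t₀ n₁ n₂ Ns (2 * N) hNs0 (by omega) hn1s hn2s
    have hd1 := hDW V (1000 * Q ^ 2 * p * W) (h * Q ^ 2) Ns (2 * N) hv1 hv2 hw1 hw2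
      (Nat.mul_pos hh1 (by positivity)) hNs0 (by omega) (by
        have e1 : p * Ns + 2 * N ≤ 4 * N := by rw [mul_comm p Ns]; omega
        calc 100 * (h * Q ^ 2) * (p * Ns + 2 * N) ≤ 100 * ((p * W ^ 2) * Q ^ 2) * (4 * N) := by
              gcongr
          _ = 400 * (p * W ^ 2 * Q ^ 2 * (ν ^ 2 * V ^ 2)) := by rw [hN]; ring
          _ ≤ 1000 * (p * W ^ 2 * Q ^ 2 * (ν ^ 2 * V ^ 2)) := by gcongr; norm_num
          _ = 1000 * Q ^ 2 * p * W * V ^ 2 * (W * ν ^ 2) := by ring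
          _ = 1000 * Q ^ 2 * p * W * V ^ 3 := by rw [← hVW]; ring)
      (by
        calc 1000 * V ^ 3 = 1000 * V ^ 2 * (W * ν ^ 2) := by rw [← hVW]; ring
          _ = 1000 * 1 * W * N := by rw [hN]; ring
          _ ≤ 1000 * Q ^ 2 * W * (p * Ns) := by
              gcongr
              exact Nat.one_le_pow _ _ hQ
          _ = 1000 * Q ^ 2 * p * W * Ns := by ring)
      (by
        calc 1000 * p * V ^ 3 = 1000 * p * V ^ 2 * (W * ν ^ 2) := by rw [← hVW]; ring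
          _ = 1000 * 1 * p * W * N := by rw [hN]; ring
          _ ≤ 1000 * Q ^ 2 * p * W * (2 * N) := by
              gcongr
              · exact Nat.one_le_pow _ _ hQ
              · omega)
    rw [← hq] at hd1
    have hd2 : (DW (((h * Q ^ 2 : ℕ) : ℝ) * A / q) (((h * Q ^ 2 : ℕ) : ℝ) * B / q)
      (((h * Q ^ 2 : ℕ) : ℝ) * C / q) Ns (2 * N) : ℝ) ≤
        1 + (KQ p (1000 * Q ^ 2 * p * W) (h * Q ^ 2) v w : ℝ) := by exact_mod_cast hd1
    have ephi : ‖∑ i ∈ range n₁ ×ˢ range n₂, ee ((((h : ℕ) : ℤ) : ℝ) * φ i / q)‖ ^ 2 ≤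
        C₀ * Ns * (2 * N : ℕ) * (1 + Real.log Ns) * (1 + Real.log (2 * N : ℕ)) *
        (DW (((h * Q ^ 2 : ℕ) : ℝ) * A / q) (((h * Q ^ 2 : ℕ) : ℝ) * B / q)
      (((h * Q ^ 2 : ℕ) : ℝ) * C / q) Ns (2 * N) : ℝ) := by
      rw [hφ]
      exact hx1
    have hKQ0 : (0 : ℝ) ≤ 1 + (KQ p (1000 * Q ^ 2 * p * W) (h * Q ^ 2) v w : ℝ) := by positivity
    have hNsR : (1 : ℝ) ≤ Ns := by exact_mod_cast hNs0
    have m1 : (Ns : ℝ) ≤ 2 * N / p := by
      rw [le_div_iff₀ hpR]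
      exact_mod_cast hNs1
    have m1' : (Ns : ℝ) ≤ 2 * N := by
      have : Ns ≤ 2 * N := by rw [hNs]; exact Nat.div_le_self _ _
      exact_mod_cast this
    have m2 : 1 + Real.log Ns ≤ L := by
      have := Real.log_le_log (by linarith) m1'
      linarith
    have m2' : 0 ≤ 1 + Real.log Ns := by
      have := Real.log_nonneg hNsR
      linarith
    have m3 : 1 + Real.log ((2 * N : ℕ) : ℝ) ≤ L := by push_cast; exact hlogN
    have m3' : 0 ≤ 1 + Real.log ((2 * N : ℕ) : ℝ) := by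
      have : 0 ≤ Real.log ((2 * N : ℕ) : ℝ) := Real.log_nonneg (by
        have : 1 ≤ 2 * N := by omega
        exact_mod_cast this)
      linarith
    have m4 : ‖∑ i ∈ range n₁ ×ˢ range n₂, ee ((((h : ℕ) : ℤ) : ℝ) * φ i / q)‖ ^ 2 ≤
        ((Real.sqrt C₀ * (2 * N / Real.sqrt p) * L) *
        Real.sqrt (1 + (KQ p (1000 * Q ^ 2 * p * W) (h * Q ^ 2) v w : ℝ))) ^ 2 := by
      have e2 : ((Real.sqrt C₀ * (2 * N / Real.sqrt p) * L) *
        Real.sqrt (1 + (KQ p (1000 * Q ^ 2 * p * W) (h * Q ^ 2) v w : ℝ))) ^ 2 =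
          C₀ * (2 * N / p) * (2 * N) * L * L *
            (1 + (KQ p (1000 * Q ^ 2 * p * W) (h * Q ^ 2) v w : ℝ)) := by
        rw [mul_pow, mul_pow, mul_pow, Real.sq_sqrt hC₀.le, Real.sq_sqrt hKQ0, div_pow,
          Real.sq_sqrt hpR.le]
        ring
      rw [e2]
      refine ephi.trans ?_
      push_cast
      push_cast at m3 m3'
      calc _ ≤ C₀ * Ns * (2 * (N : ℝ)) * (1 + Real.log Ns) * (1 + Real.log (2 * (N : ℝ))) *
            (1 + (KQ p (1000 * Q ^ 2 * p * W) (h * Q ^ 2) v w : ℝ)) := by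
              push_cast at hd2
              exact mul_le_mul_of_nonneg_left hd2 (by positivity)
        _ ≤ C₀ * (2 * N / p) * (2 * N) * L * L *
            (1 + (KQ p (1000 * Q ^ 2 * p * W) (h * Q ^ 2) v w : ℝ)) := by
              gcongr
    refine (abs_le_of_sq_le_sq' m4 ?_).2
    positivity
  have hsub : Icc 1 (q / M) ⊆ Icc 1 (p * W ^ 2) := by
    intro h hh
    rw [Finset.mem_Icc] at hh ⊢
    refine ⟨hh.1, ?_⟩
    have h1 : h * M ≤ q := (Nat.le_div_iff_mul_le hM0).1 hh.2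
    have h2 : (6084 * h) * (ν ^ 4 * V ^ 2) ≤ (16 * (p * W ^ 2)) * (ν ^ 4 * V ^ 2) := by
      calc (6084 * h) * (ν ^ 4 * V ^ 2) = h * (6084 * ν ^ 4 * V ^ 2) := by ring
        _ ≤ h * (M * p) := Nat.mul_le_mul_left h hMp.le
        _ = (h * M) * p := by ring
        _ ≤ q * p := Nat.mul_le_mul_right p h1
        _ ≤ (16 * V ^ 4) * p := Nat.mul_le_mul_right p hqV2
        _ = 16 * p * V ^ 2 * (W * ν ^ 2) ^ 2 := by rw [← hVW]; ring
        _ = (16 * (p * W ^ 2)) * (ν ^ 4 * V ^ 2) := by ring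
    have h3 : 6084 * h ≤ 16 * (p * W ^ 2) := Nat.le_of_mul_le_mul_right h2 (by positivity)
    omega
  have hsum : ∑ h ∈ Icc 1 (q / M),
      ‖∑ i ∈ range n₁ ×ˢ range n₂, ee ((((h : ℕ) : ℤ) : ℝ) * φ i / q)‖ ≤
      (Real.sqrt C₀ * (2 * N / Real.sqrt p) * L) * Y := by
    calc _ ≤ ∑ h ∈ Icc 1 (p * W ^ 2),
          ‖∑ i ∈ range n₁ ×ˢ range n₂, ee ((((h : ℕ) : ℤ) : ℝ) * φ i / q)‖ :=
          Finset.sum_le_sum_of_subset_of_nonneg hsub fun _ _ _ => norm_nonneg _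
      _ ≤ ∑ h ∈ Icc 1 (p * W ^ 2), (Real.sqrt C₀ * (2 * N / Real.sqrt p) * L) *
        Real.sqrt (1 + (KQ p (1000 * Q ^ 2 * p * W) (h * Q ^ 2) v w : ℝ)) :=
          Finset.sum_le_sum hfreq
      _ = _ := by rw [← Finset.mul_sum, ← hY]
  have hMq : (M : ℝ) / q ≤ 7000 * ν ^ 4 / (p * V ^ 2) := by
    rw [div_le_div_iff₀ hqR (by positivity)]
    have e1 : (M : ℝ) * p ≤ 7000 * ν ^ 4 * V ^ 2 := by exact_mod_cast hMp2
    have e2 : (V : ℝ) ^ 4 ≤ q := by exact_mod_cast hqV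
    calc (M : ℝ) * (p * V ^ 2) = ((M : ℝ) * p) * V ^ 2 := by ring
      _ ≤ (7000 * (ν : ℝ) ^ 4 * V ^ 2) * V ^ 2 := by gcongr
      _ = 7000 * (ν : ℝ) ^ 4 * (V : ℝ) ^ 4 := by ring
      _ ≤ 7000 * (ν : ℝ) ^ 4 * q := by gcongr
  have hNN : (N : ℝ) = ν ^ 2 * V ^ 2 := by rw [hN]; push_cast; ring
  have hnn : (n₁ : ℝ) * n₂ ≤ 4 * ν ^ 4 * V ^ 4 / (p * Q ^ 2) := by
    rw [le_div_iff₀ (by positivity)]
    have e1 : (n₁ : ℝ) * Q * p ≤ 2 * N := by
      have : n₁ * Q * p ≤ 2 * N := by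
        calc n₁ * Q * p ≤ 2 * a * p := Nat.mul_le_mul_right p hn1Q
          _ = 2 * (a * p) := by ring
          _ ≤ 2 * N := by omega
      exact_mod_cast this
    have e2 : (n₂ : ℝ) * Q ≤ 2 * N := by exact_mod_cast hn2Q
    calc (n₁ : ℝ) * n₂ * (p * Q ^ 2) = ((n₁ : ℝ) * Q * p) * ((n₂ : ℝ) * Q) := by ring
      _ ≤ (2 * (N : ℝ)) * (2 * (N : ℝ)) := by gcongr
      _ = 4 * (ν : ℝ) ^ 4 * (V : ℝ) ^ 4 := by rw [hNN]; ring
  have hMq0 : (0 : ℝ) ≤ (M : ℝ) / q := by positivity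
  calc 24 * ((M : ℝ) / q) * (‖∑ i ∈ range n₁ ×ˢ range n₂, ee (((0 : ℤ) : ℝ) * φ i / q)‖ +
        2 * ∑ h ∈ Icc 1 (q / M),
      ‖∑ i ∈ range n₁ ×ˢ range n₂, ee ((((h : ℕ) : ℤ) : ℝ) * φ i / q)‖)
      ≤ 24 * (7000 * ν ^ 4 / (p * V ^ 2)) * (4 * ν ^ 4 * V ^ 4 / (p * Q ^ 2) +
        2 * ((Real.sqrt C₀ * (2 * N / Real.sqrt p) * L) * Y)) := by
        have := hz.trans hnn
        gcongr
    _ = _ := by
        rw [hL, hNN]
        field_simp
        ring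

end Pool.Agent.T2h80.L5
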