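import Pool.Agent.T2h80.L5.LOW

set_option autoImplicit false

/-!
# FPG
-/

namespace Pool.Agent.T2h80.L5.FPGx

open Finset Pool.Agent.T2h80.F5 Pool.Agent.T2h80.L5 Pool.Agent.T2h80.L5.SumA
  Pool.Agent.T2h80.L5.LOWx

theorem Y_rpow' (ν k : ℕ) (hk : 1 ≤ k) :
    (((ν ^ (20 * k) : ℕ)) : ℝ) ^ (1 / (200 * (k : ℝ))) = (ν : ℝ) ^ (1 / 10 : ℝ) := by
  have hk0 : (0 : ℝ) < k := by exact_mod_cast hk
  have h : (1 / (200 * (k : ℝ))) = (1 / (20 * (k : ℝ))) * (1 / 10) := by field_simp; norm_num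
  rw [h, Real.rpow_mul (Nat.cast_nonneg _), Y_rpow ν k hk]

theorem sum_inv_sq (z N : ℕ) (hz : 1 ≤ z) (s : Finset ℕ) (hs : s ⊆ Ioc z N) :
    ∑ p ∈ s, 1 / (p : ℝ) ^ 2 ≤ 1 / (z : ℝ) := by
  refine (sum_le_sum_of_subset_of_nonneg hs fun _ _ _ => by positivity).trans ?_
  rcases le_total z N with h | h
  · have h1 := sum_Ioc_inv_sq_le_sub (α := ℝ) (by omega : z ≠ 0) h
    simp only [one_div]
    refine h1.trans ?_
    have : (0 : ℝ) ≤ (N : ℝ)⁻¹ := by positivity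
    linarith
  · rw [Ioc_eq_empty_of_le h, sum_empty]
    positivity

/-- one pair and one prime in a dyadic range -/
theorem T_le {ν k Q P p : ℕ} (hp : p ≤ 2 * P) (v w : ℕ) :
    ∑ h ∈ Icc 1 (p * ν ^ (2 * k - 4)),
        Real.sqrt (1 + (KQ p (1000 * Q ^ 2 * p * ν ^ (k - 2)) (h * Q ^ 2) v w : ℝ)) ≤
    ∑ h ∈ Icc 1 (2 * P * (ν ^ (2 * k - 4))),
        Real.sqrt (1 + (KQ p (1000 * Q ^ 2 * (2 * P) * ν ^ (k - 2)) (h * Q ^ 2) v w : ℝ)) := by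
  refine (sum_le_sum_of_subset_of_nonneg (Icc_subset_Icc_right (Nat.mul_le_mul_right _ hp))
    fun _ _ _ => Real.sqrt_nonneg _).trans ?_
  refine sum_le_sum fun h _ => Real.sqrt_le_sqrt ?_
  have h1 : KQ p (1000 * Q ^ 2 * p * ν ^ (k - 2)) (h * Q ^ 2) v w ≤
      KQ p (1000 * Q ^ 2 * (2 * P) * ν ^ (k - 2)) (h * Q ^ 2) v w :=
    KQ_mono p (h * Q ^ 2) v w (Nat.mul_le_mul_right _ (Nat.mul_le_mul_left _ hp))
  have h2 : (KQ p (1000 * Q ^ 2 * p * ν ^ (k - 2)) (h * Q ^ 2) v w : ℝ) ≤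
      (KQ p (1000 * Q ^ 2 * (2 * P) * ν ^ (k - 2)) (h * Q ^ 2) v w : ℝ) := by exact_mod_cast h1
  linarith

end Pool.Agent.T2h80.L5.FPGx

namespace Pool.Agent.T2h80.L5

open Finset Pool.Agent.T2h80.F5 Pool.Agent.T2h80.L5.SumA Pool.Agent.T2h80.L5.LOWx
  Pool.Agent.T2h80.L5.FPGx

theorem t_FPG (hFPA : S_FPA) (hAVP : S_AVP) (hPRI : S_PRI) : S_FPG := by
  obtain ⟨C₁, hC₁, h1⟩ := hFPA
  refine ⟨C₁ + 1, by positivity, ?_⟩
  intro Q k z hQ hk hz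
  obtain ⟨C, hC, h1⟩ := h1 Q hQ
  obtain ⟨ν₁, h1⟩ := h1 k hk
  have hk0 : (0 : ℝ) < k := by exact_mod_cast (by omega : 0 < k)
  obtain ⟨C', hC', h2⟩ := blk hAVP (1 / (200 * (k : ℝ))) (by positivity)
  obtain ⟨V₀, h3⟩ := hPRI ((1 / 10) / k) (by positivity)
  obtain ⟨ν₂, h4⟩ := ev (16 * C * C' * (k + 2) * Q ^ 7 * z) (3 / 10) (by norm_num)
  refine ⟨ν₁ + V₀ + ν₂ + 1000 * Q ^ 2, fun ν hν σ hσ => ?_⟩
  have hν1 : ν₁ ≤ ν := by omega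
  have hν2 : ν₂ ≤ ν := by omega
  have hνQ : 1000 * Q ^ 2 ≤ ν := by omega
  have hQ2 : 1 ≤ Q ^ 2 := Nat.one_le_pow _ _ hQ
  have hν1000 : 1000 ≤ ν := by omega
  have hVν : ν ≤ ν ^ k := Nat.le_self_pow (by omega) ν
  have hV0 : V₀ ≤ ν ^ k := by omega
  have hνr : (1 : ℝ) ≤ ν := by exact_mod_cast (by omega : 1 ≤ ν)
  have hν0 : (0 : ℝ) < ν := by linarith
  have hQr : (1 : ℝ) ≤ Q := by exact_mod_cast hQ
  have hzr : (0 : ℝ) < z := by exact_mod_cast hz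
  have hPP := PP_low (by omega : 1 ≤ ν) (by omega : 1 ≤ k) (1 / 10) (h3 (ν ^ k) hV0)
  have hlog := h4 ν hν2
  have hlog0 : 0 ≤ Real.log ν := Real.log_nonneg hνr
  have hVa : ν ^ k = ν ^ (k - 2) * ν ^ 2 := by rw [← pow_add]; congr 1; omega
  have ha2 : (ν ^ (k - 2)) ^ 2 = ν ^ (2 * k - 4) := by rw [← pow_mul]; congr 1; omega
  set a : ℕ := ν ^ (k - 2) with ha
  have ha1 : 1 ≤ a := Nat.one_le_pow _ _ (by omega)
  set V : ℕ := ν ^ k with hV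
  have hV1 : 1 ≤ V := Nat.one_le_pow _ _ (by omega)
  have hVr : ((ν : ℝ) ^ k) = V := by rw [hV]; push_cast; ring
  have har : ((V : ℝ)) = a * ν ^ 2 := by rw [hVa]; push_cast; ring
  rw [hVr] at hPP ⊢
  set u : ℝ := (ν : ℝ) ^ (1 / 10 : ℝ) with hu
  have hu0 : 0 < u := Real.rpow_pos_of_pos hν0 _
  set r : ℝ := Real.sqrt ν with hr
  have hr2 : r * r = ν := Real.mul_self_sqrt hν0.le
  have hr1 : 1 ≤ r := Real.one_le_sqrt.2 hνr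
  -- the blocks
  have hblk : ∀ i ∈ range (Nat.log 2 (ν ^ 5) + 1), ∑ p ∈ Ico (2 ^ i) (2 * 2 ^ i), ∑ x ∈ PP V,
      ∑ h ∈ Icc 1 (2 * 2 ^ i * ν ^ (2 * k - 4)),
      Real.sqrt (1 + (KQ p (1000 * Q ^ 2 * (2 * 2 ^ i) * a) (h * Q ^ 2) x.1 x.2 : ℝ)) ≤
      C' * u * (Real.sqrt (2 ^ i) * (2 * Q * r) * V ^ 2 * a ^ 2 * (2 * 2 ^ i) ^ 2 * Q ^ 4) := by
    intro i hi
    have hi5 : 2 ^ i ≤ ν ^ 5 := by
      have h6 : 2 ^ Nat.log 2 (ν ^ 5) ≤ ν ^ 5 := Nat.pow_log_le_self 2 (by positivity)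
      have h7 : 2 ^ i ≤ 2 ^ Nat.log 2 (ν ^ 5) :=
        Nat.pow_le_pow_right (by norm_num) (by have := mem_range.1 hi; omega)
      exact h7.trans h6
    have hi1 : 1 ≤ 2 ^ i := Nat.one_le_two_pow
    have h25 : 2 * 2 ^ i ≤ ν ^ 6 := by
      calc 2 * 2 ^ i ≤ ν * ν ^ 5 := Nat.mul_le_mul (by omega) hi5
        _ = ν ^ 6 := by ring
    have hYbig : ∀ n : ℕ, n ≤ 20 * k → ν ^ n ≤ ν ^ (20 * k) := fun n hn =>
      Nat.pow_le_pow_right (by omega) hn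
    have e0 : 2 ^ i ≤ ν ^ (20 * k) := hi5.trans (hYbig 5 (by omega))
    have e1 : 2 * 2 ^ i * a ^ 2 ≤ ν ^ (20 * k) := by
      calc 2 * 2 ^ i * a ^ 2 ≤ ν ^ 6 * ν ^ (2 * k - 4) := by
            rw [ha2]; exact Nat.mul_le_mul_right _ h25
        _ = ν ^ (6 + (2 * k - 4)) := by rw [← pow_add]
        _ ≤ ν ^ (20 * k) := hYbig _ (by omega)
    have e2 : 1000 * Q ^ 2 * (2 * 2 ^ i) * a ≤ ν ^ (20 * k) := by
      calc 1000 * Q ^ 2 * (2 * 2 ^ i) * a ≤ ν * ν ^ 6 * ν ^ (k - 2) :=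
            Nat.mul_le_mul_right _ (Nat.mul_le_mul hνQ h25)
        _ = ν ^ (6 + 1 + (k - 2)) := by rw [← pow_succ', ← pow_add]
        _ ≤ ν ^ (20 * k) := hYbig _ (by omega)
    have e3 : Q ^ 2 ≤ ν ^ (20 * k) := by
      have := hYbig 1 (by omega)
      rw [pow_one] at this
      omega
    have e4 : V ≤ ν ^ (20 * k) := hYbig _ (by omega)
    have hb := h2 (2 ^ i) Q V (ν ^ (20 * k)) (2 * 2 ^ i) a (2 * Q * r) hi1 (by omega) hQ ha1 hV1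
      (by nlinarith) (by
        push_cast
        have h51 : ((2 : ℝ) ^ i) ≤ (ν : ℝ) ^ 5 := by exact_mod_cast hi5
        have hV2 : (V : ℝ) ^ 2 = (a : ℝ) ^ 2 * ν ^ 4 := by rw [har]; ring
        have hQ2r : (1 : ℝ) ≤ (Q : ℝ) ^ 2 := one_le_pow₀ hQr
        have e5 : (2 * (Q : ℝ) * r) ^ 2 = 4 * Q ^ 2 * ν := by rw [← hr2]; ring
        rw [e5, hV2]
        have e6 : (Q : ℝ) ^ 2 * (2 * 2 ^ i * (a : ℝ) ^ 2) ≤ (Q : ℝ) ^ 2 * (2 * (ν : ℝ) ^ 5 * a ^ 2) := by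
          gcongr
        have e7 : (a : ℝ) ^ 2 * ν ^ 4 ≤ 2 * Q ^ 2 * ν * (a ^ 2 * ν ^ 4) := by
          apply le_mul_of_one_le_left (by positivity)
          nlinarith
        nlinarith)
      e0 e3 e1 e4 e2
    rw [Y_rpow' ν k (by omega), ha2] at hb
    push_cast at hb ⊢
    exact hb
  -- the primes
  set s : Finset ℕ := (Ioc z (ν ^ 5)).filter Nat.Prime with hs
  set B : ℝ := C * (1 + Real.log ν) * (k + 2) with hB
  have hB0 : 0 ≤ B := by positivity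
  have hTF : ∀ p ∈ s, ((TF ν V Q p σ).card : ℝ) ≤
      C₁ * (ν : ℝ) ^ 8 * (V : ℝ) ^ 2 / Q ^ 2 * ((PP V).card : ℝ) * (1 / (p : ℝ) ^ 2) +
      B * (((ν : ℝ) ^ 6 / (p * Real.sqrt p)) * ∑ x ∈ PP V, ∑ h ∈ Icc 1 (p * ν ^ (2 * k - 4)),
        Real.sqrt (1 + (KQ p (1000 * Q ^ 2 * p * a) (h * Q ^ 2) x.1 x.2 : ℝ))) := by
    intro p hp
    have hp1 := (mem_filter.1 hp).2
    have hp2 := (mem_Ioc.1 (mem_filter.1 hp).1).2
    have hcard : (TF ν V Q p σ).card = ∑ x ∈ PP V, ((TF ν V Q p σ).filter (fun y => y.1 = x)).card := by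
      apply card_eq_sum_card_fiberwise
      intro y hy
      simp only [TF, Finset.coe_filter, mem_product, Set.mem_ofPred_eq] at hy
      exact Finset.mem_coe.2 hy.1.1
    rw [hcard, Nat.cast_sum]
    calc ∑ x ∈ PP V, (((TF ν V Q p σ).filter (fun y => y.1 = x)).card : ℝ)
        ≤ ∑ x ∈ PP V, (C₁ * (ν : ℝ) ^ 8 * (V : ℝ) ^ 2 / (p ^ 2 * Q ^ 2) +
          C * (1 + Real.log ν) * (k + 2) * ((ν : ℝ) ^ 6 / (p * Real.sqrt p)) *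
          ∑ h ∈ Icc 1 (p * ν ^ (2 * k - 4)),
            Real.sqrt (1 + (KQ p (1000 * Q ^ 2 * p * a) (h * Q ^ 2) x.1 x.2 : ℝ))) := by
          refine sum_le_sum fun x hx => ?_
          have := h1 ν hν1 x hx p hp1 hp2 σ hσ
          rw [hVr] at this
          exact this
      _ = _ := by
          rw [sum_add_distrib, ← mul_sum, sum_const, nsmul_eq_mul, hB]
          have hp0 : (p : ℝ) ≠ 0 := by
            have := hp1.pos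
            positivity
          have hQ0 : (Q : ℝ) ≠ 0 := by positivity
          congr 1
          · field_simp
          · ring
  rw [Nat.cast_sum]
  refine (sum_le_sum hTF).trans ?_
  rw [sum_add_distrib, ← mul_sum, ← mul_sum]
  have hA : C₁ * (ν : ℝ) ^ 8 * (V : ℝ) ^ 2 / Q ^ 2 * ((PP V).card : ℝ) * ∑ p ∈ s, 1 / (p : ℝ) ^ 2 ≤
      C₁ * (ν : ℝ) ^ 8 * (V : ℝ) ^ 2 / Q ^ 2 * ((PP V).card : ℝ) * (1 / z) := by
    gcongr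
    exact sum_inv_sq z (ν ^ 5) hz s (filter_subset _ _)
  -- the dyadic decomposition
  have hmaps : ∀ p ∈ s, Nat.log 2 p ∈ range (Nat.log 2 (ν ^ 5) + 1) := by
    intro p hp
    have hp2 := (mem_Ioc.1 (mem_filter.1 hp).1).2
    have := Nat.log_mono_right (b := 2) hp2
    exact mem_range.2 (by omega)
  have hdy : ∑ p ∈ s, (((ν : ℝ) ^ 6 / (p * Real.sqrt p)) * ∑ x ∈ PP V,
        ∑ h ∈ Icc 1 (p * ν ^ (2 * k - 4)),
        Real.sqrt (1 + (KQ p (1000 * Q ^ 2 * p * a) (h * Q ^ 2) x.1 x.2 : ℝ))) ≤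
      ∑ i ∈ range (Nat.log 2 (ν ^ 5) + 1), (8 * C' * Q ^ 5 * u * r * ν ^ 2 * V ^ 4) * (2 : ℝ) ^ i := by
    rw [← sum_fiberwise_of_maps_to hmaps]
    refine sum_le_sum fun i hi => ?_
    have hPi : (0 : ℝ) < (2 : ℝ) ^ i := by positivity
    have hPs : 0 < Real.sqrt ((2 : ℝ) ^ i) := Real.sqrt_pos.2 hPi
    have hP2 : Real.sqrt ((2 : ℝ) ^ i) * Real.sqrt ((2 : ℝ) ^ i) = (2 : ℝ) ^ i :=
      Real.mul_self_sqrt hPi.le
    have hsub : s.filter (fun p => Nat.log 2 p = i) ⊆ Ico (2 ^ i) (2 * 2 ^ i) := by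
      intro p hp
      have hp0 := (mem_filter.1 (mem_filter.1 hp).1).2.pos
      have hpi := (mem_filter.1 hp).2
      have g1 : 2 ^ Nat.log 2 p ≤ p := Nat.pow_log_le_self 2 (by omega)
      have g2 : p < 2 ^ (Nat.log 2 p + 1) := Nat.lt_pow_succ_log_self (by norm_num) p
      rw [hpi] at g1 g2
      rw [pow_succ] at g2
      exact mem_Ico.2 ⟨g1, by omega⟩
    calc ∑ p ∈ s.filter (fun p => Nat.log 2 p = i), (((ν : ℝ) ^ 6 / (p * Real.sqrt p)) *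
          ∑ x ∈ PP V, ∑ h ∈ Icc 1 (p * ν ^ (2 * k - 4)),
          Real.sqrt (1 + (KQ p (1000 * Q ^ 2 * p * a) (h * Q ^ 2) x.1 x.2 : ℝ)))
        ≤ ∑ p ∈ s.filter (fun p => Nat.log 2 p = i), (((ν : ℝ) ^ 6 / (2 ^ i * Real.sqrt (2 ^ i))) *
          ∑ x ∈ PP V, ∑ h ∈ Icc 1 (2 * 2 ^ i * ν ^ (2 * k - 4)),
          Real.sqrt (1 + (KQ p (1000 * Q ^ 2 * (2 * 2 ^ i) * a) (h * Q ^ 2) x.1 x.2 : ℝ))) := by
          refine sum_le_sum fun p hp => ?_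
          have hp3 := mem_Ico.1 (hsub hp)
          have hp4 : ((2 : ℝ) ^ i) ≤ p := by exact_mod_cast hp3.1
          have g3 : ∑ x ∈ PP V, ∑ h ∈ Icc 1 (p * ν ^ (2 * k - 4)),
              Real.sqrt (1 + (KQ p (1000 * Q ^ 2 * p * a) (h * Q ^ 2) x.1 x.2 : ℝ)) ≤
              ∑ x ∈ PP V, ∑ h ∈ Icc 1 (2 * 2 ^ i * ν ^ (2 * k - 4)),
              Real.sqrt (1 + (KQ p (1000 * Q ^ 2 * (2 * 2 ^ i) * a) (h * Q ^ 2) x.1 x.2 : ℝ)) :=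
            sum_le_sum fun x _ => T_le hp3.2.le x.1 x.2
          have g4 : (ν : ℝ) ^ 6 / (p * Real.sqrt p) ≤ (ν : ℝ) ^ 6 / (2 ^ i * Real.sqrt (2 ^ i)) := by
            gcongr
          exact mul_le_mul g4 g3 (sum_nonneg fun _ _ => sum_nonneg fun _ _ => Real.sqrt_nonneg _)
            (by positivity)
      _ = ((ν : ℝ) ^ 6 / (2 ^ i * Real.sqrt (2 ^ i))) * ∑ p ∈ s.filter (fun p => Nat.log 2 p = i),
          ∑ x ∈ PP V, ∑ h ∈ Icc 1 (2 * 2 ^ i * ν ^ (2 * k - 4)),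
          Real.sqrt (1 + (KQ p (1000 * Q ^ 2 * (2 * 2 ^ i) * a) (h * Q ^ 2) x.1 x.2 : ℝ)) := by
          rw [← mul_sum]
      _ ≤ ((ν : ℝ) ^ 6 / (2 ^ i * Real.sqrt (2 ^ i))) * ∑ p ∈ Ico (2 ^ i) (2 * 2 ^ i),
          ∑ x ∈ PP V, ∑ h ∈ Icc 1 (2 * 2 ^ i * ν ^ (2 * k - 4)),
          Real.sqrt (1 + (KQ p (1000 * Q ^ 2 * (2 * 2 ^ i) * a) (h * Q ^ 2) x.1 x.2 : ℝ)) := by
          refine mul_le_mul_of_nonneg_left ?_ (by positivity)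
          exact sum_le_sum_of_subset_of_nonneg hsub fun _ _ _ =>
            sum_nonneg fun _ _ => sum_nonneg fun _ _ => Real.sqrt_nonneg _
      _ ≤ ((ν : ℝ) ^ 6 / (2 ^ i * Real.sqrt (2 ^ i))) *
          (C' * u * (Real.sqrt (2 ^ i) * (2 * Q * r) * V ^ 2 * a ^ 2 * (2 * 2 ^ i) ^ 2 * Q ^ 4)) := by
          gcongr
          exact hblk i hi
      _ = (8 * C' * Q ^ 5 * u * r * ν ^ 2 * V ^ 4) * (2 : ℝ) ^ i := by
          have e9 : (V : ℝ) ^ 4 = V ^ 2 * (a ^ 2 * ν ^ 4) := by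
            rw [har]; ring
          rw [e9]
          field_simp
          try ring
  have hgeo : ∑ i ∈ range (Nat.log 2 (ν ^ 5) + 1), (2 : ℝ) ^ i ≤ 2 * (ν : ℝ) ^ 5 := by
    rw [geom_sum_eq (by norm_num)]
    have h6 : 2 ^ Nat.log 2 (ν ^ 5) ≤ ν ^ 5 := Nat.pow_log_le_self 2 (by positivity)
    have h7 : (2 : ℝ) ^ Nat.log 2 (ν ^ 5) ≤ (ν : ℝ) ^ 5 := by exact_mod_cast h6
    rw [pow_succ]
    norm_num
    linarith
  have hdy2 : ∑ p ∈ s, (((ν : ℝ) ^ 6 / (p * Real.sqrt p)) * ∑ x ∈ PP V,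
        ∑ h ∈ Icc 1 (p * ν ^ (2 * k - 4)),
        Real.sqrt (1 + (KQ p (1000 * Q ^ 2 * p * a) (h * Q ^ 2) x.1 x.2 : ℝ))) ≤
      (8 * C' * Q ^ 5 * u * r * ν ^ 2 * V ^ 4) * (2 * (ν : ℝ) ^ 5) := by
    refine hdy.trans ?_
    rw [← mul_sum]
    exact mul_le_mul_of_nonneg_left hgeo (by positivity)
  clear hdy hblk hTF
  revert hdy2
  generalize (∑ p ∈ s, (((ν : ℝ) ^ 6 / (p * Real.sqrt p)) * ∑ x ∈ PP V,
        ∑ h ∈ Icc 1 (p * ν ^ (2 * k - 4)),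
        Real.sqrt (1 + (KQ p (1000 * Q ^ 2 * p * a) (h * Q ^ 2) x.1 x.2 : ℝ)))) = E
  intro hdy2
  have herr : B * E ≤ 1 / z * (ν : ℝ) ^ 8 * (V : ℝ) ^ 2 * ((PP V).card : ℝ) / Q ^ 2 := by
    have hrp : r = (ν : ℝ) ^ (1 / 2 : ℝ) := by rw [hr, Real.sqrt_eq_rpow]
    have e10 : (ν : ℝ) ^ (3 / 10 : ℝ) * (u * r * u) = ν := by
      rw [hrp, hu, ← Real.rpow_add hν0, ← Real.rpow_add hν0, ← Real.rpow_add hν0]
      norm_num
    rw [le_div_iff₀ (by positivity)]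
    have f1 : B * E * Q ^ 2 ≤ B * ((8 * C' * Q ^ 5 * u * r * ν ^ 2 * V ^ 4) * (2 * (ν : ℝ) ^ 5)) * Q ^ 2 :=
      mul_le_mul_of_nonneg_right (mul_le_mul_of_nonneg_left hdy2 hB0) (by positivity)
    have f2 : B * ((8 * C' * Q ^ 5 * u * r * ν ^ 2 * V ^ 4) * (2 * (ν : ℝ) ^ 5)) * Q ^ 2 =
        1 / z * ((16 * C * C' * (k + 2) * Q ^ 7 * z * (1 + Real.log ν)) *
          (u * r * ν ^ 7 * V ^ 2 * V ^ 2)) := by
      have f3 : 1 / (z : ℝ) * ((16 * C * C' * (k + 2) * Q ^ 7 * z * (1 + Real.log ν)) *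
          (u * r * ν ^ 7 * V ^ 2 * V ^ 2)) = (1 / z * z) * ((16 * C * C' * (k + 2) * Q ^ 7 *
          (1 + Real.log ν)) * (u * r * ν ^ 7 * V ^ 2 * V ^ 2)) := by ring
      rw [f3, one_div_mul_cancel hzr.ne', hB]
      ring
    have f4 : 1 / (z : ℝ) * ((16 * C * C' * (k + 2) * Q ^ 7 * z * (1 + Real.log ν)) *
          (u * r * ν ^ 7 * V ^ 2 * V ^ 2)) ≤
        1 / z * ((ν : ℝ) ^ (3 / 10 : ℝ) * (u * r * ν ^ 7 * V ^ 2 * (u * ((PP V).card : ℝ)))) := by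
      have hz0 : (0 : ℝ) ≤ 1 / (z : ℝ) := by positivity
      refine mul_le_mul_of_nonneg_left ?_ hz0
      refine mul_le_mul hlog ?_ (by positivity) (by positivity)
      exact mul_le_mul_of_nonneg_left hPP (by positivity)
    have f5 : 1 / (z : ℝ) * ((ν : ℝ) ^ (3 / 10 : ℝ) * (u * r * ν ^ 7 * V ^ 2 * (u * ((PP V).card : ℝ)))) =
        1 / z * (ν : ℝ) ^ 8 * (V : ℝ) ^ 2 * ((PP V).card : ℝ) := by
      have f6 : 1 / (z : ℝ) * ((ν : ℝ) ^ (3 / 10 : ℝ) * (u * r * ν ^ 7 * V ^ 2 * (u * ((PP V).card : ℝ)))) =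
        1 / z * (((ν : ℝ) ^ (3 / 10 : ℝ) * (u * r * u)) * (ν ^ 7 * V ^ 2 * ((PP V).card : ℝ))) := by ring
      rw [f6, e10]
      ring
    exact f1.trans (f2.le.trans (f4.trans f5.le))
  have e11 : (C₁ + 1) / z * (ν : ℝ) ^ 8 * (V : ℝ) ^ 2 * ((PP V).card : ℝ) / Q ^ 2 =
      C₁ * (ν : ℝ) ^ 8 * (V : ℝ) ^ 2 / Q ^ 2 * ((PP V).card : ℝ) * (1 / z) +
      1 / z * (ν : ℝ) ^ 8 * (V : ℝ) ^ 2 * ((PP V).card : ℝ) / Q ^ 2 := by ring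
  rw [e11]
  exact add_le_add hA herr

end Pool.Agent.T2h80.L5
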