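import Pool.Agent.T2h80.L5.Stm

/-! Task GDV. -/

set_option autoImplicit false

namespace Pool.Agent.T2h80.L5

open Pool.Agent.T2h80.F5

namespace GDVaux

theorem sq_dvd {g d F : ℕ} (hF : 0 < F) (hd : Squarefree d) (h : g ^ 2 ∣ d * F ^ 2) :
    g ∣ F := by
  obtain ⟨hpos, g', F', hco, hg, hF'⟩ :
      0 < Nat.gcd g F ∧ ∃ g' F' : ℕ, Nat.Coprime g' F' ∧ g = g' * Nat.gcd g F ∧
        F = F' * Nat.gcd g F := by
    have hpos : 0 < Nat.gcd g F := Nat.gcd_pos_of_pos_right _ hF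
    obtain ⟨g', F', hco, h1, h2⟩ := Nat.exists_coprime g F
    exact ⟨hpos, g', F', hco, h1, h2⟩
  have h1 : g' ^ 2 * (Nat.gcd g F) ^ 2 ∣ d * F' ^ 2 * (Nat.gcd g F) ^ 2 := by
    have e1 : g' ^ 2 * (Nat.gcd g F) ^ 2 = g ^ 2 := by
      conv_rhs => rw [hg]
      ring
    have e2 : d * F' ^ 2 * (Nat.gcd g F) ^ 2 = d * F ^ 2 := by
      conv_rhs => rw [hF']
      ring
    rw [e1, e2]
    exact h
  have h2 : g' ^ 2 ∣ d * F' ^ 2 := Nat.dvd_of_mul_dvd_mul_right (pow_pos hpos 2) h1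
  have h3 : g' ^ 2 ∣ d := (Nat.Coprime.dvd_of_dvd_mul_right (Nat.Coprime.pow 2 2 hco)) h2
  have h4 : IsUnit g' := hd g' (by rw [← pow_two]; exact h3)
  rw [Nat.isUnit_iff] at h4
  rw [hg, h4, one_mul]
  exact Nat.gcd_dvd_right _ _

theorem odd_sq_mod {F : ℕ} (h : Odd F) : F ^ 2 % 8 = 1 := by
  obtain ⟨k, rfl⟩ := h
  have h1 : (2 * k + 1) ^ 2 = 4 * (k * (k + 1)) + 1 := by ring
  obtain ⟨j, hj⟩ := Nat.even_mul_succ_self k
  rw [h1, hj]
  omega

end GDVaux

open GDVaux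

theorem t_GDV (hBET : S_BET) : S_GDV := by
  intro ν V v w s t m a D y₁ y₂ hGT d F hd hDF
  have hbet := hBET ν V v w s t m a D y₁ y₂ hGT
  obtain ⟨pv, pw, hvw, ov, ow, os, ot, -, -, -, -, hs0, ht0, hm1, -, ha1, -, hav, hv1, hw1, hco,
    hy1, hy2, h4m, h4a, hD8, hDlo, -⟩ := hGT
  have hvp := pv.pos
  have hwp := pw.pos
  have hm0 : 0 < m := by
    rcases Nat.eq_zero_or_pos m with h | h
    · exfalso
      subst h
      -- 4 m² a = 0 = y₁² + D v²
      have h1 : (0 : ℤ) = y₁ ^ 2 + D * v ^ 2 := by linear_combination h4m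
      have h2 : (0 : ℤ) < (D : ℤ) * v ^ 2 := by
        have : 0 < D := by omega
        positivity
      nlinarith [sq_nonneg y₁]
    · exact h
  have ha0 : 0 < a := by
    rcases Nat.eq_zero_or_pos a with h | h
    · exfalso
      subst h
      have h1 : (0 : ℤ) = y₁ ^ 2 + D * v ^ 2 := by linear_combination h4m
      have h2 : (0 : ℤ) < (D : ℤ) * v ^ 2 := by
        have : 0 < D := by omega
        positivity
      nlinarith [sq_nonneg y₁]
    · exact h
  -- parities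
  have oF : Odd F := by
    rw [← Nat.not_even_iff_odd]
    rintro ⟨k, hk⟩
    have h1 : D = 4 * (d * k ^ 2) := by rw [hDF, hk]; ring
    omega
  have hF0 : 0 < F := oF.pos
  have hd8 : d % 8 = 7 := by
    have h1 := odd_sq_mod oF
    have h2 : (d * F ^ 2) % 8 = 7 := by rw [← hDF]; exact hD8
    rw [Nat.mul_mod, h1] at h2
    omega
  have hpar : Odd (a + m) := by
    rw [← Nat.not_even_iff_odd]
    intro h
    have h1 : Even (a * v ^ 2 + m * w ^ 2) := by
      rw [Nat.even_add] at h ⊢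
      rw [Nat.even_mul, Nat.even_mul]
      have h3 : ¬ Even (v ^ 2) := by rw [Nat.not_even_iff_odd]; exact ov.pow
      have h4 : ¬ Even (w ^ 2) := by rw [Nat.not_even_iff_odd]; exact ow.pow
      tauto
    rw [hav] at h1
    have h2 : Odd (s * t) := os.mul ot
    rw [← Nat.not_even_iff_odd] at h2
    apply h2
    have h3 : m * w ^ 2 + s * t + m * w ^ 2 = 2 * (m * w ^ 2) + s * t := by ring
    rw [h3, Nat.even_add] at h1
    exact h1.1 (even_two_mul _)
  have hg0 : 0 < Nat.gcd m a := Nat.gcd_pos_of_pos_left _ hm0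
  obtain ⟨m', hm'⟩ := Nat.gcd_dvd_left m a
  obtain ⟨a', ha'⟩ := Nat.gcd_dvd_right m a
  generalize hgdef : Nat.gcd m a = g at *
  have hog : Odd g := by
    have h1 : Odd (g * (a' + m')) := by
      have : a + m = g * (a' + m') := by rw [ha', hm']; ring
      rw [← this]; exact hpar
    exact (Nat.odd_mul.1 h1).1
  have hgst : g ∣ s * t := by
    have h1 : g ∣ m * w ^ 2 + s * t := by
      rw [← hav, ha']
      exact (dvd_mul_right g a').mul_right _
    have h2 : g ∣ m * w ^ 2 := by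
      rw [hm']
      exact (dvd_mul_right g m').mul_right _
    exact (Nat.dvd_add_right h2).1 h1
  have hgvw : Nat.Coprime g (v * w) := Nat.Coprime.coprime_dvd_left hgst hco
  have hgv : Nat.Coprime g v := Nat.Coprime.coprime_mul_right_right hgvw
  have hgw : Nat.Coprime g w := Nat.Coprime.coprime_mul_left_right hgvw
  have hmi : (m : ℤ) = g * m' := by exact_mod_cast hm'
  have hai : (a : ℤ) = g * a' := by exact_mod_cast ha'
  have hgy1 : (g : ℤ) ∣ y₁ := by
    have h1 : (g : ℤ) ∣ y₁ * w := by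
      rw [hy1, hmi, hai]
      exact ⟨a' * s - m' * t, by ring⟩
    exact IsCoprime.dvd_of_dvd_mul_right (Nat.isCoprime_iff_coprime.2 hgw) h1
  have hgy2 : (g : ℤ) ∣ y₂ := by
    have h1 : (g : ℤ) ∣ y₂ * v := by
      rw [hy2, hmi, hai]
      exact ⟨a' * s + m' * t, by ring⟩
    exact IsCoprime.dvd_of_dvd_mul_right (Nat.isCoprime_iff_coprime.2 hgv) h1
  obtain ⟨Y₁, hY₁⟩ := hgy1
  obtain ⟨Y₂, hY₂⟩ := hgy2
  have hg2D : g ^ 2 ∣ D := by
    have h1 : ((g : ℤ)) ^ 2 ∣ (D : ℤ) * v ^ 2 := by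
      refine ⟨4 * g * m' ^ 2 * a' - Y₁ ^ 2, ?_⟩
      rw [hmi, hai, hY₁] at h4m
      linear_combination -h4m
    have h2 : g ^ 2 ∣ D * v ^ 2 := by exact_mod_cast h1
    exact (Nat.Coprime.dvd_of_dvd_mul_right (Nat.Coprime.pow 2 2 hgv)) h2
  have hgF : g ∣ F := sq_dvd hF0 hd (by rw [← hDF]; exact hg2D)
  obtain ⟨f, hf⟩ := hgF
  have of : Odd f := by
    rw [hf] at oF
    exact (Nat.odd_mul.1 oF).2
  have hf0 : 0 < f := of.pos
  have hgz : (g : ℤ) ≠ 0 := by exact_mod_cast hg0.ne'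
  have hDi : (D : ℤ) = d * (g * f) ^ 2 := by rw [hDF, hf]; push_cast; ring
  have e1 : Y₁ * w = a' * s - m' * t := by
    apply mul_left_cancel₀ hgz
    rw [hY₁, hmi, hai] at hy1
    linear_combination hy1
  have e2 : Y₂ * v = a' * s + m' * t := by
    apply mul_left_cancel₀ hgz
    rw [hY₂, hmi, hai] at hy2
    linear_combination hy2
  have e3 : Y₁ ^ 2 + d * (v * f) ^ 2 = 4 * (g * m' ^ 2 * a') := by
    apply mul_left_cancel₀ (pow_ne_zero 2 hgz)
    rw [hmi, hai, hY₁, hDi] at h4m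
    linear_combination -h4m
  have e4 : Y₂ ^ 2 + d * (w * f) ^ 2 = 4 * (g * m' * a' ^ 2) := by
    apply mul_left_cancel₀ (pow_ne_zero 2 hgz)
    rw [hmi, hai, hY₂, hDi] at h4a
    linear_combination -h4a
  have oam : Odd (a' + m') := by
    have h1 : Odd (g * (a' + m')) := by
      have : a + m = g * (a' + m') := by rw [ha', hm']; ring
      rw [← this]; exact hpar
    exact (Nat.odd_mul.1 h1).2
  have oam' : Odd ((a' : ℤ) + m') := by exact_mod_cast oam
  have os' : Odd (s : ℤ) := by exact_mod_cast os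
  have ot' : Odd (t : ℤ) := by exact_mod_cast ot
  have ov' : Odd (v : ℤ) := by exact_mod_cast ov
  have ow' : Odd (w : ℤ) := by exact_mod_cast ow
  have of' : Odd (f : ℤ) := by exact_mod_cast of
  have oY₁ : Odd Y₁ := by
    have h1 : Odd (Y₁ * w) := by
      rw [e1]
      rw [Int.odd_sub, Int.odd_mul, Int.even_mul]
      rw [Int.odd_add] at oam'
      rw [← Int.not_odd_iff_even, ← Int.not_odd_iff_even] at *
      tauto
    exact (Int.odd_mul.1 h1).1
  have oY₂ : Odd Y₂ := by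
    have h1 : Odd (Y₂ * v) := by
      rw [e2]
      rw [Int.odd_add, Int.odd_mul, Int.even_mul]
      rw [Int.odd_add] at oam'
      rw [← Int.not_odd_iff_even, ← Int.not_odd_iff_even] at *
      tauto
    exact (Int.odd_mul.1 h1).1
  obtain ⟨x₁, hx₁⟩ : ∃ x₁ : ℤ, Y₁ = 2 * x₁ + v * f := by
    obtain ⟨k, hk⟩ := oY₁.sub_odd (ov'.mul of')
    exact ⟨k, by linear_combination hk⟩
  obtain ⟨x₂, hx₂⟩ : ∃ x₂ : ℤ, Y₂ = 2 * x₂ + w * f := by
    obtain ⟨k, hk⟩ := oY₂.sub_odd (ow'.mul of')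
    exact ⟨k, by linear_combination hk⟩
  have hn0 : 4 * n0 d = (d : ℤ) + 1 := by
    unfold n0
    omega
  have hmd : m / g = m' := by rw [hm']; exact Nat.mul_div_cancel_left _ hg0
  have had : a / g = a' := by rw [ha']; exact Nat.mul_div_cancel_left _ hg0
  refine ⟨oF, hd8, f, hf, fun q _ hq => hq.trans hgst, x₁, x₂, by rw [hY₁, hx₁],
    by rw [hY₂, hx₂], ?_⟩
  rw [hmd, had]
  have hm'0 : 0 < m' := Nat.pos_of_ne_zero (by rintro rfl; omega)
  have ha'0 : 0 < a' := Nat.pos_of_ne_zero (by rintro rfl; omega)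
  refine ⟨hd8, hg0, hf0, hm'0, ha'0, hvp, hwp, ?_, ?_, ?_, ?_, ?_, ?_⟩
  · have h1 := Nat.gcd_mul_left g m' a'
    rw [← hm', ← ha', hgdef] at h1
    have h2 : g * 1 = g * Nat.gcd m' a' := by rw [mul_one]; exact h1
    exact (Nat.eq_of_mul_eq_mul_left hg0 h2).symm
  · rw [hx₁] at e3
    have h1 : (4 : ℤ) * (x₁ ^ 2 + x₁ * (v * f) + n0 d * (v * f) ^ 2) = 4 * (g * m' ^ 2 * a') := by
      linear_combination e3 + (v * f) ^ 2 * hn0
    exact mul_left_cancel₀ (by norm_num) h1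
  · rw [hx₂] at e4
    have h1 : (4 : ℤ) * (x₂ ^ 2 + x₂ * (w * f) + n0 d * (w * f) ^ 2) = 4 * (g * m' * a' ^ 2) := by
      linear_combination e4 + (w * f) ^ 2 * hn0
    exact mul_left_cancel₀ (by norm_num) h1
  · refine ⟨s, ?_⟩
    have h1 : (2 : ℤ) * (x₁ * w + x₂ * v + v * w * f) = 2 * (a' * s) := by
      rw [hx₁] at e1
      rw [hx₂] at e2
      linear_combination e1 + e2
    exact mul_left_cancel₀ (by norm_num) h1
  · refine ⟨t, ?_⟩
    have h1 : (2 : ℤ) * (x₂ * v - x₁ * w) = 2 * (m' * t) := by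
      rw [hx₁] at e1
      rw [hx₂] at e2
      linear_combination e2 - e1
    exact mul_left_cancel₀ (by norm_num) h1
  · intro q hq hqma hqg hqd
    refine hbet q hq ?_ hqg ?_
    · rw [hm', ha', show g * m' * (g * a') = (g * g) * (m' * a') by ring]
      exact hqma.mul_left _
    · rw [hDF, hf, show d * (g * f) ^ 2 * v * w = (g ^ 2 * f) * (d * f * v * w) by ring]
      exact hqd.mul_left _

end Pool.Agent.T2h80.L5
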