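import Pool.Agent.T2h80.L5.ALx

set_option autoImplicit false

/-! Task GM5. -/

namespace Pool.Agent.T2h80.L5

open Finset NumberField Pool.Agent.T2h80.F5

namespace GM5

variable {K : Type} [Field K] [NumberField K] {d : ℕ} {ω : 𝓞 K} {σ : 𝓞 K →+* 𝓞 K}

/-- the second coordinate is divisible by `n` -/
def Sec (ω : 𝓞 K) (n : ℕ) (z : 𝓞 K) : Prop := ∃ a b : ℤ, z = el ω a b ∧ (n : ℤ) ∣ b

theorem mul_el (h : IsQ K d ω σ) (a b a' b' : ℤ) :
    el ω a b * el ω a' b' = el ω (a * a' - n0 d * b * b') (a * b' + b * a' + th d * b * b') := by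
  unfold el
  push_cast
  linear_combination ((b : 𝓞 K) * b') * h.1

theorem Sec.mul (h : IsQ K d ω σ) {n : ℕ} {z w : 𝓞 K} (hz : Sec ω n z) (hw : Sec ω n w) :
    Sec ω n (z * w) := by
  obtain ⟨a, b, rfl, hb⟩ := hz
  obtain ⟨a', b', rfl, hb'⟩ := hw
  refine ⟨_, _, mul_el h a b a' b', ?_⟩
  refine dvd_add (dvd_add (hb'.mul_left _) (hb.mul_right _)) (hb'.mul_left _)

theorem Sec.sig (h : IsQ K d ω σ) {n : ℕ} {z : 𝓞 K} (hz : Sec ω n z) : Sec ω n (σ z) := by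
  obtain ⟨a, b, rfl, hb⟩ := hz
  exact ⟨_, _, ALx.sig_el h a b, (dvd_neg).2 hb⟩

theorem Sec.dvd (h : IsQ K d ω σ) {n : ℕ} {a b : ℤ} (hz : Sec ω n (el ω a b)) : (n : ℤ) ∣ b := by
  obtain ⟨a', b', e, hb⟩ := hz
  rw [(ALx.indep h e).2]
  exact hb

/-- units -/
theorem unit_eq (h : IsQ K d ω σ) (hd : d % 8 = 7) {ε : 𝓞 K} (hε : IsUnit ε) : ε = 1 ∨ ε = -1 := by
  have h1 : IsUnit (Algebra.norm ℤ ε) := hε.map _
  obtain ⟨a, b, rfl⟩ := ALx.exists_el h ε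
  rw [ALx.norm_el h, ALx.th_one hd] at h1
  have hn := ALx.n0_eq hd
  have h4 : 4 * (a ^ 2 + 1 * a * b + n0 d * b ^ 2) = (2 * a + b) ^ 2 + d * b ^ 2 := by
    linear_combination b ^ 2 * hn
  have hd7 : (7 : ℤ) ≤ d := by
    have : 7 ≤ d := by omega
    exact_mod_cast this
  have hle : a ^ 2 + 1 * a * b + n0 d * b ^ 2 ≤ 1 := by
    rcases Int.isUnit_iff.1 h1 with h2 | h2 <;> omega
  have hb : b = 0 := by
    by_contra hb
    have hb1 : 1 ≤ b ^ 2 := by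
      have := sq_nonneg b
      have h5 : b ^ 2 ≠ 0 := pow_ne_zero 2 hb
      omega
    nlinarith [sq_nonneg (2 * a + b)]
  subst hb
  have ha : a ^ 2 = 1 := by
    rcases Int.isUnit_iff.1 h1 with h2 | h2
    · linarith
    · nlinarith [sq_nonneg a]
  have ha' : a * a = 1 := by rw [← sq]; exact ha
  rcases mul_self_eq_one_iff.1 ha' with h2 | h2
  · left; subst h2; unfold el; simp
  · right; subst h2; unfold el; simp

omit [NumberField K] in
theorem span_sig (z : 𝓞 K) : Ideal.span {σ z} = (Ideal.span {z}).map σ := by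
  rw [Ideal.map_span, Set.image_singleton]

/-- the first relation -/
theorem rel1 (h : IsQ K d ω σ) {P A P' A' J₁ : Ideal (𝓞 K)} {α α' γ η : 𝓞 K}
    (e : Ideal.span {α} = P ^ 2 * A.map σ * J₁) (e' : Ideal.span {α'} = P' ^ 2 * A'.map σ * J₁)
    (hγ : P' * P.map σ = Ideal.span {γ}) (hη : A' * A.map σ = Ideal.span {η}) :
    ∃ u : (𝓞 K)ˣ, α' * σ α = u * (γ ^ 2 * σ η * ((Ideal.absNorm J₁ : ℕ) : 𝓞 K)) := by
  have hη' : A'.map σ * A = Ideal.span {σ η} := by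
    rw [span_sig, ← hη, Ideal.map_mul, ALx.map_map h]
  have e1 : Ideal.span {γ ^ 2 * σ η * ((Ideal.absNorm J₁ : ℕ) : 𝓞 K)} = Ideal.span {α' * σ α} := by
    rw [← Ideal.span_singleton_mul_span_singleton, ← Ideal.span_singleton_mul_span_singleton,
      ← Ideal.span_singleton_mul_span_singleton, ← Ideal.span_singleton_pow, ← hγ, ← hη',
      ← ALx.mul_map h J₁, e', span_sig, e, Ideal.map_mul, Ideal.map_mul, Ideal.map_pow,
      ALx.map_map h]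
    ring
  obtain ⟨u, hu⟩ := Ideal.span_singleton_eq_span_singleton.1 e1
  exact ⟨u, by rw [← hu]; ring⟩

/-- the second relation -/
theorem rel2 (h : IsQ K d ω σ) {P A P' A' J₂ : Ideal (𝓞 K)} {β β' γ η : 𝓞 K}
    (e : Ideal.span {β} = A ^ 2 * P * J₂) (e' : Ideal.span {β'} = A' ^ 2 * P' * J₂)
    (hγ : P' * P.map σ = Ideal.span {γ}) (hη : A' * A.map σ = Ideal.span {η}) :
    ∃ u : (𝓞 K)ˣ, β' * σ β = u * (η ^ 2 * γ * ((Ideal.absNorm J₂ : ℕ) : 𝓞 K)) := by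
  have e1 : Ideal.span {η ^ 2 * γ * ((Ideal.absNorm J₂ : ℕ) : 𝓞 K)} = Ideal.span {β' * σ β} := by
    rw [← Ideal.span_singleton_mul_span_singleton, ← Ideal.span_singleton_mul_span_singleton,
      ← Ideal.span_singleton_mul_span_singleton, ← Ideal.span_singleton_pow, ← hγ, ← hη,
      ← ALx.mul_map h J₂, e', span_sig, e, Ideal.map_mul, Ideal.map_mul, Ideal.map_pow]
    ring
  obtain ⟨u, hu⟩ := Ideal.span_singleton_eq_span_singleton.1 e1
  exact ⟨u, by rw [← hu]; ring⟩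

theorem pow5 (h : IsQ K d ω σ) (hd : d % 8 = 7) (X Y : ℤ) :
    ∃ R : ℤ, el ω X Y ^ 5 = el ω R (I5 (n0 d) X Y) := by
  have e : el ω X Y ^ 5 = ((el ω X Y * el ω X Y) * (el ω X Y * el ω X Y)) * el ω X Y := by ring
  rw [e, mul_el h, mul_el h, mul_el h, ALx.th_one hd]
  refine ⟨_, congrArg (el ω _) ?_⟩
  unfold I5
  ring

theorem Sec.int (n : ℕ) (c : ℤ) : Sec ω n (c : 𝓞 K) :=
  ⟨c, 0, by unfold el; simp, dvd_zero _⟩

/-- signs -/
theorem Sec.of_unit (h : IsQ K d ω σ) (hd : d % 8 = 7) {n : ℕ} {u z : 𝓞 K} (hu : IsUnit u)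
    (hz : Sec ω n (u * z)) : Sec ω n z := by
  rcases unit_eq h hd hu with rfl | rfl
  · rwa [one_mul] at hz
  · have h1 := Sec.mul h (Sec.int (ω := ω) n (-1)) hz
    have e : ((-1 : ℤ) : 𝓞 K) * (-1 * z) = z := by push_cast; ring
    rwa [e] at h1

/-- cancellation of an integer -/
theorem Sec.cancel (h : IsQ K d ω σ) {n : ℕ} {a b c : ℤ} (hc : IsCoprime (n : ℤ) c)
    (hz : Sec ω n (el ω a b * (c : 𝓞 K))) : (n : ℤ) ∣ b := by
  have e : el ω a b * (c : 𝓞 K) = el ω (a * c) (b * c) := by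
    unfold el
    push_cast
    ring
  rw [e] at hz
  exact hc.dvd_of_dvd_mul_right (Sec.dvd h hz)

end GM5

open GM5 in
/-- **GM5** -/
theorem t_GM5 : S_GM5 := by
  intro K _ _ d ω σ h hd n B hn J₁ J₂ P A P' A' x₁ u₁ x₂ u₂ x₁' u₁' x₂' u₂' hR hR' hγ0 hη0
  obtain ⟨hP, hA, hJ₁, hJ₂, -, -, -, -, eα, eβ, hu₁, hu₂, hco⟩ := hR
  obtain ⟨hP', hA', -, -, -, -, -, -, eα', eβ', hu₁', hu₂', hco'⟩ := hR'
  have hα : Sec ω n (el ω x₁ u₁) := ⟨_, _, rfl, hu₁⟩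
  have hβ : Sec ω n (el ω x₂ u₂) := ⟨_, _, rfl, hu₂⟩
  have hα' : Sec ω n (el ω x₁' u₁') := ⟨_, _, rfl, hu₁'⟩
  have hβ' : Sec ω n (el ω x₂' u₂') := ⟨_, _, rfl, hu₂'⟩
  have cP : n.Coprime (Ideal.absNorm P) := (hco.coprime_mul_right.coprime_mul_right.coprime_mul_right).symm
  have cA : n.Coprime (Ideal.absNorm A) := (hco.coprime_mul_right.coprime_mul_right.coprime_mul_left).symm
  have cJ₁ : n.Coprime (Ideal.absNorm J₁) := (hco.coprime_mul_right.coprime_mul_left).symm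
  have cJ₂ : n.Coprime (Ideal.absNorm J₂) := (hco.coprime_mul_left).symm
  have cA' : n.Coprime (Ideal.absNorm A') := (hco'.coprime_mul_right.coprime_mul_right.coprime_mul_left).symm
  constructor
  · intro X Y hγ
    obtain ⟨η, hη⟩ := hη0
    obtain ⟨u, hu⟩ := rel1 h eα eα' hγ hη
    obtain ⟨u', hu'⟩ := rel2 h eβ eβ' hγ hη
    obtain ⟨R, hR5⟩ := pow5 h hd X Y
    obtain ⟨c, hc⟩ : ∃ c : ℤ, c = (Algebra.norm ℤ η) ^ 2 * (Ideal.absNorm J₁ : ℤ) ^ 2 *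
      (Ideal.absNorm J₂ : ℤ) := ⟨_, rfl⟩
    have hηη := ALx.mul_sig h η
    have key : (el ω x₁' u₁' * σ (el ω x₁ u₁)) ^ 2 * (el ω x₂' u₂' * σ (el ω x₂ u₂)) =
        ((u : 𝓞 K) ^ 2 * u') * (el ω R (I5 (n0 d) X Y) * (c : 𝓞 K)) := by
      rw [hu, hu', ← hR5, hc]
      push_cast
      rw [← hηη]
      ring
    have hS : Sec ω n ((el ω x₁' u₁' * σ (el ω x₁ u₁)) ^ 2 * (el ω x₂' u₂' * σ (el ω x₂ u₂))) := by
      rw [sq]
      have s1 := Sec.mul h hα' (Sec.sig h hα)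
      exact Sec.mul h (Sec.mul h s1 s1) (Sec.mul h hβ' (Sec.sig h hβ))
    rw [key] at hS
    have hS' := Sec.of_unit h hd ((u.isUnit.pow 2).mul u'.isUnit) hS
    refine Sec.cancel h ?_ hS'
    have hcη : IsCoprime (n : ℤ) (Algebra.norm ℤ η) := by
      have h1 : (Algebra.norm ℤ η).natAbs = Ideal.absNorm A' * Ideal.absNorm A := by
        rw [← Ideal.absNorm_span_singleton, ← hη, map_mul, ALx.absNorm_map h]
      rw [Int.isCoprime_iff_gcd_eq_one, Int.gcd, Int.natAbs_natCast, h1]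
      exact Nat.Coprime.mul_right cA' cA
    rw [hc]
    exact ((hcη.pow_right).mul_right (Nat.isCoprime_iff_coprime.2 cJ₁).pow_right).mul_right
      (Nat.isCoprime_iff_coprime.2 cJ₂)
  · intro hPP X Y hη
    subst hPP
    obtain ⟨u, hu⟩ := rel1 h eα eα' (ALx.mul_map h P') hη
    have hS : Sec ω n (el ω x₁' u₁' * σ (el ω x₁ u₁)) := Sec.mul h hα' (Sec.sig h hα)
    rw [hu] at hS
    have hS' := Sec.of_unit h hd u.isUnit hS
    have e : ((Ideal.absNorm P' : ℕ) : 𝓞 K) ^ 2 * σ (el ω X Y) * ((Ideal.absNorm J₁ : ℕ) : 𝓞 K) =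
        el ω (X + th d * Y) (-Y) *
          (((Ideal.absNorm P' : ℤ) ^ 2 * (Ideal.absNorm J₁ : ℤ) : ℤ) : 𝓞 K) := by
      rw [ALx.sig_el h]
      push_cast
      ring
    rw [e] at hS'
    have h1 := Sec.cancel h ((Nat.isCoprime_iff_coprime.2 cP).pow_right.mul_right
      (Nat.isCoprime_iff_coprime.2 cJ₁)) hS'
    exact (dvd_neg).1 h1

end Pool.Agent.T2h80.L5
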