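import Pool.Agent.T2h80.L5.Stm

set_option autoImplicit false

namespace Pool.Agent.T2h80.L5

open Finset

theorem gtx_div (v w s t m : ℤ) (hv : 0 < v) (hcop : IsCoprime v w)
    (h1 : v ^ 3 ∣ t ^ 2 * v ^ 2 - s * t * w ^ 2 - m * w ^ 4) :
    ∃ a : ℤ, a * v ^ 2 = m * w ^ 2 + s * t ∧ v ∣ t ^ 2 - a * w ^ 2 := by
  have h2 : v ^ 2 ∣ w ^ 2 * (m * w ^ 2 + s * t) := by
    have h3 : v ^ 2 ∣ t ^ 2 * v ^ 2 - s * t * w ^ 2 - m * w ^ 4 :=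
      dvd_trans (pow_dvd_pow v (by norm_num)) h1
    have h4 : w ^ 2 * (m * w ^ 2 + s * t) =
        t ^ 2 * v ^ 2 - (t ^ 2 * v ^ 2 - s * t * w ^ 2 - m * w ^ 4) := by ring
    rw [h4]
    exact dvd_sub (dvd_mul_left _ _) h3
  have h5 : v ^ 2 ∣ m * w ^ 2 + s * t :=
    (hcop.pow (m := 2) (n := 2)).dvd_of_dvd_mul_left h2
  obtain ⟨a, ha⟩ := h5
  refine ⟨a, by rw [ha]; ring, ?_⟩
  have h6 : t ^ 2 * v ^ 2 - s * t * w ^ 2 - m * w ^ 4 = v ^ 2 * (t ^ 2 - a * w ^ 2) := by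
    have : t ^ 2 * v ^ 2 - s * t * w ^ 2 - m * w ^ 4 = t ^ 2 * v ^ 2 - w ^ 2 * (m * w ^ 2 + s * t) := by
      ring
    rw [this, ha]; ring
  rw [h6, show v ^ 3 = v ^ 2 * v by ring] at h1
  exact (mul_dvd_mul_iff_left (by positivity)).1 h1

theorem odd_of_dvd (Q : ℕ) (hQ : 2 ∣ Q) (s : ℕ) (h : (Q : ℤ) ∣ (s : ℤ) - 1) : Odd s := by
  have h1 : (2 : ℤ) ∣ (s : ℤ) - 1 := dvd_trans (by exact_mod_cast hQ) h
  rw [Nat.odd_iff]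
  omega

theorem gtx_mod (D m a y v w s t : ℤ) (hs : s % 2 = 1) (ht : t % 2 = 1) (hv : v % 2 = 1)
    (hw : w % 2 = 1) (h1 : a * v ^ 2 = m * w ^ 2 + s * t) (h2 : y * w = a * s - m * t)
    (h3 : 4 * m ^ 2 * a = y ^ 2 + D * v ^ 2) : D % 8 = 7 := by
  have hv8 : v ^ 2 % 8 = 1 := by
    have : v % 8 = 1 ∨ v % 8 = 3 ∨ v % 8 = 5 ∨ v % 8 = 7 := by omega
    rcases this with h | h | h | h <;> simp [pow_two, Int.mul_emod, h]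
  have hv2 : v ^ 2 % 2 = 1 := by omega
  have hw2 : w ^ 2 % 2 = 1 := by simp [pow_two, Int.mul_emod, hw]
  have h1' : (a * v ^ 2) % 2 = (m * w ^ 2 + s * t) % 2 := by rw [h1]
  have ha : a % 2 = (m + 1) % 2 := by
    rw [Int.mul_emod, hv2, Int.add_emod, Int.mul_emod m, hw2, Int.mul_emod s, hs, ht] at h1'
    omega
  have hy : y % 2 = 1 := by
    have h2' : (y * w) % 2 = (a * s - m * t) % 2 := by rw [h2]
    rw [Int.mul_emod, hw, Int.sub_emod, Int.mul_emod a, hs, Int.mul_emod m, ht] at h2'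
    omega
  have hy8 : y ^ 2 % 8 = 1 := by
    have : y % 8 = 1 ∨ y % 8 = 3 ∨ y % 8 = 5 ∨ y % 8 = 7 := by omega
    rcases this with h | h | h | h <;> simp [pow_two, Int.mul_emod, h]
  have hma : (m ^ 2 * a) % 2 = 0 := by
    rcases Int.emod_two_eq_zero_or_one m with h | h
    · simp [pow_two, Int.mul_emod, h]
    · have : a % 2 = 0 := by omega
      simp [Int.mul_emod, this]
  have h3' : (D * v ^ 2) % 8 = 7 := by
    have : 4 * (m ^ 2 * a) = y ^ 2 + D * v ^ 2 := by rw [← h3]; ring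
    omega
  rw [Int.mul_emod, hv8] at h3'
  omega

theorem t_GTX : S_GTX := by
  intro ν V Q hν hV hQ x hx hcop
  obtain ⟨⟨v, w⟩, s, t, m⟩ := x
  simp only [TU, mem_filter, mem_product, PP, PV, IS, IM, mem_Ico] at hx
  obtain ⟨⟨⟨⟨⟨⟨hv1, hv2⟩, hvp⟩, ⟨hw1, hw2⟩, hwp⟩, hvw⟩, ⟨hs1, hs2⟩, ⟨ht1, ht2⟩, hm1, hm2⟩,
    hQs, hQt, hC1, hC2⟩ := hx
  simp only at hcop
  have hso : Odd s := odd_of_dvd Q hQ s hQs
  have hto : Odd t := odd_of_dvd Q hQ t hQt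
  have hvo : Odd v := hvp.odd_of_ne_two (by omega)
  have hwo : Odd w := hwp.odd_of_ne_two (by omega)
  have hvwc : Nat.Coprime v w := (Nat.coprime_primes hvp hwp).2 hvw
  have hvwZ : IsCoprime (v : ℤ) (w : ℤ) := Nat.isCoprime_iff_coprime.2 hvwc
  have hvpos : 0 < v := hvp.pos
  have hwpos : 0 < w := hwp.pos
  have hVpos : 0 < V := by omega
  have hspos : 0 < s := lt_of_lt_of_le (by positivity) hs1
  have htpos : 0 < t := lt_of_lt_of_le (by positivity) ht1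
  obtain ⟨a', ha', hva'⟩ := gtx_div v w s t m (by exact_mod_cast hvpos) hvwZ hC1
  have ha'pos : 0 < a' := by
    by_contra hcon
    have h1 : a' * (v : ℤ) ^ 2 ≤ 0 := mul_nonpos_of_nonpos_of_nonneg (by omega) (by positivity)
    have h2 : (0 : ℤ) < (m : ℤ) * (w : ℤ) ^ 2 + s * t := by positivity
    omega
  obtain ⟨a, rfl⟩ := Int.eq_ofNat_of_zero_le ha'pos.le
  have haN : a * v ^ 2 = m * w ^ 2 + s * t := by exact_mod_cast ha'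
  have haa : aa ((v, w), s, t, m) = a := by
    simp only [aa]
    rw [show s * t + m * w ^ 2 = a * v ^ 2 by rw [haN]; ring]
    exact Nat.mul_div_cancel _ (by positivity)
  -- coprimality
  have hsw : IsCoprime (s : ℤ) (w : ℤ) := by
    rw [Nat.isCoprime_iff_coprime]
    exact Nat.Coprime.coprime_mul_left_right (Nat.Coprime.coprime_mul_right hcop)
  have htv : IsCoprime (t : ℤ) (v : ℤ) := by
    rw [Nat.isCoprime_iff_coprime]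
    exact Nat.Coprime.coprime_mul_right_right (Nat.Coprime.coprime_mul_left hcop)
  -- y₁
  have hy1 : (w : ℤ) ∣ (a : ℤ) * s - m * t := by
    have h1 : (w : ℤ) ∣ (s : ℤ) * ((a : ℤ) * s - m * t) := by
      have h2 : (s : ℤ) * ((a : ℤ) * s - m * t) =
          a * ((s : ℤ) ^ 2 - m * (v : ℤ) ^ 2) + m * (a * (v : ℤ) ^ 2 - s * t) := by ring
      rw [h2, ha']
      refine dvd_add (Dvd.dvd.mul_left hC2 _) ?_
      refine ⟨(m : ℤ) * (m * w), by ring⟩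
    exact hsw.symm.dvd_of_dvd_mul_left h1
  have hy2 : (v : ℤ) ∣ (a : ℤ) * s + m * t := by
    have h1 : (v : ℤ) ∣ (t : ℤ) * ((a : ℤ) * s + m * t) := by
      have h2 : (t : ℤ) * ((a : ℤ) * s + m * t) =
          m * ((t : ℤ) ^ 2 - a * (w : ℤ) ^ 2) + a * (m * (w : ℤ) ^ 2 + s * t) := by ring
      rw [h2, ← ha']
      refine dvd_add (Dvd.dvd.mul_left hva' _) ?_
      refine ⟨(a : ℤ) * (a * v), by ring⟩
    exact htv.symm.dvd_of_dvd_mul_left h1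
  obtain ⟨y₁, hy₁⟩ := hy1
  obtain ⟨y₂, hy₂⟩ := hy2
  -- D
  have hid : (w : ℤ) ^ 2 * (4 * (m : ℤ) ^ 2 * a - y₁ ^ 2) = (v : ℤ) ^ 2 * (4 * (a : ℤ) ^ 2 * m - y₂ ^ 2) := by
    have h1 : ((w : ℤ) * y₁) ^ 2 = ((a : ℤ) * s - m * t) ^ 2 := by rw [hy₁]
    have h2 : ((v : ℤ) * y₂) ^ 2 = ((a : ℤ) * s + m * t) ^ 2 := by rw [hy₂]
    have h3 : 4 * (m : ℤ) * a * ((a : ℤ) * (v : ℤ) ^ 2) = 4 * (m : ℤ) * a * ((m : ℤ) * (w : ℤ) ^ 2 + s * t) := by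
      rw [ha']
    linear_combination (-1) * h1 + h2 - h3
  have hvD : (v : ℤ) ^ 2 ∣ 4 * (m : ℤ) ^ 2 * a - y₁ ^ 2 := by
    have h1 : (v : ℤ) ^ 2 ∣ (w : ℤ) ^ 2 * (4 * (m : ℤ) ^ 2 * a - y₁ ^ 2) := by
      rw [hid]; exact dvd_mul_right _ _
    exact (hvwZ.pow (m := 2) (n := 2)).dvd_of_dvd_mul_left h1
  obtain ⟨D', hD'⟩ := hvD
  have hD2 : 4 * (a : ℤ) ^ 2 * m - y₂ ^ 2 = (w : ℤ) ^ 2 * D' := by
    have h1 : (v : ℤ) ^ 2 * (4 * (a : ℤ) ^ 2 * m - y₂ ^ 2) = (v : ℤ) ^ 2 * ((w : ℤ) ^ 2 * D') := by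
      rw [← hid, hD']; ring
    exact mul_left_cancel₀ (by positivity) h1
  -- sizes of a
  have ha1 : 169 * ν ^ 4 * V ^ 2 ≤ a := by
    have h1 : v ^ 2 ≤ 4 * V ^ 2 := by nlinarith
    have h2 : V ^ 2 ≤ w ^ 2 := Nat.pow_le_pow_left hw1 2
    have h3 : (676 * ν ^ 4 * V ^ 2) * V ^ 2 ≤ a * (4 * V ^ 2) := by
      calc (676 * ν ^ 4 * V ^ 2) * V ^ 2 ≤ m * w ^ 2 := Nat.mul_le_mul hm1 h2
        _ ≤ m * w ^ 2 + s * t := Nat.le_add_right _ _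
        _ = a * v ^ 2 := haN.symm
        _ ≤ a * (4 * V ^ 2) := Nat.mul_le_mul_left _ h1
    have h4 : (169 * ν ^ 4 * V ^ 2) * (4 * V ^ 2) ≤ a * (4 * V ^ 2) := by
      calc (169 * ν ^ 4 * V ^ 2) * (4 * V ^ 2) = (676 * ν ^ 4 * V ^ 2) * V ^ 2 := by ring
        _ ≤ _ := h3
    exact Nat.le_of_mul_le_mul_right h4 (by positivity)
  have ha2 : a ≤ 6084 * ν ^ 4 * V ^ 2 := by
    have h1 : V ^ 2 ≤ v ^ 2 := Nat.pow_le_pow_left hv1 2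
    have h2 : w ^ 2 ≤ 4 * V ^ 2 := by nlinarith
    have h3 : a * V ^ 2 ≤ (6084 * ν ^ 4 * V ^ 2) * V ^ 2 := by
      calc a * V ^ 2 ≤ a * v ^ 2 := Nat.mul_le_mul_left _ h1
        _ = m * w ^ 2 + s * t := haN
        _ ≤ (2 * (676 * ν ^ 4 * V ^ 2)) * (4 * V ^ 2) +
            (2 * (ν ^ 2 * V ^ 2)) * (2 * (ν ^ 2 * V ^ 2)) :=
            Nat.add_le_add (Nat.mul_le_mul hm2.le h2) (Nat.mul_le_mul hs2.le ht2.le)
        _ = 5412 * (ν ^ 4 * V ^ 4) := by ring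
        _ ≤ 6084 * (ν ^ 4 * V ^ 4) := Nat.mul_le_mul_right _ (by norm_num)
        _ = (6084 * ν ^ 4 * V ^ 2) * V ^ 2 := by ring
    exact Nat.le_of_mul_le_mul_right h3 (by positivity)
  -- real numbers
  have hνR : (1 : ℝ) ≤ ν := by exact_mod_cast hν
  have hVR : (3 : ℝ) ≤ V := by exact_mod_cast hV
  set N : ℝ := (ν : ℝ) ^ 4 * (V : ℝ) ^ 2 with hN
  have hNpos : 0 < N := by positivity
  have e1 : 676 * N ≤ (m : ℝ) := by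
    have : ((676 * ν ^ 4 * V ^ 2 : ℕ) : ℝ) ≤ (m : ℝ) := by exact_mod_cast hm1
    push_cast at this; rw [hN]; linarith
  have e2 : (m : ℝ) ≤ 1352 * N := by
    have : (m : ℝ) ≤ ((2 * (676 * ν ^ 4 * V ^ 2) : ℕ) : ℝ) := by exact_mod_cast hm2.le
    push_cast at this; rw [hN]; linarith
  have e3 : 169 * N ≤ (a : ℝ) := by
    have : ((169 * ν ^ 4 * V ^ 2 : ℕ) : ℝ) ≤ (a : ℝ) := by exact_mod_cast ha1
    push_cast at this; rw [hN]; linarith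
  have e4 : (a : ℝ) ≤ 6084 * N := by
    have : (a : ℝ) ≤ ((6084 * ν ^ 4 * V ^ 2 : ℕ) : ℝ) := by exact_mod_cast ha2
    push_cast at this; rw [hN]; linarith
  have e5 : (s : ℝ) ≤ 2 * ((ν : ℝ) ^ 2 * (V : ℝ) ^ 2) := by
    have : (s : ℝ) ≤ ((2 * (ν ^ 2 * V ^ 2) : ℕ) : ℝ) := by exact_mod_cast hs2.le
    push_cast at this; linarith
  have e6 : (t : ℝ) ≤ 2 * ((ν : ℝ) ^ 2 * (V : ℝ) ^ 2) := by
    have : (t : ℝ) ≤ ((2 * (ν ^ 2 * V ^ 2) : ℕ) : ℝ) := by exact_mod_cast ht2.le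
    push_cast at this; linarith
  have e7 : (V : ℝ) ≤ w := by exact_mod_cast hw1
  have e8 : (V : ℝ) ≤ v := by exact_mod_cast hv1
  have e9 : (v : ℝ) ≤ 2 * V := by exact_mod_cast hv2.le
  have hs0 : (0 : ℝ) ≤ s := by positivity
  have ht0 : (0 : ℝ) ≤ t := by positivity
  have ha0 : (0 : ℝ) ≤ a := by positivity
  have hm0 : (0 : ℝ) ≤ m := by positivity
  have hY : ((w : ℝ) * y₁) = (a : ℝ) * s - m * t := by exact_mod_cast hy₁.symm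
  have hYabs : |(w : ℝ) * y₁| ≤ 12168 * N * ((ν : ℝ) ^ 2 * (V : ℝ) ^ 2) := by
    rw [hY, abs_le]
    have p1 : (a : ℝ) * s ≤ 6084 * N * (2 * ((ν : ℝ) ^ 2 * (V : ℝ) ^ 2)) :=
      mul_le_mul e4 e5 hs0 (by positivity)
    have p2 : (m : ℝ) * t ≤ 1352 * N * (2 * ((ν : ℝ) ^ 2 * (V : ℝ) ^ 2)) :=
      mul_le_mul e2 e6 ht0 (by positivity)
    have p3 : 0 ≤ (a : ℝ) * s := by positivity
    have p4 : 0 ≤ (m : ℝ) * t := by positivity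
    have p5 : 0 ≤ N * ((ν : ℝ) ^ 2 * (V : ℝ) ^ 2) := by positivity
    constructor <;> nlinarith
  have hYsq : (y₁ : ℝ) ^ 2 * (V : ℝ) ^ 2 ≤ 12168 ^ 2 * N ^ 2 * ((ν : ℝ) ^ 4 * (V : ℝ) ^ 4) := by
    have h1 : ((w : ℝ) * y₁) ^ 2 ≤ (12168 * N * ((ν : ℝ) ^ 2 * (V : ℝ) ^ 2)) ^ 2 := by
      rw [← sq_abs]
      exact pow_le_pow_left₀ (abs_nonneg _) hYabs 2
    have h2 : (V : ℝ) ^ 2 ≤ (w : ℝ) ^ 2 := pow_le_pow_left₀ (by positivity) e7 2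
    calc (y₁ : ℝ) ^ 2 * (V : ℝ) ^ 2 ≤ (y₁ : ℝ) ^ 2 * (w : ℝ) ^ 2 :=
          mul_le_mul_of_nonneg_left h2 (by positivity)
      _ = ((w : ℝ) * y₁) ^ 2 := by ring
      _ ≤ _ := h1
      _ = 12168 ^ 2 * N ^ 2 * ((ν : ℝ) ^ 4 * (V : ℝ) ^ 4) := by ring
  have hYsq2 : (y₁ : ℝ) ^ 2 ≤ 12168 ^ 2 * N ^ 3 := by
    have hV2 : (0 : ℝ) < (V : ℝ) ^ 2 := by positivity
    have h1 : (y₁ : ℝ) ^ 2 * (V : ℝ) ^ 2 ≤ (12168 ^ 2 * N ^ 3) * (V : ℝ) ^ 2 := by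
      calc _ ≤ _ := hYsq
        _ = (12168 ^ 2 * N ^ 3) * (V : ℝ) ^ 2 := by rw [hN]; ring
    exact le_of_mul_le_mul_right h1 hV2
  have hDR : 4 * (m : ℝ) ^ 2 * a - (y₁ : ℝ) ^ 2 = (v : ℝ) ^ 2 * D' := by exact_mod_cast hD'
  have hm2a : 4 * (676 * N) ^ 2 * (169 * N) ≤ 4 * (m : ℝ) ^ 2 * a := by
    have : (676 * N) ^ 2 ≤ (m : ℝ) ^ 2 := pow_le_pow_left₀ (by positivity) e1 2
    calc 4 * (676 * N) ^ 2 * (169 * N) ≤ 4 * (m : ℝ) ^ 2 * (169 * N) :=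
          mul_le_mul_of_nonneg_right (by linarith) (by positivity)
      _ ≤ 4 * (m : ℝ) ^ 2 * a := mul_le_mul_of_nonneg_left e3 (by positivity)
  have hm2a' : 4 * (m : ℝ) ^ 2 * a ≤ 4 * (1352 * N) ^ 2 * (6084 * N) := by
    have : (m : ℝ) ^ 2 ≤ (1352 * N) ^ 2 := pow_le_pow_left₀ (by positivity) e2 2
    calc 4 * (m : ℝ) ^ 2 * a ≤ 4 * (1352 * N) ^ 2 * a :=
          mul_le_mul_of_nonneg_right (by linarith) (by positivity)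
      _ ≤ 4 * (1352 * N) ^ 2 * (6084 * N) := mul_le_mul_of_nonneg_left e4 (by positivity)
  have hvDlow : 676 ^ 3 / 2 * N ^ 3 ≤ (v : ℝ) ^ 2 * D' := by
    rw [← hDR]
    have : (0 : ℝ) ≤ N ^ 3 := by positivity
    nlinarith
  have hN3 : N ^ 3 = (ν : ℝ) ^ 12 * (V : ℝ) ^ 4 * (V : ℝ) ^ 2 := by rw [hN]; ring
  have hD'pos : (0 : ℝ) < D' := by
    have h1 : 0 < (v : ℝ) ^ 2 * D' := lt_of_lt_of_le (by positivity) hvDlow
    exact (pos_iff_pos_of_mul_pos h1).1 (by positivity)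
  have hD'pos' : 0 < D' := by exact_mod_cast hD'pos
  obtain ⟨D, rfl⟩ := Int.eq_ofNat_of_zero_le hD'pos'.le
  have hDlow : 676 ^ 3 * ν ^ 12 * V ^ 4 ≤ 8 * D := by
    have h1 : (v : ℝ) ^ 2 ≤ 4 * (V : ℝ) ^ 2 := by nlinarith
    have h2 : 676 ^ 3 / 2 * ((ν : ℝ) ^ 12 * (V : ℝ) ^ 4 * (V : ℝ) ^ 2) ≤ 4 * (V : ℝ) ^ 2 * D := by
      rw [← hN3]
      refine hvDlow.trans ?_
      have : (((D : ℕ) : ℤ) : ℝ) = (D : ℝ) := by norm_cast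
      rw [this]
      exact mul_le_mul_of_nonneg_right h1 (by positivity)
    have h3 : (676 ^ 3 * (ν : ℝ) ^ 12 * (V : ℝ) ^ 4) * (V : ℝ) ^ 2 ≤ (8 * D) * (V : ℝ) ^ 2 := by
      nlinarith
    have h4 : 676 ^ 3 * (ν : ℝ) ^ 12 * (V : ℝ) ^ 4 ≤ 8 * D := le_of_mul_le_mul_right h3 (by positivity)
    exact_mod_cast h4
  have hDup : D ≤ 144 * 676 ^ 3 * ν ^ 12 * V ^ 4 := by
    have h1 : (V : ℝ) ^ 2 ≤ (v : ℝ) ^ 2 := pow_le_pow_left₀ (by positivity) e8 2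
    have h2 : (v : ℝ) ^ 2 * (D : ℝ) ≤ 4 * (1352 * N) ^ 2 * (6084 * N) := by
      have : (((D : ℕ) : ℤ) : ℝ) = (D : ℝ) := by norm_cast
      rw [this] at hDR
      rw [← hDR]
      have : (0 : ℝ) ≤ (y₁ : ℝ) ^ 2 := by positivity
      linarith
    have h3 : (D : ℝ) * (V : ℝ) ^ 2 ≤ (144 * 676 ^ 3 * (ν : ℝ) ^ 12 * (V : ℝ) ^ 4) * (V : ℝ) ^ 2 := by
      calc (D : ℝ) * (V : ℝ) ^ 2 ≤ (D : ℝ) * (v : ℝ) ^ 2 := mul_le_mul_of_nonneg_left h1 (by positivity)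
        _ = (v : ℝ) ^ 2 * (D : ℝ) := by ring
        _ ≤ _ := h2
        _ = 4 * 1352 ^ 2 * 6084 * N ^ 3 := by ring
        _ = _ := by rw [hN3]; ring
    have h4 : (D : ℝ) ≤ 144 * 676 ^ 3 * (ν : ℝ) ^ 12 * (V : ℝ) ^ 4 := le_of_mul_le_mul_right h3 (by positivity)
    exact_mod_cast h4
  have hmod : (D : ℤ) % 8 = 7 := by
    refine gtx_mod D m a y₁ v w s t ?_ ?_ ?_ ?_ ha' ?_ ?_
    · have := Nat.odd_iff.1 hso; omega
    · have := Nat.odd_iff.1 hto; omega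
    · have := Nat.odd_iff.1 hvo; omega
    · have := Nat.odd_iff.1 hwo; omega
    · rw [hy₁]; ring
    · linear_combination hD'
  rw [haa]
  refine ⟨D, y₁, y₂, hvp, hwp, hvw, hvo, hwo, hso, hto, hv1, hv2, hw1, hw2, hspos, htpos, hm1, hm2,
    ha1, ha2, haN, hva', hC2, hcop, ?_, ?_, ?_, ?_, ?_, hDlow, hDup⟩
  · rw [hy₁]; ring
  · rw [hy₂]; ring
  · linear_combination hD'
  · linear_combination hD2
  · omega

end Pool.Agent.T2h80.L5
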