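import Pool.Agent.T2h80.L5.Stm

/-!
# The ideals attached to the reduced data (task IDL)
-/

set_option autoImplicit false

namespace Pool.Agent.T2h80.L5

open Finset NumberField Pool.Agent.T2h80.F5

namespace IDLaux

theorem decomp (g : ℕ) (hg : 0 < g) : ∀ m : ℕ, 0 < m → ∃ m₁ m₂ : ℕ, m = m₁ * m₂ ∧
    m₁.Coprime g ∧ m₂.primeFactors ⊆ g.primeFactors := by
  intro m
  induction m using Nat.strong_induction_on with
  | _ m ih =>
    intro hm
    by_cases h : m.Coprime g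
    · exact ⟨m, 1, by ring, h, by simp⟩
    · obtain ⟨m', hm'⟩ := Nat.gcd_dvd_left m g
      have hc0 : 0 < Nat.gcd m g := Nat.gcd_pos_of_pos_left _ hm
      have hc1 : 1 < Nat.gcd m g := by
        have : Nat.gcd m g ≠ 1 := h
        omega
      have hm'0 : 0 < m' := by
        rcases Nat.eq_zero_or_pos m' with h0 | h0
        · rw [h0, mul_zero] at hm'
          omega
        · exact h0
      have hlt : m' < m := by
        calc m' = 1 * m' := (one_mul m').symm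
          _ < Nat.gcd m g * m' := Nat.mul_lt_mul_of_pos_right hc1 hm'0
          _ = m := hm'.symm
      obtain ⟨m₁, m₂, h1, h2, h3⟩ := ih m' hlt hm'0
      refine ⟨m₁, Nat.gcd m g * m₂, ?_, h2, ?_⟩
      · calc m = Nat.gcd m g * m' := hm'
          _ = Nat.gcd m g * (m₁ * m₂) := by rw [← h1]
          _ = m₁ * (Nat.gcd m g * m₂) := by ring
      · have hm20 : m₂ ≠ 0 := by
          rintro rfl
          rw [mul_zero] at h1
          omega
        rw [Nat.primeFactors_mul hc0.ne' hm20]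
        exact Finset.union_subset (Nat.primeFactors_mono (Nat.gcd_dvd_right m g) hg.ne') h3

theorem cop_of_sub {m₁ m₂ g : ℕ} (h : m₁.Coprime g) (h0 : m₂ ≠ 0)
    (h2 : m₂.primeFactors ⊆ g.primeFactors) : m₁.Coprime m₂ := by
  refine Nat.coprime_of_dvd fun q hq h3 h4 => ?_
  have h5 : q ∈ g.primeFactors := h2 (Nat.mem_primeFactors.2 ⟨hq, h4, h0⟩)
  have h6 := Nat.dvd_gcd h3 (Nat.dvd_of_mem_primeFactors h5)
  rw [h] at h6
  exact hq.one_lt.ne' (Nat.dvd_one.1 h6)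

theorem split {R : Type} [CommRing R] (α : R) (r s : ℕ) (h : r.Coprime s) :
    Ideal.span {α, ((r * s : ℕ) : R)} = Ideal.span {α, (r : R)} * Ideal.span {α, (s : R)} := by
  rw [Ideal.span_pair_mul_span_pair]
  obtain ⟨u, v, huv⟩ : IsCoprime (r : ℤ) (s : ℤ) := Nat.isCoprime_iff_coprime.2 h
  have huv' : (u : R) * r + v * s = 1 := by exact_mod_cast congrArg (Int.cast : ℤ → R) huv
  apply le_antisymm
  · rw [Ideal.span_le]
    rintro x (rfl | rfl)
    · have h3 := Ideal.add_mem (Ideal.span {x * x, x * s, r * x, (r : R) * s})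
        (Ideal.mul_mem_left _ (u : R) (Ideal.subset_span (a := (r : R) * x) (by simp)))
        (Ideal.mul_mem_left _ (v : R) (Ideal.subset_span (a := x * (s : R)) (by simp)))
      have e : u * ((r : R) * x) + v * (x * s) = x := by linear_combination x * huv'
      rw [e] at h3
      exact h3
    · rw [Nat.cast_mul]
      exact Ideal.subset_span (by simp)
  · rw [Ideal.span_le]
    have h1 : α ∈ Ideal.span {α, ((r * s : ℕ) : R)} := Ideal.subset_span (by simp)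
    have h2 : (r : R) * s ∈ Ideal.span {α, ((r * s : ℕ) : R)} :=
      Ideal.subset_span (by rw [Nat.cast_mul]; simp)
    rintro x (rfl | rfl | rfl | rfl)
    · exact Ideal.mul_mem_left _ _ h1
    · exact Ideal.mul_mem_right _ _ h1
    · exact Ideal.mul_mem_left _ _ h1
    · exact h2

section

variable {K : Type} [Field K] [NumberField K] {d : ℕ} {ω : 𝓞 K} {σ : 𝓞 K →+* 𝓞 K}

theorem th_one (hd : d % 8 = 7) : th d = 1 := by
  unfold th
  omega

theorem norm_el (hQ : IsQ K d ω σ) (hd : d % 8 = 7) (x y : ℤ) :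
    Algebra.norm ℤ (el ω x y) = x ^ 2 + x * y + n0 d * y ^ 2 := by
  have h := hQ.2.2.2.2.2.1 x y
  rw [th_one hd] at h
  unfold el
  rw [h]
  ring

theorem el_mul (hQ : IsQ K d ω σ) (hd : d % 8 = 7) (x₁ y₁ x₂ y₂ : ℤ) :
    el ω x₁ y₁ * el ω x₂ y₂ = el ω (x₁ * x₂ - n0 d * (y₁ * y₂)) (x₁ * y₂ + x₂ * y₁ + y₁ * y₂) := by
  have h := hQ.1
  rw [th_one hd] at h
  unfold el
  push_cast at h ⊢
  linear_combination ((y₁ : 𝓞 K) * y₂) * h

theorem sig_el (hQ : IsQ K d ω σ) (hd : d % 8 = 7) (x y : ℤ) :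
    σ (el ω x y) = el ω (x + y) (-y) := by
  have h := hQ.2.1
  rw [th_one hd] at h
  unfold el
  rw [map_add, map_mul, map_intCast, map_intCast, h]
  push_cast
  ring

omit [NumberField K] in
theorem map_pair (α : 𝓞 K) (n : ℕ) :
    (Ideal.span {α, (n : 𝓞 K)}).map σ = Ideal.span {σ α, (n : 𝓞 K)} := by
  rw [Ideal.map_span, Set.image_pair, map_natCast]

end

end IDLaux

open IDLaux

theorem t_IDL (hSPT : S_SPT) (hSQI : S_SQI) (hCJI : S_CJI) : S_IDL := by
  intro K _ _ d ω σ hQ g f m a v w x₁ x₂ hD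
  obtain ⟨hd, hg, hf, hm, ha, hv, hw, hma, hN1, hN2, hda, hdm, hlast⟩ := hD
  obtain ⟨m₁, m₂, rfl, hm1, hm2⟩ := decomp g hg m hm
  obtain ⟨a₁, a₂, rfl, ha1, ha2⟩ := decomp g hg a ha
  have hm10 : 0 < m₁ := Nat.pos_of_mul_pos_right hm
  have hm20 : 0 < m₂ := Nat.pos_of_mul_pos_left hm
  have ha10 : 0 < a₁ := Nat.pos_of_mul_pos_right ha
  have ha20 : 0 < a₂ := Nat.pos_of_mul_pos_left ha
  have c3 : m₁.Coprime m₂ := cop_of_sub hm1 hm20.ne' hm2
  have c4 : a₁.Coprime a₂ := cop_of_sub ha1 ha20.ne' ha2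
  have c5 : m₁.Coprime a₁ := (Nat.Coprime.coprime_mul_right hma).coprime_mul_right_right
  have c6 : m₁.Coprime a₂ := (Nat.Coprime.coprime_mul_right hma).coprime_mul_left_right
  have c7 : m₂.Coprime a₁ := (Nat.Coprime.coprime_mul_left hma).coprime_mul_right_right
  have c8 : m₂.Coprime a₂ := (Nat.Coprime.coprime_mul_left hma).coprime_mul_left_right
  have c9 : m₁.Coprime a₂ := cop_of_sub hm1 ha20.ne' ha2
  have c10 : a₁.Coprime m₂ := cop_of_sub ha1 hm20.ne' hm2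
  set α : 𝓞 K := el ω x₁ (v * f) with hα
  set β : 𝓞 K := el ω x₂ (w * f) with hβ
  have hNα : Algebra.norm ℤ α = ((g * (m₁ * m₂) ^ 2 * (a₁ * a₂) : ℕ) : ℤ) := by
    rw [hα, norm_el hQ hd, hN1]
    push_cast
    ring
  have hNβ : Algebra.norm ℤ β = ((g * (m₁ * m₂) * (a₁ * a₂) ^ 2 : ℕ) : ℤ) := by
    rw [hβ, norm_el hQ hd, hN2]
    push_cast
    ring
  -- the squares
  obtain ⟨p1, p2, p3⟩ := hSQI K d ω σ hQ hd x₁ (v * f) m₁ (g * m₂ ^ 2 * (a₁ * a₂)) hm10
    (by positivity)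
    ((hm1.mul_right (c3.pow_right 2)).mul_right (c5.mul_right c6))
    (by rw [← hα, hNα]; congr 1; ring) (by
      intro q hq h1 h2
      refine hlast q hq ((h1.mul_right m₂).mul_right _) ?_ ?_
      · intro h3
        have h6 := Nat.dvd_gcd h1 h3
        rw [hm1] at h6
        exact hq.one_lt.ne' (Nat.dvd_one.1 h6)
      · have h4 : (q : ℤ) ∣ ((d * f * v * w : ℕ) : ℤ) := by
          have h5 : ((d * f * v * w : ℕ) : ℤ) = (d : ℤ) * (v * f) * w := by
            push_cast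
            ring
          rw [h5]
          exact h2.mul_right _
        exact_mod_cast h4)
  obtain ⟨q1, q2, q3⟩ := hSQI K d ω σ hQ hd x₂ (w * f) a₁ (g * (m₁ * m₂) * a₂ ^ 2) ha10
    (by positivity)
    ((ha1.mul_right (c5.symm.mul_right c7.symm)).mul_right (c4.pow_right 2))
    (by rw [← hβ, hNβ]; congr 1; ring) (by
      intro q hq h1 h2
      refine hlast q hq ((h1.mul_right a₂).mul_left _) ?_ ?_
      · intro h3
        have h6 := Nat.dvd_gcd h1 h3
        rw [ha1] at h6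
        exact hq.one_lt.ne' (Nat.dvd_one.1 h6)
      · have h4 : (q : ℤ) ∣ ((d * f * v * w : ℕ) : ℤ) := by
          have h5 : ((d * f * v * w : ℕ) : ℤ) = (d : ℤ) * (w * f) * v := by
            push_cast
            ring
          rw [h5]
          exact h2.mul_right _
        exact_mod_cast h4)
  rw [← hα] at p1 p2 p3
  rw [← hβ] at q1 q2 q3
  -- the splittings
  have s1 := (hSPT K d ω σ hQ x₁ (v * f) (m₁ ^ 2) (a₁ * (g * m₂ ^ 2 * a₂)) (by positivity)
    (by positivity)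
    (Nat.Coprime.pow_left 2 (c5.mul_right ((hm1.mul_right (c3.pow_right 2)).mul_right c6)))
    (by rw [← hα, hNα]; congr 1; ring)).1
  have s2 := (hSPT K d ω σ hQ x₂ (w * f) (a₁ ^ 2) (m₁ * (g * m₂ * a₂ ^ 2)) (by positivity)
    (by positivity)
    (Nat.Coprime.pow_left 2 (c5.symm.mul_right ((ha1.mul_right c10).mul_right (c4.pow_right 2))))
    (by rw [← hβ, hNβ]; congr 1; ring)).1
  have n1 := (hSPT K d ω σ hQ x₁ (v * f) (g * m₂ ^ 2 * a₂) (m₁ ^ 2 * a₁) (by positivity)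
    (by positivity)
    (Nat.Coprime.symm ((Nat.Coprime.pow_left 2 ((hm1.mul_right (c3.pow_right 2)).mul_right
      c6)).mul_left ((ha1.mul_right (c10.pow_right 2)).mul_right c4)))
    (by rw [← hα, hNα]; congr 1; ring)).2
  have n2 := (hSPT K d ω σ hQ x₂ (w * f) (g * m₂ * a₂ ^ 2) (m₁ * a₁ ^ 2) (by positivity)
    (by positivity)
    (Nat.Coprime.symm (((hm1.mul_right c3).mul_right (c6.pow_right 2)).mul_left
      (Nat.Coprime.pow_left 2 ((ha1.mul_right c10).mul_right (c4.pow_right 2)))))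
    (by rw [← hβ, hNβ]; congr 1; ring)).2
  have n3 := (hSPT K d ω σ hQ x₁ (v * f) a₁ (g * (m₁ * m₂) ^ 2 * a₂) ha10
    (by positivity)
    ((ha1.mul_right ((c5.symm.mul_right c10).pow_right 2)).mul_right c4)
    (by rw [← hα, hNα]; congr 1; ring)).2
  have n4 := (hSPT K d ω σ hQ x₂ (w * f) m₁ (g * m₂ * (a₁ * a₂) ^ 2) hm10
    (by positivity)
    ((hm1.mul_right c3).mul_right ((c5.mul_right c6).pow_right 2))
    (by rw [← hβ, hNβ]; congr 1; ring)).2
  rw [← hα] at s1 n1 n3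
  rw [← hβ] at s2 n2 n4
  -- the conjugate ideals
  have hNαβ : Algebra.norm ℤ (α * β) =
      ((g ^ 2 * (m₁ * m₂) ^ 3 * (a₁ * a₂) ^ 3 : ℕ) : ℤ) := by
    rw [map_mul, hNα, hNβ, ← Nat.cast_mul]
    congr 1
    ring
  have k1 : Ideal.span {α, (a₁ : 𝓞 K)} = (Ideal.span {β, (a₁ : 𝓞 K)}).map σ := by
    have e := el_mul hQ hd x₂ (w * f) x₁ (v * f)
    rw [← hα, ← hβ] at e
    refine hCJI K d ω σ hQ hd a₁ β α _ _ ha10 e ?_ ?_ q2 n3
    · have h1 : x₂ * ((v : ℤ) * f) + x₁ * (w * f) + w * f * (v * f) =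
          f * (x₁ * w + x₂ * v + v * w * f) := by ring
      rw [h1]
      refine Dvd.dvd.mul_left (dvd_trans ?_ hda) _
      push_cast
      exact dvd_mul_right _ _
    · rw [← e, mul_comm β α, hNαβ]
      exact_mod_cast (⟨g ^ 2 * (m₁ * m₂) ^ 3 * a₁ * a₂ ^ 3, by ring⟩ :
        a₁ ^ 2 ∣ g ^ 2 * (m₁ * m₂) ^ 3 * (a₁ * a₂) ^ 3)
  have k2 : Ideal.span {β, (m₁ : 𝓞 K)} = Ideal.span {α, (m₁ : 𝓞 K)} := by
    have e0 := sig_el hQ hd x₁ (v * f)
    rw [← hα] at e0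
    have e := el_mul hQ hd (x₁ + v * f) (-(v * f)) x₂ (w * f)
    rw [← e0, ← hβ] at e
    have h1 : Ideal.absNorm (Ideal.span {σ α, (m₁ : 𝓞 K)}) = m₁ := by
      rw [← map_pair, hQ.2.2.2.2.2.2.2.2, p2]
    have h2 := hCJI K d ω σ hQ hd m₁ (σ α) β _ _ hm10 e ?_ ?_ h1 n4
    · rw [h2, map_pair, hQ.2.2.2.2.1]
    · have h3 : (x₁ + (v : ℤ) * f) * (w * f) + x₂ * -(v * f) + -(v * f) * (w * f) =
          -(f * (x₂ * v - x₁ * w)) := by ring
      rw [h3]
      refine (Dvd.dvd.mul_left (dvd_trans ?_ hdm) _).neg_right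
      push_cast
      exact dvd_mul_right _ _
    · have h4 : Algebra.norm ℤ (σ α) = Algebra.norm ℤ α := by
        rw [e0, hα, norm_el hQ hd, norm_el hQ hd]
        ring
      rw [← e, map_mul, h4, ← map_mul, hNαβ]
      exact_mod_cast (⟨g ^ 2 * m₁ * m₂ ^ 3 * (a₁ * a₂) ^ 3, by ring⟩ :
        m₁ ^ 2 ∣ g ^ 2 * (m₁ * m₂) ^ 3 * (a₁ * a₂) ^ 3)
  refine ⟨Ideal.span {α, (m₁ : 𝓞 K)}, Ideal.span {β, (a₁ : 𝓞 K)},
    Ideal.span {α, ((g * m₂ ^ 2 * a₂ : ℕ) : 𝓞 K)}, Ideal.span {β, ((g * m₂ * a₂ ^ 2 : ℕ) : 𝓞 K)},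
    m₁, m₂, a₁, a₂, rfl, rfl, hm1, ha1, hm2, ha2, p2, q2, n1, n2, p3, q3, ?_, ?_⟩
  · rw [s1, p1, split α a₁ (g * m₂ ^ 2 * a₂) ((ha1.mul_right (c10.pow_right 2)).mul_right c4),
      k1]
    exact (mul_assoc _ _ _).symm
  · rw [s2, q1, split β m₁ (g * m₂ * a₂ ^ 2) ((hm1.mul_right c3).mul_right (c6.pow_right 2)),
      k2]
    exact (mul_assoc _ _ _).symm

end Pool.Agent.T2h80.L5
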