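import Pool.Agent.T2h80.L5.ALx

set_option autoImplicit false

/-! Task IND. -/

namespace Pool.Agent.T2h80.L5

open Finset NumberField Pool.Agent.T2h80.F5

namespace IND

variable {K : Type} [Field K] [NumberField K] {d : ℕ} {ω : 𝓞 K} {σ : 𝓞 K →+* 𝓞 K}

theorem mul_sig' (h : IsQ K d ω σ) (x y x' y' : ℤ) :
    el ω x y * σ (el ω x' y') = el ω (x * x' + th d * x * y' + n0 d * y * y')
      (y * x' - x * y') := by
  rw [ALx.sig_el h]
  unfold el
  push_cast
  linear_combination (-(y : 𝓞 K) * (y' : 𝓞 K)) * h.1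

theorem det_dvd (h : IsQ K d ω σ) {I : Ideal (𝓞 K)} {x y x' y' : ℤ} (hx : el ω x y ∈ I)
    (hz : el ω x' y' ∈ I) : ((Ideal.absNorm I : ℕ) : ℤ) ∣ x * y' - x' * y := by
  have h9 : el ω x y * σ (el ω x' y') ∈ I * I.map σ :=
    Ideal.mul_mem_mul hx (Ideal.mem_map_of_mem σ hz)
  rw [ALx.mul_map h, Ideal.mem_span_singleton, mul_sig' h] at h9
  have h10 := (ALx.dvd_el h (q := (Ideal.absNorm I : ℤ))).1 (by push_cast; exact h9)
  have : x * y' - x' * y = -(y * x' - x * y') := by ring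
  rw [this]
  exact (dvd_neg).2 h10.2

/-- cancellation of coprime integers in front of ideals which are contained in no `(q)` -/
theorem prim_eq_one {P P' : Ideal (𝓞 K)} {k l : ℕ} (hl : 0 < l)
    (hkl : k.Coprime l) (hP : ∀ q : ℕ, 2 ≤ q → ¬ P ≤ Ideal.span {(q : 𝓞 K)})
    (e : Ideal.span {(k : 𝓞 K)} * P = Ideal.span {(l : 𝓞 K)} * P') : l = 1 := by
  by_contra hne
  have hl2 : 2 ≤ l := by omega
  apply hP l hl2
  have hcop : IsCoprime (Ideal.span {(l : 𝓞 K)}) (Ideal.span {(k : 𝓞 K)}) := by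
    rw [Ideal.isCoprime_span_singleton_iff]
    have h1 : IsCoprime (l : ℤ) (k : ℤ) := (Nat.isCoprime_iff_coprime.2 hkl.symm)
    have h2 := h1.map (Int.castRingHom (𝓞 K))
    simpa using h2
  rw [← Ideal.dvd_iff_le]
  exact hcop.dvd_of_dvd_mul_left ⟨_, e⟩

end IND

/-- **IND** -/
theorem t_IND : S_IND := by
  intro K _ _ d ω σ h hd I P P' X Y X' Y' hI hP hP' hpr hpr' e e'
  have hm : el ω X Y ∈ I := by
    have h1 : el ω X Y ∈ P * I := by rw [e]; exact Ideal.mem_span_singleton_self _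
    have h2 : P * I ≤ I := Ideal.mul_le_right
    exact h2 h1
  have hm' : el ω X' Y' ∈ I := by
    have h1 : el ω X' Y' ∈ P' * I := by rw [e']; exact Ideal.mem_span_singleton_self _
    have h2 : P' * I ≤ I := Ideal.mul_le_right
    exact h2 h1
  refine ⟨IND.det_dvd h hm hm', ?_⟩
  intro hdet
  obtain ⟨ξ, hξ⟩ : ∃ ξ, ξ = el ω X Y := ⟨_, rfl⟩
  obtain ⟨ξ', hξ'⟩ : ∃ ξ', ξ' = el ω X' Y' := ⟨_, rfl⟩
  rw [← hξ] at e
  rw [← hξ'] at e'
  have hξ0 : ξ ≠ 0 := by
    intro h0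
    rw [h0, Ideal.span_singleton_eq_bot.2 rfl] at e
    rcases Ideal.mul_eq_bot.1 e with h1 | h1
    · exact hP h1
    · exact hI h1
  have hξ0' : ξ' ≠ 0 := by
    intro h0
    rw [h0, Ideal.span_singleton_eq_bot.2 rfl] at e'
    rcases Ideal.mul_eq_bot.1 e' with h1 | h1
    · exact hP' h1
    · exact hI h1
  obtain ⟨t, ht⟩ : ∃ t : ℤ, ξ' * σ ξ = (t : 𝓞 K) := by
    refine ⟨X' * X + th d * X' * Y + n0 d * Y' * Y, ?_⟩
    rw [hξ, hξ', IND.mul_sig' h]
    have : Y' * X - X' * Y = 0 := by linarith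
    rw [this]
    unfold el
    push_cast
    ring
  have hs0 : σ ξ ≠ 0 := by
    intro h0
    have := ALx.sig_sig h ξ
    rw [h0, map_zero] at this
    exact hξ0 this.symm
  have ht0 : t ≠ 0 := by
    intro h0
    rw [h0, Int.cast_zero] at ht
    rcases mul_eq_zero.1 ht with h1 | h1
    · exact hξ0' h1
    · exact hs0 h1
  obtain ⟨N, hN⟩ : ∃ N : ℤ, N = Algebra.norm ℤ ξ := ⟨_, rfl⟩
  have hN1 : ξ * σ ξ = (N : 𝓞 K) := by rw [hN]; exact ALx.mul_sig h ξ
  have hN0 : N ≠ 0 := by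
    intro h0
    rw [h0, Int.cast_zero] at hN1
    rcases mul_eq_zero.1 hN1 with h1 | h1
    · exact hξ0 h1
    · exact hs0 h1
  have key : (N : 𝓞 K) * ξ' = (t : 𝓞 K) * ξ := by
    rw [← hN1, ← ht]; ring
  have habs : ∀ z : ℤ, Ideal.span {(z : 𝓞 K)} = Ideal.span {((z.natAbs : ℕ) : 𝓞 K)} := by
    intro z
    rcases Int.natAbs_eq z with h1 | h1
    · conv_lhs => rw [h1]
      simp
    · conv_lhs => rw [h1]
      rw [Int.cast_neg, Ideal.span_singleton_neg]
      simp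
  have hPP : Ideal.span {((N.natAbs : ℕ) : 𝓞 K)} * P' = Ideal.span {((t.natAbs : ℕ) : 𝓞 K)} * P := by
    have h1 : (Ideal.span {((N.natAbs : ℕ) : 𝓞 K)} * P') * I =
        (Ideal.span {((t.natAbs : ℕ) : 𝓞 K)} * P) * I := by
      rw [mul_assoc, mul_assoc, e, e', ← habs, ← habs, Ideal.span_singleton_mul_span_singleton,
        Ideal.span_singleton_mul_span_singleton, key]
    exact mul_right_cancel₀ hI h1
  obtain ⟨g, k, l, hg, hkl, hNk, htl⟩ : ∃ g k l : ℕ, 0 < g ∧ k.Coprime l ∧ N.natAbs = g * k ∧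
      t.natAbs = g * l := by
    obtain ⟨k, l, hkl, h1, h2⟩ := Nat.exists_coprime N.natAbs t.natAbs
    refine ⟨Nat.gcd N.natAbs t.natAbs, k, l, ?_, hkl, by rw [mul_comm]; exact h1,
      by rw [mul_comm]; exact h2⟩
    exact Nat.gcd_pos_of_pos_left _ (Int.natAbs_pos.2 hN0)
  have hk0 : 0 < k := by
    rcases Nat.eq_zero_or_pos k with h0 | h0
    · rw [h0, mul_zero] at hNk
      exact absurd (Int.natAbs_eq_zero.1 hNk) hN0
    · exact h0
  have hl0 : 0 < l := by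
    rcases Nat.eq_zero_or_pos l with h0 | h0
    · rw [h0, mul_zero] at htl
      exact absurd (Int.natAbs_eq_zero.1 htl) ht0
    · exact h0
  have hg0 : Ideal.span {(g : 𝓞 K)} ≠ 0 := by
    intro h0
    have : (g : 𝓞 K) = 0 := Ideal.span_singleton_eq_bot.1 h0
    have : g = 0 := by exact_mod_cast this
    omega
  have hPP2 : Ideal.span {(k : 𝓞 K)} * P' = Ideal.span {(l : 𝓞 K)} * P := by
    rw [hNk, htl, Nat.cast_mul, Nat.cast_mul, ← Ideal.span_singleton_mul_span_singleton,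
      ← Ideal.span_singleton_mul_span_singleton, mul_assoc, mul_assoc] at hPP
    exact mul_left_cancel₀ hg0 hPP
  have hl1 := IND.prim_eq_one hl0 hkl hpr' hPP2
  have hk1 := IND.prim_eq_one hk0 hkl.symm hpr hPP2.symm
  rw [hl1, hk1] at hPP2
  simpa using hPP2.symm

end Pool.Agent.T2h80.L5
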