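import Pool.Agent.T2h80.L5.Stm

set_option autoImplicit false

namespace Pool.Agent.T2h80.L5

open Finset NumberField Pool.Agent.T2h80.F5

theorem jct_norm {K : Type} [Field K] [NumberField K] {d : ℕ} {ω : 𝓞 K} {σ : 𝓞 K →+* 𝓞 K}
    (h : IsQ K d ω σ) (n : ℕ) : Ideal.absNorm (Ideal.span {(n : 𝓞 K)}) = n ^ 2 := by
  obtain ⟨_, _, _, _, _, hn, _⟩ := h
  have h1 := hn n 0
  rw [Ideal.absNorm_span_singleton]
  simp only [Int.cast_natCast, Int.cast_zero, zero_mul, add_zero, mul_zero, ne_eq, OfNat.ofNat_ne_zero,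
    not_false_eq_true, zero_pow] at h1
  rw [h1, Int.natAbs_pow, Int.natAbs_natCast]

theorem jct_split {K : Type} [Field K] [NumberField K]
    (hnorm : ∀ n : ℕ, Ideal.absNorm (Ideal.span {(n : 𝓞 K)}) = n ^ 2) (p : ℕ) (hp : p.Prime) :
    ∃ P P' : Ideal (𝓞 K), Prime P ∧ (Prime P' ∨ P' = 1) ∧ Ideal.span {(p : 𝓞 K)} = P * P' := by
  have hne : Ideal.span {(p : 𝓞 K)} ≠ 0 := by
    intro h
    have h1 := hnorm p
    rw [h, Ideal.zero_eq_bot, Ideal.absNorm_bot] at h1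
    have := hp.two_le
    nlinarith
  have hnu : ¬ IsUnit (Ideal.span {(p : 𝓞 K)}) := by
    rw [Ideal.isUnit_iff]
    intro h
    have h1 := hnorm p
    rw [h, Ideal.absNorm_top] at h1
    have := hp.two_le
    nlinarith
  obtain ⟨P, hP, P', hPP⟩ := WfDvdMonoid.exists_irreducible_factor hnu hne
  have hPprime : Prime P := UniqueFactorizationMonoid.irreducible_iff_prime.1 hP
  have hN : Ideal.absNorm P * Ideal.absNorm P' = p ^ 2 := by
    rw [← hnorm p, hPP, map_mul]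
  have hdv : Ideal.absNorm P ∣ p ^ 2 := ⟨_, hN.symm⟩
  obtain ⟨k, hk, hPk⟩ := (Nat.dvd_prime_pow hp).1 hdv
  refine ⟨P, P', hPprime, ?_, hPP⟩
  have hp0 : 0 < p := hp.pos
  interval_cases k
  · exfalso
    rw [pow_zero, Ideal.absNorm_eq_one_iff] at hPk
    exact hP.not_isUnit (by rw [Ideal.isUnit_iff]; exact hPk)
  · left
    have h1 : Ideal.absNorm P' = p := by
      rw [hPk, pow_one, pow_two] at hN
      exact Nat.eq_of_mul_eq_mul_left hp0 hN
    have h2 : P'.IsPrime := Ideal.isPrime_of_irreducible_absNorm (by rw [h1]; exact hp)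
    refine Ideal.prime_of_isPrime ?_ h2
    intro h
    rw [h, Ideal.absNorm_bot] at h1
    omega
  · right
    have h1 : Ideal.absNorm P' = 1 := by
      rw [hPk] at hN
      have : p ^ 2 * Ideal.absNorm P' = p ^ 2 * 1 := by rw [hN, mul_one]
      exact Nat.eq_of_mul_eq_mul_left (by positivity) this
    rw [Ideal.absNorm_eq_one_iff] at h1
    rw [h1, Ideal.one_eq_top]

theorem jct_div {K : Type} [Field K] [NumberField K]
    (hnorm : ∀ n : ℕ, Ideal.absNorm (Ideal.span {(n : 𝓞 K)}) = n ^ 2) (n : ℕ) (hn : 0 < n) :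
    ∃ F : Finset (Ideal (𝓞 K)), F.card ≤ n.divisors.card ^ 2 ∧
      ∀ I : Ideal (𝓞 K), I ∣ Ideal.span {(n : 𝓞 K)} → I ∈ F := by
  classical
  induction n using Nat.recOnPosPrimePosCoprime with
  | prime_pow p k hp hk =>
    obtain ⟨P, P', hP, hP', hPP⟩ := jct_split hnorm p hp
    refine ⟨(Finset.range (k + 1) ×ˢ Finset.range (k + 1)).image (fun x => P ^ x.1 * P' ^ x.2), ?_, ?_⟩
    · refine (Finset.card_image_le).trans ?_
      rw [Finset.card_product, Finset.card_range, Nat.divisors_prime_pow hp, Finset.card_map,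
        Finset.card_range, pow_two]
    · intro I hI
      have h1 : Ideal.span {((p ^ k : ℕ) : 𝓞 K)} = P ^ k * P' ^ k := by
        rw [← mul_pow, ← hPP, Ideal.span_singleton_pow, Nat.cast_pow]
      rw [h1] at hI
      obtain ⟨I₁, I₂, h2, h3, rfl⟩ := exists_dvd_and_dvd_of_dvd_mul hI
      obtain ⟨i, hi, hi'⟩ := (dvd_prime_pow hP k).1 h2
      have e1 : I₁ = P ^ i := associated_iff_eq.1 hi'
      have : ∃ j ≤ k, I₂ = P' ^ j := by
        rcases hP' with hP' | hP'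
        · obtain ⟨j, hj, hj'⟩ := (dvd_prime_pow hP' k).1 h3
          exact ⟨j, hj, associated_iff_eq.1 hj'⟩
        · refine ⟨0, Nat.zero_le _, ?_⟩
          rw [hP', one_pow] at h3
          rw [pow_zero]
          exact associated_iff_eq.1 (associated_one_iff_isUnit.2 (isUnit_of_dvd_one h3))
      obtain ⟨j, hj, e2⟩ := this
      rw [Finset.mem_image]
      refine ⟨(i, j), ?_, ?_⟩
      · simp only [Finset.mem_product, Finset.mem_range]; omega
      · simp only [e1, e2]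
  | zero => omega
  | one =>
    refine ⟨{1}, by simp, ?_⟩
    intro I hI
    rw [Nat.cast_one, Ideal.span_singleton_one, ← Ideal.one_eq_top] at hI
    rw [Finset.mem_singleton]
    exact associated_iff_eq.1 (associated_one_iff_isUnit.2 (isUnit_of_dvd_one hI))
  | coprime a b ha hb hab iha ihb =>
    obtain ⟨F, hF, hF'⟩ := iha (by omega)
    obtain ⟨G, hG, hG'⟩ := ihb (by omega)
    refine ⟨(F ×ˢ G).image (fun x => x.1 * x.2), ?_, ?_⟩
    · refine (Finset.card_image_le).trans ?_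
      rw [Finset.card_product, hab.card_divisors_mul, mul_pow]
      exact Nat.mul_le_mul hF hG
    · intro I hI
      have h1 : Ideal.span {((a * b : ℕ) : 𝓞 K)} = Ideal.span {(a : 𝓞 K)} * Ideal.span {(b : 𝓞 K)} := by
        rw [Ideal.span_singleton_mul_span_singleton, Nat.cast_mul]
      rw [h1] at hI
      obtain ⟨I₁, I₂, h2, h3, rfl⟩ := exists_dvd_and_dvd_of_dvd_mul hI
      rw [Finset.mem_image]
      exact ⟨(I₁, I₂), Finset.mem_product.2 ⟨hF' _ h2, hG' _ h3⟩, rfl⟩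

theorem t_JCT (hSMO : F5.S_SMO) (hDIV : F5.S_DIV) : S_JCT := by
  classical
  intro ε hε
  obtain ⟨C₁, hC₁, h1⟩ := hSMO (ε / 2) (by positivity)
  obtain ⟨C₂, hC₂, h2⟩ := hDIV (ε / 4) (by positivity)
  refine ⟨C₁ * C₂ ^ 2, by positivity, ?_⟩
  intro K _ _ d ω σ hQ g Z hg hZ T hT
  have hnorm := fun n => jct_norm hQ n
  choose! F hF using fun n (hn : 0 < n) => jct_div (K := K) hnorm n hn
  have hsub : T ⊆ ((Icc 1 Z).filter (fun w => w.primeFactors ⊆ g.primeFactors)).biUnion F := by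
    intro J hJ
    obtain ⟨hJ0, hJZ, hJp⟩ := hT J hJ
    have hpos : 0 < Ideal.absNorm J := by
      rw [Nat.pos_iff_ne_zero, Ne, Ideal.absNorm_eq_zero_iff]
      exact hJ0
    rw [Finset.mem_biUnion]
    refine ⟨Ideal.absNorm J, ?_, ?_⟩
    · rw [Finset.mem_filter, Finset.mem_Icc]
      exact ⟨⟨hpos, hJZ⟩, hJp⟩
    · refine (hF _ hpos).2 J ?_
      rw [Ideal.dvd_span_singleton]
      exact Ideal.absNorm_mem J
  have hZR : (1 : ℝ) ≤ Z := by exact_mod_cast hZ
  have hgR : (1 : ℝ) ≤ g := by exact_mod_cast hg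
  have hc1 : (T.card : ℝ) ≤ ∑ N ∈ (Icc 1 Z).filter (fun w => w.primeFactors ⊆ g.primeFactors), ((F N).card : ℝ) := by
    have := (Finset.card_le_card hsub).trans Finset.card_biUnion_le
    exact_mod_cast this
  have hc2 : ∀ N ∈ (Icc 1 Z).filter (fun w => w.primeFactors ⊆ g.primeFactors),
      ((F N).card : ℝ) ≤ C₂ ^ 2 * (Z : ℝ) ^ (ε / 2) := by
    intro N hN
    rw [Finset.mem_filter, Finset.mem_Icc] at hN
    have h3 := (hF N (by omega)).1
    have h4 : ((F N).card : ℝ) ≤ (N.divisors.card : ℝ) ^ 2 := by exact_mod_cast h3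
    have h5 := (h2 N hN.1.1).1
    have h6 : (N : ℝ) ^ (ε / 4) ≤ (Z : ℝ) ^ (ε / 4) :=
      Real.rpow_le_rpow (by positivity) (by exact_mod_cast hN.1.2) (by positivity)
    have h7 : (N.divisors.card : ℝ) ≤ C₂ * (Z : ℝ) ^ (ε / 4) :=
      h5.trans (mul_le_mul_of_nonneg_left h6 hC₂.le)
    have h8 : (Z : ℝ) ^ (ε / 2) = ((Z : ℝ) ^ (ε / 4)) ^ 2 := by
      rw [pow_two, ← Real.rpow_add (by positivity)]
      congr 1; ring
    rw [h8, ← mul_pow]
    exact h4.trans (pow_le_pow_left₀ (by positivity) h7 2)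
  refine hc1.trans ((Finset.sum_le_sum hc2).trans ?_)
  rw [Finset.sum_const, nsmul_eq_mul]
  have h9 := h1 g Z hg hZ
  have h10 : (Z : ℝ) ^ (ε / 2) ≤ ((g : ℝ) * Z) ^ (ε / 2) :=
    Real.rpow_le_rpow (by positivity) (by nlinarith) (by positivity)
  have h11 : ((g : ℝ) * Z) ^ ε = ((g : ℝ) * Z) ^ (ε / 2) * ((g : ℝ) * Z) ^ (ε / 2) := by
    rw [← Real.rpow_add (by positivity)]
    congr 1; ring
  calc _ ≤ (C₁ * ((g : ℝ) * Z) ^ (ε / 2)) * (C₂ ^ 2 * (Z : ℝ) ^ (ε / 2)) :=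
        mul_le_mul_of_nonneg_right h9 (by positivity)
    _ ≤ (C₁ * ((g : ℝ) * Z) ^ (ε / 2)) * (C₂ ^ 2 * ((g : ℝ) * Z) ^ (ε / 2)) :=
        mul_le_mul_of_nonneg_left (mul_le_mul_of_nonneg_left h10 (by positivity)) (by positivity)
    _ = _ := by rw [h11]; ring

end Pool.Agent.T2h80.L5
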