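import Pool.Agent.T2h80.L5.SumA

set_option autoImplicit false

/-!
# LOW
-/

namespace Pool.Agent.T2h80.L5.LOWx

open Finset Pool.Agent.T2h80.F5 Pool.Agent.T2h80.L5 Pool.Agent.T2h80.L5.SumA

/-- the number of dyadic ranges is small -/
theorem two_pow_le {k ν j : ℕ} (hν : 64 ≤ ν) (hj : j < JJ k ν) : 2 ^ j ≤ ν ^ (4 * k + 9) := by
  have h1 : 2 ^ Nat.log 2 ν ≤ ν := Nat.pow_log_le_self 2 (by omega)
  have h2 : 2 ^ (Nat.log 2 ν + 1) ≤ ν ^ 2 := by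
    rw [pow_succ]; nlinarith
  unfold JJ at hj
  calc 2 ^ j ≤ 2 ^ (6 + (2 * k + 4) * (Nat.log 2 ν + 1)) := Nat.pow_le_pow_right (by norm_num) hj.le
    _ = 64 * (2 ^ (Nat.log 2 ν + 1)) ^ (2 * k + 4) := by
        rw [pow_add, ← pow_mul, mul_comm (Nat.log 2 ν + 1)]; norm_num
    _ ≤ ν * (ν ^ 2) ^ (2 * k + 4) := Nat.mul_le_mul hν (Nat.pow_le_pow_left h2 _)
    _ = ν ^ (4 * k + 9) := by rw [← pow_mul, ← pow_succ']; congr 1; ring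

/-- powers of `ν ^ (20 k)` -/
theorem Y_rpow (ν k : ℕ) (hk : 1 ≤ k) : (((ν ^ (20 * k) : ℕ)) : ℝ) ^ (1 / (20 * (k : ℝ))) = ν := by
  push_cast
  have h := Real.pow_rpow_inv_natCast (Nat.cast_nonneg ν : (0 : ℝ) ≤ (ν : ℝ)) (n := 20 * k) (by omega)
  push_cast at h
  rw [one_div]
  exact h

/-- the pairs of primes, lower bound -/
theorem PP_low {ν k : ℕ} (hν : 1 ≤ ν) (hk : 1 ≤ k) (e : ℝ)
    (h : (((ν ^ k : ℕ)) : ℝ) ^ (2 - e / k) ≤ ((PP (ν ^ k)).card : ℝ)) :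
    ((ν : ℝ) ^ k) ^ 2 ≤ (ν : ℝ) ^ e * ((PP (ν ^ k)).card : ℝ) := by
  have hν0 : (0 : ℝ) < ν := by exact_mod_cast hν
  have hk0 : (0 : ℝ) < k := by exact_mod_cast hk
  have h1 : (((ν ^ k : ℕ)) : ℝ) ^ (2 - e / k) = ((ν : ℝ) ^ k) ^ 2 / (ν : ℝ) ^ e := by
    push_cast
    rw [Real.rpow_sub (by positivity), Real.rpow_two, ← Real.rpow_natCast (ν : ℝ) k,
      ← Real.rpow_mul hν0.le]
    congr 2
    field_simp
  rw [h1, div_le_iff₀ (by positivity)] at h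
  linarith

end Pool.Agent.T2h80.L5.LOWx

namespace Pool.Agent.T2h80.L5

open Finset Pool.Agent.T2h80.F5 Pool.Agent.T2h80.L5.SumA Pool.Agent.T2h80.L5.LOWx

theorem t_LOW (hLWA : S_LWA) (hAVP : S_AVP) (hPRI : S_PRI) : S_LOW := by
  intro Q k hQ hk
  obtain ⟨C, hC, h1⟩ := hLWA Q hQ
  obtain ⟨ν₁, h1⟩ := h1 k hk
  have hk0 : (0 : ℝ) < k := by exact_mod_cast (by omega : 0 < k)
  obtain ⟨C', hC', h2⟩ := blk hAVP (1 / (20 * (k : ℝ))) (by positivity)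
  obtain ⟨V₀, h3⟩ := hPRI (1 / k) (by positivity)
  obtain ⟨ν₂, h4⟩ := ev (4 * C * C' * Q ^ 7 * (k + 2)) 4 (by norm_num)
  refine ⟨ν₁ + V₀ + ν₂ + 1000 * Q ^ 2, fun ν hν => ?_⟩
  have hν1 : ν₁ ≤ ν := by omega
  have hν2 : ν₂ ≤ ν := by omega
  have hνQ : 1000 * Q ^ 2 ≤ ν := by omega
  have hQ2 : 1 ≤ Q ^ 2 := Nat.one_le_pow _ _ hQ
  have hν1000 : 1000 ≤ ν := by omega
  have hVν : ν ≤ ν ^ k := Nat.le_self_pow (by omega) ν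
  have hV0 : V₀ ≤ ν ^ k := by omega
  have hνr : (1 : ℝ) ≤ ν := by exact_mod_cast (by omega : 1 ≤ ν)
  have hν0 : (0 : ℝ) < ν := by linarith
  have hQr : (1 : ℝ) ≤ Q := by exact_mod_cast hQ
  have hPP := PP_low (by omega : 1 ≤ ν) (by omega : 1 ≤ k) 1 (h3 (ν ^ k) hV0)
  rw [Real.rpow_one] at hPP
  have hlog := h4 ν hν2
  have hlog0 : 0 ≤ Real.log ν := Real.log_nonneg hνr
  have h4' : ((ν : ℝ) ^ (4 : ℝ)) = (ν : ℝ) ^ (4 : ℕ) := by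
    rw [← Real.rpow_natCast]; norm_num
  rw [h4'] at hlog
  have hVa : ν ^ k = ν ^ (k - 2) * ν ^ 2 := by rw [← pow_add]; congr 1; omega
  have ha2 : (ν ^ (k - 2)) ^ 2 = ν ^ (2 * k - 4) := by rw [← pow_mul]; congr 1; omega
  set a : ℕ := ν ^ (k - 2) with ha
  have ha1 : 1 ≤ a := Nat.one_le_pow _ _ (by omega)
  set V : ℕ := ν ^ k with hV
  have hV1 : 1 ≤ V := Nat.one_le_pow _ _ (by omega)
  have haV : a ≤ V := by rw [hVa]; exact Nat.le_mul_of_pos_right _ (by positivity)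
  have hVr : ((ν : ℝ) ^ k) = V := by rw [hV]; push_cast; ring
  have har : ((V : ℝ)) = a * ν ^ 2 := by rw [hVa]; push_cast; ring
  rw [hVr] at hPP ⊢
  -- the blocks
  have hblk : ∀ j ∈ range (JJ k ν), ∑ x ∈ PP V, ∑ h ∈ Icc 1 (2 ^ j * ν ^ (2 * k - 4)),
      Real.sqrt (1 + (KQ 1 (1000 * Q ^ 2 * 2 ^ j * a) (h * Q ^ 2) x.1 x.2 : ℝ)) ≤
      2 * C' * ν * Q ^ 5 * V ^ 2 * a ^ 2 * 8 ^ j := by
    intro j hj
    have hj2 := two_pow_le (by omega : 64 ≤ ν) (mem_range.1 hj)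
    have hj1 : 1 ≤ 2 ^ j := Nat.one_le_two_pow
    have hj1r : (1 : ℝ) ≤ (2 : ℝ) ^ j := one_le_pow₀ (by norm_num)
    have hYbig : ∀ n : ℕ, n ≤ 20 * k → ν ^ n ≤ ν ^ (20 * k) := fun n hn =>
      Nat.pow_le_pow_right (by omega) hn
    have e1 : 2 ^ j * a ^ 2 ≤ ν ^ (20 * k) := by
      calc 2 ^ j * a ^ 2 ≤ ν ^ (4 * k + 9) * ν ^ (2 * k - 4) := by
            rw [ha2]; exact Nat.mul_le_mul_right _ hj2
        _ = ν ^ (4 * k + 9 + (2 * k - 4)) := by rw [← pow_add]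
        _ ≤ ν ^ (20 * k) := hYbig _ (by omega)
    have e2 : 1000 * Q ^ 2 * 2 ^ j * a ≤ ν ^ (20 * k) := by
      calc 1000 * Q ^ 2 * 2 ^ j * a ≤ ν * ν ^ (4 * k + 9) * ν ^ (k - 2) :=
            Nat.mul_le_mul_right _ (Nat.mul_le_mul hνQ hj2)
        _ = ν ^ (4 * k + 9 + 1 + (k - 2)) := by rw [← pow_succ', ← pow_add]
        _ ≤ ν ^ (20 * k) := hYbig _ (by omega)
    have e3 : Q ^ 2 ≤ ν ^ (20 * k) := by
      have := hYbig 1 (by omega)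
      rw [pow_one] at this
      omega
    have e4 : V ≤ ν ^ (20 * k) := hYbig _ (by omega)
    have e5 : 1 ≤ ν ^ (20 * k) := Nat.one_le_pow _ _ (by omega)
    have hb := h2 1 Q V (ν ^ (20 * k)) (2 ^ j) a (2 * Q * 2 ^ j) le_rfl hj1 hQ ha1 hV1
      (by nlinarith) (by
        push_cast
        have ha' : (a : ℝ) ≤ V := by exact_mod_cast haV
        have ha0 : (0 : ℝ) ≤ a := Nat.cast_nonneg _
        have hsq : (a : ℝ) ^ 2 ≤ (V : ℝ) ^ 2 := pow_le_pow_left₀ ha0 ha' 2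
        have hQ2r : (1 : ℝ) ≤ (Q : ℝ) ^ 2 := one_le_pow₀ hQr
        have hjj : (2 : ℝ) ^ j ≤ ((2 : ℝ) ^ j) ^ 2 := by nlinarith
        have hV0' : (0 : ℝ) ≤ (V : ℝ) ^ 2 := by positivity
        calc (V : ℝ) ^ 2 + (Q : ℝ) ^ 2 * (2 ^ j * a ^ 2)
            ≤ (V : ℝ) ^ 2 * 1 * 1 + (Q : ℝ) ^ 2 * (((2 : ℝ) ^ j) ^ 2 * V ^ 2) := by
              rw [mul_one, mul_one]
              gcongr
          _ ≤ (V : ℝ) ^ 2 * (Q : ℝ) ^ 2 * ((2 : ℝ) ^ j) ^ 2 +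
              (Q : ℝ) ^ 2 * (((2 : ℝ) ^ j) ^ 2 * V ^ 2) := by
              gcongr
              exact one_le_pow₀ hj1r
          _ ≤ (2 * Q * 2 ^ j) ^ 2 * (V : ℝ) ^ 2 := by
              have : 0 ≤ (V : ℝ) ^ 2 * (Q : ℝ) ^ 2 * ((2 : ℝ) ^ j) ^ 2 := by positivity
              nlinarith)
      e5 e3 e1 e4 e2
    have e6 : Ico 1 (2 * 1) = ({1} : Finset ℕ) := rfl
    rw [e6, sum_singleton, Y_rpow ν k (by omega), ha2] at hb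
    refine hb.trans (le_of_eq ?_)
    have e8 : (8 : ℝ) ^ j = (2 : ℝ) ^ j * (2 ^ j) ^ 2 := by
      rw [← pow_mul, mul_comm j 2, pow_mul, ← mul_pow]; norm_num
    rw [e8]
    push_cast
    rw [Real.sqrt_one]
    ring
  -- the sum over the blocks
  have hsum : ∑ x ∈ PP V, ∑ j ∈ range (JJ k ν), (1 / 16 : ℝ) ^ j *
      ∑ h ∈ Icc 1 (2 ^ j * ν ^ (2 * k - 4)),
        Real.sqrt (1 + (KQ 1 (1000 * Q ^ 2 * 2 ^ j * a) (h * Q ^ 2) x.1 x.2 : ℝ)) ≤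
      4 * C' * ν * Q ^ 5 * V ^ 2 * a ^ 2 := by
    rw [sum_comm]
    calc ∑ j ∈ range (JJ k ν), ∑ x ∈ PP V, (1 / 16 : ℝ) ^ j *
          ∑ h ∈ Icc 1 (2 ^ j * ν ^ (2 * k - 4)),
            Real.sqrt (1 + (KQ 1 (1000 * Q ^ 2 * 2 ^ j * a) (h * Q ^ 2) x.1 x.2 : ℝ))
        ≤ ∑ j ∈ range (JJ k ν), (2 * C' * ν * Q ^ 5 * V ^ 2 * a ^ 2) * (1 / 2 : ℝ) ^ j := by
          refine sum_le_sum fun j hj => ?_
          rw [← mul_sum]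
          calc (1 / 16 : ℝ) ^ j * ∑ x ∈ PP V, ∑ h ∈ Icc 1 (2 ^ j * ν ^ (2 * k - 4)),
                Real.sqrt (1 + (KQ 1 (1000 * Q ^ 2 * 2 ^ j * a) (h * Q ^ 2) x.1 x.2 : ℝ))
              ≤ (1 / 16 : ℝ) ^ j * (2 * C' * ν * Q ^ 5 * V ^ 2 * a ^ 2 * 8 ^ j) := by
                gcongr
                exact hblk j hj
            _ = (2 * C' * ν * Q ^ 5 * V ^ 2 * a ^ 2) * ((1 / 16 : ℝ) ^ j * 8 ^ j) := by ring
            _ = _ := by rw [← mul_pow]; norm_num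
      _ = (2 * C' * ν * Q ^ 5 * V ^ 2 * a ^ 2) * ∑ j ∈ range (JJ k ν), (1 / 2 : ℝ) ^ j := by
          rw [← mul_sum]
      _ ≤ (2 * C' * ν * Q ^ 5 * V ^ 2 * a ^ 2) * 2 := by
          gcongr
          exact sum_geometric_two_le _
      _ = _ := by ring
  -- the tuples
  have hcard : (TU ν V Q).card = ∑ x ∈ PP V, ((TU ν V Q).filter (fun y => y.1 = x)).card := by
    apply card_eq_sum_card_fiberwise
    intro y hy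
    simp only [TU, Finset.coe_filter, mem_product, Set.mem_ofPred_eq] at hy
    exact Finset.mem_coe.2 hy.1.1
  rw [hcard, Nat.cast_sum]
  have hall : ∑ x ∈ PP V, (4 * (ν : ℝ) ^ 8 * (V : ℝ) ^ 2 / Q ^ 2 -
    C * (1 + Real.log ν) * (k + 2) * (ν : ℝ) ^ 6 * ∑ j ∈ Finset.range (JJ k ν), (1 / 16 : ℝ) ^ j *
      ∑ h ∈ Icc 1 (2 ^ j * ν ^ (2 * k - 4)),
        Real.sqrt (1 + (KQ 1 (1000 * Q ^ 2 * 2 ^ j * a) (h * Q ^ 2) x.1 x.2 : ℝ))) ≤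
      ∑ x ∈ PP V, (((TU ν V Q).filter (fun y => y.1 = x)).card : ℝ) := by
    refine sum_le_sum fun x hx => ?_
    have := h1 ν hν1 x hx
    rw [hVr] at this
    exact this
  refine le_trans ?_ hall
  rw [sum_sub_distrib, ← mul_sum, sum_const, nsmul_eq_mul]
  have herr : C * (1 + Real.log ν) * (k + 2) * (ν : ℝ) ^ 6 * (4 * C' * ν * Q ^ 5 * V ^ 2 * a ^ 2) ≤
      (ν : ℝ) ^ 8 * (V : ℝ) ^ 2 * ((PP V).card : ℝ) / Q ^ 2 := by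
    rw [le_div_iff₀ (by positivity)]
    have e1 : C * (1 + Real.log ν) * (k + 2) * (ν : ℝ) ^ 6 * (4 * C' * ν * Q ^ 5 * V ^ 2 * a ^ 2) * Q ^ 2 =
        (4 * C * C' * Q ^ 7 * (k + 2) * (1 + Real.log ν)) * (ν ^ 3 * V ^ 2 * (a * ν ^ 2) ^ 2) := by ring
    rw [e1, ← har]
    calc (4 * C * C' * Q ^ 7 * (k + 2) * (1 + Real.log ν)) * ((ν : ℝ) ^ 3 * V ^ 2 * V ^ 2)
        ≤ (ν : ℝ) ^ 4 * ((ν : ℝ) ^ 3 * V ^ 2 * V ^ 2) := by gcongr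
      _ ≤ (ν : ℝ) ^ 4 * ((ν : ℝ) ^ 3 * V ^ 2 * (ν * ((PP V).card : ℝ))) := by gcongr
      _ = _ := by ring
  have hlast : C * (1 + Real.log ν) * (k + 2) * (ν : ℝ) ^ 6 * ∑ x ∈ PP V,
      ∑ j ∈ Finset.range (JJ k ν), (1 / 16 : ℝ) ^ j *
      ∑ h ∈ Icc 1 (2 ^ j * ν ^ (2 * k - 4)),
        Real.sqrt (1 + (KQ 1 (1000 * Q ^ 2 * 2 ^ j * a) (h * Q ^ 2) x.1 x.2 : ℝ)) ≤
      C * (1 + Real.log ν) * (k + 2) * (ν : ℝ) ^ 6 * (4 * C' * ν * Q ^ 5 * V ^ 2 * a ^ 2) := by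
    gcongr
  have e2 : ((PP V).card : ℝ) * (4 * (ν : ℝ) ^ 8 * (V : ℝ) ^ 2 / Q ^ 2) -
      (ν : ℝ) ^ 8 * (V : ℝ) ^ 2 * ((PP V).card : ℝ) / Q ^ 2 =
      3 * (ν : ℝ) ^ 8 * (V : ℝ) ^ 2 * ((PP V).card : ℝ) / Q ^ 2 := by ring
  rw [← e2]
  linarith

end Pool.Agent.T2h80.L5
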