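import Pool.Agent.T2h80.L5.Stm

set_option autoImplicit false

/-!
# LWA: the lower bound for one pair
-/

namespace Pool.Agent.T2h80.L5.LWA

open Finset Pool.Agent.T2h80.F5 Pool.Agent.T2h80.L5

/-- dyadic decomposition with decreasing weights -/
theorem dyad (H J q : ℕ) (r : ℝ) (hr0 : 0 ≤ r) (w g : ℕ → ℝ) (hg : ∀ h, 0 ≤ g h)
    (hw1 : ∀ h ∈ Icc 1 q, w h ≤ 1) (hw : ∀ j : ℕ, ∀ h ∈ Icc 1 q, 2 ^ j * H < h → w h ≤ r ^ (j + 1))
    (hq : q ≤ 2 ^ J * H) :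
    ∑ h ∈ Icc 1 q, w h * g h ≤ ∑ j ∈ range (J + 1), r ^ j * ∑ h ∈ Icc 1 (2 ^ j * H), g h := by
  classical
  have h1 : ∀ h ∈ Icc 1 q, w h * g h ≤ ∑ j ∈ range (J + 1), (if h ≤ 2 ^ j * H then r ^ j * g h else 0) := by
    intro h hh
    have hex : ∃ j : ℕ, h ≤ 2 ^ j * H := ⟨J, (mem_Icc.1 hh).2.trans hq⟩
    obtain ⟨j, hj1, hj2, hj3⟩ : ∃ j : ℕ, j ≤ J ∧ h ≤ 2 ^ j * H ∧ w h ≤ r ^ j := by
      refine ⟨Nat.find hex, Nat.find_min' hex ((mem_Icc.1 hh).2.trans hq), Nat.find_spec hex, ?_⟩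
      rcases Nat.eq_zero_or_pos (Nat.find hex) with h0 | h0
      · rw [h0, pow_zero]
        exact hw1 h hh
      · obtain ⟨i, hi⟩ := Nat.exists_eq_succ_of_ne_zero h0.ne'
        rw [hi]
        refine hw i h hh ?_
        have := Nat.find_min hex (m := i) (by omega)
        omega
    refine le_trans ?_ (single_le_sum (f := fun j => if h ≤ 2 ^ j * H then r ^ j * g h else 0)
      (fun i _ => ?_) (mem_range.2 (Nat.lt_succ_of_le hj1)))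
    · rw [if_pos hj2]
      exact mul_le_mul_of_nonneg_right hj3 (hg h)
    · split_ifs
      · exact mul_nonneg (pow_nonneg hr0 _) (hg h)
      · exact le_rfl
  refine (sum_le_sum h1).trans ?_
  rw [sum_comm]
  refine sum_le_sum fun j _ => ?_
  rw [← sum_filter, mul_sum]
  refine sum_le_sum_of_subset_of_nonneg ?_ fun i _ _ => mul_nonneg (pow_nonneg hr0 _) (hg i)
  intro h hh
  rw [mem_filter, mem_Icc] at hh
  exact mem_Icc.2 ⟨hh.1.1, hh.2⟩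

/-- a first point of a residue class -/
theorem first (L Q : ℕ) (hQ : 1 ≤ Q) : ∃ s₀ : ℕ, L ≤ s₀ ∧ s₀ + 1 ≤ L + Q ∧ (Q : ℤ) ∣ (s₀ : ℤ) - 1 := by
  have hQ' : (0 : ℤ) < Q := by exact_mod_cast hQ
  have h0 : 0 ≤ (1 - (L : ℤ)) % Q := Int.emod_nonneg _ hQ'.ne'
  have h1 : (1 - (L : ℤ)) % Q < Q := Int.emod_lt_of_pos _ hQ'
  refine ⟨L + ((1 - (L : ℤ)) % Q).toNat, by omega, by omega, ?_⟩
  have e : ((L + ((1 - (L : ℤ)) % Q).toNat : ℕ) : ℤ) - 1 = (1 - (L : ℤ)) % Q - (1 - L) := by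
    push_cast
    rw [Int.toNat_of_nonneg h0]
    ring
  rw [e]
  exact (Int.mod_modEq (1 - (L : ℤ)) Q).symm.dvd

/-- the weights of the dyadic ranges -/
theorem weight (k ν q j h : ℕ) (hk : 6 ≤ k) (hν : 0 < ν) (hq : q < 16 * (ν ^ k) ^ 4)
    (hh : 2 ^ j * ν ^ (2 * k - 4) < h) :
    (min 1 ((q : ℝ) / (((169 * ν ^ 4 * (ν ^ k) ^ 2 : ℕ) : ℝ) * h))) ^ 4 ≤ (1 / 16 : ℝ) ^ (j + 1) := by
  have hν' : (0 : ℝ) < ν := by exact_mod_cast hν
  have hh0 : (0 : ℝ) < h := by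
    have : 0 < h := lt_of_le_of_lt (Nat.zero_le _) hh
    exact_mod_cast this
  have h1 : (q : ℝ) / (((169 * ν ^ 4 * (ν ^ k) ^ 2 : ℕ) : ℝ) * h) ≤ 1 / 2 ^ (j + 1) := by
    rw [div_le_div_iff₀ (by positivity) (by positivity)]
    have h2 : (q : ℝ) ≤ 16 * ((ν : ℝ) ^ k) ^ 4 := by exact_mod_cast hq.le
    have h3 : (2 : ℝ) ^ j * (ν : ℝ) ^ (2 * k - 4) ≤ h := by exact_mod_cast hh.le
    have h4 : (ν : ℝ) ^ 4 * ((ν : ℝ) ^ k) ^ 2 * (ν : ℝ) ^ (2 * k - 4) = ((ν : ℝ) ^ k) ^ 4 := by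
      rw [← pow_mul, ← pow_mul, ← pow_add, ← pow_add]
      congr 1
      omega
    push_cast
    calc (q : ℝ) * 2 ^ (j + 1) ≤ (16 * ((ν : ℝ) ^ k) ^ 4) * 2 ^ (j + 1) := by gcongr
      _ = 32 * (2 : ℝ) ^ j * ((ν : ℝ) ^ 4 * ((ν : ℝ) ^ k) ^ 2 * (ν : ℝ) ^ (2 * k - 4)) := by
          rw [h4]
          ring
      _ ≤ 169 * (2 : ℝ) ^ j * ((ν : ℝ) ^ 4 * ((ν : ℝ) ^ k) ^ 2 * (ν : ℝ) ^ (2 * k - 4)) := by
          gcongr
          norm_num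
      _ = 169 * (ν : ℝ) ^ 4 * ((ν : ℝ) ^ k) ^ 2 * ((2 : ℝ) ^ j * (ν : ℝ) ^ (2 * k - 4)) := by ring
      _ ≤ 169 * (ν : ℝ) ^ 4 * ((ν : ℝ) ^ k) ^ 2 * h := by gcongr
      _ = 1 * (169 * (ν : ℝ) ^ 4 * ((ν : ℝ) ^ k) ^ 2 * h) := by ring
  calc (min 1 ((q : ℝ) / (((169 * ν ^ 4 * (ν ^ k) ^ 2 : ℕ) : ℝ) * h))) ^ 4
      ≤ (1 / 2 ^ (j + 1)) ^ 4 :=
        pow_le_pow_left₀ (le_min zero_le_one (by positivity)) ((min_le_right _ _).trans h1) 4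
    _ = (1 / 16 : ℝ) ^ (j + 1) := by
        rw [one_div, one_div, inv_pow, inv_pow, ← pow_mul, mul_comm (j + 1) 4, pow_mul]
        norm_num

/-- the number of the dyadic ranges is sufficient -/
theorem enough (k ν q : ℕ) (hk : 6 ≤ k) (hq : q < 16 * (ν ^ k) ^ 4) :
    q ≤ 2 ^ (JJ k ν - 1) * ν ^ (2 * k - 4) := by
  have h1 : ν < 2 ^ (Nat.log 2 ν + 1) := Nat.lt_pow_succ_log_self (by norm_num) ν
  have h2 : ν ^ (2 * k + 4) ≤ (2 ^ (Nat.log 2 ν + 1)) ^ (2 * k + 4) := Nat.pow_le_pow_left h1.le _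
  have h3 : JJ k ν - 1 = 5 + (Nat.log 2 ν + 1) * (2 * k + 4) := by
    unfold JJ
    rw [mul_comm (2 * k + 4)]
    omega
  have h4 : ν ^ (2 * k + 4) * ν ^ (2 * k - 4) = (ν ^ k) ^ 4 := by
    rw [← pow_mul, ← pow_add]
    congr 1
    omega
  rw [h3, pow_add, pow_mul]
  calc q ≤ 16 * (ν ^ k) ^ 4 := hq.le
    _ = 16 * (ν ^ (2 * k + 4) * ν ^ (2 * k - 4)) := by rw [h4]
    _ ≤ 2 ^ 5 * ((2 ^ (Nat.log 2 ν + 1)) ^ (2 * k + 4) * ν ^ (2 * k - 4)) := by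
        refine Nat.mul_le_mul (by norm_num) (Nat.mul_le_mul_right _ h2)
    _ = 2 ^ 5 * (2 ^ (Nat.log 2 ν + 1)) ^ (2 * k + 4) * ν ^ (2 * k - 4) := by ring

theorem mainterm (ν V Q L B q n : ℝ) (hν : 0 < ν) (hV : 0 < V) (hQ : 0 < Q) (hq0 : 0 < q) (hq : q ≤ 16 * V ^ 4)
    (hL : L = ν ^ 2 * V ^ 2) (hB : B = 169 * ν ^ 4 * V ^ 2) (hn : 8 / 13 * (L / Q) ≤ n) :
    4 * ν ^ 8 * V ^ 2 / Q ^ 2 ≤ B / q * n ^ 2 := by
  have hB0 : 0 ≤ B := by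
    rw [hB]
    positivity
  have hL0 : 0 ≤ L := by
    rw [hL]
    positivity
  have h1 : (8 / 13 : ℝ) ^ 2 * (L / Q) ^ 2 ≤ n ^ 2 := by
    rw [← mul_pow]
    exact pow_le_pow_left₀ (by positivity) hn 2
  have h2 : B / (16 * V ^ 4) ≤ B / q := div_le_div_of_nonneg_left hB0 hq0 hq
  calc 4 * ν ^ 8 * V ^ 2 / Q ^ 2 = B / (16 * V ^ 4) * ((8 / 13 : ℝ) ^ 2 * (L / Q) ^ 2) := by
        rw [hB, hL]
        field_simp
        ring
    _ ≤ B / q * n ^ 2 := mul_le_mul h2 h1 (by positivity) (div_nonneg hB0 hq0.le)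

theorem errterm (ν V L B q s l2 lν k SS : ℝ) (hν : 0 < ν) (hV : 0 < V) (hq : V ^ 4 ≤ q)
    (hL : L = ν ^ 2 * V ^ 2) (hB : B = 169 * ν ^ 4 * V ^ 2) (hs : 0 ≤ s) (h0 : 0 ≤ l2)
    (h1 : l2 ≤ 2 * ((1 + lν) * (k + 2))) (hlν : 0 ≤ lν) (hk : 0 ≤ k) (hSS : 0 ≤ SS) :
    2 * (B / q) * (s * (2 * L) * l2 * SS) ≤ (1352 * s + 1) * (1 + lν) * (k + 2) * ν ^ 6 * SS := by
  have hB0 : 0 ≤ B := by
    rw [hB]
    positivity
  have hL0 : 0 ≤ L := by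
    rw [hL]
    positivity
  have h2 : B / q ≤ B / V ^ 4 := div_le_div_of_nonneg_left hB0 (by positivity) hq
  have h3 : B / V ^ 4 * L = 169 * ν ^ 6 := by
    rw [hB, hL]
    field_simp
  calc 2 * (B / q) * (s * (2 * L) * l2 * SS) ≤ 2 * (B / V ^ 4) * (s * (2 * L) * l2 * SS) :=
        mul_le_mul_of_nonneg_right (mul_le_mul_of_nonneg_left h2 zero_le_two) (by positivity)
    _ = 4 * s * l2 * SS * (B / V ^ 4 * L) := by ring
    _ = 676 * s * ν ^ 6 * SS * l2 := by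
        rw [h3]
        ring
    _ ≤ 676 * s * ν ^ 6 * SS * (2 * ((1 + lν) * (k + 2))) := mul_le_mul_of_nonneg_left h1 (by positivity)
    _ = 1352 * s * (1 + lν) * (k + 2) * ν ^ 6 * SS := by ring
    _ ≤ (1352 * s + 1) * (1 + lν) * (k + 2) * ν ^ 6 * SS := by
        have : 0 ≤ (1 + lν) * (k + 2) * ν ^ 6 * SS := by positivity
        linarith only [this]

theorem main (hFEL : S_FEL) (hCOE : S_COE) (hEXQ : S_EXQ) : S_LWA := by
  classical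
  obtain ⟨C₀, hC₀, hexq⟩ := hEXQ
  intro Q hQ
  refine ⟨1352 * Real.sqrt C₀ + 1, by positivity, fun k hk => ⟨3 * Q, fun ν hν x hx => ?_⟩⟩
  obtain ⟨v, w⟩ := x
  have hν0 : 0 < ν := by omega
  set V : ℕ := ν ^ k with hV
  have hV0 : 0 < V := pow_pos hν0 k
  have hx' : (v ∈ PV V ∧ w ∈ PV V) ∧ v ≠ w := by
    simpa [PP] using hx
  obtain ⟨⟨hv, hw⟩, hvw⟩ := hx'
  have hv' : (V ≤ v ∧ v < 2 * V) ∧ v.Prime := by simpa [PV] using hv
  have hw' : (V ≤ w ∧ w < 2 * V) ∧ w.Prime := by simpa [PV] using hw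
  obtain ⟨⟨hv1, hv2⟩, hvp⟩ := hv'
  obtain ⟨⟨hw1, hw2⟩, hwp⟩ := hw'
  have hcop : v.Coprime w := (Nat.coprime_primes hvp hwp).2 hvw
  obtain ⟨A, B', C, hcong, hdw⟩ := hCOE v w 1 hvp.pos hwp.pos one_pos hcop (Nat.coprime_one_left _) 1 (Or.inl rfl)
  set q : ℕ := v ^ 3 * w with hq
  have hq0 : 0 < q := Nat.mul_pos (pow_pos hvp.pos 3) hwp.pos
  have hqlow : V ^ 4 ≤ q := by
    calc V ^ 4 = V ^ 3 * V := by ring
      _ ≤ v ^ 3 * w := Nat.mul_le_mul (Nat.pow_le_pow_left hv1 3) hw1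
  have hqup : q < 16 * V ^ 4 := by
    calc q = v ^ 3 * w := rfl
      _ < (2 * V) ^ 3 * (2 * V) := Nat.mul_lt_mul_of_le_of_lt (Nat.pow_le_pow_left hv2.le 3) hw2 (by positivity)
      _ = 16 * V ^ 4 := by ring
  set L : ℕ := ν ^ 2 * V ^ 2 with hL
  have hL0 : 0 < L := by positivity
  set n : ℕ := L / Q with hn
  obtain ⟨s₀, hs1, hs2, hs3⟩ := first L Q hQ
  set B : ℕ := 169 * ν ^ 4 * V ^ 2 with hB
  have hB0 : 0 < B := by positivity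
  set φ : ℕ × ℕ → ℤ := fun x => A * ((s₀ : ℤ) + Q * (x.1 : ℤ)) ^ 2 +
    B' * ((s₀ : ℤ) + Q * (x.1 : ℤ)) * ((s₀ : ℤ) + Q * (x.2 : ℤ)) + C * ((s₀ : ℤ) + Q * (x.2 : ℤ)) ^ 2 with hφ
  set I : Finset (ℕ × ℕ) := range n ×ˢ range n with hI
  have hfel := hFEL (ℕ × ℕ) I φ q B ((676 * ν ^ 4 * V ^ 2 : ℕ) : ℤ) hq0 hB0
  -- the exponential sums
  set S : ℕ → ℝ := fun h => ‖∑ i ∈ I, ee ((h : ℝ) * φ i / q)‖ with hS
  have hS0 : ∀ h, 0 ≤ S h := fun h => norm_nonneg _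
  have hSb : ∀ j h : ℕ, h ∈ Icc 1 (2 ^ j * ν ^ (2 * k - 4)) → S h ≤
      Real.sqrt C₀ * (2 * L) * (1 + Real.log (2 * L)) *
        Real.sqrt (1 + (KQ 1 (1000 * Q ^ 2 * 2 ^ j * ν ^ (k - 2)) (h * Q ^ 2) v w : ℝ)) := by
    intro j h hh
    rw [mem_Icc] at hh
    have hLL : 1 ≤ 2 * L := by omega
    have hnL : n ≤ 2 * L := (Nat.div_le_self _ _).trans (by omega)
    have e1 := hexq q Q h hq0 A B' C s₀ s₀ n n (2 * L) (2 * L) hLL hLL hnL hnL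
    have e2 := hdw V (1000 * Q ^ 2 * 2 ^ j * ν ^ (k - 2)) (h * Q ^ 2) (2 * L) (2 * L) hv1 hv2 hw1 hw2
      (Nat.mul_pos hh.1 (by positivity)) hLL hLL ?_ ?_ ?_
    · have hlog : 0 ≤ 1 + Real.log (2 * L) := by
        have : (1 : ℝ) ≤ 2 * L := by exact_mod_cast hLL
        have := Real.log_nonneg this
        linarith only [this]
      have e3 : S h ^ 2 ≤ (Real.sqrt C₀ * (2 * L) * (1 + Real.log (2 * L)) *
        Real.sqrt (1 + (KQ 1 (1000 * Q ^ 2 * 2 ^ j * ν ^ (k - 2)) (h * Q ^ 2) v w : ℝ))) ^ 2 := by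
        have e4 : (Real.sqrt C₀ * (2 * L) * (1 + Real.log (2 * L)) *
            Real.sqrt (1 + (KQ 1 (1000 * Q ^ 2 * 2 ^ j * ν ^ (k - 2)) (h * Q ^ 2) v w : ℝ))) ^ 2 =
            C₀ * (2 * L) * (2 * L) * (1 + Real.log (2 * L)) * (1 + Real.log (2 * L)) *
              (1 + (KQ 1 (1000 * Q ^ 2 * 2 ^ j * ν ^ (k - 2)) (h * Q ^ 2) v w : ℝ)) := by
          rw [mul_pow, mul_pow, mul_pow, Real.sq_sqrt hC₀.le, Real.sq_sqrt (by positivity)]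
          ring
        rw [e4]
        refine e1.trans ?_
        push_cast
        refine mul_le_mul_of_nonneg_left ?_ (by positivity)
        have e5 : (DW (((h * Q ^ 2 : ℕ) : ℝ) * A / q) (((h * Q ^ 2 : ℕ) : ℝ) * B' / q)
          (((h * Q ^ 2 : ℕ) : ℝ) * C / q) (2 * L) (2 * L) : ℝ) ≤
          ((1 + KQ 1 (1000 * Q ^ 2 * 2 ^ j * ν ^ (k - 2)) (h * Q ^ 2) v w : ℕ) : ℝ) := by exact_mod_cast e2
        push_cast at e5
        exact e5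
      exact (pow_le_pow_iff_left₀ (hS0 h) (by positivity) two_ne_zero).1 e3
    · have h4 : ν ^ (2 * k - 4) * (ν ^ 2 * V ^ 2) = ν ^ (k - 2) * V ^ 3 := by
        rw [hV, ← pow_mul, ← pow_mul, ← pow_add, ← pow_add, ← pow_add]
        congr 1
        omega
      calc 100 * (h * Q ^ 2) * (1 * (2 * L) + 2 * L) = 400 * Q ^ 2 * (h * L) := by ring
        _ ≤ 400 * Q ^ 2 * ((2 ^ j * ν ^ (2 * k - 4)) * L) :=
            Nat.mul_le_mul_left _ (Nat.mul_le_mul_right _ hh.2)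
        _ = 400 * Q ^ 2 * 2 ^ j * (ν ^ (2 * k - 4) * (ν ^ 2 * V ^ 2)) := by rw [hL]; ring
        _ = 400 * Q ^ 2 * 2 ^ j * (ν ^ (k - 2) * V ^ 3) := by rw [h4]
        _ ≤ 1000 * Q ^ 2 * 2 ^ j * (ν ^ (k - 2) * V ^ 3) := by gcongr; norm_num
        _ = 1000 * Q ^ 2 * 2 ^ j * ν ^ (k - 2) * V ^ 3 := by ring
    · have h5 : ν ^ (k - 2) * (ν ^ 2 * V ^ 2) = V ^ 3 := by
        rw [hV, ← pow_mul, ← pow_mul, ← pow_add, ← pow_add]
        congr 1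
        omega
      calc 1000 * V ^ 3 = 1000 * 1 * 1 * V ^ 3 := by ring
        _ ≤ 2000 * Q ^ 2 * 2 ^ j * V ^ 3 := by
            gcongr
            · norm_num
            · exact Nat.one_le_pow _ _ hQ
            · exact Nat.one_le_two_pow
        _ = 2000 * Q ^ 2 * 2 ^ j * (ν ^ (k - 2) * (ν ^ 2 * V ^ 2)) := by rw [h5]
        _ = 1000 * Q ^ 2 * 2 ^ j * ν ^ (k - 2) * (2 * L) := by rw [hL]; ring
    · have h5 : ν ^ (k - 2) * (ν ^ 2 * V ^ 2) = V ^ 3 := by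
        rw [hV, ← pow_mul, ← pow_mul, ← pow_add, ← pow_add]
        congr 1
        omega
      calc 1000 * 1 * V ^ 3 = 1000 * 1 * 1 * V ^ 3 := by ring
        _ ≤ 2000 * Q ^ 2 * 2 ^ j * V ^ 3 := by
            gcongr
            · norm_num
            · exact Nat.one_le_pow _ _ hQ
            · exact Nat.one_le_two_pow
        _ = 2000 * Q ^ 2 * 2 ^ j * (ν ^ (k - 2) * (ν ^ 2 * V ^ 2)) := by rw [h5]
        _ = 1000 * Q ^ 2 * 2 ^ j * ν ^ (k - 2) * (2 * L) := by rw [hL]; ring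
  -- the dyadic decomposition
  set K : ℕ → ℕ → ℝ := fun j h =>
    Real.sqrt (1 + (KQ 1 (1000 * Q ^ 2 * 2 ^ j * ν ^ (k - 2)) (h * Q ^ 2) v w : ℝ)) with hK
  set D : ℝ := Real.sqrt C₀ * (2 * L) * (1 + Real.log (2 * L)) with hD
  set SS : ℝ := ∑ j ∈ range (JJ k ν), (1 / 16 : ℝ) ^ j * ∑ h ∈ Icc 1 (2 ^ j * ν ^ (2 * k - 4)), K j h with hSS
  have hdy : ∑ h ∈ Icc 1 q, (min 1 ((q : ℝ) / (B * h))) ^ 4 * S h ≤ D * SS := by
    have e1 := dyad (ν ^ (2 * k - 4)) (JJ k ν - 1) q (1 / 16) (by norm_num)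
      (fun h => (min 1 ((q : ℝ) / (B * h))) ^ 4) S hS0
      (fun h _ => pow_le_one₀ (le_min zero_le_one (by positivity)) (min_le_left _ _))
      (fun j h _ hh => weight k ν q j h hk hν0 hqup hh) (enough k ν q hk hqup)
    refine e1.trans ?_
    have e2 : JJ k ν - 1 + 1 = JJ k ν := by
      unfold JJ
      omega
    rw [e2, hSS, mul_sum]
    refine sum_le_sum fun j _ => ?_
    calc (1 / 16 : ℝ) ^ j * ∑ h ∈ Icc 1 (2 ^ j * ν ^ (2 * k - 4)), S h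
        ≤ (1 / 16 : ℝ) ^ j * ∑ h ∈ Icc 1 (2 ^ j * ν ^ (2 * k - 4)), D * K j h :=
          mul_le_mul_of_nonneg_left (sum_le_sum fun h hh => hSb j h hh) (by positivity)
      _ = D * ((1 / 16 : ℝ) ^ j * ∑ h ∈ Icc 1 (2 ^ j * ν ^ (2 * k - 4)), K j h) := by
          rw [← mul_sum]
          ring
  -- the injection
  have hinj : (((I ×ˢ Ico ((676 * ν ^ 4 * V ^ 2 : ℕ) : ℤ) (((676 * ν ^ 4 * V ^ 2 : ℕ) : ℤ) + 4 * B)).filter
      (fun x => (q : ℤ) ∣ x.2 - φ x.1)).card) ≤ (((TU ν V Q).filter (fun y => y.1 = (v, w))).card) := by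
    refine card_le_card_of_injOn (fun z => ((v, w), s₀ + Q * z.1.1, s₀ + Q * z.1.2, z.2.toNat)) ?_ ?_
    · rintro ⟨⟨a, b⟩, m⟩ hz
      have hz' : ((a < n ∧ b < n) ∧ (((676 * ν ^ 4 * V ^ 2 : ℕ) : ℤ) ≤ m ∧
          m < ((676 * ν ^ 4 * V ^ 2 : ℕ) : ℤ) + 4 * B)) ∧ (q : ℤ) ∣ m - φ (a, b) := by
        simpa [hI] using hz
      obtain ⟨⟨⟨ha, hb⟩, hm1, hm2⟩, hdvd⟩ := hz'
      have hrange : ∀ a : ℕ, a < n → L ≤ s₀ + Q * a ∧ s₀ + Q * a < 2 * L := by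
        intro a ha
        refine ⟨by omega, ?_⟩
        have h1 : Q * (a + 1) ≤ Q * n := Nat.mul_le_mul_left _ ha
        have h2 : Q * n ≤ L := Nat.mul_div_le L Q
        have h3 : Q * (a + 1) = Q * a + Q := by ring
        omega
      have hm0 : 0 ≤ m := le_trans (by positivity) hm1
      obtain ⟨m', rfl⟩ := Int.eq_ofNat_of_zero_le hm0
      have hm1' : 676 * ν ^ 4 * V ^ 2 ≤ m' := by exact_mod_cast hm1
      have hm2' : m' < 676 * ν ^ 4 * V ^ 2 + 4 * B := by exact_mod_cast hm2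
      simp only [coe_filter, Set.mem_ofPred_eq, TU, mem_filter, mem_product, Int.toNat_natCast, and_true]
      refine ⟨⟨hx, ?_, ?_, ?_⟩, ?_, ?_, ?_⟩
      · exact mem_Ico.2 (hrange a ha)
      · exact mem_Ico.2 (hrange b hb)
      · refine mem_Ico.2 ⟨hm1', ?_⟩
        calc m' < 676 * ν ^ 4 * V ^ 2 + 4 * (169 * ν ^ 4 * V ^ 2) := hm2'
          _ = 2 * (676 * ν ^ 4 * V ^ 2) := by ring
      · have e : (((s₀ + Q * a : ℕ) : ℤ)) - 1 = ((s₀ : ℤ) - 1) + Q * a := by push_cast; ring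
        rw [e]
        exact dvd_add hs3 (dvd_mul_right _ _)
      · have e : (((s₀ + Q * b : ℕ) : ℤ)) - 1 = ((s₀ : ℤ) - 1) + Q * b := by push_cast; ring
        rw [e]
        exact dvd_add hs3 (dvd_mul_right _ _)
      · have e := (hcong ((s₀ + Q * a : ℕ) : ℤ) ((s₀ + Q * b : ℕ) : ℤ) (m' : ℤ)).2 (by
          have e' : (m' : ℤ) - (A * ((s₀ + Q * a : ℕ) : ℤ) ^ 2 + B' * ((s₀ + Q * a : ℕ) : ℤ) * ((s₀ + Q * b : ℕ) : ℤ) +
              C * ((s₀ + Q * b : ℕ) : ℤ) ^ 2) = m' - φ (a, b) := by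
            rw [hφ]
            push_cast
            ring
          rw [e']
          exact hdvd)
        simpa using e
    · rintro ⟨⟨a, b⟩, m⟩ hz ⟨⟨a', b'⟩, m'⟩ hz' heq
      have hz1 : ((a < n ∧ b < n) ∧ (((676 * ν ^ 4 * V ^ 2 : ℕ) : ℤ) ≤ m ∧
          m < ((676 * ν ^ 4 * V ^ 2 : ℕ) : ℤ) + 4 * B)) ∧ (q : ℤ) ∣ m - φ (a, b) := by
        simpa [hI] using hz
      have hz1' : ((a' < n ∧ b' < n) ∧ (((676 * ν ^ 4 * V ^ 2 : ℕ) : ℤ) ≤ m' ∧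
          m' < ((676 * ν ^ 4 * V ^ 2 : ℕ) : ℤ) + 4 * B)) ∧ (q : ℤ) ∣ m' - φ (a', b') := by
        simpa [hI] using hz'
      have hm0 : 0 ≤ m := le_trans (by positivity) hz1.1.2.1
      have hm0' : 0 ≤ m' := le_trans (by positivity) hz1'.1.2.1
      simp only [Prod.mk.injEq, true_and, add_right_inj] at heq
      obtain ⟨h1, h2, h3⟩ := heq
      have h1' := Nat.eq_of_mul_eq_mul_left (by omega) h1
      have h2' := Nat.eq_of_mul_eq_mul_left (by omega) h2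
      have h3' : m = m' := by omega
      rw [h1', h2', h3']
  have hinj' : ((((I ×ˢ Ico ((676 * ν ^ 4 * V ^ 2 : ℕ) : ℤ) (((676 * ν ^ 4 * V ^ 2 : ℕ) : ℤ) + 4 * B)).filter
      (fun x => (q : ℤ) ∣ x.2 - φ x.1)).card : ℕ) : ℝ) ≤ ((((TU ν V Q).filter (fun y => y.1 = (v, w))).card : ℕ) : ℝ) := by
    exact_mod_cast hinj
  refine le_trans ?_ (hfel.trans hinj')
  -- the numerical part
  have hνr : (0 : ℝ) < ν := by exact_mod_cast hν0
  have hVr : (0 : ℝ) < V := by exact_mod_cast hV0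
  have hQr : (0 : ℝ) < Q := by exact_mod_cast hQ
  have hqr : (0 : ℝ) < q := by exact_mod_cast hq0
  have hqlow' : (V : ℝ) ^ 4 ≤ q := by exact_mod_cast hqlow
  have hqup' : (q : ℝ) ≤ 16 * (V : ℝ) ^ 4 := by exact_mod_cast hqup.le
  have hVk : ((ν : ℝ) ^ k) = V := by rw [hV]; push_cast; rfl
  have hLr : (L : ℝ) = (ν : ℝ) ^ 2 * (V : ℝ) ^ 2 := by rw [hL]; push_cast; rfl
  have hBr : (B : ℝ) = 169 * (ν : ℝ) ^ 4 * (V : ℝ) ^ 2 := by rw [hB]; push_cast; rfl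
  have hcardI : (I.card : ℝ) = (n : ℝ) ^ 2 := by
    rw [hI, card_product, card_range]
    push_cast
    ring
  -- main term
  have hLQ : 13 * Q ≤ 5 * L := by
    have h1 : ν ≤ L := by
      calc ν = ν * 1 := by ring
        _ ≤ ν * (ν * V ^ 2) := Nat.mul_le_mul_left _ (Nat.mul_pos hν0 (by positivity))
        _ = L := by rw [hL]; ring
    omega
  have hnlow : (8 / 13 : ℝ) * (L / Q) ≤ n := by
    have h1 : L < Q * (n + 1) := by
      have := Nat.lt_mul_div_succ L hQ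
      simpa [hn] using this
    have h2 : (L : ℝ) ≤ Q * (n + 1) := by exact_mod_cast h1.le
    have h3 : (13 : ℝ) * Q ≤ 5 * L := by exact_mod_cast hLQ
    have h4 : (L : ℝ) / Q ≤ n + 1 := by
      rw [div_le_iff₀ hQr, mul_comm]
      exact h2
    have h5 : (13 : ℝ) ≤ 5 * (L / Q) := by
      rw [← mul_div_assoc, le_div_iff₀ hQr]
      exact h3
    linarith only [h4, h5]
  have hmain : 4 * (ν : ℝ) ^ 8 * (V : ℝ) ^ 2 / (Q : ℝ) ^ 2 ≤ (B : ℝ) / q * (I.card : ℝ) := by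
    rw [hcardI]
    exact mainterm ν V Q L B q n hνr hVr hQr hqr hqup' hLr hBr hnlow
  -- error term
  have hSS0 : 0 ≤ SS := sum_nonneg fun j _ => mul_nonneg (by positivity) (sum_nonneg fun h _ => Real.sqrt_nonneg _)
  have hlogν : 0 ≤ Real.log ν := Real.log_nonneg (by exact_mod_cast hν0)
  have hlog : 1 + Real.log (2 * L) ≤ 2 * ((1 + Real.log ν) * (k + 2)) := by
    have h1 : Real.log (2 * L) = Real.log 2 + (2 * k + 2) * Real.log ν := by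
      rw [hLr, ← hVk, Real.log_mul (by norm_num) (by positivity), Real.log_mul (by positivity) (by positivity),
        Real.log_pow, Real.log_pow, Real.log_pow]
      push_cast
      ring
    have h2 : Real.log 2 ≤ 1 := by
      have := Real.log_two_lt_d9
      linarith only [this]
    rw [h1]
    have hk0 : (0 : ℝ) ≤ k := by positivity
    have e : 2 * ((1 + Real.log ν) * ((k : ℝ) + 2)) =
      4 + 2 * k + (2 * k + 2) * Real.log ν + 2 * Real.log ν := by ring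
    rw [e]
    linarith only [hk0, hlogν, h2]
  have hlog0 : 0 ≤ 1 + Real.log (2 * L) := by
    have h1 : (1 : ℝ) ≤ 2 * L := by
      have : 1 ≤ 2 * L := by omega
      exact_mod_cast this
    have := Real.log_nonneg h1
    linarith only [this]
  have herr : 2 * ((B : ℝ) / q) * (D * SS) ≤
      (1352 * Real.sqrt C₀ + 1) * (1 + Real.log ν) * (k + 2) * (ν : ℝ) ^ 6 * SS :=
    errterm ν V L B q (Real.sqrt C₀) (1 + Real.log (2 * L)) (Real.log ν) k SS hνr hVr hqlow' hLr hBr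
      (Real.sqrt_nonneg _) hlog0 hlog hlogν (Nat.cast_nonneg k) hSS0
  rw [hVk]
  have hfin : 2 * ((B : ℝ) / q) * ∑ h ∈ Icc 1 q, (min 1 ((q : ℝ) / (B * h))) ^ 4 * S h ≤
      (1352 * Real.sqrt C₀ + 1) * (1 + Real.log ν) * (k + 2) * (ν : ℝ) ^ 6 * SS :=
    (mul_le_mul_of_nonneg_left hdy (by positivity)).trans herr
  exact sub_le_sub hmain hfin

end Pool.Agent.T2h80.L5.LWA

namespace Pool.Agent.T2h80.L5

theorem t_LWA (hFEL : S_FEL) (hCOE : S_COE) (hEXQ : S_EXQ) : S_LWA := LWA.main hFEL hCOE hEXQ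

end Pool.Agent.T2h80.L5
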