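import Pool.Agent.T2h80.L5.Stm

set_option autoImplicit false

/-!
# MLT: the number of records with given classes
-/

namespace Pool.Agent.T2h80.L5

open Finset NumberField Pool.Agent.T2h80.F5

namespace MLT

variable {K : Type} [Field K] [NumberField K]

theorem th1 {d : ℕ} (hd : d % 8 = 7) : th d = 1 := by
  unfold th
  have : d % 2 = 1 := by omega
  rw [this]
  rfl

theorem n0_4 {d : ℕ} (hd : d % 8 = 7) : 4 * n0 d = d + 1 := by
  unfold n0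
  omega

theorem nf_nonneg {d : ℕ} (hd : d % 8 = 7) (x y : ℤ) : 0 ≤ x ^ 2 + x * y + n0 d * y ^ 2 := by
  have h := n0_4 hd
  have h4 : 4 * (x ^ 2 + x * y + n0 d * y ^ 2) = (2 * x + y) ^ 2 + (d : ℤ) * y ^ 2 := by
    have : 4 * (x ^ 2 + x * y + n0 d * y ^ 2) = (2 * x + y) ^ 2 + (4 * n0 d - 1) * y ^ 2 := by ring
    rw [this, h]
    ring
  have : 0 ≤ (2 * x + y) ^ 2 + (d : ℤ) * y ^ 2 := by positivity
  linarith

variable {d : ℕ} {ω : 𝓞 K} {σ : 𝓞 K →+* 𝓞 K}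

theorem norm_el (hQ : IsQ K d ω σ) (hd : d % 8 = 7) (x y : ℤ) :
    Algebra.norm ℤ (el ω x y) = x ^ 2 + x * y + n0 d * y ^ 2 := by
  obtain ⟨-, -, -, -, -, h, -⟩ := hQ
  unfold el
  rw [h, th1 hd]
  ring

theorem absNorm_el (hQ : IsQ K d ω σ) (hd : d % 8 = 7) (x y : ℤ) :
    ((Ideal.absNorm (Ideal.span {el ω x y}) : ℕ) : ℤ) = x ^ 2 + x * y + n0 d * y ^ 2 := by
  rw [Ideal.absNorm_span_singleton, norm_el hQ hd, Int.natCast_natAbs,
    abs_of_nonneg (nf_nonneg hd x y)]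

theorem el_rep (hQ : IsQ K d ω σ) (z : 𝓞 K) : ∃ x y, z = el ω x y := by
  obtain ⟨-, -, h, -⟩ := hQ
  exact h z

theorem el_inj (hQ : IsQ K d ω σ) {x y x' y' : ℤ} (h : el ω x y = el ω x' y') :
    x = x' ∧ y = y' := by
  obtain ⟨-, -, -, hu, -⟩ := hQ
  have := hu (x - x') (y - y') (by
    unfold el at h
    push_cast
    linear_combination h)
  omega

theorem unit_el (hQ : IsQ K d ω σ) (hd : d % 8 = 7) (ε : (𝓞 K)ˣ) :
    (ε : 𝓞 K) = 1 ∨ (ε : 𝓞 K) = -1 := by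
  obtain ⟨a, b, hab⟩ := el_rep hQ (ε : 𝓞 K)
  have h1 : Ideal.span {el ω a b} = ⊤ := by
    rw [← hab]
    exact Ideal.span_singleton_eq_top.2 ε.isUnit
  have h2 := absNorm_el hQ hd a b
  rw [h1, Ideal.absNorm_top] at h2
  have h := n0_4 hd
  have h4 : (2 * a + b) ^ 2 + (d : ℤ) * b ^ 2 = 4 := by
    have : 4 * (a ^ 2 + a * b + n0 d * b ^ 2) = (2 * a + b) ^ 2 + (4 * n0 d - 1) * b ^ 2 := by ring
    rw [← h2, h] at this
    push_cast at this
    linarith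
  have hd7 : (7 : ℤ) ≤ d := by omega
  have hb : b = 0 := by
    by_contra hb
    have : 1 ≤ b ^ 2 := by
      have := sq_nonneg b
      have : 0 < b ^ 2 := by positivity
      omega
    nlinarith [sq_nonneg (2 * a + b)]
  subst hb
  have ha : a ^ 2 = 1 := by nlinarith
  have ha' : a = 1 ∨ a = -1 := by
    have h0 : (a - 1) * (a + 1) = 0 := by linear_combination ha
    rcases mul_eq_zero.1 h0 with h | h
    · left; linarith
    · right; linarith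
  rcases ha' with rfl | rfl
  · left
    rw [hab]
    simp [el]
  · right
    rw [hab]
    simp [el]

theorem sgn (hQ : IsQ K d ω σ) (hd : d % 8 = 7) {x u x' u' : ℤ}
    (h : Ideal.span {el ω x u} = Ideal.span {el ω x' u'}) :
    (x' = x ∧ u' = u) ∨ (x' = -x ∧ u' = -u) := by
  obtain ⟨ε, hε⟩ := Ideal.span_singleton_eq_span_singleton.1 h
  rcases unit_el hQ hd ε with e | e
  · left
    rw [e, mul_one] at hε
    obtain ⟨h1, h2⟩ := el_inj hQ hε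
    exact ⟨h1.symm, h2.symm⟩
  · right
    rw [e] at hε
    have : el ω x' u' = el ω (-x) (-u) := by
      rw [← hε]
      unfold el
      push_cast
      ring
    exact el_inj hQ this

theorem principal (hQ : IsQ K d ω σ) (P P' : Ideal (𝓞 K)) (hP : P ∈ nonZeroDivisors (Ideal (𝓞 K)))
    (hP' : P' ∈ nonZeroDivisors (Ideal (𝓞 K)))
    (h : ClassGroup.mk0 ⟨P, hP⟩ = ClassGroup.mk0 ⟨P', hP'⟩) :
    ∃ X Y : ℤ, P * P'.map σ = Ideal.span {el ω X Y} := by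
  have hQ' := hQ
  obtain ⟨-, -, -, -, -, -, -, hIσ, hnσ⟩ := hQ'
  have hP0 : P' ≠ ⊥ := fun h => nonZeroDivisors.ne_zero hP' (by rw [h]; rfl)
  have hPσ0 : P'.map σ ≠ ⊥ := by
    rw [Ne, ← Ideal.absNorm_eq_zero_iff, hnσ, Ideal.absNorm_eq_zero_iff]; exact hP0
  have hPσ : P'.map σ ∈ nonZeroDivisors (Ideal (𝓞 K)) := mem_nonZeroDivisors_of_ne_zero hPσ0
  have h1 : ClassGroup.mk0 ⟨P', hP'⟩ * ClassGroup.mk0 ⟨P'.map σ, hPσ⟩ = 1 := by
    rw [← map_mul]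
    have : (⟨P', hP'⟩ : nonZeroDivisors (Ideal (𝓞 K))) * ⟨P'.map σ, hPσ⟩ =
      ⟨P' * P'.map σ, mul_mem hP' hPσ⟩ := rfl
    rw [this, ClassGroup.mk0_eq_one_iff, hIσ]
    exact ⟨⟨_, rfl⟩⟩
  have h2 : (P * P'.map σ).IsPrincipal := by
    have hmem : P * P'.map σ ∈ nonZeroDivisors (Ideal (𝓞 K)) := mul_mem hP hPσ
    rw [← ClassGroup.mk0_eq_one_iff hmem]
    have : (⟨P * P'.map σ, hmem⟩ : nonZeroDivisors (Ideal (𝓞 K))) =
      ⟨P, hP⟩ * ⟨P'.map σ, hPσ⟩ := rfl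
    rw [this, map_mul, h, h1]
  obtain ⟨⟨b, hb⟩⟩ := h2
  obtain ⟨X, Y, hXY⟩ := el_rep hQ b
  refine ⟨X, Y, ?_⟩
  rw [← hXY]
  exact hb

/-- ideals with generators of the products with a fixed ideal, with determinants divisible by `n` -/
theorem count1 (hANG : S_ANG) (hIND : S_IND) (hQ : IsQ K d ω σ) (hd : d % 8 = 7) (n B : ℕ)
    (hn : 0 < n) (I : Ideal (𝓞 K)) (hI : I ≠ ⊥) (hIB : Ideal.absNorm I ≤ B)
    (hIn : (Ideal.absNorm I).Coprime n) (S : Finset (Ideal (𝓞 K))) (γ : Ideal (𝓞 K) → ℤ × ℤ)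
    (h : ∀ P ∈ S, P ≠ ⊥ ∧ Ideal.absNorm P ≤ B ∧ (∀ q : ℕ, 2 ≤ q → ¬ P ≤ Ideal.span {(q : 𝓞 K)}) ∧
      P * I.map σ = Ideal.span {el ω (γ P).1 (γ P).2})
    (hdvd : ∀ P ∈ S, ∀ P' ∈ S, (n : ℤ) ∣ (γ P).1 * (γ P').2 - (γ P').1 * (γ P).2) :
    (S.card : ℝ) ≤ 1 + 7 * (B : ℝ) / (n * Real.sqrt d) := by
  classical
  have hQ' := hQ
  obtain ⟨-, -, -, -, -, -, -, hIσ, hnσ⟩ := hQ'
  have hN0 : 0 < Ideal.absNorm I := Nat.pos_of_ne_zero (by rwa [Ne, Ideal.absNorm_eq_zero_iff])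
  have hB0 : 0 < B := lt_of_lt_of_le hN0 hIB
  have hIσ0 : I.map σ ≠ ⊥ := by
    rw [Ne, ← Ideal.absNorm_eq_zero_iff, hnσ, Ideal.absNorm_eq_zero_iff]; exact hI
  have hdet : ∀ P ∈ S, ∀ P' ∈ S,
      ((Ideal.absNorm I : ℕ) : ℤ) ∣ (γ P).1 * (γ P').2 - (γ P').1 * (γ P).2 ∧
      ((γ P).1 * (γ P').2 - (γ P').1 * (γ P).2 = 0 → P = P') := by
    intro P hP P' hP'
    obtain ⟨a1, a2, a3, a4⟩ := h P hP
    obtain ⟨b1, b2, b3, b4⟩ := h P' hP'
    have := hIND K d ω σ hQ hd (I.map σ) P P' _ _ _ _ hIσ0 a1 b1 a3 b3 a4 b4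
    rwa [hnσ] at this
  have hinj : Set.InjOn γ (S : Set (Ideal (𝓞 K))) := by
    intro P hP P' hP' e
    apply (hdet P hP P' hP').2
    rw [e]
    ring
  have hb : 0 < n * Ideal.absNorm I := Nat.mul_pos hn hN0
  have key := hANG d (n * Ideal.absNorm I) (B * Ideal.absNorm I : ℕ) hd hb
    (by exact_mod_cast Nat.mul_pos hB0 hN0) (S.image γ) (by
      intro z hz
      obtain ⟨P, hP, rfl⟩ := Finset.mem_image.1 hz
      obtain ⟨a1, a2, a3, a4⟩ := h P hP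
      have e := absNorm_el hQ hd (γ P).1 (γ P).2
      rw [← a4, map_mul, hnσ] at e
      rw [← e]
      have : Ideal.absNorm P * Ideal.absNorm I ≤ B * Ideal.absNorm I :=
        Nat.mul_le_mul_right _ a2
      exact_mod_cast this) (by
      intro z hz z' hz' hne
      obtain ⟨P, hP, rfl⟩ := Finset.mem_image.1 hz
      obtain ⟨P', hP', rfl⟩ := Finset.mem_image.1 hz'
      refine ⟨fun h0 => hne (by rw [(hdet P hP P' hP').2 h0]), ?_⟩
      have hco : IsCoprime (n : ℤ) ((Ideal.absNorm I : ℕ) : ℤ) :=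
        (Nat.isCoprime_iff_coprime.2 hIn).symm
      push_cast
      exact hco.mul_dvd (hdvd P hP P' hP') (hdet P hP P' hP').1)
  rw [Finset.card_image_of_injOn hinj] at key
  refine key.trans (le_of_eq ?_)
  have hN0' : (0 : ℝ) < Ideal.absNorm I := by exact_mod_cast hN0
  have hn' : (0 : ℝ) < n := by exact_mod_cast hn
  have hd' : (0 : ℝ) < Real.sqrt d := by
    apply Real.sqrt_pos.2
    have : 0 < d := by omega
    exact_mod_cast this
  push_cast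
  congr 1
  field_simp

end MLT

open MLT in
/-- **MLT.** -/
theorem t_MLT (hRNC : S_RNC) (hANG : S_ANG) (hGM5 : S_GM5) (hIND : S_IND) : S_MLT := by
  classical
  intro K _ _ d ω σ hQ hd n B hn J₁ J₂ κ κ' T hT
  obtain ⟨β, hβ⟩ : ∃ β : ℝ, β = 1 + 7 * (B : ℝ) / (n * Real.sqrt d) := ⟨_, rfl⟩
  have hβ0 : 0 ≤ β := by rw [hβ]; positivity
  rw [← hβ]
  rcases T.eq_empty_or_nonempty with rfl | ⟨x₀, hx₀⟩
  · rw [Finset.card_empty, Nat.cast_zero]
    positivity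
  have h1 : ∀ x : ℤ × ℤ × ℤ × ℤ, ∃ y : Ideal (𝓞 K) × Ideal (𝓞 K), x ∈ T →
      ∃ (hP : y.1 ∈ nonZeroDivisors (Ideal (𝓞 K))) (hA : y.2 ∈ nonZeroDivisors (Ideal (𝓞 K))),
      ClassGroup.mk0 ⟨y.1, hP⟩ = κ ∧ ClassGroup.mk0 ⟨y.2, hA⟩ = κ' ∧
      Rec ω σ n B J₁ J₂ y.1 y.2 x.1 x.2.1 x.2.2.1 x.2.2.2 := by
    intro x
    by_cases hx : x ∈ T
    · obtain ⟨P, A, hP, hA, h⟩ := hT x hx
      exact ⟨(P, A), fun _ => ⟨hP, hA, h⟩⟩
    · exact ⟨(⊤, ⊤), fun h => absurd h hx⟩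
  choose F hF using h1
  -- the coprimality of the norms
  have hco : ∀ x ∈ T, (Ideal.absNorm (F x).1).Coprime n ∧ (Ideal.absNorm (F x).2).Coprime n := by
    intro x hx
    obtain ⟨_, _, _, _, hr⟩ := hF x hx
    obtain ⟨-, -, -, -, -, -, -, -, -, -, -, -, hc⟩ := hr
    have h2 := Nat.Coprime.coprime_mul_right hc
    have h3 := Nat.Coprime.coprime_mul_right h2
    exact ⟨Nat.Coprime.coprime_mul_right h3, Nat.Coprime.coprime_mul_left h3⟩
  -- the number of the first ideals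
  have hP : (T.image fun x => (F x).1).card ≤ ⌊β⌋₊ * 30 ^ n.primeFactors.card := by
    have hg : ∀ P : Ideal (𝓞 K), ∃ z : ℤ × ℤ, P ∈ (T.image fun x => (F x).1) →
        P * (F x₀).1.map σ = Ideal.span {el ω z.1 z.2} := by
      intro P
      by_cases hP : P ∈ (T.image fun x => (F x).1)
      · obtain ⟨x, hx, rfl⟩ := Finset.mem_image.1 hP
        obtain ⟨a1, -, a2, -, -⟩ := hF x hx
        obtain ⟨b1, -, b2, -, -⟩ := hF x₀ hx₀
        obtain ⟨X, Y, h⟩ := principal hQ _ _ a1 b1 (a2.trans b2.symm)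
        exact ⟨(X, Y), fun _ => h⟩
      · exact ⟨(0, 0), fun h => absurd h hP⟩
    choose γ hγ using hg
    obtain ⟨χ, hχ⟩ := hRNC (n0 d) n hn
    have key := Finset.card_le_mul_card_image_of_maps_to
      (f := fun P => χ (γ P)) (s := T.image fun x => (F x).1) (t := Finset.univ)
      (fun _ _ => Finset.mem_univ _) ⌊β⌋₊ (by
        intro c _
        apply Nat.le_floor
        rw [hβ]
        obtain ⟨-, -, -, -, hr₀⟩ := hF x₀ hx₀
        have hr₀' := hr₀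
        obtain ⟨e1, -, -, -, e2, -⟩ := hr₀'
        have hprop : ∀ P ∈ (T.image fun x => (F x).1), P ≠ ⊥ ∧ Ideal.absNorm P ≤ B ∧
            (∀ q : ℕ, 2 ≤ q → ¬ P ≤ Ideal.span {(q : 𝓞 K)}) ∧
            P * (F x₀).1.map σ = Ideal.span {el ω (γ P).1 (γ P).2} ∧
            (n : ℤ) ∣ I5 (n0 d) (γ P).1 (γ P).2 ∧
            IsCoprime (n : ℤ) ((γ P).1 ^ 2 + (γ P).1 * (γ P).2 + n0 d * (γ P).2 ^ 2) := by
          intro P hP
          have hPγ := hγ P hP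
          obtain ⟨x, hx, rfl⟩ := Finset.mem_image.1 hP
          obtain ⟨hA1, hA2, k1, k2, hr⟩ := hF x hx
          obtain ⟨hB1, hB2, -, l2, -⟩ := hF x₀ hx₀
          have hr' := hr
          obtain ⟨f1, -, -, -, f2, -, f3, -⟩ := hr'
          obtain ⟨X, Y, hη⟩ := principal hQ _ _ hA2 hB2 (k2.trans l2.symm)
          have h5 := (hGM5 K d ω σ hQ hd n B hn J₁ J₂ (F x₀).1 (F x₀).2 (F x).1 (F x).2
            _ _ _ _ _ _ _ _ hr₀ hr ⟨_, hPγ⟩ ⟨_, hη⟩).1 _ _ hPγ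
          refine ⟨f1, f2, f3, hPγ, h5, ?_⟩
          have e := absNorm_el hQ hd (γ (F x).1).1 (γ (F x).1).2
          have hQ' := hQ
          obtain ⟨-, -, -, -, -, -, -, -, hnσ⟩ := hQ'
          rw [← hPγ, map_mul, hnσ] at e
          rw [← e]
          exact (Nat.isCoprime_iff_coprime.2
            (Nat.Coprime.mul_left (hco x hx).1 (hco x₀ hx₀).1)).symm
        refine count1 hANG hIND hQ hd n B hn (F x₀).1 e1 e2 (hco x₀ hx₀).1 _ γ ?_ ?_
        · intro P hP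
          rw [Finset.mem_filter] at hP
          obtain ⟨g1, g2, g3, g4, -⟩ := hprop P hP.1
          exact ⟨g1, g2, g3, g4⟩
        · intro P hP P' hP'
          rw [Finset.mem_filter] at hP hP'
          obtain ⟨-, -, -, -, g5, g6⟩ := hprop P hP.1
          obtain ⟨-, -, -, -, g5', g6'⟩ := hprop P' hP'.1
          exact hχ _ _ g5 g5' g6 g6' (hP.2.trans hP'.2.symm))
    rwa [Finset.card_univ, Fintype.card_fin] at key
  -- the number of the second ideals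
  have hA : ∀ P ∈ (T.image fun x => (F x).1), (T.filter fun x => (F x).1 = P).card ≤
      4 * ⌊β⌋₊ := by
    intro P hP
    have key := Finset.card_le_mul_card_image (f := fun x => (F x).2)
      (T.filter fun x => (F x).1 = P) 4 (by
        intro A hA
        obtain ⟨x₁, hx₁, hA₁⟩ := Finset.mem_image.1 hA
        rw [Finset.mem_filter] at hx₁
        obtain ⟨-, -, -, -, hr₁⟩ := hF x₁ hx₁.1
        obtain ⟨-, -, -, -, -, -, -, -, p1, p2, -⟩ := hr₁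
        refine le_trans (Finset.card_le_card (t := {x₁, (-x₁.1, -x₁.2.1, x₁.2.2.1, x₁.2.2.2),
          (x₁.1, x₁.2.1, -x₁.2.2.1, -x₁.2.2.2), (-x₁.1, -x₁.2.1, -x₁.2.2.1, -x₁.2.2.2)}) ?_)
          Finset.card_le_four
        intro x hx
        rw [Finset.mem_filter, Finset.mem_filter] at hx
        obtain ⟨-, -, -, -, hr⟩ := hF x hx.1.1
        obtain ⟨-, -, -, -, -, -, -, -, q1, q2, -⟩ := hr
        have eP : (F x₁).1 = (F x).1 := hx₁.2.trans hx.1.2.symm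
        have eA : (F x₁).2 = (F x).2 := hA₁.trans hx.2.symm
        rw [eP, eA] at p1
        rw [eP, eA] at p2
        have s1 := sgn hQ hd (p1.trans q1.symm)
        have s2 := sgn hQ hd (p2.trans q2.symm)
        obtain ⟨y1, y2, y3, y4⟩ := x
        obtain ⟨z1, z2, z3, z4⟩ := x₁
        simp only at s1 s2
        simp only [Finset.mem_insert, Finset.mem_singleton, Prod.mk.injEq]
        rcases s1 with ⟨rfl, rfl⟩ | ⟨rfl, rfl⟩ <;> rcases s2 with ⟨rfl, rfl⟩ | ⟨rfl, rfl⟩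
        · left; simp
        · right; right; left; simp
        · right; left; simp
        · right; right; right; simp)
    refine key.trans (Nat.mul_le_mul_left 4 ?_)
    apply Nat.le_floor
    rw [hβ]
    obtain ⟨x₁, hx₁, hP₁⟩ := Finset.mem_image.1 hP
    have hg : ∀ A : Ideal (𝓞 K), ∃ z : ℤ × ℤ,
        A ∈ ((T.filter fun x => (F x).1 = P).image fun x => (F x).2) →
        A * (F x₁).2.map σ = Ideal.span {el ω z.1 z.2} := by
      intro A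
      by_cases hA : A ∈ ((T.filter fun x => (F x).1 = P).image fun x => (F x).2)
      · obtain ⟨x, hx, rfl⟩ := Finset.mem_image.1 hA
        rw [Finset.mem_filter] at hx
        obtain ⟨-, a1, -, a2, -⟩ := hF x hx.1
        obtain ⟨-, b1, -, b2, -⟩ := hF x₁ hx₁
        obtain ⟨X, Y, h⟩ := principal hQ _ _ a1 b1 (a2.trans b2.symm)
        exact ⟨(X, Y), fun _ => h⟩
      · exact ⟨(0, 0), fun h => absurd h hA⟩
    choose γ hγ using hg
    obtain ⟨-, -, -, -, hr₁⟩ := hF x₁ hx₁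
    have hr₁' := hr₁
    obtain ⟨-, e1, -, -, -, e2, -⟩ := hr₁'
    have hprop : ∀ A ∈ ((T.filter fun x => (F x).1 = P).image fun x => (F x).2),
        A ≠ ⊥ ∧ Ideal.absNorm A ≤ B ∧ (∀ q : ℕ, 2 ≤ q → ¬ A ≤ Ideal.span {(q : 𝓞 K)}) ∧
        A * (F x₁).2.map σ = Ideal.span {el ω (γ A).1 (γ A).2} ∧ (n : ℤ) ∣ (γ A).2 := by
      intro A hA
      have hAγ := hγ A hA
      obtain ⟨x, hx, rfl⟩ := Finset.mem_image.1 hA
      rw [Finset.mem_filter] at hx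
      obtain ⟨hA1, hA2, k1, k2, hr⟩ := hF x hx.1
      obtain ⟨hB1, hB2, l1, l2, -⟩ := hF x₁ hx₁
      have hr' := hr
      obtain ⟨-, f1, -, -, -, f2, -, f3, -⟩ := hr'
      obtain ⟨X, Y, hη⟩ := principal hQ _ _ hA1 hB1 (k1.trans l1.symm)
      have h5 := (hGM5 K d ω σ hQ hd n B hn J₁ J₂ (F x₁).1 (F x₁).2 (F x).1 (F x).2
        _ _ _ _ _ _ _ _ hr₁ hr ⟨_, hη⟩ ⟨_, hAγ⟩).2 (hx.2.trans hP₁.symm) _ _ hAγ
      exact ⟨f1, f2, f3, hAγ, h5⟩
    refine count1 hANG hIND hQ hd n B hn (F x₁).2 e1 e2 (hco x₁ hx₁).2 _ γ ?_ ?_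
    · intro A hA
      obtain ⟨g1, g2, g3, g4, -⟩ := hprop A hA
      exact ⟨g1, g2, g3, g4⟩
    · intro A hA A' hA'
      obtain ⟨-, -, -, -, g5⟩ := hprop A hA
      obtain ⟨-, -, -, -, g5'⟩ := hprop A' hA'
      exact dvd_sub (Dvd.dvd.mul_left g5' _) (Dvd.dvd.mul_left g5 _)
  have hT1 := Finset.card_le_mul_card_image (f := fun x => (F x).1) T (4 * ⌊β⌋₊) hA
  have hT2 : T.card ≤ (4 * ⌊β⌋₊) * (⌊β⌋₊ * 30 ^ n.primeFactors.card) :=
    hT1.trans (Nat.mul_le_mul_left _ hP)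
  have hfl : ((⌊β⌋₊ : ℕ) : ℝ) ≤ β := Nat.floor_le hβ0
  have hT3 : (T.card : ℝ) ≤ (4 * (⌊β⌋₊ : ℝ)) * ((⌊β⌋₊ : ℝ) * 30 ^ n.primeFactors.card) := by
    exact_mod_cast hT2
  refine hT3.trans ?_
  have h0 : (0 : ℝ) ≤ (⌊β⌋₊ : ℝ) := Nat.cast_nonneg _
  have h30 : (0 : ℝ) ≤ 30 ^ n.primeFactors.card := by positivity
  have h6 : (⌊β⌋₊ : ℝ) * (⌊β⌋₊ : ℝ) ≤ β ^ 2 := by nlinarith
  calc (4 * (⌊β⌋₊ : ℝ)) * ((⌊β⌋₊ : ℝ) * 30 ^ n.primeFactors.card)
      = (4 * 30 ^ n.primeFactors.card) * ((⌊β⌋₊ : ℝ) * (⌊β⌋₊ : ℝ)) := by ring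
    _ ≤ (4 * 30 ^ n.primeFactors.card) * β ^ 2 := by
        apply mul_le_mul_of_nonneg_left h6
        positivity

end Pool.Agent.T2h80.L5
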