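import Mathlib
import Pool.Agent.T2h80.L5.Stm
import Pool.Agent.TH915.PW.APCount

/-!
# PRI (helper37)
-/

set_option autoImplicit false
set_option linter.all false

namespace Pool.Agent.T2h80.L5

open Finset Filter

theorem t_PRI : S_PRI := by
  intro ε hε
  set ι : ℝ := min (ε / 4) (1 / 2) with hι
  have hι0 : 0 < ι := lt_min (by positivity) (by norm_num)
  have hι1 : ι ≤ ε / 4 := min_le_left _ _
  have hι2 : ι ≤ 1 / 2 := min_le_right _ _
  have h1 := Pool.Agent.TH915.PW.card_primes 1 one_pos 0 (Nat.coprime_one_right 0) 1 ι one_pos le_rfl hι0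
  have h2 : ∀ᶠ V : ℕ in atTop, (2 : ℝ) ≤ (V : ℝ) ^ (ε / 2) :=
    ((tendsto_rpow_atTop (by positivity : (0 : ℝ) < ε / 2)).comp tendsto_natCast_atTop_atTop).eventually
      (eventually_ge_atTop 2)
  obtain ⟨V₀, hV₀⟩ := eventually_atTop.1 ((tendsto_natCast_atTop_atTop.eventually h1).and (h2.and (eventually_ge_atTop 4)))
  refine ⟨V₀, fun V hV => ?_⟩
  obtain ⟨h3, h4, h5⟩ := hV₀ V hV
  have hVR : (4 : ℝ) ≤ V := by exact_mod_cast h5
  have hV0 : (0 : ℝ) < V := by linarith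
  have e1 : ⌊(1 + 1) * (V : ℝ)⌋₊ = 2 * V := by
    have : (1 + 1) * (V : ℝ) = ((2 * V : ℕ) : ℝ) := by push_cast; ring
    rw [this, Nat.floor_natCast]
  rw [e1, Nat.floor_natCast] at h3
  have hsub : (Ioc V (2 * V)).filter (fun p => p.Prime ∧ p ≡ 0 [MOD 1]) ⊆ PV V := by
    intro p hp
    rw [Finset.mem_filter, Finset.mem_Ioc] at hp
    rw [PV, Finset.mem_filter, Finset.mem_Ico]
    refine ⟨⟨hp.1.1.le, lt_of_le_of_ne hp.1.2 ?_⟩, hp.2.1⟩
    intro h
    have hp2 := hp.2.1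
    rw [h] at hp2
    have := (Nat.prime_mul_iff.1 hp2)
    rcases this with ⟨-, h⟩ | ⟨-, h⟩
    · omega
    · omega
  have hN : (V : ℝ) ^ (1 - ι) ≤ ((PV V).card : ℝ) :=
    h3.trans (by exact_mod_cast Finset.card_le_card hsub)
  have hPP : PP V = (PV V).offDiag := by
    ext ⟨a, b⟩
    simp only [PP, Finset.mem_filter, Finset.mem_product, Finset.mem_offDiag, and_assoc]
  rw [hPP, Finset.offDiag_card]
  set N : ℕ := (PV V).card with hNd
  have hN2 : (2 : ℝ) ≤ N := by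
    refine le_trans ?_ hN
    calc (2 : ℝ) = (4 : ℝ) ^ (1 / 2 : ℝ) := by
          rw [show (4 : ℝ) = 2 ^ (2 : ℝ) by norm_num, ← Real.rpow_mul (by norm_num)]
          norm_num
      _ ≤ (V : ℝ) ^ (1 / 2 : ℝ) := Real.rpow_le_rpow (by norm_num) hVR (by norm_num)
      _ ≤ (V : ℝ) ^ (1 - ι) := Real.rpow_le_rpow_of_exponent_le (by linarith) (by linarith)
  have hNN : N ≤ N * N := by
    have : 1 ≤ N := by
      have : (1 : ℝ) ≤ N := by linarith
      exact_mod_cast this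
    nlinarith
  rw [Nat.cast_sub hNN]
  push_cast
  have h6 : (V : ℝ) ^ (2 - ε) * 2 ≤ (N : ℝ) * N := by
    calc (V : ℝ) ^ (2 - ε) * 2 ≤ (V : ℝ) ^ (2 - ε) * (V : ℝ) ^ (ε / 2) := by
          gcongr
      _ = (V : ℝ) ^ (2 - ε / 2) := by
          rw [← Real.rpow_add hV0]
          congr 1
          ring
      _ ≤ (V : ℝ) ^ ((1 - ι) + (1 - ι)) := Real.rpow_le_rpow_of_exponent_le (by linarith) (by linarith)
      _ = (V : ℝ) ^ (1 - ι) * (V : ℝ) ^ (1 - ι) := Real.rpow_add hV0 _ _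
      _ ≤ (N : ℝ) * N := by
          have : (0 : ℝ) ≤ (V : ℝ) ^ (1 - ι) := by positivity
          gcongr
  nlinarith

end Pool.Agent.T2h80.L5
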