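import Pool.Agent.T2h80.L5.Stm

/-!
# RNC: the residue classes modulo `n`
-/

set_option autoImplicit false

namespace Pool.Agent.T2h80.L5

theorem t_RNC (hRNP : S_RNP) : S_RNC := by
  classical
  intro c n hn
  choose χ hχ using fun p : n.primeFactors =>
    hRNP c p.1 (n.factorization p.1) (Nat.prime_of_mem_primeFactors p.2)
  have hcard : Fintype.card (n.primeFactors → Fin 30) = 30 ^ n.primeFactors.card := by
    rw [Fintype.card_fun, Fintype.card_fin, Fintype.card_coe]
  let e := Fintype.equivFinOfCardEq hcard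
  refine ⟨fun z => e fun p => χ p z, fun z z' h1 h2 h3 h4 h => ?_⟩
  have h5 : ∀ p : n.primeFactors, χ p z = χ p z' := fun p => congrFun (e.injective h) p
  rw [Int.natCast_dvd, Nat.dvd_iff_prime_pow_dvd_dvd]
  intro p k hp hk
  rcases Nat.eq_zero_or_pos k with rfl | hk0
  · simp
  have hpn : p ∣ n := (dvd_pow_self p (by omega)).trans hk
  have hpm : p ∈ n.primeFactors := Nat.mem_primeFactors.2 ⟨hp, hpn, hn.ne'⟩
  have hle : k ≤ n.factorization p := (hp.pow_dvd_iff_le_factorization hn.ne').1 hk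
  have hpf : ((p ^ n.factorization p : ℕ) : ℤ) ∣ (n : ℤ) := by
    exact_mod_cast Nat.ordProj_dvd n p
  have hnd : ∀ a : ℤ, IsCoprime (n : ℤ) a → ¬ (p : ℤ) ∣ a := by
    intro a ha hcon
    have hpn' : (p : ℤ) ∣ n := by exact_mod_cast hpn
    have h6 := ha.isUnit_of_dvd' hpn' hcon
    rw [Int.isUnit_iff] at h6
    have := hp.two_le
    omega
  have h6 := hχ ⟨p, hpm⟩ z z' (hpf.trans h1) (hpf.trans h2) (hnd _ h3) (hnd _ h4) (h5 ⟨p, hpm⟩)
  rw [← Int.natCast_dvd]
  refine dvd_trans ?_ h6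
  exact_mod_cast pow_dvd_pow p hle

end Pool.Agent.T2h80.L5
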