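import Pool.Agent.T2h80.L5.Stm

/-!
# RNP: the residue classes modulo a prime power
-/

set_option autoImplicit false

namespace Pool.Agent.T2h80.L5

namespace RNPx

/-- first coordinate of the fifth power -/
def R5 (c x y : ℤ) : ℤ := x ^ 5 - 10 * c * x ^ 3 * y ^ 2 - 10 * c * x ^ 2 * y ^ 3 +
  5 * (c ^ 2 - c) * x * y ^ 4 + (2 * c ^ 2 - c) * y ^ 5

theorem key (c x y x' y' : ℤ) :
    I5 c (x * (x' + y') + c * y * y') (x' * y - x * y') =
      R5 c x' y' * I5 c x y - R5 c x y * I5 c x' y' := by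
  unfold I5 R5
  ring

theorem key_norm (c x y x' y' : ℤ) :
    (x * (x' + y') + c * y * y') ^ 2 + (x * (x' + y') + c * y * y') * (x' * y - x * y') +
      c * (x' * y - x * y') ^ 2 =
      (x ^ 2 + x * y + c * y ^ 2) * (x' ^ 2 + x' * y' + c * y' ^ 2) := by
  ring

/-- the good vectors -/
def Good (c : ℤ) (p k : ℕ) (z : ℤ × ℤ) : Prop :=
  ((p ^ k : ℕ) : ℤ) ∣ I5 c z.1 z.2 ∧ ¬ (p : ℤ) ∣ z.1 ^ 2 + z.1 * z.2 + c * z.2 ^ 2

theorem lift5 {c : ℤ} {p k : ℕ} (hp : p.Prime) {z z' : ℤ × ℤ} (hz : Good c p k z)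
    (hz' : Good c p k z') (hD : (p : ℤ) ∣ z.1 * z'.2 - z'.1 * z.2) :
    (p ≠ 5 → (p : ℤ) ^ k ∣ z.1 * z'.2 - z'.1 * z.2) ∧
    (p = 5 → (5 : ℤ) ^ k ∣ 5 * (z.1 * z'.2 - z'.1 * z.2)) := by
  have hpp : Prime (p : ℤ) := Nat.prime_iff_prime_int.1 hp
  obtain ⟨x, y⟩ := z
  obtain ⟨x', y'⟩ := z'
  obtain ⟨h1, h2⟩ := hz
  obtain ⟨h1', h2'⟩ := hz'
  dsimp only at *
  obtain ⟨X, hX⟩ : ∃ X, X = x * (x' + y') + c * y * y' := ⟨_, rfl⟩
  obtain ⟨Y, hY⟩ : ∃ Y, Y = x' * y - x * y' := ⟨_, rfl⟩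
  have e1 := key c x y x' y'
  have e2 := key_norm c x y x' y'
  rw [← hX, ← hY] at e1 e2
  have hYD : Y = -(x * y' - x' * y) := by rw [hY]; ring
  have hpY : (p : ℤ) ∣ Y := by rw [hYD]; exact (dvd_neg).2 hD
  have hpX : ¬ (p : ℤ) ∣ X := by
    intro hcon
    have h3 : (p : ℤ) ∣ (x ^ 2 + x * y + c * y ^ 2) * (x' ^ 2 + x' * y' + c * y' ^ 2) := by
      rw [← e2]
      exact dvd_add (dvd_add (Dvd.dvd.pow hcon two_ne_zero) (Dvd.dvd.mul_right hcon _))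
        (Dvd.dvd.mul_left (Dvd.dvd.pow hpY two_ne_zero) _)
    rcases hpp.dvd_or_dvd h3 with h | h
    · exact h2 h
    · exact h2' h
  have hdiv : (p : ℤ) ^ k ∣ I5 c X Y := by
    rw [e1]
    push_cast at h1 h1'
    exact dvd_sub (Dvd.dvd.mul_left h1 _) (Dvd.dvd.mul_left h1' _)
  constructor
  · intro h5
    have hB : ¬ (p : ℤ) ∣ 5 * X ^ 4 + Y * (10 * X ^ 3 + 10 * (1 - c) * X ^ 2 * Y +
        5 * (1 - 2 * c) * X * Y ^ 2 + (1 - 3 * c + c ^ 2) * Y ^ 3) := by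
      intro hcon
      have h3 : (p : ℤ) ∣ 5 * X ^ 4 := (dvd_add_left (Dvd.dvd.mul_right hpY _)).1 hcon
      rcases hpp.dvd_or_dvd h3 with h | h
      · have h4 : p ∣ 5 := by exact_mod_cast h
        exact h5 ((Nat.prime_dvd_prime_iff_eq hp Nat.prime_five).1 h4)
      · exact hpX (hpp.dvd_of_dvd_pow h)
    have h6 : (p : ℤ) ^ k ∣ Y := by
      refine hpp.pow_dvd_of_dvd_mul_right k hB ?_
      have e3 : Y * (5 * X ^ 4 + Y * (10 * X ^ 3 + 10 * (1 - c) * X ^ 2 * Y +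
        5 * (1 - 2 * c) * X * Y ^ 2 + (1 - 3 * c + c ^ 2) * Y ^ 3)) = I5 c X Y := by
        unfold I5
        ring
      rw [e3]
      exact hdiv
    rw [hYD] at h6
    exact (dvd_neg).1 h6
  · intro h5
    subst h5
    obtain ⟨Y', hY'⟩ := hpY
    have hY5 : (5 : ℤ) ∣ Y := ⟨Y', by rw [hY']; norm_num⟩
    have hp5 : Prime (5 : ℤ) := by exact_mod_cast hpp
    have hX5 : ¬ (5 : ℤ) ∣ X := by exact_mod_cast hpX
    have hB : ¬ (5 : ℤ) ∣ X ^ 4 + Y * (2 * X ^ 3 + 2 * (1 - c) * X ^ 2 * Y +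
        (1 - 2 * c) * X * Y ^ 2 + (1 - 3 * c + c ^ 2) * Y' * Y ^ 2) := by
      intro hcon
      have h3 : (5 : ℤ) ∣ X ^ 4 := (dvd_add_left (Dvd.dvd.mul_right hY5 _)).1 hcon
      exact hX5 (hp5.dvd_of_dvd_pow h3)
    have h6 : (5 : ℤ) ^ k ∣ 5 * Y := by
      refine hp5.pow_dvd_of_dvd_mul_right k hB ?_
      have e3 : 5 * Y * (X ^ 4 + Y * (2 * X ^ 3 + 2 * (1 - c) * X ^ 2 * Y +
        (1 - 2 * c) * X * Y ^ 2 + (1 - 3 * c + c ^ 2) * Y' * Y ^ 2)) = I5 c X Y := by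
        have e4 : Y = 5 * Y' := by rw [hY']; norm_num
        unfold I5
        have e5 : 5 * Y' = Y := e4.symm
        calc 5 * Y * (X ^ 4 + Y * (2 * X ^ 3 + 2 * (1 - c) * X ^ 2 * Y +
              (1 - 2 * c) * X * Y ^ 2 + (1 - 3 * c + c ^ 2) * Y' * Y ^ 2))
            = 5 * X ^ 4 * Y + 10 * X ^ 3 * Y ^ 2 + 10 * (1 - c) * X ^ 2 * Y ^ 3 +
              5 * (1 - 2 * c) * X * Y ^ 4 + (1 - 3 * c + c ^ 2) * (5 * Y') * Y ^ 4 := by ring
          _ = _ := by rw [e5]; ring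
      rw [e3]
      exact_mod_cast hdiv
    rw [hYD] at h6
    have e7 : 5 * -(x * y' - x' * y) = -(5 * (x * y' - x' * y)) := by ring
    rw [e7] at h6
    exact (dvd_neg).1 h6

/-- colours in a small finite type are enough -/
theorem toFin {α : Type} [Fintype α] {m : ℕ} (h : Fintype.card α ≤ m) :
    ∃ f : α → Fin m, Function.Injective f := by
  have h' : Fintype.card α ≤ Fintype.card (Fin m) := by simpa using h
  obtain ⟨f⟩ := Function.Embedding.nonempty_of_card_le h'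
  exact ⟨f, f.injective⟩

open Polynomial in
theorem coeff4 {R : Type} [CommRing R] (a b c d e : R) :
    (C a * X ^ 4 + C b * X ^ 3 + C c * X ^ 2 + C d * X + C e : R[X]).coeff 4 = a := by
  rw [coeff_add, coeff_add, coeff_add, coeff_add, coeff_C_mul, coeff_C_mul, coeff_C_mul,
    coeff_C_mul, coeff_X_pow, coeff_X_pow, coeff_X_pow, coeff_X, coeff_C]
  norm_num

open Polynomial in
theorem main_ne {c : ℤ} {p k : ℕ} (hp : p.Prime) (hp5 : p ≠ 5) (hk : k ≠ 0) :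
    ∃ χ : ℤ × ℤ → Fin 30, ∀ z z' : ℤ × ℤ, Good c p k z → Good c p k z' → χ z = χ z' →
      (p : ℤ) ^ k ∣ z.1 * z'.2 - z'.1 * z.2 := by
  classical
  haveI : Fact p.Prime := ⟨hp⟩
  have h5 : (5 : ZMod p) ≠ 0 := by
    intro hcon
    have h1 : ((5 : ℕ) : ZMod p) = 0 := by exact_mod_cast hcon
    rw [ZMod.natCast_eq_zero_iff] at h1
    exact hp5 ((Nat.prime_dvd_prime_iff_eq hp Nat.prime_five).1 h1)
  let f : (ZMod p)[X] := C 5 * X ^ 4 + C 10 * X ^ 3 + C (10 * (1 - (c : ZMod p))) * X ^ 2 +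
    C (5 * (1 - 2 * (c : ZMod p))) * X + C (1 - 3 * (c : ZMod p) + (c : ZMod p) ^ 2)
  have hdeg : f.natDegree ≤ 4 := by
    show (C 5 * X ^ 4 + C 10 * X ^ 3 + C (10 * (1 - (c : ZMod p))) * X ^ 2 +
      C (5 * (1 - 2 * (c : ZMod p))) * X + C (1 - 3 * (c : ZMod p) + (c : ZMod p) ^ 2) :
        (ZMod p)[X]).natDegree ≤ 4
    compute_degree
  have hc4 : f.coeff 4 = 5 := by
    show (C 5 * X ^ 4 + C 10 * X ^ 3 + C (10 * (1 - (c : ZMod p))) * X ^ 2 +
      C (5 * (1 - 2 * (c : ZMod p))) * X + C (1 - 3 * (c : ZMod p) + (c : ZMod p) ^ 2) :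
        (ZMod p)[X]).coeff 4 = 5
    exact coeff4 _ _ _ _ _
  have hf0 : f ≠ 0 := by
    intro hcon
    rw [hcon, coeff_zero] at hc4
    exact h5 hc4.symm
  have hcard : Fintype.card (Option {t // t ∈ f.roots.toFinset}) ≤ 30 := by
    rw [Fintype.card_option, Fintype.card_coe]
    have h1 := Multiset.toFinset_card_le f.roots
    have h2 := card_roots' f
    omega
  obtain ⟨g, hg⟩ := toFin hcard
  let χ : ℤ × ℤ → Option {t // t ∈ f.roots.toFinset} := fun z =>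
    if (z.2 : ZMod p) = 0 then none else
      if h : (z.1 : ZMod p) / z.2 ∈ f.roots.toFinset then some ⟨_, h⟩ else none
  have hroot : ∀ z : ℤ × ℤ, Good c p k z → (z.2 : ZMod p) ≠ 0 →
      (z.1 : ZMod p) / z.2 ∈ f.roots.toFinset := by
    intro z hz hy
    rw [Multiset.mem_toFinset, mem_roots hf0, IsRoot.def]
    have h1 : ((I5 c z.1 z.2 : ℤ) : ZMod p) = 0 := by
      rw [ZMod.intCast_zmod_eq_zero_iff_dvd]
      refine dvd_trans ?_ hz.1
      push_cast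
      exact dvd_pow_self _ hk
    unfold I5 at h1
    push_cast at h1
    show eval _ (C 5 * X ^ 4 + C 10 * X ^ 3 + C (10 * (1 - (c : ZMod p))) * X ^ 2 +
      C (5 * (1 - 2 * (c : ZMod p))) * X + C (1 - 3 * (c : ZMod p) + (c : ZMod p) ^ 2) :
        (ZMod p)[X]) = 0
    simp only [eval_add, eval_mul, eval_C, eval_pow, eval_X]
    have h2 : (z.2 : ZMod p) ^ 5 * (5 * ((z.1 : ZMod p) / z.2) ^ 4 + 10 * ((z.1 : ZMod p) / z.2) ^ 3 +
        10 * (1 - (c : ZMod p)) * ((z.1 : ZMod p) / z.2) ^ 2 +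
        5 * (1 - 2 * (c : ZMod p)) * ((z.1 : ZMod p) / z.2) +
        (1 - 3 * (c : ZMod p) + (c : ZMod p) ^ 2)) = 0 := by
      rw [← h1]
      field_simp
    exact (mul_eq_zero.1 h2).resolve_left (pow_ne_zero _ hy)
  refine ⟨fun z => g (χ z), fun z z' hz hz' he => ?_⟩
  have he' : χ z = χ z' := hg he
  refine (lift5 hp hz hz' ?_).1 hp5
  rw [← ZMod.intCast_zmod_eq_zero_iff_dvd]
  push_cast
  by_cases hy : (z.2 : ZMod p) = 0
  · by_cases hy' : (z'.2 : ZMod p) = 0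
    · rw [hy, hy']; ring
    · exfalso
      have h1 : χ z = none := by simp only [χ, if_pos hy]
      have h2 : χ z' = some ⟨_, hroot z' hz' hy'⟩ := by
        simp only [χ, if_neg hy', dif_pos (hroot z' hz' hy')]
      rw [h1, h2] at he'
      exact absurd he' (by simp)
  · have h1 : χ z = some ⟨_, hroot z hz hy⟩ := by
      simp only [χ, if_neg hy, dif_pos (hroot z hz hy)]
    by_cases hy' : (z'.2 : ZMod p) = 0
    · exfalso
      have h2 : χ z' = none := by simp only [χ, if_pos hy']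
      rw [h1, h2] at he'
      exact absurd he' (by simp)
    · have h2 : χ z' = some ⟨_, hroot z' hz' hy'⟩ := by
        simp only [χ, if_neg hy', dif_pos (hroot z' hz' hy')]
      rw [h1, h2, Option.some_inj, Subtype.mk.injEq, div_eq_div_iff hy hy'] at he'
      rw [he']
      ring

theorem main_five {c : ℤ} {k : ℕ} (hk : k ≠ 0) :
    ∃ χ : ℤ × ℤ → Fin 30, ∀ z z' : ℤ × ℤ, Good c 5 k z → Good c 5 k z' → χ z = χ z' →
      (5 : ℤ) ^ k ∣ z.1 * z'.2 - z'.1 * z.2 := by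
  classical
  haveI : Fact (Nat.Prime 5) := ⟨Nat.prime_five⟩
  have hp5 : Prime (5 : ℤ) := by
    have := Nat.prime_iff_prime_int.1 Nat.prime_five
    exact_mod_cast this
  obtain ⟨m, rfl⟩ : ∃ m, k = m + 1 := ⟨k - 1, by omega⟩
  have hcard : Fintype.card (Option (ZMod 5) × ZMod 5) ≤ 30 := by
    rw [Fintype.card_prod, Fintype.card_option, ZMod.card]
  obtain ⟨g, hg⟩ := toFin hcard
  let cls : ℤ × ℤ → Option (ZMod 5) := fun z =>
    if (z.2 : ZMod 5) = 0 then none else some ((z.1 : ZMod 5) / z.2)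
  let u : ℤ × ℤ → ZMod 5 := fun z => if (z.2 : ZMod 5) = 0 then (z.1 : ZMod 5) else z.2
  let ref : Option (ZMod 5) → ℤ × ℤ := fun κ =>
    if h : ∃ z, Good c 5 (m + 1) z ∧ cls z = κ then h.choose else (0, 0)
  have hu : ∀ z, Good c 5 (m + 1) z → u z ≠ 0 := by
    intro z hz hcon
    by_cases hy : (z.2 : ZMod 5) = 0
    · have h1 : (z.1 : ZMod 5) = 0 := by
        simp only [u, if_pos hy] at hcon
        exact hcon
      apply hz.2
      rw [← ZMod.intCast_zmod_eq_zero_iff_dvd]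
      push_cast
      rw [h1, hy]
      ring
    · simp only [u, if_neg hy] at hcon
      exact hy hcon
  have hpar : ∀ z z', cls z = cls z' →
      (z.1 : ZMod 5) * u z' = z'.1 * u z ∧ (z.2 : ZMod 5) * u z' = z'.2 * u z := by
    intro z z' h
    by_cases hy : (z.2 : ZMod 5) = 0
    · by_cases hy' : (z'.2 : ZMod 5) = 0
      · simp only [u, if_pos hy, if_pos hy', hy, hy']
        exact ⟨by ring, by ring⟩
      · simp only [cls, if_pos hy, if_neg hy'] at h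
        exact absurd h (by simp)
    · by_cases hy' : (z'.2 : ZMod 5) = 0
      · simp only [cls, if_neg hy, if_pos hy'] at h
        exact absurd h (by simp)
      · simp only [cls, if_neg hy, if_neg hy', Option.some_inj, div_eq_div_iff hy hy'] at h
        simp only [u, if_neg hy, if_neg hy']
        exact ⟨h, by ring⟩
  have hD : ∀ z z', Good c 5 (m + 1) z → Good c 5 (m + 1) z' → cls z = cls z' →
      (5 : ℤ) ^ m ∣ z.1 * z'.2 - z'.1 * z.2 := by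
    intro z z' hz hz' h
    have h1 : ((5 : ℕ) : ℤ) ∣ z.1 * z'.2 - z'.1 * z.2 := by
      rw [← ZMod.intCast_zmod_eq_zero_iff_dvd]
      push_cast
      obtain ⟨h2, h3⟩ := hpar z z' h
      have h4 : ((z.1 : ZMod 5) * z'.2 - z'.1 * z.2) * (u z * u z') = 0 := by
        linear_combination (z'.2 : ZMod 5) * u z * h2 - (z'.1 : ZMod 5) * u z * h3
      exact (mul_eq_zero.1 h4).resolve_right (mul_ne_zero (hu z hz) (hu z' hz'))
    have h2 := (lift5 Nat.prime_five hz hz' h1).2 rfl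
    rw [pow_succ, mul_comm] at h2
    exact (mul_dvd_mul_iff_left (by norm_num : (5 : ℤ) ≠ 0)).1 h2
  let χ : ℤ × ℤ → Option (ZMod 5) × ZMod 5 := fun z =>
    (cls z, ((((ref (cls z)).1 * z.2 - z.1 * (ref (cls z)).2) / 5 ^ m : ℤ) : ZMod 5) / u z)
  refine ⟨fun z => g (χ z), fun z z' hz hz' he => ?_⟩
  have he' : χ z = χ z' := hg he
  have hcl : cls z = cls z' := congrArg Prod.fst he'
  have h2 : ((((ref (cls z)).1 * z.2 - z.1 * (ref (cls z)).2) / 5 ^ m : ℤ) : ZMod 5) / u z =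
      ((((ref (cls z')).1 * z'.2 - z'.1 * (ref (cls z')).2) / 5 ^ m : ℤ) : ZMod 5) / u z' :=
    congrArg Prod.snd he'
  rw [← hcl] at h2
  have hex : ∃ w, Good c 5 (m + 1) w ∧ cls w = cls z := ⟨z, hz, rfl⟩
  have hr : Good c 5 (m + 1) (ref (cls z)) ∧ cls (ref (cls z)) = cls z := by
    have : ref (cls z) = hex.choose := by simp only [ref, dif_pos hex]
    rw [this]
    exact hex.choose_spec
  obtain ⟨w, hw⟩ : ∃ w, w = ref (cls z) := ⟨_, rfl⟩
  rw [← hw] at hr h2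
  obtain ⟨δ, hδ⟩ := hD w z hr.1 hz hr.2
  obtain ⟨δ', hδ'⟩ := hD w z' hr.1 hz' (hr.2.trans hcl)
  have h5m : (5 : ℤ) ^ m ≠ 0 := by positivity
  rw [hδ, hδ', Int.mul_ediv_cancel_left _ h5m, Int.mul_ediv_cancel_left _ h5m,
    div_eq_div_iff (hu z hz) (hu z' hz')] at h2
  obtain ⟨q1, q2⟩ := hpar z z' hcl
  have r1 : (5 : ℤ) ∣ δ' * z.1 - δ * z'.1 := by
    have : ((5 : ℕ) : ℤ) ∣ δ' * z.1 - δ * z'.1 := by
      rw [← ZMod.intCast_zmod_eq_zero_iff_dvd]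
      push_cast
      have h4 : ((δ' : ZMod 5) * z.1 - δ * z'.1) * u z' = 0 := by
        linear_combination (δ' : ZMod 5) * q1 - (z'.1 : ZMod 5) * h2
      exact (mul_eq_zero.1 h4).resolve_right (hu z' hz')
    exact_mod_cast this
  have r2 : (5 : ℤ) ∣ δ' * z.2 - δ * z'.2 := by
    have : ((5 : ℕ) : ℤ) ∣ δ' * z.2 - δ * z'.2 := by
      rw [← ZMod.intCast_zmod_eq_zero_iff_dvd]
      push_cast
      have h4 : ((δ' : ZMod 5) * z.2 - δ * z'.2) * u z' = 0 := by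
        linear_combination (δ' : ZMod 5) * q2 - (z'.2 : ZMod 5) * h2
      exact (mul_eq_zero.1 h4).resolve_right (hu z' hz')
    exact_mod_cast this
  have s1 : (5 : ℤ) ^ (m + 1) ∣ (z.1 * z'.2 - z'.1 * z.2) * w.1 := by
    have e : (z.1 * z'.2 - z'.1 * z.2) * w.1 = 5 ^ m * (δ' * z.1 - δ * z'.1) := by
      linear_combination z.1 * hδ' - z'.1 * hδ
    rw [e, pow_succ]
    exact mul_dvd_mul_left _ r1
  have s2 : (5 : ℤ) ^ (m + 1) ∣ (z.1 * z'.2 - z'.1 * z.2) * w.2 := by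
    have e : (z.1 * z'.2 - z'.1 * z.2) * w.2 = 5 ^ m * (δ' * z.2 - δ * z'.2) := by
      linear_combination z.2 * hδ' - z'.2 * hδ
    rw [e, pow_succ]
    exact mul_dvd_mul_left _ r2
  by_cases hw1 : (5 : ℤ) ∣ w.1
  · refine hp5.pow_dvd_of_dvd_mul_right _ (fun hw2 => hr.1.2 ?_) s2
    push_cast
    exact dvd_add (dvd_add (Dvd.dvd.pow hw1 two_ne_zero) (Dvd.dvd.mul_right hw1 _))
      (Dvd.dvd.mul_left (Dvd.dvd.pow hw2 two_ne_zero) _)
  · exact hp5.pow_dvd_of_dvd_mul_right _ hw1 s1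

end RNPx

theorem t_RNP : S_RNP := by
  intro c p k hp
  by_cases hk : k = 0
  · subst hk
    exact ⟨fun _ => 0, fun z z' _ _ _ _ _ => by simp⟩
  by_cases h5 : p = 5
  · subst h5
    obtain ⟨χ, hχ⟩ := RNPx.main_five (c := c) hk
    refine ⟨χ, fun z z' h1 h2 h3 h4 h => ?_⟩
    have := hχ z z' ⟨h1, h3⟩ ⟨h2, h4⟩ h
    push_cast
    exact this
  · obtain ⟨χ, hχ⟩ := RNPx.main_ne (c := c) hp h5 hk
    refine ⟨χ, fun z z' h1 h2 h3 h4 h => ?_⟩
    have := hχ z z' ⟨h1, h3⟩ ⟨h2, h4⟩ h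
    push_cast
    exact this

end Pool.Agent.T2h80.L5
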