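import Pool.Agent.T2h80.L5.Stm

set_option autoImplicit false

namespace Pool.Agent.T2h80.L5

open Finset NumberField Pool.Agent.T2h80.F5

lemma fdp_neg {d : ℕ} (hsq : Squarefree d) (hd : d % 8 = 7) : FDp (-(d : ℤ)) := by
  left
  refine ⟨by omega, by omega, ?_⟩
  rw [← Int.squarefree_natAbs]
  simpa using hsq

lemma sma_term_nonneg (K : ℤ → Type) [∀ D, Field (K D)] [∀ D, NumberField (K D)] (D : ℤ) :
    0 ≤ (Nat.card {c : ClassGroup (𝓞 (K D)) // c ^ 5 = 1} : ℝ) - 1 := by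
  have h : 0 < Nat.card {c : ClassGroup (𝓞 (K D)) // c ^ 5 = 1} := by
    have : Nonempty {c : ClassGroup (𝓞 (K D)) // c ^ 5 = 1} := ⟨⟨1, one_pow 5⟩⟩
    exact Nat.card_pos
  have h' : (1 : ℝ) ≤ (Nat.card {c : ClassGroup (𝓞 (K D)) // c ^ 5 = 1} : ℝ) := by
    exact_mod_cast h
  linarith

theorem t_SMA (hTPN : S_TPN) (hGDV : S_GDV) : S_SMA := by
  classical
  intro ε hε
  obtain ⟨C, hC, hT⟩ := hTPN ε hε
  refine ⟨C, hC, fun K _ _ hK ν V hν hνV T hTT => ?_⟩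
  set Y : ℕ := 144 * 676 ^ 3 * ν ^ 12 * V ^ 4 with hY
  have hch : ∀ x : (ℕ × ℕ) × ℕ × ℕ × ℕ, ∃ p : ℕ × ℕ, x ∈ T →
      Squarefree p.1 ∧ Bel ν V p.1 p.2 1 x ∧ p.2 ≤ ν ^ 5 := by
    intro x
    by_cases hx : x ∈ T
    · obtain ⟨d, F, h1, h2, h3⟩ := hTT x hx
      exact ⟨(d, F), fun _ => ⟨h1, h2, h3⟩⟩
    · exact ⟨(0, 0), fun h => absurd h hx⟩
  choose φ hφ using hch
  set DD : Finset ℕ := (range (Y + 1)).filter (fun d => Squarefree d ∧ d % 8 = 7) with hDD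
  have hmem : ∀ x ∈ T, φ x ∈ DD ×ˢ Icc 1 (ν ^ 5) := by
    intro x hx
    obtain ⟨h1, ⟨a, y₁, y₂, hGT, hg⟩, h3⟩ := hφ x hx
    obtain ⟨⟨v, w⟩, s, t, m⟩ := x
    obtain ⟨hodd, hd8, -⟩ := hGDV ν V v w s t m a _ y₁ y₂ hGT (φ ((v, w), s, t, m)).1
      (φ ((v, w), s, t, m)).2 h1 rfl
    have hDY : (φ ((v, w), s, t, m)).1 * (φ ((v, w), s, t, m)).2 ^ 2 ≤ Y := by
      have := hGT
      simp only [GT] at this
      obtain ⟨_, _, _, _, _, _, _, _, _, _, _, _, _, _, _, _, _, _, _, _, _, _, _, _, _, _, _, h⟩ := this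
      exact h
    have hF : 1 ≤ (φ ((v, w), s, t, m)).2 := hodd.pos
    have hF2 : 1 ≤ (φ ((v, w), s, t, m)).2 ^ 2 := Nat.one_le_pow _ _ hF
    have hd : (φ ((v, w), s, t, m)).1 ≤ Y := le_trans (Nat.le_mul_of_pos_right _ hF2) hDY
    rw [mem_product, hDD, mem_filter, mem_range, mem_Icc]
    exact ⟨⟨by omega, h1, hd8⟩, hF, h3⟩
  have hfib : ∀ p ∈ DD ×ˢ Icc 1 (ν ^ 5), ((T.filter (fun x => φ x = p)).card : ℝ) ≤
      C * ((ν : ℝ) * V) ^ ε *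
        ((Nat.card {c : ClassGroup (𝓞 (K (-(p.1 : ℤ)))) // c ^ 5 = 1} : ℝ) - 1) := by
    intro p hp
    rw [mem_product, hDD, mem_filter, mem_range, mem_Icc] at hp
    obtain ⟨⟨_, hsq, hd8⟩, _, hF⟩ := hp
    have hfd := hK (-(p.1 : ℤ)) (by omega) (fdp_neg hsq hd8)
    refine hT (K (-(p.1 : ℤ))) p.1 hsq hfd.1 hfd.2 ν V p.2 hν hνV hF _ (fun x hx => ?_)
    have hx' := mem_filter.1 hx
    have := (hφ x hx'.1).2.1
    rw [hx'.2] at this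
    exact this
  have hcard : (T.card : ℝ) = ∑ p ∈ DD ×ˢ Icc 1 (ν ^ 5), ((T.filter (fun x => φ x = p)).card : ℝ) := by
    exact_mod_cast card_eq_sum_card_fiberwise hmem
  have hB : 0 ≤ C * ((ν : ℝ) * V) ^ ε := by positivity
  rw [hcard]
  obtain ⟨h, hh⟩ : ∃ h : ℤ → ℝ, ∀ D : ℤ,
      ((Nat.card {c : ClassGroup (𝓞 (K D)) // c ^ 5 = 1} : ℝ) - 1) = h D := ⟨_, fun D => rfl⟩
  calc ∑ p ∈ DD ×ˢ Icc 1 (ν ^ 5), ((T.filter (fun x => φ x = p)).card : ℝ)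
      ≤ ∑ p ∈ DD ×ˢ Icc 1 (ν ^ 5), C * ((ν : ℝ) * V) ^ ε * h (-(p.1 : ℤ)) :=
        sum_le_sum (fun p hp => by rw [← hh]; exact hfib p hp)
    _ = (ν : ℝ) ^ 5 * (C * ((ν : ℝ) * V) ^ ε * ∑ d ∈ DD, h (-(d : ℤ))) := by
        rw [sum_product, mul_sum, mul_sum]
        refine sum_congr rfl (fun d _ => ?_)
        dsimp only
        rw [sum_const, Nat.card_Icc, nsmul_eq_mul, Nat.add_sub_cancel]
        push_cast
        ring
    _ ≤ (ν : ℝ) ^ 5 * (C * ((ν : ℝ) * V) ^ ε * AX K (Y + 1)) := by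
        have h1 : ∑ d ∈ DD, h (-(d : ℤ)) ≤ AX K (Y + 1) := by
          unfold AX
          simp only [hh]
          rw [← sum_image (s := DD) (g := fun d : ℕ => -(d : ℤ)) (f := h)
            (fun x _ y _ h => by
              have h' : -(x : ℤ) = -(y : ℤ) := h
              omega)]
          refine sum_le_sum_of_subset_of_nonneg ?_ (fun D _ _ => by rw [← hh]; exact sma_term_nonneg K D)
          intro D hD
          rw [mem_image] at hD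
          obtain ⟨d, hd, rfl⟩ := hD
          rw [hDD, mem_filter, mem_range] at hd
          rw [mem_filter, mem_Ioo]
          refine ⟨⟨by push_cast; omega, by omega⟩, fdp_neg hd.2.1 hd.2.2⟩
        gcongr
    _ = C * ((ν : ℝ) * V) ^ ε * (ν : ℝ) ^ 5 * AX K (Y + 1) := by ring

end Pool.Agent.T2h80.L5
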