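import Pool.Agent.T2h80.L5.Stm

set_option autoImplicit false

namespace Pool.Agent.T2h80.L5

open Finset NumberField Pool.Agent.T2h80.F5

lemma smb_fdp_neg {d : ℕ} (hsq : Squarefree d) (hd : d % 8 = 7) : FDp (-(d : ℤ)) := by
  left
  refine ⟨by omega, by omega, ?_⟩
  rw [← Int.squarefree_natAbs]
  simpa using hsq

/-- splitting off the part composed of primes of `g` -/
lemma smb_split (g : ℕ) (hg : 0 < g) : ∀ f : ℕ, 0 < f → ∃ n f₂ : ℕ, f = n * f₂ ∧ 0 < n ∧ 0 < f₂ ∧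
    n.Coprime g ∧ f₂.primeFactors ⊆ g.primeFactors := by
  intro f
  induction f using Nat.strong_induction_on with
  | _ f ih =>
    intro hf
    by_cases hc : f.Coprime g
    · exact ⟨f, 1, by simp, hf, one_pos, hc, by simp⟩
    · obtain ⟨q, hq, hqf, hqg⟩ := Nat.Prime.not_coprime_iff_dvd.1 hc
      obtain ⟨f', rfl⟩ := hqf
      have hf' : 0 < f' := Nat.pos_of_mul_pos_left hf |> fun h => by
        rcases Nat.eq_zero_or_pos f' with h0 | h0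
        · subst h0; simp at hf
        · exact h0
      have hlt : f' < q * f' := by
        have := hq.two_le
        nlinarith
      obtain ⟨n, f₂, h1, h2, h3, h4, h5⟩ := ih f' hlt hf'
      refine ⟨n, q * f₂, by rw [h1]; ring, h2, Nat.mul_pos hq.pos h3, h4, ?_⟩
      rw [Nat.primeFactors_mul hq.ne_zero h3.ne']
      intro r hr
      rw [mem_union] at hr
      rcases hr with hr | hr
      · rw [hq.primeFactors, mem_singleton] at hr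
        subst hr
        exact Nat.mem_primeFactors.2 ⟨hq, hqg, hg.ne'⟩
      · exact h5 hr

lemma smb_harm (R : ℕ) (hR : 1 ≤ R) : ∑ g ∈ Icc 1 R, (1 : ℝ) / g ≤ 1 + Real.log R := by
  have h := harmonic_le_one_add_log R
  have h2 : ((harmonic R : ℚ) : ℝ) = ∑ g ∈ Icc 1 R, (1 : ℝ) / g := by
    rw [harmonic_eq_sum_Icc]
    push_cast
    exact sum_congr rfl (fun g _ => by rw [one_div])
  rw [← h2]; exact h

theorem t_SMB (hTPL : S_TPL) (hGDV : S_GDV) (hFIN : S_FIN) (hSMO : S_SMO) (_hDIV : S_DIV) :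
    S_SMB := by
  classical
  intro ε hε
  set δ : ℝ := ε / 61 with hδ
  have hδ0 : 0 < δ := by rw [hδ]; positivity
  obtain ⟨C₁, hC₁, hT⟩ := hTPL δ hδ0
  obtain ⟨C₂, hC₂, hF⟩ := hFIN δ hδ0
  obtain ⟨C₃, hC₃, hS⟩ := hSMO δ hδ0
  set c : ℝ := 144 * 676 ^ 3 with hc
  set C₄ : ℝ := 1 + 1 / δ with hC₄
  refine ⟨C₁ * C₂ * 2 ^ (1 + δ) * C₃ * C₄ ^ 2 * c ^ (1 + 4 * δ), by positivity,
    fun K _ _ hK ν V hν hV T hTT => ?_⟩
  set Y : ℕ := 144 * 676 ^ 3 * ν ^ 12 * V ^ 4 with hY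
  have hνR : (1 : ℝ) ≤ ν := by exact_mod_cast hν
  have hVR : (1 : ℝ) ≤ V := by exact_mod_cast hV
  have hYR : (Y : ℝ) = c * (ν : ℝ) ^ 12 * (V : ℝ) ^ 4 := by rw [hY, hc]; push_cast; ring
  have hc1 : (1 : ℝ) ≤ c := by rw [hc]; norm_num
  have hY1 : (1 : ℝ) ≤ Y := by
    rw [hYR]
    have h1 : (1 : ℝ) ≤ (ν : ℝ) ^ 12 := one_le_pow₀ hνR
    have h2 : (1 : ℝ) ≤ (V : ℝ) ^ 4 := one_le_pow₀ hVR
    have h3 : (1 : ℝ) ≤ c * (ν : ℝ) ^ 12 := by nlinarith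
    nlinarith
  have hY1' : 1 ≤ Y := by exact_mod_cast hY1
  set R : ℕ := Nat.sqrt Y with hR
  have hR1 : 1 ≤ R := by rw [hR]; exact Nat.sqrt_pos.2 hY1'
  have hRR : R * R ≤ Y := Nat.sqrt_le Y
  obtain ⟨h, hh⟩ : ∃ h : ℤ → ℝ, ∀ D : ℤ,
      (Nat.card {c : ClassGroup (𝓞 (K D)) // c ^ 5 = 1} : ℝ) = h D := ⟨_, fun D => rfl⟩
  have hh0 : ∀ D, 0 ≤ h D := fun D => by rw [← hh]; positivity
  -- the choice
  have hch : ∀ x : (ℕ × ℕ) × ℕ × ℕ × ℕ, ∃ p : (ℕ × ℕ × ℕ) × ℕ, x ∈ T →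
      Squarefree p.2 ∧ p.2 % 8 = 7 ∧ 0 < p.1.1 ∧ 0 < p.1.2.1 ∧ 0 < p.1.2.2 ∧
      p.1.2.1.Coprime p.1.1 ∧ p.1.2.2.primeFactors ⊆ p.1.1.primeFactors ∧
      Bel ν V p.2 (p.1.1 * p.1.2.1 * p.1.2.2) p.1.1 x ∧ ν ^ 5 < p.1.1 * p.1.2.1 ∧
      p.2 * (p.1.1 * p.1.2.1 * p.1.2.2) ^ 2 ≤ Y := by
    intro x
    by_cases hx : x ∈ T
    · obtain ⟨d, F, g, h1, h2, ⟨f, hf⟩, h3⟩ := hTT x hx
      obtain ⟨⟨v, w⟩, s, t, m⟩ := x
      obtain ⟨a, y₁, y₂, hGT, hg⟩ := h2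
      obtain ⟨hodd, hd8, -⟩ := hGDV ν V v w s t m a _ y₁ y₂ hGT d F h1 rfl
      have hF0 : 0 < F := hodd.pos
      have hg0 : 0 < g := by
        rcases Nat.eq_zero_or_pos g with h0 | h0
        · subst h0; simp at hf; omega
        · exact h0
      have hf0 : 0 < f := by
        rcases Nat.eq_zero_or_pos f with h0 | h0
        · subst h0; simp at hf; omega
        · exact h0
      obtain ⟨n, f₂, e1, e2, e3, e4, e5⟩ := smb_split g hg0 f hf0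
      have hF' : F = g * n * f₂ := by rw [hf, e1]; ring
      refine ⟨((g, n, f₂), d), fun _ => ⟨h1, hd8, hg0, e2, e3, e4, e5, ⟨a, y₁, y₂, ?_, hg⟩, ?_, ?_⟩⟩
      · show GT ν V ((v, w), s, t, m) a (d * (g * n * f₂) ^ 2) y₁ y₂
        rw [← hF']; exact hGT
      · show ν ^ 5 < g * n
        rcases h3 with ⟨h3, h4⟩ | h3
        · have hf₂ : f₂ = 1 := by
            rw [h3] at e5
            simp only [Nat.primeFactors_one, subset_empty, Nat.primeFactors_eq_empty] at e5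
            omega
          rw [hf₂, mul_one] at hF'
          omega
        · exact lt_of_lt_of_le h3 (Nat.le_mul_of_pos_right _ e2)
      · show d * (g * n * f₂) ^ 2 ≤ Y
        rw [← hF']
        have := hGT
        simp only [GT] at this
        obtain ⟨_, _, _, _, _, _, _, _, _, _, _, _, _, _, _, _, _, _, _, _, _, _, _, _, _, _, _, h⟩ := this
        exact h
    · exact ⟨((0, 0, 0), 0), fun h => absurd h hx⟩
  choose φ hφ using hch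
  obtain ⟨I, hI⟩ : ∃ I : Finset (ℕ × ℕ × ℕ), I = (Icc 1 R ×ˢ Icc 1 R ×ˢ Icc 1 R).filter
    (fun p => p.2.1.Coprime p.1 ∧ p.2.2.primeFactors ⊆ p.1.primeFactors ∧ ν ^ 5 < p.1 * p.2.1) :=
    ⟨_, rfl⟩
  obtain ⟨DD, hDD⟩ : ∃ DD : Finset ℕ, DD = (range (Y + 1)).filter
    (fun d => Squarefree d ∧ d % 8 = 7) := ⟨_, rfl⟩
  obtain ⟨J, hJ⟩ : ∃ J : Finset ((ℕ × ℕ × ℕ) × ℕ), J = (I ×ˢ DD).filter
    (fun p => p.2 * (p.1.1 * p.1.2.1 * p.1.2.2) ^ 2 ≤ Y) := ⟨_, rfl⟩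
  have hmem : ∀ x ∈ T, φ x ∈ J := by
    intro x hx
    obtain ⟨h1, h2, h3, h4, h5, h6, h7, h8, h9, h10⟩ := hφ x hx
    have hd1 : 1 ≤ (φ x).2 := by omega
    have hs1 : 1 ≤ (φ x).1.1 * (φ x).1.2.1 * (φ x).1.2.2 := Nat.mul_pos (Nat.mul_pos h3 h4) h5
    have hsR : (φ x).1.1 * (φ x).1.2.1 * (φ x).1.2.2 ≤ R := by
      rw [hR, Nat.le_sqrt']
      exact le_trans (Nat.le_mul_of_pos_left _ hd1) h10
    have a1 : (φ x).1.1 ≤ (φ x).1.1 * (φ x).1.2.1 * (φ x).1.2.2 := by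
      rw [mul_assoc]; exact Nat.le_mul_of_pos_right _ (Nat.mul_pos h4 h5)
    have a2 : (φ x).1.2.1 ≤ (φ x).1.1 * (φ x).1.2.1 * (φ x).1.2.2 := by
      calc (φ x).1.2.1 ≤ (φ x).1.1 * (φ x).1.2.1 := Nat.le_mul_of_pos_left _ h3
        _ ≤ _ := Nat.le_mul_of_pos_right _ h5
    have a3 : (φ x).1.2.2 ≤ (φ x).1.1 * (φ x).1.2.1 * (φ x).1.2.2 :=
      Nat.le_mul_of_pos_left _ (Nat.mul_pos h3 h4)
    have hdY : (φ x).2 ≤ Y := le_trans (Nat.le_mul_of_pos_right _ (Nat.pow_pos hs1)) h10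
    rw [hJ, mem_filter, mem_product, hI, mem_filter, mem_product, mem_product, mem_Icc, mem_Icc,
      mem_Icc, hDD, mem_filter, mem_range]
    exact ⟨⟨⟨⟨⟨h3, a1.trans hsR⟩, ⟨h4, a2.trans hsR⟩, ⟨h5, a3.trans hsR⟩⟩, h6, h7, h9⟩,
      by omega, h1, h2⟩, h10⟩
  have hfib : ∀ p ∈ J, ((T.filter (fun x => φ x = p)).card : ℝ) ≤
      C₁ * ((ν : ℝ) * V) ^ δ * (p.1.2.2 : ℝ) ^ 2 * h (-(p.2 : ℤ)) := by
    intro p hp
    rw [hJ, mem_filter, mem_product, hI, mem_filter, mem_product, mem_product, mem_Icc, mem_Icc,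
      mem_Icc, hDD, mem_filter, mem_range] at hp
    obtain ⟨⟨⟨⟨⟨b1, _⟩, ⟨b2, _⟩, ⟨b3, _⟩⟩, b4, b5, b6⟩, b7, b8, b9⟩, b10⟩ := hp
    have hfd := hK (-(p.2 : ℤ)) (by omega) (smb_fdp_neg b8 b9)
    rw [← hh]
    refine hT (K (-(p.2 : ℤ))) p.2 b8 hfd.1 hfd.2 ν V p.1.1 p.1.2.1 p.1.2.2 hν hV b4 b5 b3 _
      (fun x hx => ?_)
    have hx' := mem_filter.1 hx
    have := (hφ x hx'.1).2.2.2.2.2.2.2.1
    rw [hx'.2] at this
    exact this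
  -- the sum over d
  have hd : ∀ s : ℕ, 1 ≤ s → ∑ d ∈ DD.filter (fun d => d * s ^ 2 ≤ Y), h (-(d : ℤ)) ≤
      C₂ * (2 * (Y : ℝ)) ^ (1 + δ) / (s : ℝ) ^ 2 := by
    intro s hs
    have hsR : (1 : ℝ) ≤ s := by exact_mod_cast hs
    by_cases hsY : s ^ 2 ≤ Y
    · set X' : ℕ := Y / s ^ 2 + 1 with hX'
      have h1 : ∑ d ∈ DD.filter (fun d => d * s ^ 2 ≤ Y), h (-(d : ℤ)) ≤
          C₂ * (X' : ℝ) ^ (1 + δ) := by
        refine le_trans ?_ (hF X' (by rw [hX']; exact Nat.le_add_left 1 _) K hK)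
        simp only [hh]
        rw [← sum_image (s := DD.filter (fun d => d * s ^ 2 ≤ Y)) (g := fun d : ℕ => -(d : ℤ)) (f := h)
          (fun x _ y _ h => by
            have h' : -(x : ℤ) = -(y : ℤ) := h
            omega)]
        refine sum_le_sum_of_subset_of_nonneg ?_ (fun D _ _ => hh0 D)
        intro D hD
        rw [mem_image] at hD
        obtain ⟨d, hd, rfl⟩ := hD
        rw [mem_filter, hDD, mem_filter, mem_range] at hd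
        obtain ⟨⟨_, hd1, hd2⟩, hd3⟩ := hd
        have hd4 : d ≤ Y / s ^ 2 := by
          rw [Nat.le_div_iff_mul_le (by positivity)]; exact hd3
        rw [mem_filter, mem_Ioo]
        refine ⟨⟨?_, by omega⟩, smb_fdp_neg hd1 hd2⟩
        rw [hX']; push_cast
        have : (d : ℤ) ≤ ((Y / s ^ 2 : ℕ) : ℤ) := by exact_mod_cast hd4
        push_cast at this
        linarith
      refine le_trans h1 ?_
      have hX2 : (X' : ℝ) ≤ 2 * Y / (s : ℝ) ^ 2 := by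
        have h2 : ((Y / s ^ 2 : ℕ) : ℝ) ≤ (Y : ℝ) / ((s ^ 2 : ℕ) : ℝ) := Nat.cast_div_le
        have h3 : (1 : ℝ) ≤ (Y : ℝ) / ((s ^ 2 : ℕ) : ℝ) := by
          rw [le_div_iff₀ (by positivity)]
          rw [one_mul]; exact_mod_cast hsY
        have h4 : (X' : ℝ) = ((Y / s ^ 2 : ℕ) : ℝ) + 1 := by rw [hX']; push_cast; ring
        rw [h4]
        have h5 : 2 * (Y : ℝ) / (s : ℝ) ^ 2 = (Y : ℝ) / ((s ^ 2 : ℕ) : ℝ) + (Y : ℝ) / ((s ^ 2 : ℕ) : ℝ) := by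
          push_cast; ring
        rw [h5]; linarith
      have h6 : (X' : ℝ) ^ (1 + δ) ≤ (2 * (Y : ℝ)) ^ (1 + δ) / (s : ℝ) ^ 2 := by
        calc (X' : ℝ) ^ (1 + δ) ≤ (2 * Y / (s : ℝ) ^ 2) ^ (1 + δ) :=
              Real.rpow_le_rpow (by positivity) hX2 (by linarith)
          _ = (2 * (Y : ℝ)) ^ (1 + δ) / ((s : ℝ) ^ 2) ^ (1 + δ) := by
              rw [Real.div_rpow (by positivity) (by positivity)]
          _ ≤ (2 * (Y : ℝ)) ^ (1 + δ) / (s : ℝ) ^ 2 := by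
              have h7 : (s : ℝ) ^ 2 ≤ ((s : ℝ) ^ 2) ^ (1 + δ) := by
                calc (s : ℝ) ^ 2 = ((s : ℝ) ^ 2) ^ (1 : ℝ) := (Real.rpow_one _).symm
                  _ ≤ ((s : ℝ) ^ 2) ^ (1 + δ) :=
                    Real.rpow_le_rpow_of_exponent_le (one_le_pow₀ hsR) (by linarith)
              gcongr
      calc C₂ * (X' : ℝ) ^ (1 + δ) ≤ C₂ * ((2 * (Y : ℝ)) ^ (1 + δ) / (s : ℝ) ^ 2) := by gcongr
        _ = C₂ * (2 * (Y : ℝ)) ^ (1 + δ) / (s : ℝ) ^ 2 := by ring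
    · have h1 : DD.filter (fun d => d * s ^ 2 ≤ Y) = ∅ := by
        refine filter_eq_empty_iff.2 (fun d hd hcon => hsY ?_)
        rw [hDD, mem_filter] at hd
        have : 1 ≤ d := by omega
        exact le_trans (Nat.le_mul_of_pos_left _ this) hcon
      rw [h1, sum_empty]
      positivity
  -- assembling
  have hcard : (T.card : ℝ) = ∑ p ∈ J, ((T.filter (fun x => φ x = p)).card : ℝ) := by
    exact_mod_cast card_eq_sum_card_fiberwise hmem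
  have hstep1 : (T.card : ℝ) ≤ C₁ * ((ν : ℝ) * V) ^ δ * ∑ q ∈ I, (q.2.2 : ℝ) ^ 2 *
      ∑ d ∈ DD.filter (fun d => d * (q.1 * q.2.1 * q.2.2) ^ 2 ≤ Y), h (-(d : ℤ)) := by
    rw [hcard]
    calc ∑ p ∈ J, ((T.filter (fun x => φ x = p)).card : ℝ)
        ≤ ∑ p ∈ J, C₁ * ((ν : ℝ) * V) ^ δ * (p.1.2.2 : ℝ) ^ 2 * h (-(p.2 : ℤ)) := sum_le_sum hfib
      _ = _ := by
          rw [hJ, sum_filter, sum_product, mul_sum]
          refine sum_congr rfl (fun q _ => ?_)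
          rw [sum_filter, mul_sum, mul_sum]
          refine sum_congr rfl (fun d _ => ?_)
          split_ifs <;> ring
  have hI1 : ∀ q ∈ I, 1 ≤ q.1 ∧ 1 ≤ q.2.1 ∧ 1 ≤ q.2.2 ∧ ν ^ 5 < q.1 * q.2.1 := by
    intro q hq
    rw [hI, mem_filter, mem_product, mem_product, mem_Icc, mem_Icc, mem_Icc] at hq
    exact ⟨hq.1.1.1, hq.1.2.1.1, hq.1.2.2.1, hq.2.2.2⟩
  have hstep2 : ∑ q ∈ I, (q.2.2 : ℝ) ^ 2 *
      ∑ d ∈ DD.filter (fun d => d * (q.1 * q.2.1 * q.2.2) ^ 2 ≤ Y), h (-(d : ℤ)) ≤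
      C₂ * (2 * (Y : ℝ)) ^ (1 + δ) / (ν : ℝ) ^ 5 * ∑ q ∈ I, 1 / ((q.1 : ℝ) * q.2.1) := by
    rw [mul_sum]
    refine sum_le_sum (fun q hq => ?_)
    obtain ⟨c1, c2, c3, c4⟩ := hI1 q hq
    have d1 : (1 : ℝ) ≤ q.1 := by exact_mod_cast c1
    have d2 : (1 : ℝ) ≤ q.2.1 := by exact_mod_cast c2
    have d3 : (1 : ℝ) ≤ q.2.2 := by exact_mod_cast c3
    have d4 : (ν : ℝ) ^ 5 ≤ (q.1 : ℝ) * q.2.1 := by exact_mod_cast c4.le
    have hs := hd (q.1 * q.2.1 * q.2.2) (Nat.mul_pos (Nat.mul_pos c1 c2) c3)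
    calc (q.2.2 : ℝ) ^ 2 *
        ∑ d ∈ DD.filter (fun d => d * (q.1 * q.2.1 * q.2.2) ^ 2 ≤ Y), h (-(d : ℤ))
        ≤ (q.2.2 : ℝ) ^ 2 * (C₂ * (2 * (Y : ℝ)) ^ (1 + δ) / ((q.1 * q.2.1 * q.2.2 : ℕ) : ℝ) ^ 2) := by
          gcongr
      _ = C₂ * (2 * (Y : ℝ)) ^ (1 + δ) * (1 / (((q.1 : ℝ) * q.2.1) * ((q.1 : ℝ) * q.2.1))) := by
          push_cast
          field_simp
      _ ≤ C₂ * (2 * (Y : ℝ)) ^ (1 + δ) * (1 / ((ν : ℝ) ^ 5 * ((q.1 : ℝ) * q.2.1))) := by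
          gcongr
      _ = C₂ * (2 * (Y : ℝ)) ^ (1 + δ) / (ν : ℝ) ^ 5 * (1 / ((q.1 : ℝ) * q.2.1)) := by
          field_simp
  have hRY : (R : ℝ) * R ≤ Y := by exact_mod_cast hRR
  have hRR1 : (1 : ℝ) ≤ R := by exact_mod_cast hR1
  have hRYle : (R : ℝ) ≤ Y := by nlinarith
  have hlogR : 1 + Real.log R ≤ C₄ * (Y : ℝ) ^ δ := by
    have h1 : Real.log R ≤ (R : ℝ) ^ δ / δ := Real.log_le_rpow_div (by linarith) hδ0
    have h2 : (R : ℝ) ^ δ ≤ (Y : ℝ) ^ δ := Real.rpow_le_rpow (by linarith) hRYle hδ0.le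
    have h3 : (1 : ℝ) ≤ (Y : ℝ) ^ δ := Real.one_le_rpow hY1 hδ0.le
    rw [hC₄]
    have h4 : (R : ℝ) ^ δ / δ ≤ (Y : ℝ) ^ δ / δ := by gcongr
    have h5 : (1 + 1 / δ) * (Y : ℝ) ^ δ = (Y : ℝ) ^ δ + (Y : ℝ) ^ δ / δ := by ring
    rw [h5]; linarith
  have hstep3 : ∑ q ∈ I, 1 / ((q.1 : ℝ) * q.2.1) ≤ C₃ * (Y : ℝ) ^ δ * (C₄ * (Y : ℝ) ^ δ) ^ 2 := by
    have h1 : ∑ q ∈ I, 1 / ((q.1 : ℝ) * q.2.1) ≤
        ∑ g ∈ Icc 1 R, ∑ n ∈ Icc 1 R, (1 / (g : ℝ)) * (1 / (n : ℝ)) * (C₃ * (Y : ℝ) ^ δ) := by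
      calc ∑ q ∈ I, 1 / ((q.1 : ℝ) * q.2.1)
          ≤ ∑ q ∈ (Icc 1 R ×ˢ Icc 1 R ×ˢ Icc 1 R).filter
            (fun p => p.2.2.primeFactors ⊆ p.1.primeFactors), 1 / ((q.1 : ℝ) * q.2.1) := by
            refine sum_le_sum_of_subset_of_nonneg ?_ (fun q _ _ => by positivity)
            intro q hq
            rw [hI, mem_filter] at hq
            exact mem_filter.2 ⟨hq.1, hq.2.2.1⟩
        _ = ∑ g ∈ Icc 1 R, ∑ n ∈ Icc 1 R, ∑ f ∈ Icc 1 R,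
            (if f.primeFactors ⊆ g.primeFactors then 1 / ((g : ℝ) * n) else 0) := by
            rw [sum_filter, sum_product]
            refine sum_congr rfl (fun g _ => ?_)
            rw [sum_product]
        _ ≤ _ := by
            refine sum_le_sum (fun g hg => sum_le_sum (fun n hn => ?_))
            rw [mem_Icc] at hg hn
            rw [← sum_filter, sum_const, nsmul_eq_mul]
            have hg1 : (1 : ℝ) ≤ g := by exact_mod_cast hg.1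
            have hn1 : (1 : ℝ) ≤ n := by exact_mod_cast hn.1
            have hgR : (g : ℝ) ≤ R := by exact_mod_cast hg.2
            have h2 := hS g R hg.1 hR1
            have h3 : ((g : ℝ) * R) ^ δ ≤ (Y : ℝ) ^ δ :=
              Real.rpow_le_rpow (by positivity) (by nlinarith) hδ0.le
            calc (((Icc 1 R).filter (fun f => f.primeFactors ⊆ g.primeFactors)).card : ℝ) *
                (1 / ((g : ℝ) * n)) ≤ (C₃ * (Y : ℝ) ^ δ) * (1 / ((g : ℝ) * n)) := by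
                  gcongr
                  exact le_trans h2 (by gcongr)
              _ = (1 / (g : ℝ)) * (1 / (n : ℝ)) * (C₃ * (Y : ℝ) ^ δ) := by
                  field_simp
    refine le_trans h1 ?_
    have h4 : ∑ g ∈ Icc 1 R, ∑ n ∈ Icc 1 R, (1 / (g : ℝ)) * (1 / (n : ℝ)) * (C₃ * (Y : ℝ) ^ δ) =
        C₃ * (Y : ℝ) ^ δ * ((∑ g ∈ Icc 1 R, (1 : ℝ) / g) ^ 2) := by
      rw [sq, sum_mul_sum, mul_sum]
      refine sum_congr rfl (fun g _ => ?_)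
      rw [mul_sum]
      exact sum_congr rfl (fun n _ => by ring)
    rw [h4]
    have h5 : 0 ≤ ∑ g ∈ Icc 1 R, (1 : ℝ) / g := sum_nonneg (fun g _ => by positivity)
    have h6 : ∑ g ∈ Icc 1 R, (1 : ℝ) / g ≤ C₄ * (Y : ℝ) ^ δ := le_trans (smb_harm R hR1) hlogR
    gcongr
  have hYδ : 0 < (Y : ℝ) ^ δ := Real.rpow_pos_of_pos (by linarith) _
  have hfin : (T.card : ℝ) ≤ C₁ * ((ν : ℝ) * V) ^ δ * (C₂ * (2 * (Y : ℝ)) ^ (1 + δ) / (ν : ℝ) ^ 5 *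
      (C₃ * (Y : ℝ) ^ δ * (C₄ * (Y : ℝ) ^ δ) ^ 2)) := by
    refine le_trans hstep1 ?_
    gcongr
    refine le_trans hstep2 ?_
    gcongr
  refine le_trans hfin ?_
  have hY0 : (0 : ℝ) < Y := by linarith
  have e1 : (2 * (Y : ℝ)) ^ (1 + δ) * ((Y : ℝ) ^ δ * ((Y : ℝ) ^ δ) ^ 2) =
      2 ^ (1 + δ) * (Y * (Y : ℝ) ^ (4 * δ)) := by
    have h1 : (Y : ℝ) ^ (4 * δ) = (Y : ℝ) ^ δ * (Y : ℝ) ^ δ * (Y : ℝ) ^ δ * (Y : ℝ) ^ δ := by
      rw [← Real.rpow_add hY0, ← Real.rpow_add hY0, ← Real.rpow_add hY0]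
      congr 1; ring
    rw [Real.mul_rpow (by norm_num) hY0.le, Real.rpow_add hY0, Real.rpow_one, h1]
    ring
  have e2 : (Y : ℝ) ^ (4 * δ) ≤ c ^ (4 * δ) * ((ν : ℝ) * V) ^ (60 * δ) := by
    have h1 : (Y : ℝ) ≤ c * ((ν : ℝ) * V) ^ (12 : ℕ) := by
      rw [hYR, mul_pow]
      have : (V : ℝ) ^ 4 ≤ (V : ℝ) ^ 12 := pow_le_pow_right₀ hVR (by norm_num)
      calc c * (ν : ℝ) ^ 12 * (V : ℝ) ^ 4 ≤ c * (ν : ℝ) ^ 12 * (V : ℝ) ^ 12 := by gcongr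
        _ = c * ((ν : ℝ) ^ 12 * (V : ℝ) ^ 12) := by ring
    have hνV1 : (1 : ℝ) ≤ (ν : ℝ) * V := by nlinarith
    calc (Y : ℝ) ^ (4 * δ) ≤ (c * ((ν : ℝ) * V) ^ (12 : ℕ)) ^ (4 * δ) :=
          Real.rpow_le_rpow hY0.le h1 (by positivity)
      _ = c ^ (4 * δ) * (((ν : ℝ) * V) ^ (12 : ℕ)) ^ (4 * δ) := by
          rw [Real.mul_rpow (by positivity) (by positivity)]
      _ = c ^ (4 * δ) * ((ν : ℝ) * V) ^ (12 * (4 * δ)) := by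
          rw [← Real.rpow_natCast, ← Real.rpow_mul (by positivity)]
          norm_num
      _ ≤ c ^ (4 * δ) * ((ν : ℝ) * V) ^ (60 * δ) := by
          refine mul_le_mul_of_nonneg_left ?_ (by positivity)
          exact Real.rpow_le_rpow_of_exponent_le hνV1 (by linarith)
  have e3 : ((ν : ℝ) * V) ^ δ * ((ν : ℝ) * V) ^ (60 * δ) = ((ν : ℝ) * V) ^ ε := by
    rw [← Real.rpow_add (by positivity)]
    congr 1; rw [hδ]; ring
  calc C₁ * ((ν : ℝ) * V) ^ δ * (C₂ * (2 * (Y : ℝ)) ^ (1 + δ) / (ν : ℝ) ^ 5 *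
      (C₃ * (Y : ℝ) ^ δ * (C₄ * (Y : ℝ) ^ δ) ^ 2))
      = C₁ * C₂ * C₃ * C₄ ^ 2 * ((ν : ℝ) * V) ^ δ *
        ((2 * (Y : ℝ)) ^ (1 + δ) * ((Y : ℝ) ^ δ * ((Y : ℝ) ^ δ) ^ 2)) / (ν : ℝ) ^ 5 := by
        field_simp
    _ = C₁ * C₂ * C₃ * C₄ ^ 2 * ((ν : ℝ) * V) ^ δ *
        (2 ^ (1 + δ) * (Y * (Y : ℝ) ^ (4 * δ))) / (ν : ℝ) ^ 5 := by rw [e1]
    _ ≤ C₁ * C₂ * C₃ * C₄ ^ 2 * ((ν : ℝ) * V) ^ δ *
        (2 ^ (1 + δ) * (Y * (c ^ (4 * δ) * ((ν : ℝ) * V) ^ (60 * δ)))) / (ν : ℝ) ^ 5 := by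
        gcongr
    _ = C₁ * C₂ * 2 ^ (1 + δ) * C₃ * C₄ ^ 2 * (c * c ^ (4 * δ)) *
        (((ν : ℝ) * V) ^ δ * ((ν : ℝ) * V) ^ (60 * δ)) * ((ν : ℝ) ^ 7 * (V : ℝ) ^ 4) := by
        rw [hYR]
        field_simp
    _ = C₁ * C₂ * 2 ^ (1 + δ) * C₃ * C₄ ^ 2 * c ^ (1 + 4 * δ) * ((ν : ℝ) * V) ^ ε *
        ((ν : ℝ) ^ 7 * (V : ℝ) ^ 4) := by
        rw [e3, Real.rpow_add (by positivity : (0 : ℝ) < c), Real.rpow_one]

end Pool.Agent.T2h80.L5
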