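import Pool.Agent.T2h80.L5.ALx

set_option autoImplicit false

/-! Task SPT. -/

namespace Pool.Agent.T2h80.L5

open Finset NumberField Pool.Agent.T2h80.F5

/-- **SPT** -/
theorem t_SPT : S_SPT := by
  intro K _ _ d ω σ h x y n₁ n₂ _ _ hco hn
  exact ALx.spt h _ n₁ n₂ hco hn

end Pool.Agent.T2h80.L5
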