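import Pool.Agent.T2h80.L5.ALx

set_option autoImplicit false

/-! Task SQI. -/

namespace Pool.Agent.T2h80.L5

open Finset NumberField Pool.Agent.T2h80.F5

/-- **SQI** -/
theorem t_SQI (hSPT : S_SPT) : S_SQI := by
  intro K _ _ d ω σ h hd x y n b hn hb hco hnorm hq
  have hth : th d = 1 := ALx.th_one hd
  have hn0 := ALx.n0_eq hd
  obtain ⟨α, hα⟩ : ∃ α, α = el ω x y := ⟨_, rfl⟩
  have hmul : α * σ α = ((n : 𝓞 K) ^ 2) * b := by
    rw [ALx.mul_sig h, hα, hnorm]; push_cast; ring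
  have hdiff : (α - σ α) ^ 2 = -(((d : ℤ) * y ^ 2 : ℤ) : 𝓞 K) := by
    have h1 := h.1
    rw [hα, ALx.sig_el h, hth]
    unfold el
    rw [hth] at h1
    have e4 : (4 : 𝓞 K) * (n0 d : 𝓞 K) = (d : 𝓞 K) + 1 := by
      have := congrArg (fun z : ℤ => (z : 𝓞 K)) hn0
      push_cast at this
      exact this
    push_cast at h1 ⊢
    linear_combination (4 * (y : 𝓞 K) ^ 2) * h1 - (y : 𝓞 K) ^ 2 * e4
  have hcop : IsCoprime (n : ℤ) ((d : ℤ) * y ^ 2) := by
    rw [Int.isCoprime_iff_gcd_eq_one]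
    by_contra hne
    obtain ⟨p, hp, hpd⟩ := Nat.exists_prime_and_dvd hne
    have h1 : (p : ℤ) ∣ n := (Int.natCast_dvd_natCast.2 hpd).trans (Int.gcd_dvd_left ..)
    have h2 : (p : ℤ) ∣ (d : ℤ) * y ^ 2 := (Int.natCast_dvd_natCast.2 hpd).trans (Int.gcd_dvd_right ..)
    apply hq p hp (by exact_mod_cast h1)
    have hp' : Prime (p : ℤ) := Nat.prime_iff_prime_int.1 hp
    rcases hp'.dvd_or_dvd h2 with h3 | h3
    · exact h3.mul_right _
    · exact (hp'.dvd_of_dvd_pow h3).mul_left _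
  obtain ⟨u, v, huv⟩ := hcop
  have huv' : (u : 𝓞 K) * n + v * (((d : ℤ) * y ^ 2 : ℤ) : 𝓞 K) = 1 := by
    have := congrArg (fun z : ℤ => (z : 𝓞 K)) huv
    push_cast at this ⊢
    exact this
  have hsq : Ideal.span {el ω x y, ((n ^ 2 : ℕ) : 𝓞 K)} = Ideal.span {el ω x y, (n : 𝓞 K)} ^ 2 := by
    rw [← hα, sq (Ideal.span {α, (n : 𝓞 K)}), Ideal.span_pair_mul_span_pair]
    apply le_antisymm
    · rw [Ideal.span_le]
      rintro z hz
      simp only [Set.mem_insert_iff, Set.mem_singleton_iff] at hz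
      rw [SetLike.mem_coe]
      have m1 : α * α ∈ Ideal.span {α * α, α * (n : 𝓞 K), (n : 𝓞 K) * α, (n : 𝓞 K) * n} :=
        Ideal.subset_span (by simp)
      have m2 : α * (n : 𝓞 K) ∈ Ideal.span {α * α, α * (n : 𝓞 K), (n : 𝓞 K) * α, (n : 𝓞 K) * n} :=
        Ideal.subset_span (by simp)
      have m3 : (n : 𝓞 K) * n ∈ Ideal.span {α * α, α * (n : 𝓞 K), (n : 𝓞 K) * α, (n : 𝓞 K) * n} :=
        Ideal.subset_span (by simp)
      rcases hz with rfl | rfl
      · have e : z = (u : 𝓞 K) * (z * n) + (-(v : 𝓞 K) * (z - σ z)) * (z * z) +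
            ((v : 𝓞 K) * (z - σ z) * b) * (n * n) := by
          linear_combination (-z) * huv' + (v : 𝓞 K) * z * hdiff + ((v : 𝓞 K) * (z - σ z)) * hmul
        rw [e]
        refine Ideal.add_mem _ (Ideal.add_mem _ (Ideal.mul_mem_left _ _ ?_)
          (Ideal.mul_mem_left _ _ ?_)) (Ideal.mul_mem_left _ _ ?_)
        · rw [← e]; exact m2
        · rw [← e]; exact m1
        · rw [← e]; exact m3
      · have : ((n ^ 2 : ℕ) : 𝓞 K) = (n : 𝓞 K) * n := by push_cast; ring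
        rw [this]
        exact m3
    · rw [Ideal.span_le]
      rintro z hz
      simp only [Set.mem_insert_iff, Set.mem_singleton_iff] at hz
      rw [SetLike.mem_coe]
      have m1 : α ∈ Ideal.span {α, ((n ^ 2 : ℕ) : 𝓞 K)} := Ideal.subset_span (by simp)
      have m2 : ((n ^ 2 : ℕ) : 𝓞 K) ∈ Ideal.span {α, ((n ^ 2 : ℕ) : 𝓞 K)} :=
        Ideal.subset_span (by simp)
      rcases hz with rfl | rfl | rfl | rfl
      · exact Ideal.mul_mem_left _ _ m1
      · exact Ideal.mul_mem_right _ _ m1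
      · exact Ideal.mul_mem_left _ _ m1
      · have : (n : 𝓞 K) * n = ((n ^ 2 : ℕ) : 𝓞 K) := by push_cast; ring
        rw [this]
        exact m2
  have hN : Ideal.absNorm (Ideal.span {el ω x y, (n : 𝓞 K)}) = n := by
    have h1 := (hSPT K d ω σ h x y (n ^ 2) b (pow_pos hn 2) hb (hco.pow_left 2) hnorm).2
    rw [hsq, map_pow] at h1
    exact Nat.pow_left_injective (n := 2) (by norm_num) h1
  refine ⟨hsq, hN, ?_⟩
  intro q hq2 hle
  have h1 : (q : 𝓞 K) ∣ el ω x y := by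
    rw [← Ideal.mem_span_singleton]
    exact hle (Ideal.subset_span (by simp))
  have h2 : (q : 𝓞 K) ∣ (n : 𝓞 K) := by
    rw [← Ideal.mem_span_singleton]
    exact hle (Ideal.subset_span (by simp))
  have h3 := (ALx.dvd_el h (q := (q : ℤ))).1 (by push_cast; exact h1)
  have h4 : (q : ℤ) ∣ n := by
    refine ((ALx.dvd_el h (q := (q : ℤ)) (x := n) (y := 0)).1 ?_).1
    unfold el
    push_cast
    simpa using h2
  obtain ⟨p, hp, hpq⟩ := Nat.exists_prime_and_dvd (show q ≠ 1 by omega)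
  apply hq p hp (hpq.trans (by exact_mod_cast h4))
  exact ((Int.natCast_dvd_natCast.2 hpq).trans h3.2).mul_left _

end Pool.Agent.T2h80.L5
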