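import Pool.Agent.T2h80.L5.Stm

set_option autoImplicit false

/-!
# Sums over the pairs of primes (for LOW and FPG)
-/

namespace Pool.Agent.T2h80.L5.SumA

open Finset Pool.Agent.T2h80.F5 Pool.Agent.T2h80.L5

theorem BX_mono {Z Z' : ℕ} (h : Z ≤ Z') : BX Z Z Z Z ⊆ BX Z' Z' Z' Z' := by
  have h1 : Icc (-(Z : ℤ)) Z ⊆ Icc (-(Z' : ℤ)) Z' := Icc_subset_Icc (by omega) (by omega)
  exact product_subset_product h1 (product_subset_product h1 (product_subset_product h1 h1))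

theorem KQ_mono (p e v w : ℕ) {Z Z' : ℕ} (h : Z ≤ Z') : KQ p Z e v w ≤ KQ p Z' e v w :=
  card_le_card (filter_subset_filter _ (BX_mono h))

theorem sum_PP_le (V : ℕ) (f : ℕ → ℕ → ℝ) (hf : ∀ v w, 0 ≤ f v w) :
    ∑ x ∈ PP V, f x.1 x.2 ≤
      ∑ v ∈ Ico V (2 * V), ∑ w ∈ (Ico V (2 * V)).filter (fun w => Nat.Coprime v w), f v w := by
  have h1 : ∑ v ∈ Ico V (2 * V), ∑ w ∈ (Ico V (2 * V)).filter (fun w => Nat.Coprime v w), f v w =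
      ∑ x ∈ (Ico V (2 * V) ×ˢ Ico V (2 * V)).filter (fun x => Nat.Coprime x.1 x.2), f x.1 x.2 := by
    rw [sum_filter, sum_product]
    exact sum_congr rfl fun v _ => by rw [sum_filter]
  rw [h1]
  apply sum_le_sum_of_subset_of_nonneg
  · intro x hx
    simp only [PP, PV, mem_filter, mem_product] at hx
    simp only [mem_filter, mem_product]
    exact ⟨⟨hx.1.1.1, hx.1.2.1⟩, (Nat.coprime_primes hx.1.1.2 hx.1.2.2).2 hx.2⟩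
  · exact fun x _ _ => hf _ _

theorem card_PP_le (V : ℕ) : (PP V).card ≤ V ^ 2 := by
  have h1 : PP V ⊆ Ico V (2 * V) ×ˢ Ico V (2 * V) := by
    intro x hx
    simp only [PP, PV, mem_filter, mem_product] at hx
    exact mem_product.2 ⟨hx.1.1.1, hx.1.2.1⟩
  refine (card_le_card h1).trans ?_
  rw [card_product, Nat.card_Ico]
  have : 2 * V - V = V := by omega
  rw [this, sq]

theorem sqrt_one_add (K : ℝ) (hK : 0 ≤ K) : Real.sqrt (1 + K) ≤ 1 + Real.sqrt K := by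
  rw [Real.sqrt_le_left (by positivity)]
  nlinarith [Real.sq_sqrt hK, Real.sqrt_nonneg K]

/-- one block -/
theorem blk (hAVP : S_AVP) : ∀ ε : ℝ, 0 < ε → ∃ C : ℝ, 0 < C ∧ ∀ (P Q V Y t a : ℕ) (M : ℝ),
    1 ≤ P → P ≤ t → 1 ≤ Q → 1 ≤ a → 1 ≤ V → 1 ≤ M →
    (V : ℝ) ^ 2 + Q ^ 2 * (t * a ^ 2) ≤ M ^ 2 * V ^ 2 →
    P ≤ Y → Q ^ 2 ≤ Y → t * a ^ 2 ≤ Y → V ≤ Y → 1000 * Q ^ 2 * t * a ≤ Y →
    ∑ p ∈ Ico P (2 * P), ∑ x ∈ PP V, ∑ h ∈ Icc 1 (t * a ^ 2),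
      Real.sqrt (1 + (KQ p (1000 * Q ^ 2 * t * a) (h * Q ^ 2) x.1 x.2 : ℝ)) ≤
    C * (Y : ℝ) ^ ε * (Real.sqrt P * M * V ^ 2 * a ^ 2 * t ^ 2 * Q ^ 4) := by
  intro ε hε
  obtain ⟨C, hC, h⟩ := hAVP ε hε
  refine ⟨1 + 2001000 * C, by positivity, ?_⟩
  intro P Q V Y t a M hP hPt hQ ha hV hM hMV hPY hQY hHY hVY hZY
  have hY1 : 1 ≤ Y := hP.trans hPY
  have ht : 1 ≤ t := hP.trans hPt
  have hH1 : 1 ≤ t * a ^ 2 := Nat.one_le_iff_ne_zero.2 (by positivity)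
  have hZ1 : 1 ≤ 1000 * Q ^ 2 * t * a := Nat.one_le_iff_ne_zero.2 (by positivity)
  have hA := h P Q (t * a ^ 2) V (1000 * Q ^ 2 * t * a) Y hP hQ hH1 hV hZ1 hPY hQY hHY hVY hZY
  -- the sum of the square roots
  have hS : ∑ p ∈ Ico P (2 * P), ∑ x ∈ PP V, ∑ h ∈ Icc 1 (t * a ^ 2),
      Real.sqrt (KQ p (1000 * Q ^ 2 * t * a) (h * Q ^ 2) x.1 x.2 : ℝ) ≤
      ∑ p ∈ Ico P (2 * P), ∑ h ∈ Icc 1 (t * a ^ 2), ∑ v ∈ Ico V (2 * V),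
        ∑ w ∈ (Ico V (2 * V)).filter (fun w => Nat.Coprime v w),
      Real.sqrt (KQ p (1000 * Q ^ 2 * t * a) (h * Q ^ 2) v w : ℝ) := by
    refine sum_le_sum fun p _ => ?_
    rw [sum_comm]
    refine sum_le_sum fun h _ => ?_
    exact sum_PP_le V (fun v w => Real.sqrt (KQ p (1000 * Q ^ 2 * t * a) (h * Q ^ 2) v w : ℝ))
      fun v w => Real.sqrt_nonneg _
  have hS1 : ∑ p ∈ Ico P (2 * P), ∑ x ∈ PP V, ∑ h ∈ Icc 1 (t * a ^ 2),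
      Real.sqrt (1 + (KQ p (1000 * Q ^ 2 * t * a) (h * Q ^ 2) x.1 x.2 : ℝ)) ≤
      (P : ℝ) * V ^ 2 * (t * a ^ 2) + ∑ p ∈ Ico P (2 * P), ∑ x ∈ PP V, ∑ h ∈ Icc 1 (t * a ^ 2),
      Real.sqrt (KQ p (1000 * Q ^ 2 * t * a) (h * Q ^ 2) x.1 x.2 : ℝ) := by
    calc ∑ p ∈ Ico P (2 * P), ∑ x ∈ PP V, ∑ h ∈ Icc 1 (t * a ^ 2),
          Real.sqrt (1 + (KQ p (1000 * Q ^ 2 * t * a) (h * Q ^ 2) x.1 x.2 : ℝ))
        ≤ ∑ p ∈ Ico P (2 * P), ∑ x ∈ PP V, ∑ h ∈ Icc 1 (t * a ^ 2),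
          (1 + Real.sqrt (KQ p (1000 * Q ^ 2 * t * a) (h * Q ^ 2) x.1 x.2 : ℝ)) :=
          sum_le_sum fun p _ => sum_le_sum fun x _ => sum_le_sum fun h _ =>
            sqrt_one_add _ (Nat.cast_nonneg _)
      _ = (P : ℝ) * (PP V).card * (t * a ^ 2) + ∑ p ∈ Ico P (2 * P), ∑ x ∈ PP V,
          ∑ h ∈ Icc 1 (t * a ^ 2),
          Real.sqrt (KQ p (1000 * Q ^ 2 * t * a) (h * Q ^ 2) x.1 x.2 : ℝ) := by
          simp only [sum_add_distrib, sum_const, nsmul_eq_mul, Nat.card_Ico, Nat.card_Icc, mul_one]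
          have e1 : 2 * P - P = P := by omega
          have e2 : t * a ^ 2 + 1 - 1 = t * a ^ 2 := by omega
          rw [e1, e2]
          push_cast
          ring
      _ ≤ _ := by
          have := card_PP_le V
          have h2 : ((PP V).card : ℝ) ≤ (V : ℝ) ^ 2 := by exact_mod_cast this
          gcongr
  -- real estimates
  have hPr : (1 : ℝ) ≤ P := by exact_mod_cast hP
  have htr : (1 : ℝ) ≤ t := by exact_mod_cast ht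
  have hQr : (1 : ℝ) ≤ Q := by exact_mod_cast hQ
  have har : (1 : ℝ) ≤ a := by exact_mod_cast ha
  have hVr : (1 : ℝ) ≤ V := by exact_mod_cast hV
  have hPtr : (P : ℝ) ≤ t := by exact_mod_cast hPt
  set s : ℝ := Real.sqrt P with hs
  have hs0 : 0 ≤ s := Real.sqrt_nonneg _
  have hs2 : s * s = P := Real.mul_self_sqrt (by positivity)
  have hs1 : 1 ≤ s := by
    rw [hs]; exact Real.one_le_sqrt.2 hPr
  set T : ℝ := Real.sqrt t with hT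
  have hT0 : 0 ≤ T := Real.sqrt_nonneg _
  have hT2 : T * T = t := Real.mul_self_sqrt (by positivity)
  have hsT : s ≤ T := Real.sqrt_le_sqrt hPtr
  have hT1 : 1 ≤ T := hs1.trans hsT
  have hTt : T ≤ t := by nlinarith
  have hroot : Real.sqrt ((V : ℝ) ^ 2 + (Q : ℝ) ^ 2 * ((t * a ^ 2 : ℕ) : ℝ)) ≤ M * V := by
    rw [Real.sqrt_le_left (by positivity), mul_pow]
    push_cast
    exact hMV
  have hsqH : Real.sqrt (((t * a ^ 2 : ℕ) : ℝ)) = T * a := by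
    push_cast
    rw [Real.sqrt_mul (by positivity), Real.sqrt_sq (by positivity)]
  set Z : ℝ := 1000 * (Q : ℝ) ^ 2 * t * a with hZ
  have hZc : ((1000 * Q ^ 2 * t * a : ℕ) : ℝ) = Z := by rw [hZ]; push_cast; ring
  have hQ2 : (1 : ℝ) ≤ (Q : ℝ) ^ 2 := one_le_pow₀ hQr
  have hta : (1 : ℝ) ≤ t * a := by nlinarith
  have hZt : (t : ℝ) ≤ Z := by
    rw [hZ]
    have h1 : (t : ℝ) * 1 ≤ t * (1000 * (Q : ℝ) ^ 2 * a) := by
      apply mul_le_mul_of_nonneg_left _ (by positivity)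
      nlinarith
    nlinarith
  have hZ0 : 0 ≤ Z := by positivity
  have hZ3 : (P : ℝ) * Real.sqrt (Z ^ 3) ≤ s * Z ^ 2 := by
    have e1 : Real.sqrt (Z ^ 3) = Z * Real.sqrt Z := by
      rw [pow_succ, Real.sqrt_mul (by positivity), Real.sqrt_sq hZ0]
    have e2 : s ≤ Real.sqrt Z := Real.sqrt_le_sqrt (hPtr.trans hZt)
    have e3 : Real.sqrt Z * Real.sqrt Z = Z := Real.mul_self_sqrt hZ0
    rw [e1, ← hs2]
    calc s * s * (Z * Real.sqrt Z) ≤ s * Real.sqrt Z * (Z * Real.sqrt Z) := by gcongr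
      _ = s * (Z * (Real.sqrt Z * Real.sqrt Z)) := by ring
      _ = s * Z ^ 2 := by rw [e3]; ring
  have hYe : (1 : ℝ) ≤ (Y : ℝ) ^ ε := Real.one_le_rpow (by exact_mod_cast hY1) hε.le
  have hX0 : 0 ≤ s * M * V ^ 2 * a ^ 2 * t ^ 2 * Q ^ 4 := by positivity
  -- the three terms
  have t1 : s * ((V : ℝ) * (M * V) * Z ^ 2) = 1000000 * (s * M * V ^ 2 * a ^ 2 * t ^ 2 * Q ^ 4) := by
    rw [hZ]; ring
  have t2 : (P : ℝ) * ((V : ℝ) * (M * V) * Real.sqrt (Z ^ 3)) ≤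
      1000000 * (s * M * V ^ 2 * a ^ 2 * t ^ 2 * Q ^ 4) := by
    calc (P : ℝ) * ((V : ℝ) * (M * V) * Real.sqrt (Z ^ 3))
        = (V : ℝ) * (M * V) * ((P : ℝ) * Real.sqrt (Z ^ 3)) := by ring
      _ ≤ (V : ℝ) * (M * V) * (s * Z ^ 2) := by gcongr
      _ = 1000000 * (s * M * V ^ 2 * a ^ 2 * t ^ 2 * Q ^ 4) := by rw [hZ]; ring
  have t3 : (P : ℝ) * (Q * (T * a) * (V : ℝ) ^ 2 * Z) ≤
      1000 * (s * M * V ^ 2 * a ^ 2 * t ^ 2 * Q ^ 4) := by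
    have e1 : (P : ℝ) * T ≤ s * t := by
      rw [← hs2, ← hT2]
      nlinarith [mul_nonneg hs0 hT0]
    calc (P : ℝ) * (Q * (T * a) * (V : ℝ) ^ 2 * Z) = ((P : ℝ) * T) * (Q * a * (V : ℝ) ^ 2 * Z) := by ring
      _ ≤ (s * t) * (Q * a * (V : ℝ) ^ 2 * Z) := by gcongr
      _ = 1000 * (s * 1 * V ^ 2 * a ^ 2 * t ^ 2 * (Q ^ 3 * 1)) := by rw [hZ]; ring
      _ ≤ 1000 * (s * M * V ^ 2 * a ^ 2 * t ^ 2 * (Q ^ 3 * Q)) := by gcongr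
      _ = _ := by ring
  have t0 : (P : ℝ) * V ^ 2 * (t * a ^ 2) ≤ s * M * V ^ 2 * a ^ 2 * t ^ 2 * Q ^ 4 := by
    have e1 : (P : ℝ) ≤ s * t := by
      rw [← hs2]; exact mul_le_mul_of_nonneg_left (hsT.trans hTt) hs0
    have e2 : (1 : ℝ) ≤ (Q : ℝ) ^ 4 := one_le_pow₀ hQr
    calc (P : ℝ) * V ^ 2 * (t * a ^ 2) ≤ (s * t) * V ^ 2 * (t * a ^ 2) := by gcongr
      _ = s * 1 * V ^ 2 * a ^ 2 * t ^ 2 * 1 := by ring
      _ ≤ s * M * V ^ 2 * a ^ 2 * t ^ 2 * Q ^ 4 := by gcongr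
  refine hS1.trans ?_
  refine (add_le_add t0 (hS.trans hA)).trans ?_
  rw [hZc, hsqH]
  set X : ℝ := s * M * V ^ 2 * a ^ 2 * t ^ 2 * Q ^ 4 with hX
  have hin : s * ((V : ℝ) * Real.sqrt ((V : ℝ) ^ 2 + (Q : ℝ) ^ 2 * ((t * a ^ 2 : ℕ) : ℝ)) * Z ^ 2) +
      (P : ℝ) * ((V : ℝ) * Real.sqrt ((V : ℝ) ^ 2 + (Q : ℝ) ^ 2 * ((t * a ^ 2 : ℕ) : ℝ)) *
        Real.sqrt (Z ^ 3)) + (P : ℝ) * (Q * (T * a) * (V : ℝ) ^ 2 * Z) ≤ 2001000 * X := by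
    have u1 : s * ((V : ℝ) * Real.sqrt ((V : ℝ) ^ 2 + (Q : ℝ) ^ 2 * ((t * a ^ 2 : ℕ) : ℝ)) * Z ^ 2) ≤
        s * ((V : ℝ) * (M * V) * Z ^ 2) := by gcongr
    have u2 : (P : ℝ) * ((V : ℝ) * Real.sqrt ((V : ℝ) ^ 2 + (Q : ℝ) ^ 2 * ((t * a ^ 2 : ℕ) : ℝ)) *
        Real.sqrt (Z ^ 3)) ≤ (P : ℝ) * ((V : ℝ) * (M * V) * Real.sqrt (Z ^ 3)) := by gcongr
    linarith
  calc X + C * (Y : ℝ) ^ ε * (s * ((V : ℝ) *
        Real.sqrt ((V : ℝ) ^ 2 + (Q : ℝ) ^ 2 * ((t * a ^ 2 : ℕ) : ℝ)) * Z ^ 2) +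
      (P : ℝ) * ((V : ℝ) * Real.sqrt ((V : ℝ) ^ 2 + (Q : ℝ) ^ 2 * ((t * a ^ 2 : ℕ) : ℝ)) *
        Real.sqrt (Z ^ 3)) + (P : ℝ) * (Q * (T * a) * (V : ℝ) ^ 2 * Z))
      ≤ (Y : ℝ) ^ ε * X + C * (Y : ℝ) ^ ε * (2001000 * X) := by
        gcongr
        exact le_mul_of_one_le_left hX0 hYe
    _ = (1 + 2001000 * C) * (Y : ℝ) ^ ε * X := by ring

/-- logarithms against powers -/
theorem ev (c e : ℝ) (he : 0 < e) : ∃ ν₀ : ℕ, ∀ ν : ℕ, ν₀ ≤ ν → c * (1 + Real.log ν) ≤ (ν : ℝ) ^ e := by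
  have h1 : (fun x : ℝ => c * (1 + Real.log x)) =o[Filter.atTop] fun x : ℝ => x ^ e := by
    refine Asymptotics.IsLittleO.const_mul_left ?_ c
    refine Asymptotics.IsLittleO.add ?_ (isLittleO_log_rpow_atTop he)
    exact (Asymptotics.isLittleO_const_left.2 (Or.inr
      (tendsto_norm_atTop_atTop.comp (tendsto_rpow_atTop he))))
  have h2 := (h1.bound (c := 1) one_pos)
  have h3 := tendsto_natCast_atTop_atTop (R := ℝ) |>.eventually h2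
  obtain ⟨ν₀, h4⟩ := Filter.eventually_atTop.1 h3
  refine ⟨ν₀, fun ν hν => ?_⟩
  have h5 := h4 ν hν
  rw [one_mul, Real.norm_eq_abs, Real.norm_eq_abs, abs_of_nonneg (Real.rpow_nonneg (Nat.cast_nonneg _) _)] at h5
  exact (le_abs_self _).trans h5

end Pool.Agent.T2h80.L5.SumA
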