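import Pool.Agent.T2h80.L5.TPLc

set_option autoImplicit false

/-!
# TPL: the tuples with given `d, F, g`
-/

namespace Pool.Agent.T2h80.L5

open Finset NumberField Pool.Agent.T2h80.F5

open TPLaux

open Classical in
/-- **TPL.** -/
theorem t_TPL (hGDV : S_GDV) (hIDL : S_IDL) (hMLT : S_MLT) (hJCT : S_JCT) (hOM : F5.S_OM)
    (hDIV : F5.S_DIV) : S_TPL := by
  intro ε hε
  obtain ⟨C, hC, hω⟩ := omega_bound hDIV (ε / 12) (by positivity)
  obtain ⟨C', hC', hJ⟩ := hJCT (ε / 80) (by positivity)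
  refine ⟨4 * (C * (210912 : ℝ) ^ (ε / 12)) * 64 * (C' * (6084 ^ 5 : ℝ) ^ (ε / 80)) ^ 2,
    by positivity, ?_⟩
  intro K _ _ d hsq hK2 hdisc ν V g n f₂ hν hV hco hpf hf0 T hT
  have hcard1 : (0 : ℝ) ≤ (Nat.card {c : ClassGroup (𝓞 K) // c ^ 5 = 1} : ℝ) := by positivity
  rcases T.eq_empty_or_nonempty with hTe | ⟨x0, hx0⟩
  · rw [hTe]
    simp only [Finset.card_empty, Nat.cast_zero]
    positivity
  have hd0 : 0 < d := Nat.pos_of_ne_zero hsq.ne_zero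
  obtain ⟨hd4, ω, σ, hQ⟩ := hOM K d hK2 hdisc hd0
  have hT' : ∀ x ∈ T, ∃ (P A J₁ J₂ : Ideal (𝓞 K)) (x₁ x₂ : ℤ),
      CD ω σ ν V d g n f₂ x P A J₁ J₂ x₁ x₂ := by
    intro x hx
    exact core hGDV hIDL d ω σ hQ hsq ν V g n f₂ hν hV hco x (hT x hx)
  have hT'' : ∀ x, ∃ (P A J₁ J₂ : Ideal (𝓞 K)) (x₁ x₂ : ℤ), x ∈ T →
      CD ω σ ν V d g n f₂ x P A J₁ J₂ x₁ x₂ := by
    intro x
    by_cases hx : x ∈ T
    · obtain ⟨P, A, J₁, J₂, x₁, x₂, h⟩ := hT' x hx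
      exact ⟨P, A, J₁, J₂, x₁, x₂, fun _ => h⟩
    · exact ⟨⊤, ⊤, ⊤, ⊤, 0, 0, fun h => absurd h hx⟩
  choose P A J₁ J₂ x₁ x₂ hCD using hT''
  obtain ⟨-, ⟨a0, hGT0⟩, -, -, -, -, -, hd8, hn0, -, hg0, hgW⟩ := hCD x0 hx0
  have hGT0' := hGT0
  obtain ⟨⟨v0, w0⟩, s0, t0, m0⟩ := x0
  simp only [GT] at hGT0'
  obtain ⟨-, -, -, -, -, -, -, -, -, -, -, -, -, -, -, -, -, -, -, -, -, -, -, -, -, -, hD1, hD2⟩ := hGT0'
  have hcount := count hMLT hQ hd8 ν V g n f₂ hν hV hn0 hf0 T P A J₁ J₂ x₁ x₂ hCD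
  have hcb := const_bound ν V d g n f₂ hν hV hn0 hf0 hg0 hD1
  have hnb := n_bound ν V d g n f₂ hd0 hf0 hg0 hD2
  set W : ℕ := 6084 * ν ^ 4 * V ^ 2 with hW
  have hW0 : 0 < W := by positivity
  -- the ideals `J`
  set JJ : Finset (Ideal (𝓞 K)) := T.image J₁ ∪ T.image J₂ with hJJ
  have hJJc : (JJ.card : ℝ) ≤ C' * ((g : ℝ) * ((W ^ 4 : ℕ) : ℝ)) ^ (ε / 80) := by
    apply hJ K d ω σ hQ g (W ^ 4) hg0 (Nat.succ_le_of_lt (by positivity : 0 < W ^ 4)) JJ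
    intro J hJm
    rcases Finset.mem_union.mp hJm with h | h
    · obtain ⟨x, hx, rfl⟩ := Finset.mem_image.mp h
      obtain ⟨hRec, -, h1, h2, h3, h4, -⟩ := hCD x hx
      exact ⟨hRec.2.2.1, h3, h1⟩
    · obtain ⟨x, hx, rfl⟩ := Finset.mem_image.mp h
      obtain ⟨hRec, -, h1, h2, h3, h4, -⟩ := hCD x hx
      exact ⟨hRec.2.2.2.1, h4, h2⟩
  -- the number of pairs and classes
  set N : ℕ := Nat.card {c : ClassGroup (𝓞 K) // c ^ 5 = 1} with hN
  have hNc : (Finset.univ.filter (fun c : ClassGroup (𝓞 K) => c ^ 5 = 1)).card = N := by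
    rw [hN, Nat.card_eq_fintype_card, Fintype.card_subtype]
  have himg : (T.image (fun x => ((J₁ x, J₂ x), cl (P x)))).card ≤ N * (JJ.card * JJ.card) := by
    set S := T.image (fun x => ((J₁ x, J₂ x), cl (P x))) with hS
    have h1 : S.card ≤ N * (S.image Prod.fst).card := by
      apply Finset.card_le_mul_card_image
      intro b hb
      obtain ⟨y0, hy0, hy0b⟩ := Finset.mem_image.mp hb
      rw [← hNc]
      have hrel : ∀ y ∈ S.filter (fun y => y.1 = b), y.2 ^ 5 * (cl b.1 ^ 2 * cl b.2) = 1 := by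
        intro y hy
        obtain ⟨hyS, hyb⟩ := Finset.mem_filter.mp hy
        obtain ⟨x, hx, rfl⟩ := Finset.mem_image.mp hyS
        obtain ⟨hRec, -⟩ := hCD x hx
        have := (cl_rel hQ hRec).2
        rw [← hyb]
        exact this
      have hy0' : y0 ∈ S.filter (fun y => y.1 = b) := Finset.mem_filter.mpr ⟨hy0, hy0b⟩
      apply Finset.card_le_card_of_injOn (fun y => y.2 * y0.2⁻¹)
      · intro y hy
        have h2 := hrel y (Finset.mem_coe.mp hy)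
        have h3 := hrel y0 hy0'
        rw [Finset.mem_coe, Finset.mem_filter]
        refine ⟨Finset.mem_univ _, ?_⟩
        rw [mul_pow, inv_pow]
        have h4 : y.2 ^ 5 = y0.2 ^ 5 := mul_right_cancel (h2.trans h3.symm)
        rw [h4, mul_inv_cancel]
      · intro y hy y' hy' he
        have h2 : y.2 = y'.2 := mul_right_cancel he
        have h3 := (Finset.mem_filter.mp (Finset.mem_coe.mp hy)).2
        have h4 := (Finset.mem_filter.mp (Finset.mem_coe.mp hy')).2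
        exact Prod.ext (h3.trans h4.symm) h2
    have h2 : (S.image Prod.fst).card ≤ JJ.card * JJ.card := by
      rw [← Finset.card_product]
      apply Finset.card_le_card
      intro b hb
      obtain ⟨y, hy, rfl⟩ := Finset.mem_image.mp hb
      obtain ⟨x, hx, rfl⟩ := Finset.mem_image.mp hy
      rw [Finset.mem_product]
      exact ⟨Finset.mem_union_left _ (Finset.mem_image_of_mem _ hx),
        Finset.mem_union_right _ (Finset.mem_image_of_mem _ hx)⟩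
    exact h1.trans (Nat.mul_le_mul_left _ h2)
  have himg' : ((T.image (fun x => ((J₁ x, J₂ x), cl (P x)))).card : ℝ) ≤
      (N : ℝ) * ((JJ.card : ℝ) * (JJ.card : ℝ)) := by exact_mod_cast himg
  -- powers
  have hωn := hω n hn0
  have hnε : (n : ℝ) ^ (ε / 12) ≤ (210912 : ℝ) ^ (ε / 12) * ((ν : ℝ) * V) ^ (ε / 2) := by
    have h1 : (n : ℝ) ≤ 210912 * ((ν : ℝ) * V) ^ 6 := by
      have h2 : n ≤ 210912 * (ν * V) ^ 6 := by
        calc n ≤ 210912 * (ν ^ 6 * V ^ 2) := hnb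
          _ ≤ 210912 * (ν ^ 6 * V ^ 6) := by gcongr; omega
          _ = _ := by ring
      exact_mod_cast h2
    calc (n : ℝ) ^ (ε / 12) ≤ (210912 * ((ν : ℝ) * V) ^ 6) ^ (ε / 12) :=
          Real.rpow_le_rpow (by positivity) h1 (by positivity)
      _ = (210912 : ℝ) ^ (ε / 12) * ((ν : ℝ) * V) ^ (ε / 2) := by
          rw [Real.mul_rpow (by norm_num) (by positivity), ← Real.rpow_natCast ((ν : ℝ) * V) 6,
            ← Real.rpow_mul (by positivity)]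
          congr 2
          push_cast
          ring
  have hJε : ((g : ℝ) * ((W ^ 4 : ℕ) : ℝ)) ^ (ε / 80) ≤
      (6084 ^ 5 : ℝ) ^ (ε / 80) * ((ν : ℝ) * V) ^ (ε / 4) := by
    have h1 : (g : ℝ) * ((W ^ 4 : ℕ) : ℝ) ≤ 6084 ^ 5 * ((ν : ℝ) * V) ^ 20 := by
      have h2 : g * W ^ 4 ≤ 6084 ^ 5 * (ν * V) ^ 20 := by
        calc g * W ^ 4 ≤ W * W ^ 4 := Nat.mul_le_mul_right _ hgW
          _ = 6084 ^ 5 * (ν ^ 20 * V ^ 10) := by rw [hW]; ring
          _ ≤ 6084 ^ 5 * (ν ^ 20 * V ^ 20) := by gcongr; omega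
          _ = _ := by ring
      exact_mod_cast h2
    calc ((g : ℝ) * ((W ^ 4 : ℕ) : ℝ)) ^ (ε / 80) ≤ (6084 ^ 5 * ((ν : ℝ) * V) ^ 20) ^ (ε / 80) :=
          Real.rpow_le_rpow (by positivity) h1 (by positivity)
      _ = _ := by
          rw [Real.mul_rpow (by norm_num) (by positivity), ← Real.rpow_natCast ((ν : ℝ) * V) 20,
            ← Real.rpow_mul (by positivity)]
          congr 2
          push_cast
          ring
  have hJJ2 : (JJ.card : ℝ) ≤ C' * ((6084 ^ 5 : ℝ) ^ (ε / 80) * ((ν : ℝ) * V) ^ (ε / 4)) :=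
    hJJc.trans (mul_le_mul_of_nonneg_left hJε hC'.le)
  have h30 : (30 : ℝ) ^ n.primeFactors.card ≤
      C * ((210912 : ℝ) ^ (ε / 12) * ((ν : ℝ) * V) ^ (ε / 2)) :=
    hωn.trans (mul_le_mul_of_nonneg_left hnε hC.le)
  have hX : (0 : ℝ) < (ν : ℝ) * V := by
    have h1 : (0 : ℝ) < ν := by exact_mod_cast hν
    have h2 : (0 : ℝ) < V := by exact_mod_cast hV
    positivity
  have hXε : ((ν : ℝ) * V) ^ ε = ((ν : ℝ) * V) ^ (ε / 2) * (((ν : ℝ) * V) ^ (ε / 4)) ^ 2 := by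
    rw [← Real.rpow_natCast (((ν : ℝ) * V) ^ (ε / 4)) 2, ← Real.rpow_mul hX.le, ← Real.rpow_add hX]
    congr 1
    push_cast
    ring
  calc (T.card : ℝ) ≤ 4 * (30 : ℝ) ^ n.primeFactors.card *
      (1 + 7 * ((W / g : ℕ) : ℝ) / (n * Real.sqrt d)) ^ 2 *
      ((T.image (fun x => ((J₁ x, J₂ x), cl (P x)))).card : ℝ) := hcount
    _ ≤ 4 * (C * ((210912 : ℝ) ^ (ε / 12) * ((ν : ℝ) * V) ^ (ε / 2))) * (64 * (f₂ : ℝ) ^ 2) *
        ((N : ℝ) * ((C' * ((6084 ^ 5 : ℝ) ^ (ε / 80) * ((ν : ℝ) * V) ^ (ε / 4))) *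
          (C' * ((6084 ^ 5 : ℝ) ^ (ε / 80) * ((ν : ℝ) * V) ^ (ε / 4))))) := by
        have h1 : ((T.image (fun x => ((J₁ x, J₂ x), cl (P x)))).card : ℝ) ≤
            (N : ℝ) * ((C' * ((6084 ^ 5 : ℝ) ^ (ε / 80) * ((ν : ℝ) * V) ^ (ε / 4))) *
              (C' * ((6084 ^ 5 : ℝ) ^ (ε / 80) * ((ν : ℝ) * V) ^ (ε / 4)))) := by
          refine himg'.trans ?_
          gcongr
        gcongr
    _ = _ := by
        rw [hXε]
        ring

end Pool.Agent.T2h80.L5
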