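import Pool.Agent.T2h80.L5.Stm

set_option autoImplicit false

/-!
# The common part of TPL and TPN: from tuples to records
-/

namespace Pool.Agent.T2h80.L5

open Finset NumberField Pool.Agent.T2h80.F5

namespace TPLaux

theorem inj_core (m a m' a' : ℕ) (hm : 0 < m) (ha : 0 < a)
    (h1 : (m : ℤ) ^ 2 * a = (m' : ℤ) ^ 2 * a') (h2 : (a : ℤ) ^ 2 * m = (a' : ℤ) ^ 2 * m') :
    m = m' ∧ a = a' := by
  have h1' : m ^ 2 * a = m' ^ 2 * a' := by exact_mod_cast h1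
  have h2' : a ^ 2 * m = a' ^ 2 * m' := by exact_mod_cast h2
  have h3 : m ^ 3 * (a ^ 2 * m) = m' ^ 3 * (a ^ 2 * m) := by
    calc m ^ 3 * (a ^ 2 * m) = (m ^ 2 * a) ^ 2 := by ring
      _ = (m' ^ 2 * a') ^ 2 := by rw [h1']
      _ = m' ^ 3 * (a' ^ 2 * m') := by ring
      _ = m' ^ 3 * (a ^ 2 * m) := by rw [h2']
  have h4 : m ^ 3 = m' ^ 3 := Nat.eq_of_mul_eq_mul_right (by positivity) h3
  have h5 : m = m' := (Nat.pow_left_injective (n := 3) (by norm_num)) h4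
  subst h5
  exact ⟨rfl, Nat.eq_of_mul_eq_mul_left (by positivity) h1'⟩

/-- the tuple is determined by `v, w, y₁, y₂` and the discriminant -/
theorem rec_inj {ν V D : ℕ} (hν : 1 ≤ ν) (hV : 1 ≤ V) {x x' : (ℕ × ℕ) × ℕ × ℕ × ℕ} {a a' : ℕ}
    {y₁ y₂ : ℤ} (h : GT ν V x a D y₁ y₂) (h' : GT ν V x' a' D y₁ y₂) (hv : x.1.1 = x'.1.1)
    (hw : x.1.2 = x'.1.2) : x = x' := by
  obtain ⟨⟨v, w⟩, s, t, m⟩ := x
  obtain ⟨⟨v', w'⟩, s', t', m'⟩ := x'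
  simp only at hv hw
  subst hv hw
  simp only [GT] at h h'
  obtain ⟨hvp, hwp, hvw, hvo, hwo, hso, hto, hVv, hv2, hVw, hw2, hs0, ht0, hm1, hm2, ha1, ha2, hav,
    hd1, hd2, hcop, hy1, hy2, hE1, hE2, hD8, hD1, hD2⟩ := h
  obtain ⟨-, -, -, -, -, -, -, -, -, -, -, hs0', ht0', hm1', hm2', ha1', ha2', hav',
    hd1', hd2', hcop', hy1', hy2', hE1', hE2', -, -, -⟩ := h'
  have hm : 0 < m := lt_of_lt_of_le (by positivity) hm1
  have ha : 0 < a := lt_of_lt_of_le (by positivity) ha1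
  obtain ⟨e1, e2⟩ := inj_core m a m' a' hm ha (by linarith) (by linarith)
  subst e1 e2
  have hm' : (m : ℤ) ≠ 0 := by exact_mod_cast hm.ne'
  have ha' : (a : ℤ) ≠ 0 := by exact_mod_cast ha.ne'
  have es : (a : ℤ) * s = a * s' := by linarith
  have et : (m : ℤ) * t = m * t' := by linarith
  have es' : s = s' := by exact_mod_cast mul_left_cancel₀ ha' es
  have et' : t = t' := by exact_mod_cast mul_left_cancel₀ hm' et
  subst es' et'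
  rfl

/-- the data chosen for a tuple -/
def CD {K : Type} [Field K] [NumberField K] (ω : 𝓞 K) (σ : 𝓞 K →+* 𝓞 K) (ν V d g n f₂ : ℕ)
    (x : (ℕ × ℕ) × ℕ × ℕ × ℕ) (P A J₁ J₂ : Ideal (𝓞 K)) (x₁ x₂ : ℤ) : Prop :=
  Rec ω σ n (6084 * ν ^ 4 * V ^ 2 / g) J₁ J₂ P A x₁ (x.1.1 * ((n * f₂ : ℕ) : ℤ)) x₂
    (x.1.2 * ((n * f₂ : ℕ) : ℤ)) ∧
  (∃ a : ℕ, GT ν V x a (d * (g * n * f₂) ^ 2) (g * (2 * x₁ + x.1.1 * ((n * f₂ : ℕ) : ℤ)))
    (g * (2 * x₂ + x.1.2 * ((n * f₂ : ℕ) : ℤ)))) ∧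
  (Ideal.absNorm J₁).primeFactors ⊆ g.primeFactors ∧
  (Ideal.absNorm J₂).primeFactors ⊆ g.primeFactors ∧
  Ideal.absNorm J₁ ≤ (6084 * ν ^ 4 * V ^ 2) ^ 4 ∧ Ideal.absNorm J₂ ≤ (6084 * ν ^ 4 * V ^ 2) ^ 4 ∧
  (g = 1 → J₁ = ⊤ ∧ J₂ = ⊤ ∧ Ideal.absNorm P = x.2.2.2) ∧ d % 8 = 7 ∧ 0 < n ∧ 0 < f₂ ∧ 0 < g ∧
  g ≤ 6084 * ν ^ 4 * V ^ 2

theorem core (hGDV : S_GDV) (hIDL : S_IDL) {K : Type} [Field K] [NumberField K] (d : ℕ) (ω : 𝓞 K)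
    (σ : 𝓞 K →+* 𝓞 K) (hQ : IsQ K d ω σ) (hsq : Squarefree d) (ν V g n f₂ : ℕ) (hν : 1 ≤ ν)
    (hV : 1 ≤ V) (hco : n.Coprime g)
    (x : (ℕ × ℕ) × ℕ × ℕ × ℕ) (hB : Bel ν V d (g * n * f₂) g x) :
    ∃ (P A J₁ J₂ : Ideal (𝓞 K)) (x₁ x₂ : ℤ), CD ω σ ν V d g n f₂ x P A J₁ J₂ x₁ x₂ := by
  obtain ⟨a, y₁, y₂, hGT, hg⟩ := hB
  obtain ⟨⟨v, w⟩, s, t, m⟩ := x
  have hg' : Nat.gcd m a = g := hg
  have hG := hGT
  simp only [GT] at hG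
  obtain ⟨hvp, hwp, hvw, hvo, hwo, hso, hto, hVv, hv2, hVw, hw2, hs0, ht0, hm1, hm2, ha1, ha2, hav,
    hd1, hd2, hcop, hy1, hy2, hE1, hE2, hD8, hD1, hD2⟩ := hG
  obtain ⟨hFo, hd8, f, hFf, hpr, x₁, x₂, e1, e2, hdat⟩ :=
    hGDV ν V v w s t m a (d * (g * n * f₂) ^ 2) y₁ y₂ hGT d (g * n * f₂) hsq rfl
  rw [hg'] at hFf e1 e2 hdat
  have hm : 0 < m := lt_of_lt_of_le (by positivity) hm1
  have ha : 0 < a := lt_of_lt_of_le (by positivity) ha1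
  have hg0 : 0 < g := by rw [← hg']; exact Nat.gcd_pos_of_pos_left _ hm
  have hff : n * f₂ = f := by
    apply Nat.eq_of_mul_eq_mul_left hg0
    rw [← hFf]; ring
  subst hff
  have hW : m ≤ 6084 * ν ^ 4 * V ^ 2 := by
    have : 2 * (676 * ν ^ 4 * V ^ 2) ≤ 6084 * ν ^ 4 * V ^ 2 := by nlinarith [Nat.zero_le (ν ^ 4 * V ^ 2)]
    omega
  have hgm : g ∣ m := by rw [← hg']; exact Nat.gcd_dvd_left _ _
  have hga : g ∣ a := by rw [← hg']; exact Nat.gcd_dvd_right _ _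
  obtain ⟨P, A, J₁, J₂, m₁, m₂, a₁, a₂, hmm, haa, hc1, hc2, hp2, hq2, nP, nA, nJ1, nJ2, pP, pA, r1, r2⟩ :=
    hIDL K d ω σ hQ g (n * f₂) (m / g) (a / g) v w x₁ x₂ hdat
  obtain ⟨-, -, hf0, hm0', ha0', -, -, -, -, -, -, -, hlast⟩ := hdat
  have hn0 : 0 < n := by
    rcases Nat.eq_zero_or_pos n with h0 | h0
    · rw [h0] at hf0; simp at hf0
    · exact h0
  have hf20 : 0 < f₂ := by
    rcases Nat.eq_zero_or_pos f₂ with h0 | h0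
    · rw [h0] at hf0; simp at hf0
    · exact h0
  have hm1p : 0 < m₁ := by
    rcases Nat.eq_zero_or_pos m₁ with h0 | h0
    · rw [hmm, h0] at hm0'; simp at hm0'
    · exact h0
  have hm2p : 0 < m₂ := by
    rcases Nat.eq_zero_or_pos m₂ with h0 | h0
    · rw [hmm, h0] at hm0'; simp at hm0'
    · exact h0
  have ha1p : 0 < a₁ := by
    rcases Nat.eq_zero_or_pos a₁ with h0 | h0
    · rw [haa, h0] at ha0'; simp at ha0'
    · exact h0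
  have ha2p : 0 < a₂ := by
    rcases Nat.eq_zero_or_pos a₂ with h0 | h0
    · rw [haa, h0] at ha0'; simp at ha0'
    · exact h0
  have hmle : m / g ≤ 6084 * ν ^ 4 * V ^ 2 / g := Nat.div_le_div_right hW
  have hale : a / g ≤ 6084 * ν ^ 4 * V ^ 2 / g := Nat.div_le_div_right ha2
  have hm1le : m₁ ≤ m / g := Nat.le_of_dvd hm0' ⟨m₂, hmm⟩
  have hm2le : m₂ ≤ m / g := Nat.le_of_dvd hm0' ⟨m₁, by rw [hmm]; ring⟩
  have ha1le : a₁ ≤ a / g := Nat.le_of_dvd ha0' ⟨a₂, haa⟩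
  have ha2le : a₂ ≤ a / g := Nat.le_of_dvd ha0' ⟨a₁, by rw [haa]; ring⟩
  have hgW : g ≤ 6084 * ν ^ 4 * V ^ 2 := (Nat.le_of_dvd hm hgm).trans hW
  have hdW : 6084 * ν ^ 4 * V ^ 2 / g ≤ 6084 * ν ^ 4 * V ^ 2 := Nat.div_le_self _ _
  have hm2W : m₂ ≤ 6084 * ν ^ 4 * V ^ 2 := hm2le.trans (hmle.trans hdW)
  have ha2W : a₂ ≤ 6084 * ν ^ 4 * V ^ 2 := ha2le.trans (hale.trans hdW)
  have hne : ∀ (I : Ideal (𝓞 K)) (k : ℕ), Ideal.absNorm I = k → 0 < k → I ≠ ⊥ := by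
    intro I k h1 h2 h3
    rw [h3, Ideal.absNorm_bot] at h1
    omega
  have hdivpf : ∀ k l : ℕ, k ∣ l → 0 < l → k.primeFactors ⊆ l.primeFactors := by
    intro k l hkl hl
    exact Nat.primeFactors_mono hkl hl.ne'
  refine ⟨P, A, J₁, J₂, x₁, x₂, ⟨hne P m₁ nP hm1p, hne A a₁ nA ha1p,
    hne J₁ _ nJ1 (by positivity), hne J₂ _ nJ2 (by positivity), ?_, ?_, pP, pA, ?_, ?_, ?_, ?_, ?_⟩,
    ⟨a, ?_⟩, ?_, ?_, ?_, ?_, ?_, hd8, hn0, hf20, hg0, hgW⟩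
  · rw [nP]; exact hm1le.trans hmle
  · rw [nA]; exact ha1le.trans hale
  · simpa using r1
  · simpa using r2
  · show (n : ℤ) ∣ (v : ℤ) * ((n * f₂ : ℕ) : ℤ)
    exact Dvd.dvd.mul_left (by exact_mod_cast Dvd.intro _ rfl) _
  · show (n : ℤ) ∣ (w : ℤ) * ((n * f₂ : ℕ) : ℤ)
    exact Dvd.dvd.mul_left (by exact_mod_cast Dvd.intro _ rfl) _
  · rw [nP, nA, nJ1, nJ2]
    apply Nat.Coprime.symm
    rw [Nat.coprime_iff_gcd_eq_one]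
    by_contra hcon
    obtain ⟨q, hq, hqd⟩ := Nat.exists_prime_and_dvd hcon
    have hqn : q ∣ n := hqd.trans (Nat.gcd_dvd_left _ _)
    have hqp := hqd.trans (Nat.gcd_dvd_right _ _)
    have hqg : ¬ q ∣ g := by
      intro h
      have := Nat.dvd_gcd hqn h
      rw [hco] at this
      exact hq.one_lt.ne' (Nat.dvd_one.mp this)
    have hqma : q ∣ (m / g) * (a / g) := by
      rw [hmm, haa]
      have h1 := (Nat.Prime.dvd_mul hq).mp hqp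
      have key : ∀ k, q ∣ g * k → q ∣ k := fun k h => ((Nat.Prime.dvd_mul hq).mp h).resolve_left hqg
      rcases h1 with h1 | h1
      · rcases (Nat.Prime.dvd_mul hq).mp h1 with h2 | h2
        · rcases (Nat.Prime.dvd_mul hq).mp h2 with h3 | h3
          · exact Dvd.dvd.mul_right (Dvd.dvd.mul_right h3 _) _
          · exact Dvd.dvd.mul_left (Dvd.dvd.mul_right h3 _) _
        · rw [mul_assoc] at h2
          rcases (Nat.Prime.dvd_mul hq).mp (key _ h2) with h3 | h3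
          · exact Dvd.dvd.mul_right (Dvd.dvd.mul_left (hq.dvd_of_dvd_pow h3) _) _
          · exact Dvd.dvd.mul_left (Dvd.dvd.mul_left h3 _) _
      · rw [mul_assoc] at h1
        rcases (Nat.Prime.dvd_mul hq).mp (key _ h1) with h3 | h3
        · exact Dvd.dvd.mul_right (Dvd.dvd.mul_left h3 _) _
        · exact Dvd.dvd.mul_left (Dvd.dvd.mul_left (hq.dvd_of_dvd_pow h3) _) _
    apply hlast q hq hqma hqg
    exact Dvd.dvd.mul_right (Dvd.dvd.mul_right (Dvd.dvd.mul_left (Dvd.dvd.mul_right hqn _) _) _) _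
  · rw [← e1, ← e2] at *
    exact hGT
  · rw [nJ1]
    intro q hq
    have hqp := Nat.prime_of_mem_primeFactors hq
    have hqd := Nat.dvd_of_mem_primeFactors hq
    rcases (Nat.Prime.dvd_mul hqp).mp hqd with h | h
    · rcases (Nat.Prime.dvd_mul hqp).mp h with h | h
      · exact Nat.mem_primeFactors.mpr ⟨hqp, h, hg0.ne'⟩
      · exact hp2 (Nat.mem_primeFactors.mpr ⟨hqp, hqp.dvd_of_dvd_pow h, hm2p.ne'⟩)
    · exact hq2 (Nat.mem_primeFactors.mpr ⟨hqp, h, ha2p.ne'⟩)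
  · rw [nJ2]
    intro q hq
    have hqp := Nat.prime_of_mem_primeFactors hq
    have hqd := Nat.dvd_of_mem_primeFactors hq
    rcases (Nat.Prime.dvd_mul hqp).mp hqd with h | h
    · rcases (Nat.Prime.dvd_mul hqp).mp h with h | h
      · exact Nat.mem_primeFactors.mpr ⟨hqp, h, hg0.ne'⟩
      · exact hp2 (Nat.mem_primeFactors.mpr ⟨hqp, h, hm2p.ne'⟩)
    · exact hq2 (Nat.mem_primeFactors.mpr ⟨hqp, hqp.dvd_of_dvd_pow h, ha2p.ne'⟩)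
  · rw [nJ1]
    calc g * m₂ ^ 2 * a₂ ≤ (6084 * ν ^ 4 * V ^ 2) * (6084 * ν ^ 4 * V ^ 2) ^ 2 * (6084 * ν ^ 4 * V ^ 2) := by
          gcongr
      _ = _ := by ring
  · rw [nJ2]
    calc g * m₂ * a₂ ^ 2 ≤ (6084 * ν ^ 4 * V ^ 2) * (6084 * ν ^ 4 * V ^ 2) * (6084 * ν ^ 4 * V ^ 2) ^ 2 := by
          gcongr
      _ = _ := by ring
  · intro hg1
    rw [hg1] at hp2 hq2 hmm nJ1 nJ2
    have h1 : m₂ = 1 := by
      rcases Nat.primeFactors_eq_empty.mp (Finset.subset_empty.mp (by simpa using hp2)) with h | h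
      · omega
      · exact h
    have h2 : a₂ = 1 := by
      rcases Nat.primeFactors_eq_empty.mp (Finset.subset_empty.mp (by simpa using hq2)) with h | h
      · omega
      · exact h
    rw [h1, h2] at nJ1 nJ2
    refine ⟨Ideal.absNorm_eq_one_iff.mp (by simpa using nJ1),
      Ideal.absNorm_eq_one_iff.mp (by simpa using nJ2), ?_⟩
    rw [nP]
    rw [h1, Nat.div_one, mul_one] at hmm
    exact hmm.symm

open Classical in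
/-- the class of an ideal -/
noncomputable def cl {K : Type} [Field K] [NumberField K] (I : Ideal (𝓞 K)) : ClassGroup (𝓞 K) :=
  if h : I ∈ nonZeroDivisors (Ideal (𝓞 K)) then ClassGroup.mk0 ⟨I, h⟩ else 1

section

variable {K : Type} [Field K] [NumberField K]

omit [NumberField K] in
theorem mem_of_ne {I : Ideal (𝓞 K)} (h : I ≠ ⊥) : I ∈ nonZeroDivisors (Ideal (𝓞 K)) :=
  mem_nonZeroDivisors_of_ne_zero h

theorem cl_eq {I : Ideal (𝓞 K)} (h : I ∈ nonZeroDivisors (Ideal (𝓞 K))) :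
    cl I = ClassGroup.mk0 ⟨I, h⟩ := by
  unfold cl
  rw [dif_pos h]

theorem cl_mul {I J : Ideal (𝓞 K)} (hI : I ≠ ⊥) (hJ : J ≠ ⊥) : cl (I * J) = cl I * cl J := by
  have h1 := mem_of_ne hI
  have h2 := mem_of_ne hJ
  rw [cl_eq h1, cl_eq h2, cl_eq (mul_mem h1 h2), ← map_mul]
  rfl

theorem cl_span (b : 𝓞 K) : cl (Ideal.span {b}) = 1 := by
  unfold cl
  split_ifs with h
  · rw [ClassGroup.mk0_eq_one_iff]
    exact ⟨⟨_, rfl⟩⟩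
  · rfl

theorem cl_eq_one {I : Ideal (𝓞 K)} (hI : I ≠ ⊥) (h : cl I = 1) : ∃ b : 𝓞 K, I = Ideal.span {b} := by
  rw [cl_eq (mem_of_ne hI), ClassGroup.mk0_eq_one_iff] at h
  obtain ⟨⟨b, hb⟩⟩ := h
  exact ⟨b, hb⟩

theorem map_ne {d : ℕ} {ω : 𝓞 K} {σ : 𝓞 K →+* 𝓞 K} (hQ : IsQ K d ω σ) {A : Ideal (𝓞 K)}
    (hA : A ≠ ⊥) : A.map σ ≠ ⊥ := by
  rw [Ne, ← Ideal.absNorm_eq_zero_iff, hQ.2.2.2.2.2.2.2.2, Ideal.absNorm_eq_zero_iff]
  exact hA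

theorem cl_map {d : ℕ} {ω : 𝓞 K} {σ : 𝓞 K →+* 𝓞 K} (hQ : IsQ K d ω σ) {A : Ideal (𝓞 K)}
    (hA : A ≠ ⊥) : cl A * cl (A.map σ) = 1 := by
  rw [← cl_mul hA (map_ne hQ hA), hQ.2.2.2.2.2.2.2.1]
  exact cl_span _

/-- the relations between the classes -/
theorem cl_rel {d n B : ℕ} {ω : 𝓞 K} {σ : 𝓞 K →+* 𝓞 K} (hQ : IsQ K d ω σ)
    {J₁ J₂ P A : Ideal (𝓞 K)} {x₁ u₁ x₂ u₂ : ℤ} (h : Rec ω σ n B J₁ J₂ P A x₁ u₁ x₂ u₂) :
    cl A = cl P ^ 2 * cl J₁ ∧ cl P ^ 5 * (cl J₁ ^ 2 * cl J₂) = 1 := by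
  obtain ⟨hP, hA, hJ1, hJ2, -, -, -, -, e1, e2, -, -, -⟩ := h
  have hAσ := map_ne hQ hA
  have c1 : cl P * cl P * cl (A.map σ) * cl J₁ = 1 := by
    rw [← cl_mul hP hP, ← cl_mul (mul_ne_zero hP hP) hAσ,
      ← cl_mul (mul_ne_zero (mul_ne_zero hP hP) hAσ) hJ1, ← sq, ← e1]
    exact cl_span _
  have c2 : cl A * cl A * cl P * cl J₂ = 1 := by
    rw [← cl_mul hA hA, ← cl_mul (mul_ne_zero hA hA) hP,
      ← cl_mul (mul_ne_zero (mul_ne_zero hA hA) hP) hJ2, ← sq, ← e2]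
    exact cl_span _
  have c3 := cl_map hQ hA
  have hAe : cl A = cl P ^ 2 * cl J₁ := by
    calc cl A = cl A * (cl P * cl P * cl (A.map σ) * cl J₁) := by rw [c1, mul_one]
      _ = (cl A * cl (A.map σ)) * (cl P ^ 2 * cl J₁) := by
          rw [sq]
          simp only [mul_comm, mul_left_comm, mul_assoc]
      _ = _ := by rw [c3, one_mul]
  refine ⟨hAe, ?_⟩
  rw [hAe] at c2
  rw [← c2]
  simp only [pow_succ, pow_zero, one_mul]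
  simp only [mul_comm, mul_left_comm, mul_assoc]

end

open Classical in
/-- the number of tuples -/
theorem count (hMLT : S_MLT) {K : Type} [Field K] [NumberField K] {d : ℕ} {ω : 𝓞 K}
    {σ : 𝓞 K →+* 𝓞 K} (hQ : IsQ K d ω σ) (hd8 : d % 8 = 7) (ν V g n f₂ : ℕ) (hν : 1 ≤ ν)
    (hV : 1 ≤ V) (hn : 0 < n) (hf : 0 < f₂)
    (T : Finset ((ℕ × ℕ) × ℕ × ℕ × ℕ)) (P A J₁ J₂ : (ℕ × ℕ) × ℕ × ℕ × ℕ → Ideal (𝓞 K))
    (x₁ x₂ : (ℕ × ℕ) × ℕ × ℕ × ℕ → ℤ)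
    (hCD : ∀ x ∈ T, CD ω σ ν V d g n f₂ x (P x) (A x) (J₁ x) (J₂ x) (x₁ x) (x₂ x)) :
    (T.card : ℝ) ≤ 4 * (30 : ℝ) ^ n.primeFactors.card *
      (1 + 7 * ((6084 * ν ^ 4 * V ^ 2 / g : ℕ) : ℝ) / (n * Real.sqrt d)) ^ 2 *
      ((T.image (fun x => ((J₁ x, J₂ x), cl (P x)))).card : ℝ) := by
  set M : ℝ := 4 * (30 : ℝ) ^ n.primeFactors.card *
      (1 + 7 * ((6084 * ν ^ 4 * V ^ 2 / g : ℕ) : ℝ) / (n * Real.sqrt d)) ^ 2 with hM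
  rw [Finset.card_eq_sum_card_image (fun x => ((J₁ x, J₂ x), cl (P x))) T]
  push_cast
  have hfib : ∀ b ∈ T.image (fun x => ((J₁ x, J₂ x), cl (P x))),
      ((T.filter (fun x => ((J₁ x, J₂ x), cl (P x)) = b)).card : ℝ) ≤ M := by
    intro b _
    set S := T.filter (fun x => ((J₁ x, J₂ x), cl (P x)) = b) with hS
    set r : (ℕ × ℕ) × ℕ × ℕ × ℕ → ℤ × ℤ × ℤ × ℤ := fun x =>
      (x₁ x, x.1.1 * ((n * f₂ : ℕ) : ℤ), x₂ x, x.1.2 * ((n * f₂ : ℕ) : ℤ)) with hr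
    have hinj : Set.InjOn r (S : Set ((ℕ × ℕ) × ℕ × ℕ × ℕ)) := by
      intro x hx x' hx' he
      have hx := (Finset.mem_filter.mp (Finset.mem_coe.mp hx)).1
      have hx' := (Finset.mem_filter.mp (Finset.mem_coe.mp hx')).1
      obtain ⟨-, ⟨a, hGT⟩, -⟩ := hCD x hx
      obtain ⟨-, ⟨a', hGT'⟩, -⟩ := hCD x' hx'
      simp only [hr, Prod.mk.injEq] at he
      obtain ⟨h1, h2, h3, h4⟩ := he
      have hnf : ((n * f₂ : ℕ) : ℤ) ≠ 0 := by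
        have : 0 < n * f₂ := by positivity
        exact_mod_cast this.ne'
      have hv : x.1.1 = x'.1.1 := by exact_mod_cast mul_right_cancel₀ hnf h2
      have hw : x.1.2 = x'.1.2 := by exact_mod_cast mul_right_cancel₀ hnf h4
      rw [h1, h3, hv, hw] at hGT
      exact rec_inj hν hV hGT hGT' hv hw
    rw [← Finset.card_image_of_injOn hinj]
    apply hMLT K d ω σ hQ hd8 n (6084 * ν ^ 4 * V ^ 2 / g) hn b.1.1 b.1.2 b.2 (b.2 ^ 2 * cl b.1.1)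
    intro y hy
    obtain ⟨x, hx, rfl⟩ := Finset.mem_image.mp hy
    obtain ⟨hxT, hxb⟩ := Finset.mem_filter.mp hx
    obtain ⟨hRec, -⟩ := hCD x hxT
    have hP := mem_of_ne hRec.1
    have hA := mem_of_ne hRec.2.1
    have hb1 : b.1.1 = J₁ x := by rw [← hxb]
    have hb2 : b.1.2 = J₂ x := by rw [← hxb]
    have hb3 : b.2 = cl (P x) := by rw [← hxb]
    refine ⟨P x, A x, hP, hA, ?_, ?_, ?_⟩
    · rw [hb3, cl_eq hP]
    · rw [hb3, hb1, ← (cl_rel hQ hRec).1, cl_eq hA]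
    · rw [hb1, hb2]
      exact hRec
  calc ∑ b ∈ T.image (fun x => ((J₁ x, J₂ x), cl (P x))),
        ((T.filter (fun x => ((J₁ x, J₂ x), cl (P x)) = b)).card : ℝ)
      ≤ ∑ b ∈ T.image (fun x => ((J₁ x, J₂ x), cl (P x))), M := Finset.sum_le_sum hfib
    _ = M * ((T.image (fun x => ((J₁ x, J₂ x), cl (P x)))).card : ℝ) := by
        rw [Finset.sum_const, nsmul_eq_mul, mul_comm]

/-- the constant factor -/
theorem const_bound (ν V d g n f₂ : ℕ) (hν : 1 ≤ ν) (hV : 1 ≤ V) (hn : 0 < n) (hf : 0 < f₂)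
    (hg : 0 < g) (hD : 676 ^ 3 * ν ^ 12 * V ^ 4 ≤ 8 * (d * (g * n * f₂) ^ 2)) :
    (1 + 7 * ((6084 * ν ^ 4 * V ^ 2 / g : ℕ) : ℝ) / (n * Real.sqrt d)) ^ 2 ≤ 64 * (f₂ : ℝ) ^ 2 := by
  have hd : 0 < d := by
    rcases Nat.eq_zero_or_pos d with h | h
    · rw [h] at hD
      have : 0 < 676 ^ 3 * ν ^ 12 * V ^ 4 := by positivity
      simp only [zero_mul, mul_zero] at hD
      omega
    · exact h
  have hsd : 0 < Real.sqrt d := Real.sqrt_pos.mpr (by exact_mod_cast hd)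
  have hg' : (0 : ℝ) < g := by exact_mod_cast hg
  have hn' : (0 : ℝ) < n := by exact_mod_cast hn
  have hf' : (1 : ℝ) ≤ f₂ := by exact_mod_cast hf
  have hν' : (1 : ℝ) ≤ ν := by exact_mod_cast hν
  have hV' : (1 : ℝ) ≤ V := by exact_mod_cast hV
  have h1 : ((6084 * ν ^ 4 * V ^ 2 / g : ℕ) : ℝ) ≤ 6084 * (ν : ℝ) ^ 4 * (V : ℝ) ^ 2 / g := by
    have := @Nat.cast_div_le ℝ _ _ _ (6084 * ν ^ 4 * V ^ 2) g
    push_cast at this
    exact this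
  -- the lower bound for the square root
  have h2 : 6084 * (ν : ℝ) ^ 4 * (V : ℝ) ^ 2 ≤ Real.sqrt d * (g * n * f₂) := by
    apply (pow_le_pow_iff_left₀ (by positivity) (by positivity) two_ne_zero).mp
    rw [mul_pow (Real.sqrt d), Real.sq_sqrt (by positivity)]
    have h3 : ((676 ^ 3 * ν ^ 12 * V ^ 4 : ℕ) : ℝ) ≤ ((8 * (d * (g * n * f₂) ^ 2) : ℕ) : ℝ) := by
      exact_mod_cast hD
    push_cast at h3
    have h4 : (ν : ℝ) ^ 8 ≤ (ν : ℝ) ^ 12 := pow_le_pow_right₀ hν' (by norm_num)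
    have h5 : (ν : ℝ) ^ 8 * (V : ℝ) ^ 4 ≤ (ν : ℝ) ^ 12 * (V : ℝ) ^ 4 := by
      apply mul_le_mul_of_nonneg_right h4 (by positivity)
    have h6 : (0 : ℝ) ≤ (ν : ℝ) ^ 12 * (V : ℝ) ^ 4 := by positivity
    nlinarith
  have h3 : 7 * ((6084 * ν ^ 4 * V ^ 2 / g : ℕ) : ℝ) / (n * Real.sqrt d) ≤ 7 * f₂ := by
    rw [div_le_iff₀ (by positivity)]
    have h4 : 6084 * (ν : ℝ) ^ 4 * (V : ℝ) ^ 2 / g ≤ f₂ * (n * Real.sqrt d) := by
      rw [div_le_iff₀ hg']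
      calc 6084 * (ν : ℝ) ^ 4 * (V : ℝ) ^ 2 ≤ Real.sqrt d * (g * n * f₂) := h2
        _ = _ := by ring
    nlinarith
  have h5 : (0 : ℝ) ≤ 7 * ((6084 * ν ^ 4 * V ^ 2 / g : ℕ) : ℝ) / (n * Real.sqrt d) := by positivity
  have h6 : 1 + 7 * ((6084 * ν ^ 4 * V ^ 2 / g : ℕ) : ℝ) / (n * Real.sqrt d) ≤ 8 * f₂ := by linarith
  calc (1 + 7 * ((6084 * ν ^ 4 * V ^ 2 / g : ℕ) : ℝ) / (n * Real.sqrt d)) ^ 2 ≤ (8 * (f₂ : ℝ)) ^ 2 := by
        gcongr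
    _ = _ := by ring

/-- `30 ^ ω(n)` is small -/
theorem omega_bound (hDIV : F5.S_DIV) (ε : ℝ) (hε : 0 < ε) : ∃ C : ℝ, 0 < C ∧ ∀ n : ℕ, 1 ≤ n →
    (30 : ℝ) ^ n.primeFactors.card ≤ C * (n : ℝ) ^ ε := by
  obtain ⟨C, hC, h⟩ := hDIV (ε / 4) (by positivity)
  refine ⟨C ^ 4, by positivity, fun n hn => ?_⟩
  have h1 := (h n hn).2
  have hn' : (0 : ℝ) < n := by exact_mod_cast hn
  calc (30 : ℝ) ^ n.primeFactors.card ≤ ((3 : ℝ) ^ 4) ^ n.primeFactors.card := by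
        gcongr; norm_num
    _ = ((3 : ℝ) ^ n.primeFactors.card) ^ 4 := by rw [← pow_mul, ← pow_mul, mul_comm]
    _ ≤ (C * (n : ℝ) ^ (ε / 4)) ^ 4 := by gcongr
    _ = C ^ 4 * (n : ℝ) ^ ε := by
        rw [mul_pow, ← Real.rpow_natCast ((n : ℝ) ^ (ε / 4)) 4, ← Real.rpow_mul hn'.le]
        congr 2
        push_cast
        ring

theorem n_bound (ν V d g n f₂ : ℕ) (hd : 0 < d) (hf : 0 < f₂) (hg : 0 < g)
    (hD : d * (g * n * f₂) ^ 2 ≤ 144 * 676 ^ 3 * ν ^ 12 * V ^ 4) :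
    n ≤ 210912 * (ν ^ 6 * V ^ 2) := by
  have h1 : n ^ 2 ≤ (210912 * (ν ^ 6 * V ^ 2)) ^ 2 := by
    calc n ^ 2 = 1 * (1 * n * 1) ^ 2 := by ring
      _ ≤ d * (g * n * f₂) ^ 2 := by gcongr <;> omega
      _ ≤ 144 * 676 ^ 3 * ν ^ 12 * V ^ 4 := hD
      _ = _ := by ring
  exact (Nat.pow_le_pow_iff_left (by norm_num)).mp h1

end TPLaux

end Pool.Agent.T2h80.L5
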