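import Pool.Agent.T2h80.L5.TPLc

set_option autoImplicit false

/-!
# TPN: the tuples with `g = 1`
-/

namespace Pool.Agent.T2h80.L5

open Finset NumberField Pool.Agent.T2h80.F5

open TPLaux

namespace TPNaux

/-- the class of `P` is not trivial -/
theorem cl_ne {K : Type} [Field K] [NumberField K] {d n B : ℕ} {ω : 𝓞 K} {σ : 𝓞 K →+* 𝓞 K}
    (hQ : IsQ K d ω σ) (hd8 : d % 8 = 7) {J₁ J₂ P A : Ideal (𝓞 K)} {x₁ u₁ x₂ u₂ : ℤ}
    (h : Rec ω σ n B J₁ J₂ P A x₁ u₁ x₂ u₂) (hsm : 4 * Ideal.absNorm P < d)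
    (h1 : 1 < Ideal.absNorm P) : cl P ≠ 1 := by
  intro hcl
  obtain ⟨b, hb⟩ := cl_eq_one h.1 hcl
  obtain ⟨X, Y, hXY⟩ := hQ.2.2.1 b
  have hN := hQ.2.2.2.2.2.1 X Y
  rw [← hXY] at hN
  have hth : th d = 1 := by
    unfold th
    have : d % 2 = 1 := by omega
    rw [this]; rfl
  have hn0 : 4 * n0 d = (d : ℤ) + 1 := by
    unfold n0
    have : d % 2 = 1 := by omega
    rw [this]
    push_cast
    omega
  have hnorm : (Ideal.absNorm P : ℤ) = |X ^ 2 + X * Y + n0 d * Y ^ 2| := by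
    rw [hb, Ideal.absNorm_span_singleton, Int.natCast_natAbs, hN, hth]
    congr 1; ring
  have hpos : 4 * (X ^ 2 + X * Y + n0 d * Y ^ 2) = (2 * X + Y) ^ 2 + d * Y ^ 2 := by
    have : 4 * (n0 d * Y ^ 2) = (d + 1) * Y ^ 2 := by rw [← hn0]; ring
    linear_combination this
  have hnn : 0 ≤ X ^ 2 + X * Y + n0 d * Y ^ 2 := by
    have : 0 ≤ (2 * X + Y) ^ 2 + (d : ℤ) * Y ^ 2 := by positivity
    linarith
  rw [abs_of_nonneg hnn] at hnorm
  have hY : Y = 0 := by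
    by_contra hY
    have hY2 : 1 ≤ Y ^ 2 := by
      have := Int.one_le_abs hY
      nlinarith [sq_abs Y]
    have h3 : (d : ℤ) ≤ 4 * (Ideal.absNorm P : ℤ) := by
      rw [hnorm, hpos]
      nlinarith [sq_nonneg (2 * X + Y)]
    have : d ≤ 4 * Ideal.absNorm P := by exact_mod_cast h3
    omega
  rw [hY] at hXY hnorm
  have hX2 : (Ideal.absNorm P : ℤ) = X ^ 2 := by rw [hnorm]; ring
  have hXa : 2 ≤ X.natAbs := by
    by_contra hcon
    have h5 : X.natAbs ≤ 1 := by omega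
    have h6 : |X| ≤ 1 := by
      rw [← Int.natCast_natAbs]; exact_mod_cast h5
    have h7 : (Ideal.absNorm P : ℤ) ≤ 1 := by
      rw [hX2, ← sq_abs]
      nlinarith [abs_nonneg X]
    have : Ideal.absNorm P ≤ 1 := by exact_mod_cast h7
    omega
  apply h.2.2.2.2.2.2.1 X.natAbs hXa
  rw [hb, hXY, Ideal.span_singleton_le_span_singleton]
  simp only [Int.cast_zero, zero_mul, add_zero]
  rcases Int.natAbs_eq X with h8 | h8
  · refine ⟨1, ?_⟩
    rw [mul_one]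
    nth_rewrite 1 [h8]
    rw [Int.cast_natCast]
  · refine ⟨-1, ?_⟩
    have h9 : ((X : ℤ) : 𝓞 K) = ((-((X.natAbs : ℕ) : ℤ) : ℤ) : 𝓞 K) := congrArg _ h8
    rw [h9, Int.cast_neg, Int.cast_natCast, mul_neg, mul_one]

end TPNaux

open TPNaux

open Classical in
/-- **TPN.** -/
theorem t_TPN (hGDV : S_GDV) (hIDL : S_IDL) (hMLT : S_MLT) (hOM : F5.S_OM) (hDIV : F5.S_DIV) :
    S_TPN := by
  intro ε hε
  obtain ⟨C, hC, hω⟩ := omega_bound hDIV (ε / 6) (by positivity)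
  refine ⟨4 * C * (210912 : ℝ) ^ (ε / 6) * 64, by positivity, ?_⟩
  intro K _ _ d hsq hK2 hdisc ν V F hν hνV hF T hT
  have hV : 1 ≤ V := hν.trans hνV
  have hcard1 : (1 : ℝ) ≤ (Nat.card {c : ClassGroup (𝓞 K) // c ^ 5 = 1} : ℝ) := by
    have : 0 < Nat.card {c : ClassGroup (𝓞 K) // c ^ 5 = 1} := by
      have : Nonempty {c : ClassGroup (𝓞 K) // c ^ 5 = 1} := ⟨⟨1, one_pow 5⟩⟩
      exact Nat.card_pos
    exact_mod_cast this
  rcases T.eq_empty_or_nonempty with hTe | ⟨x0, hx0⟩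
  · rw [hTe]
    simp only [Finset.card_empty, Nat.cast_zero]
    have : (0 : ℝ) ≤ (Nat.card {c : ClassGroup (𝓞 K) // c ^ 5 = 1} : ℝ) - 1 := by linarith
    positivity
  have hd0 : 0 < d := Nat.pos_of_ne_zero hsq.ne_zero
  obtain ⟨hd4, ω, σ, hQ⟩ := hOM K d hK2 hdisc hd0
  have hT' : ∀ x ∈ T, ∃ (P A J₁ J₂ : Ideal (𝓞 K)) (x₁ x₂ : ℤ),
      CD ω σ ν V d 1 F 1 x P A J₁ J₂ x₁ x₂ := by
    intro x hx
    apply core hGDV hIDL d ω σ hQ hsq ν V 1 F 1 hν hV (Nat.coprime_one_right F)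
    have := hT x hx
    rwa [one_mul, mul_one]
  have hT'' : ∀ x, ∃ (P A J₁ J₂ : Ideal (𝓞 K)) (x₁ x₂ : ℤ), x ∈ T →
      CD ω σ ν V d 1 F 1 x P A J₁ J₂ x₁ x₂ := by
    intro x
    by_cases hx : x ∈ T
    · obtain ⟨P, A, J₁, J₂, x₁, x₂, h⟩ := hT' x hx
      exact ⟨P, A, J₁, J₂, x₁, x₂, fun _ => h⟩
    · exact ⟨⊤, ⊤, ⊤, ⊤, 0, 0, fun h => absurd h hx⟩
  choose P A J₁ J₂ x₁ x₂ hCD using hT''
  obtain ⟨-, ⟨a0, hGT0⟩, -, -, -, -, -, hd8, hF0, -, -, -⟩ := hCD x0 hx0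
  have hGT0' := hGT0
  obtain ⟨⟨v0, w0⟩, s0, t0, m0⟩ := x0
  simp only [GT] at hGT0'
  obtain ⟨-, -, -, -, -, -, -, -, -, -, -, -, -, -, -, -, -, -, -, -, -, -, -, -, -, -, hD1, hD2⟩ := hGT0'
  have hcount := count hMLT hQ hd8 ν V 1 F 1 hν hV hF0 one_pos T P A J₁ J₂ x₁ x₂ hCD
  have hcb := const_bound ν V d 1 F 1 hν hV hF0 one_pos one_pos hD1
  have hnb := n_bound ν V d 1 F 1 hd0 one_pos one_pos hD2
  -- the classes
  have himg : ((T.image (fun x => ((J₁ x, J₂ x), cl (P x)))).card : ℝ) ≤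
      (Nat.card {c : ClassGroup (𝓞 K) // c ^ 5 = 1} : ℝ) - 1 := by
    have hsub : T.image (fun x => ((J₁ x, J₂ x), cl (P x))) ⊆
        ((Finset.univ.filter (fun c : ClassGroup (𝓞 K) => c ^ 5 = 1)).erase 1).image
          (fun c => (((⊤ : Ideal (𝓞 K)), (⊤ : Ideal (𝓞 K))), c)) := by
      intro y hy
      obtain ⟨x, hx, rfl⟩ := Finset.mem_image.mp hy
      obtain ⟨hRec, ⟨a, hGT⟩, -, -, -, -, hone, -⟩ := hCD x hx
      obtain ⟨e1, e2, e3⟩ := hone rfl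
      have hrel := (cl_rel hQ hRec).2
      have htop : cl (⊤ : Ideal (𝓞 K)) = 1 := by
        rw [← Ideal.span_singleton_one]; exact cl_span 1
      rw [e1, e2, htop, one_pow, mul_one, mul_one] at hrel
      refine Finset.mem_image.mpr ⟨cl (P x), ?_, by rw [e1, e2]⟩
      rw [Finset.mem_erase, Finset.mem_filter]
      refine ⟨?_, Finset.mem_univ _, hrel⟩
      obtain ⟨⟨v, w⟩, s, t, m⟩ := x
      simp only [GT] at hGT
      obtain ⟨-, -, -, -, -, -, -, -, -, -, -, -, -, hm1, hm2, -⟩ := hGT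
      have e3' : Ideal.absNorm (P ((v, w), s, t, m)) = m := e3
      apply cl_ne hQ hd8 hRec
      · rw [e3']
        have h2 : d * (1 * F * 1) ^ 2 ≤ d * ν ^ 10 := by
          apply Nat.mul_le_mul_left
          calc (1 * F * 1) ^ 2 = F ^ 2 := by ring
            _ ≤ (ν ^ 5) ^ 2 := Nat.pow_le_pow_left hF 2
            _ = ν ^ 10 := by ring
        have h3 : 676 ^ 3 * ν ^ 12 * V ^ 4 ≤ 8 * (d * ν ^ 10) := hD1.trans (Nat.mul_le_mul_left 8 h2)
        have h4 : (676 ^ 3 * ν ^ 2 * V ^ 4) * ν ^ 10 ≤ (8 * d) * ν ^ 10 := by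
          calc (676 ^ 3 * ν ^ 2 * V ^ 4) * ν ^ 10 = 676 ^ 3 * ν ^ 12 * V ^ 4 := by ring
            _ ≤ 8 * (d * ν ^ 10) := h3
            _ = _ := by ring
        have h5 : 676 ^ 3 * ν ^ 2 * V ^ 4 ≤ 8 * d := Nat.le_of_mul_le_mul_right h4 (by positivity)
        have h6 : 676 ^ 3 * (ν ^ 4 * V ^ 2) ≤ 676 ^ 3 * ν ^ 2 * V ^ 4 := by
          calc 676 ^ 3 * (ν ^ 4 * V ^ 2) = 676 ^ 3 * ν ^ 2 * (ν ^ 2 * V ^ 2) := by ring
            _ ≤ 676 ^ 3 * ν ^ 2 * (V ^ 2 * V ^ 2) := by gcongr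
            _ = _ := by ring
        have h7 : 0 < ν ^ 4 * V ^ 2 := by positivity
        have h8 : m < 1352 * (ν ^ 4 * V ^ 2) := by
          calc m < 2 * (676 * ν ^ 4 * V ^ 2) := hm2
            _ = _ := by ring
        have h9 : 676 ^ 3 * (ν ^ 4 * V ^ 2) ≤ 8 * d := h6.trans h5
        norm_num at h9
        omega
      · rw [e3']
        have : 0 < ν ^ 4 * V ^ 2 := by positivity
        have h8 : 676 * (ν ^ 4 * V ^ 2) ≤ m := by
          calc 676 * (ν ^ 4 * V ^ 2) = 676 * ν ^ 4 * V ^ 2 := by ring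
            _ ≤ m := hm1
        omega
    have h1 := (Finset.card_le_card hsub).trans Finset.card_image_le
    have h2 : (1 : ClassGroup (𝓞 K)) ∈ Finset.univ.filter (fun c : ClassGroup (𝓞 K) => c ^ 5 = 1) := by
      simp
    have h3 := Finset.card_erase_add_one h2
    have h4 : (Finset.univ.filter (fun c : ClassGroup (𝓞 K) => c ^ 5 = 1)).card =
        Nat.card {c : ClassGroup (𝓞 K) // c ^ 5 = 1} := by
      rw [Nat.card_eq_fintype_card, Fintype.card_subtype]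
    rw [h4] at h3
    have h5 : (T.image (fun x => ((J₁ x, J₂ x), cl (P x)))).card + 1 ≤
        Nat.card {c : ClassGroup (𝓞 K) // c ^ 5 = 1} := by omega
    have h6 : (((T.image (fun x => ((J₁ x, J₂ x), cl (P x)))).card + 1 : ℕ) : ℝ) ≤
        (Nat.card {c : ClassGroup (𝓞 K) // c ^ 5 = 1} : ℝ) := by exact_mod_cast h5
    push_cast at h6
    linarith
  have hN0 : (0 : ℝ) ≤ (Nat.card {c : ClassGroup (𝓞 K) // c ^ 5 = 1} : ℝ) - 1 := by linarith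
  have hωF := hω F hF0
  have hFε : (F : ℝ) ^ (ε / 6) ≤ (210912 : ℝ) ^ (ε / 6) * ((ν : ℝ) * V) ^ ε := by
    have h1 : (F : ℝ) ≤ 210912 * ((ν : ℝ) * V) ^ 6 := by
      have h2 : F ≤ 210912 * (ν * V) ^ 6 := by
        calc F ≤ 210912 * (ν ^ 6 * V ^ 2) := hnb
          _ ≤ 210912 * (ν ^ 6 * V ^ 6) := by gcongr; omega
          _ = _ := by ring
      exact_mod_cast h2
    calc (F : ℝ) ^ (ε / 6) ≤ (210912 * ((ν : ℝ) * V) ^ 6) ^ (ε / 6) :=
          Real.rpow_le_rpow (by positivity) h1 (by positivity)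
      _ = (210912 : ℝ) ^ (ε / 6) * ((ν : ℝ) * V) ^ ε := by
          rw [Real.mul_rpow (by norm_num) (by positivity), ← Real.rpow_natCast ((ν : ℝ) * V) 6,
            ← Real.rpow_mul (by positivity)]
          congr 2
          push_cast
          ring
  calc (T.card : ℝ) ≤ 4 * (30 : ℝ) ^ F.primeFactors.card *
      (1 + 7 * ((6084 * ν ^ 4 * V ^ 2 / 1 : ℕ) : ℝ) / (F * Real.sqrt d)) ^ 2 *
      ((T.image (fun x => ((J₁ x, J₂ x), cl (P x)))).card : ℝ) := hcount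
    _ ≤ 4 * (C * ((210912 : ℝ) ^ (ε / 6) * ((ν : ℝ) * V) ^ ε)) * (64 * ((1 : ℕ) : ℝ) ^ 2) *
        ((Nat.card {c : ClassGroup (𝓞 K) // c ^ 5 = 1} : ℝ) - 1) := by
        have h30 : (30 : ℝ) ^ F.primeFactors.card ≤
            C * ((210912 : ℝ) ^ (ε / 6) * ((ν : ℝ) * V) ^ ε) :=
          hωF.trans (mul_le_mul_of_nonneg_left hFε hC.le)
        gcongr
    _ = _ := by
        push_cast
        ring

end Pool.Agent.T2h80.L5
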