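import Pool.Agent.T2h80.F5.Top
import Pool.Agent.T2h80.L5.FEL
import Pool.Agent.T2h80.L5.COE
import Pool.Agent.T2h80.L5.EXQ
import Pool.Agent.T2h80.L5.AVP
import Pool.Agent.T2h80.L5.LWA
import Pool.Agent.T2h80.L5.LOW
import Pool.Agent.T2h80.L5.PRI
import Pool.Agent.T2h80.L5.FPA
import Pool.Agent.T2h80.L5.FPG
import Pool.Agent.T2h80.L5.EX1
import Pool.Agent.T2h80.L5.EX2
import Pool.Agent.T2h80.L5.EX3
import Pool.Agent.T2h80.L5.EX4
import Pool.Agent.T2h80.L5.CNL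
import Pool.Agent.T2h80.L5.GTX
import Pool.Agent.T2h80.L5.BET
import Pool.Agent.T2h80.L5.GDV
import Pool.Agent.T2h80.L5.SPT
import Pool.Agent.T2h80.L5.SQI
import Pool.Agent.T2h80.L5.CJI
import Pool.Agent.T2h80.L5.IDL
import Pool.Agent.T2h80.L5.RNP
import Pool.Agent.T2h80.L5.RNC
import Pool.Agent.T2h80.L5.ANG
import Pool.Agent.T2h80.L5.GM5
import Pool.Agent.T2h80.L5.IND
import Pool.Agent.T2h80.L5.MLT
import Pool.Agent.T2h80.L5.JCT
import Pool.Agent.T2h80.L5.TPL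
import Pool.Agent.T2h80.L5.TPN
import Pool.Agent.T2h80.L5.SMA
import Pool.Agent.T2h80.L5.SMB
import Pool.Agent.T2h80.L5.FINL

set_option autoImplicit false

namespace Pool.Agent.T2h80.L5

open Pool.Agent.T2h80

theorem top_AVP : S_AVP :=
  t_AVP (F5.t_AVG F5.t_RES (F5.t_ROO F5.t_CUB F5.t_SLO) (F5.t_DEG F5.t_DIV) F5.t_CON
    (F5.t_RAD F5.t_SMO) F5.t_DIV) F5.t_DIV

theorem top_COE : S_COE := t_COE F5.t_DUA

theorem top_EXQ : S_EXQ := t_EXQ F5.t_WEY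

theorem top_LOW : S_LOW := t_LOW (t_LWA t_FEL top_COE top_EXQ) top_AVP t_PRI

theorem top_FPG : S_FPG := t_FPG (t_FPA F5.t_FEJ top_COE top_EXQ) top_AVP t_PRI

theorem top_CNL : S_CNL :=
  t_CNL top_LOW top_FPG (t_EX1 F5.t_DIV) (t_EX2 F5.t_DIV) (t_EX3 F5.t_DIV) (t_EX4 F5.t_DIV) t_PRI

theorem top_GDV : S_GDV := t_GDV t_BET

theorem top_IDL : S_IDL := t_IDL t_SPT (t_SQI t_SPT) t_CJI

theorem top_MLT : S_MLT := t_MLT (t_RNC t_RNP) t_ANG t_GM5 t_IND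

theorem top_TPL : S_TPL := t_TPL top_GDV top_IDL top_MLT (t_JCT F5.t_SMO F5.t_DIV) F5.t_OM F5.t_DIV

theorem top_TPN : S_TPN := t_TPN top_GDV top_IDL top_MLT F5.t_OM F5.t_DIV

theorem top_SMA : S_SMA := t_SMA top_TPN top_GDV

theorem top_SMB : S_SMB := t_SMB top_TPL top_GDV F5.top F5.t_SMO F5.t_DIV

theorem top : S_FINL := t_FINL top_CNL t_GTX top_GDV top_SMA top_SMB t_PRI

end Pool.Agent.T2h80.L5
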